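import Pool.Agent.V7H9.SN.Bridge

set_option autoImplicit false

/-!
# The count of the tuples with a given repeated part, with the parameters chosen
-/

namespace Pool.Agent.V7H9.SN

open Finset MeasureTheory

/-- the volume of the region -/
noncomputable def VI (m : ℕ) : ℝ := (volume (RI m)).toReal

lemma vol_le_VI {m : ℕ} (hm : 1 ≤ m) {B : Set (Fin m → ℝ)} (hB : B ⊆ RI m) :
    (volume B).toReal ≤ VI m :=
  ENNReal.toReal_mono (RI_fin hm) (measure_mono hB)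

/-- the three error terms -/
lemma err_bound {m : ℕ} (hm : 2 ≤ m) (k : ℕ) {C1 V θ δ η : ℝ} (hC1 : 0 < C1) (hV : 0 ≤ V)
    (hθ : 0 < θ) (hθ1 : θ ≤ 1 / (20 * ((m : ℝ) + 1))) (hδ : δ = θ / (4 * m)) (hη : η = δ / 8)
    {X x D T : ℝ} (hX : 1 ≤ X) (hT : T = X ^ δ) (hx1 : X ^ (1 / ((m : ℝ) + 1)) ≤ x)
    (hx2 : x ≤ X ^ ((1 + η) / ((m : ℝ) + 1))) (hD1 : X ^ θ ≤ D) (hD2 : D ≤ 3 * X ^ θ) :
    C1 * ((2 * (m * (T * x)) + 1) ^ m / D) + C1 * (x ^ m * V) * D ^ (-(1 / 2) : ℝ) +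
        2 * (D ^ 9 * (m * k * (2 * (T * x) + D ^ 7) ^ (m - 1))) ≤
      (C1 * (3 * m) ^ m + C1 * V + 2 * 3 ^ 9 * (m * k * 2189 ^ (m - 1))) *
        X ^ ((m : ℝ) / (m + 1) - θ / 4) := by
  have hX0 : 0 < X := by linarith
  have hmr : (2 : ℝ) ≤ m := by exact_mod_cast hm
  obtain ⟨n, hn⟩ : ∃ n : ℝ, n = (m : ℝ) + 1 := ⟨_, rfl⟩
  rw [← hn] at hθ1 hx1 hx2 ⊢
  have hn0 : 0 < n := by rw [hn]; positivity
  obtain ⟨e0, he0⟩ : ∃ e0 : ℝ, e0 = (m : ℝ) / n := ⟨_, rfl⟩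
  rw [← he0]
  have he1 : e0 ≤ 1 := by
    rw [he0, div_le_one hn0, hn]
    linarith
  have hδ0 : 0 < δ := by rw [hδ]; positivity
  have hη0 : 0 < η := by rw [hη]; positivity
  have hmδ : m * δ = θ / 4 := by rw [hδ]; field_simp
  have hδ8 : δ ≤ θ / 8 := by nlinarith
  have hη64 : η ≤ θ / 64 := by rw [hη]; linarith
  have hn20 : 20 * θ ≤ 1 / n := by
    have : 1 / (20 * n) = (1 / n) / 20 := by field_simp
    rw [this] at hθ1
    linarith
  have hTpos : 0 < T := by rw [hT]; positivity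
  have hxpos : 0 < x := lt_of_lt_of_le (by positivity) hx1
  have hDpos : 0 < D := lt_of_lt_of_le (by positivity) hD1
  have hT1 : 1 ≤ T := by rw [hT]; exact Real.one_le_rpow hX hδ0.le
  have hx1' : 1 ≤ x := (Real.one_le_rpow hX (by positivity)).trans hx1
  have hTx1 : 1 ≤ T * x := by nlinarith
  have hTxX : X ^ (1 / n) ≤ T * x := by nlinarith
  -- the powers of `x`
  have hxm : x ^ m ≤ X ^ (e0 + η) := by
    calc x ^ m ≤ (X ^ ((1 + η) / n)) ^ m := pow_le_pow_left₀ hxpos.le hx2 m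
      _ = X ^ (e0 + e0 * η) := by
          rw [← Real.rpow_natCast, ← Real.rpow_mul hX0.le]
          congr 1
          rw [he0]
          field_simp
      _ ≤ X ^ (e0 + η) := by
          refine Real.rpow_le_rpow_of_exponent_le hX ?_
          nlinarith
  have hTm : T ^ m = X ^ (θ / 4) := by
    rw [hT, ← Real.rpow_natCast, ← Real.rpow_mul hX0.le, mul_comm δ, hmδ]
  obtain ⟨G, hG⟩ : ∃ G : ℝ, G = X ^ (e0 - θ / 4) := ⟨_, rfl⟩
  rw [← hG]
  have t1 : (2 * (m * (T * x)) + 1) ^ m / D ≤ (3 * m) ^ m * G := by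
    rw [div_le_iff₀ hDpos]
    have a1 : 2 * (m * (T * x)) + 1 ≤ 3 * m * (T * x) := by nlinarith
    calc (2 * (m * (T * x)) + 1) ^ m ≤ (3 * m * (T * x)) ^ m :=
          pow_le_pow_left₀ (by positivity) a1 m
      _ = (3 * m) ^ m * (T ^ m * x ^ m) := by rw [mul_pow, mul_pow T x]
      _ ≤ (3 * m) ^ m * (X ^ (θ / 4) * X ^ (e0 + η)) := by
          rw [hTm]
          gcongr
      _ ≤ (3 * m) ^ m * (G * X ^ θ) := by
          refine mul_le_mul_of_nonneg_left ?_ (by positivity)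
          rw [hG, ← Real.rpow_add hX0, ← Real.rpow_add hX0]
          exact Real.rpow_le_rpow_of_exponent_le hX (by linarith)
      _ ≤ (3 * m) ^ m * (G * D) := by
          have : 0 < G := by rw [hG]; positivity
          gcongr
      _ = _ := by ring
  have t2 : x ^ m * V * D ^ (-(1 / 2) : ℝ) ≤ V * G := by
    have a1 : D ^ (-(1 / 2) : ℝ) ≤ X ^ (-(θ / 2)) := by
      calc D ^ (-(1 / 2) : ℝ) ≤ (X ^ θ) ^ (-(1 / 2) : ℝ) :=
            Real.rpow_le_rpow_of_nonpos (by positivity) hD1 (by norm_num)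
        _ = X ^ (-(θ / 2)) := by
            rw [← Real.rpow_mul hX0.le]
            congr 1
            ring
    calc x ^ m * V * D ^ (-(1 / 2) : ℝ) ≤ X ^ (e0 + η) * V * X ^ (-(θ / 2)) := by gcongr
      _ = V * (X ^ (e0 + η) * X ^ (-(θ / 2))) := by ring
      _ ≤ V * G := by
          refine mul_le_mul_of_nonneg_left ?_ hV
          rw [hG, ← Real.rpow_add hX0]
          exact Real.rpow_le_rpow_of_exponent_le hX (by linarith)
  have t3 : D ^ 9 * (2 * (T * x) + D ^ 7) ^ (m - 1) ≤ 3 ^ 9 * 2189 ^ (m - 1) * G := by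
    have a1 : D ^ 9 ≤ 3 ^ 9 * X ^ (9 * θ) := by
      calc D ^ 9 ≤ (3 * X ^ θ) ^ 9 := pow_le_pow_left₀ hDpos.le hD2 9
        _ = 3 ^ 9 * X ^ (9 * θ) := by
            rw [mul_pow, ← Real.rpow_natCast (X ^ θ) 9, ← Real.rpow_mul hX0.le]
            congr 2
            push_cast
            ring
    have a2 : D ^ 7 ≤ 2187 * (T * x) := by
      calc D ^ 7 ≤ (3 * X ^ θ) ^ 7 := pow_le_pow_left₀ hDpos.le hD2 7
        _ = 2187 * X ^ (7 * θ) := by
            rw [mul_pow, ← Real.rpow_natCast (X ^ θ) 7, ← Real.rpow_mul hX0.le]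
            have h7 : θ * ((7 : ℕ) : ℝ) = 7 * θ := by push_cast; ring
            rw [h7]
            norm_num
        _ ≤ 2187 * X ^ (1 / n) := by
            refine mul_le_mul_of_nonneg_left ?_ (by norm_num)
            exact Real.rpow_le_rpow_of_exponent_le hX (by linarith)
        _ ≤ 2187 * (T * x) := mul_le_mul_of_nonneg_left hTxX (by norm_num)
    have a3 : (2 * (T * x) + D ^ 7) ^ (m - 1) ≤ 2189 ^ (m - 1) * X ^ (e0 - 1 / n + θ / 2) := by
      have a4 : 2 * (T * x) + D ^ 7 ≤ 2189 * (T * x) := by linarith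
      have a5 : T * x ≤ X ^ (δ + (1 + η) / n) := by
        rw [Real.rpow_add hX0, ← hT]
        exact mul_le_mul_of_nonneg_left hx2 hTpos.le
      calc (2 * (T * x) + D ^ 7) ^ (m - 1) ≤ (2189 * (T * x)) ^ (m - 1) :=
            pow_le_pow_left₀ (by positivity) a4 _
        _ = 2189 ^ (m - 1) * (T * x) ^ (m - 1) := mul_pow _ _ _
        _ ≤ 2189 ^ (m - 1) * (X ^ (δ + (1 + η) / n)) ^ (m - 1) := by gcongr
        _ ≤ 2189 ^ (m - 1) * X ^ (e0 - 1 / n + θ / 2) := by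
            refine mul_le_mul_of_nonneg_left ?_ (by positivity)
            rw [← Real.rpow_natCast, ← Real.rpow_mul hX0.le]
            refine Real.rpow_le_rpow_of_exponent_le hX ?_
            rw [Nat.cast_sub (by omega), Nat.cast_one]
            have b1 : (δ + (1 + η) / n) * ((m : ℝ) - 1) =
                m * δ - δ + (e0 - 1 / n) + (e0 - 1 / n) * η := by
              rw [he0]
              field_simp
              ring
            rw [b1, hmδ]
            have b2 : (e0 - 1 / n) * η ≤ 1 * η := by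
              refine mul_le_mul_of_nonneg_right ?_ hη0.le
              have : 0 < 1 / n := by positivity
              linarith
            linarith
    calc D ^ 9 * (2 * (T * x) + D ^ 7) ^ (m - 1) ≤
          (3 ^ 9 * X ^ (9 * θ)) * (2189 ^ (m - 1) * X ^ (e0 - 1 / n + θ / 2)) :=
          mul_le_mul a1 a3 (by positivity) (by positivity)
      _ = 3 ^ 9 * 2189 ^ (m - 1) * (X ^ (9 * θ) * X ^ (e0 - 1 / n + θ / 2)) := by ring
      _ ≤ 3 ^ 9 * 2189 ^ (m - 1) * G := by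
          refine mul_le_mul_of_nonneg_left ?_ (by positivity)
          rw [hG, ← Real.rpow_add hX0]
          exact Real.rpow_le_rpow_of_exponent_le hX (by linarith)
  have u1 := mul_le_mul_of_nonneg_left t1 hC1.le
  have u2 := mul_le_mul_of_nonneg_left t2 hC1.le
  have u3 := mul_le_mul_of_nonneg_left t3 (by positivity : 0 ≤ 2 * ((m : ℝ) * k))
  have f1 : C1 * (x ^ m * V) * D ^ (-(1 / 2) : ℝ) = C1 * (x ^ m * V * D ^ (-(1 / 2) : ℝ)) := by ring
  have f2 : 2 * (D ^ 9 * (m * k * (2 * (T * x) + D ^ 7) ^ (m - 1))) =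
      2 * ((m : ℝ) * k) * (D ^ 9 * (2 * (T * x) + D ^ 7) ^ (m - 1)) := by ring
  rw [f1, f2]
  calc _ ≤ C1 * ((3 * m) ^ m * G) + C1 * (V * G) +
        2 * ((m : ℝ) * k) * (3 ^ 9 * 2189 ^ (m - 1) * G) := add_le_add (add_le_add u1 u2) u3
    _ = _ := by ring

/-- the count for a given repeated part -/
theorem eff_w {m : ℕ} (hm : 2 ≤ m) (k : ℕ) {θ δ η : ℝ} (hθ : 0 < θ)
    (hθ1 : θ ≤ 1 / (20 * ((m : ℝ) + 1))) (hδ : δ = θ / (4 * m)) (hη : η = δ / 8) :
    ∃ C : ℝ, 0 < C ∧ ∀ (X : ℝ) (w : ℕ) (A : Set (Fin m → ℝ)), 1 ≤ X → 0 < w → (w : ℝ) ≤ X ^ η →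
    MeasurableSet A → (∀ (i : Fin m) (y : Fin m → ℝ), Nice k {t | Function.update y i t ∈ A}) →
    {z : Fin m → ℤ | Loc w z ∧ (fun i => (z i : ℝ) / ((w : ℝ) * X) ^ (1 / ((m : ℝ) + 1))) ∈
      A ∩ RT m (X ^ δ)}.Finite ∧
    |({z : Fin m → ℤ | Loc w z ∧ (fun i => (z i : ℝ) / ((w : ℝ) * X) ^ (1 / ((m : ℝ) + 1))) ∈
      A ∩ RT m (X ^ δ)}.ncard : ℝ) -
      C0 m * wgt m w * (X ^ ((m : ℝ) / (m + 1)) * (volume (A ∩ RT m (X ^ δ))).toReal)| ≤
      C * X ^ ((m : ℝ) / (m + 1) - θ / 4) := by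
  have hm1 : 1 ≤ m := by omega
  obtain ⟨C1, hC1, hE⟩ := eff_count hm
  have hV0 : 0 ≤ VI m := ENNReal.toReal_nonneg
  refine ⟨C1 * (3 * m) ^ m + C1 * VI m + 2 * 3 ^ 9 * (m * (k * 2 : ℕ) * 2189 ^ (m - 1)), ?_, ?_⟩
  · have : (0 : ℝ) < m := by exact_mod_cast hm1
    positivity
  intro X w A hX hw hwX hA hsec
  have hX0 : 0 < X := by linarith
  have hmr : (2 : ℝ) ≤ m := by exact_mod_cast hm
  have hn0 : (0 : ℝ) < (m : ℝ) + 1 := by positivity
  have hδ0 : 0 < δ := by rw [hδ]; positivity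
  have hη0 : 0 < η := by rw [hη]; positivity
  have hδθ : δ ≤ θ := by
    rw [hδ, div_le_iff₀ (by positivity)]
    nlinarith
  have hηθ : η ≤ θ := by rw [hη]; linarith
  have hw0 : (0 : ℝ) < w := by exact_mod_cast hw
  have hw1 : (1 : ℝ) ≤ w := by exact_mod_cast hw
  obtain ⟨x, hx⟩ : ∃ x : ℝ, x = ((w : ℝ) * X) ^ (1 / ((m : ℝ) + 1)) := ⟨_, rfl⟩
  have hx0 : 0 < x := by rw [hx]; positivity
  obtain ⟨T, hT⟩ : ∃ T : ℝ, T = X ^ δ := ⟨_, rfl⟩
  have hT0 : 0 < T := by rw [hT]; positivity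
  have hwX2 : (w : ℝ) ≤ X ^ θ :=
    hwX.trans (Real.rpow_le_rpow_of_exponent_le hX hηθ)
  obtain ⟨D, hD⟩ : ∃ D : ℕ, D = ⌊X ^ θ⌋₊ + 2 := ⟨_, rfl⟩
  have hXθ1 : 1 ≤ X ^ θ := Real.one_le_rpow hX hθ.le
  have hwD : w + 1 ≤ D := by
    rw [hD]
    have := Nat.le_floor hwX2
    omega
  have hD1 : X ^ θ ≤ D := by
    rw [hD]
    push_cast
    have := (Nat.lt_floor_add_one (X ^ θ)).le
    linarith
  have hD2 : (D : ℝ) ≤ 3 * X ^ θ := by
    rw [hD]
    push_cast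
    have := Nat.floor_le (show 0 ≤ X ^ θ by positivity)
    linarith
  have hx1 : X ^ (1 / ((m : ℝ) + 1)) ≤ x := by
    rw [hx]
    refine Real.rpow_le_rpow hX0.le ?_ (by positivity)
    nlinarith
  have hx2 : x ≤ X ^ ((1 + η) / ((m : ℝ) + 1)) := by
    rw [hx]
    calc ((w : ℝ) * X) ^ (1 / ((m : ℝ) + 1)) ≤ (X ^ (1 + η)) ^ (1 / ((m : ℝ) + 1)) := by
          refine Real.rpow_le_rpow (by positivity) ?_ (by positivity)
          rw [Real.rpow_add hX0, Real.rpow_one, mul_comm]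
          exact mul_le_mul_of_nonneg_left hwX hX0.le
      _ = _ := by
          rw [← Real.rpow_mul hX0.le]
          congr 1
          ring
  obtain ⟨f1, f2⟩ := hE (k * 2) w D T x (VI m) (A ∩ RT m T) hw hwD hT0.le hx0
    (hA.inter (RT_meas m T)) (fun y hy => RT_bd hy.2) (RT_sec T hsec)
    (vol_le_VI hm1 (Set.inter_subset_right.trans (RT_sub m T)))
  rw [← hx, ← hT]
  refine ⟨f1, ?_⟩
  have hb := err_bound hm (k * 2) hC1 hV0 hθ hθ1 hδ hη hX hT hx1 hx2 hD1 hD2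
  refine le_trans (le_of_eq ?_) (f2.trans hb)
  congr 2
  have e1 : x ^ m = (w : ℝ) ^ ((m : ℝ) / (m + 1)) * X ^ ((m : ℝ) / (m + 1)) := by
    rw [hx, ← Real.rpow_natCast, ← Real.rpow_mul (by positivity), Real.mul_rpow hw0.le hX0.le]
    have : 1 / ((m : ℝ) + 1) * m = (m : ℝ) / (m + 1) := by ring
    rw [this]
  rw [e1, ← wgt_eq m hw]
  ring

end Pool.Agent.V7H9.SN
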