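import Pool.Agent.V7H9.SN.Dens

set_option autoImplicit false

/-!
# The sum over the repeated parts
-/

namespace Pool.Agent.V7H9.SN

open Finset Filter Topology

/-- the summand with a general exponent -/
noncomputable def fr (m : ℕ) (τ : ℝ) (w : ℕ) : ℝ := (w : ℝ) ^ (-τ) * ∏ q ∈ w.primeFactors, rr m q

lemma fr_nonneg {m : ℕ} (hm : 2 ≤ m) (τ : ℝ) (w : ℕ) : 0 ≤ fr m τ w := by
  unfold fr
  refine mul_nonneg (by positivity) (prod_nonneg fun q hq => ?_)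
  exact rr_nonneg hm (Nat.prime_of_mem_primeFactors hq)

lemma fr_zero {m : ℕ} {τ : ℝ} (hτ : 0 < τ) : fr m τ 0 = 0 := by
  unfold fr
  rw [Nat.cast_zero, Real.zero_rpow (by linarith), zero_mul]

lemma fr_one (m : ℕ) (τ : ℝ) : fr m τ 1 = 1 := by
  unfold fr
  simp

lemma fr_mul {m : ℕ} {τ : ℝ} {a b : ℕ} (h : Nat.Coprime a b) :
    fr m τ (a * b) = fr m τ a * fr m τ b := by
  unfold fr
  rw [h.primeFactors_mul, prod_union h.disjoint_primeFactors]
  push_cast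
  rw [Real.mul_rpow (Nat.cast_nonneg _) (Nat.cast_nonneg _)]
  ring

lemma fr_pow {m : ℕ} {τ : ℝ} {q : ℕ} (hq : q.Prime) (n : ℕ) :
    fr m τ (q ^ (n + 1)) = ((q : ℝ) ^ (-τ)) ^ (n + 1) * rr m q := by
  unfold fr
  rw [Nat.primeFactors_pow_succ, hq.primeFactors, prod_singleton]
  push_cast
  congr 1
  rw [← Real.rpow_natCast, ← Real.rpow_mul (Nat.cast_nonneg _), mul_comm,
    Real.rpow_mul (Nat.cast_nonneg _), Real.rpow_natCast]

/-- the sums converge for all positive exponents -/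
theorem fr_summable {m : ℕ} (hm : 2 ≤ m) {τ : ℝ} (hτ : 0 < τ) : Summable (fr m τ) := by
  classical
  obtain ⟨C, hC, hrr⟩ := rr_le hm
  obtain ⟨y, hy⟩ : ∃ y : ℝ, y = (2 : ℝ) ^ (-τ) := ⟨_, rfl⟩
  have hy0 : 0 < y := by rw [hy]; positivity
  have hy1 : y < 1 := by rw [hy]; exact Real.rpow_lt_one_of_one_lt_of_neg (by norm_num) (by linarith)
  obtain ⟨c, hc⟩ : ∃ c : ℝ, c = 1 / (1 - y) := ⟨_, rfl⟩
  have hc1 : 1 ≤ c := by
    rw [hc, le_div_iff₀ (by linarith)]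
    linarith
  obtain ⟨Z, hZ⟩ : ∃ Z : ℝ, Z = ∑' n : ℕ, ((n : ℝ) ^ (1 + τ))⁻¹ := ⟨_, rfl⟩
  have hsm : Summable fun n : ℕ => ((n : ℝ) ^ (1 + τ))⁻¹ :=
    Real.summable_nat_rpow_inv.2 (by linarith)
  have hZ0 : 0 ≤ Z := by rw [hZ]; exact tsum_nonneg fun n => by positivity
  -- the value at a prime
  have hx : ∀ {p : ℕ}, p.Prime → 0 < (p : ℝ) ^ (-τ) ∧ (p : ℝ) ^ (-τ) ≤ y := by
    intro p hp
    have h0 : (0 : ℝ) < p := by exact_mod_cast hp.pos
    have h2 : (2 : ℝ) ≤ p := by exact_mod_cast hp.two_le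
    refine ⟨by positivity, ?_⟩
    rw [hy]
    exact Real.rpow_le_rpow_of_nonpos (by norm_num) h2 (by linarith)
  have e1 : ∀ {p : ℕ}, p.Prime → (fun n : ℕ => fr m τ (p ^ (n + 1))) = fun n : ℕ =>
        ((p : ℝ) ^ (-τ)) ^ n * (((p : ℝ) ^ (-τ)) * rr m p) := by
    intro p hp
    funext n
    rw [fr_pow hp, pow_succ]
    ring
  have hsum : ∀ {p : ℕ}, p.Prime → Summable (fun n : ℕ ↦ ‖fr m τ (p ^ n)‖) := by
    intro p hp
    obtain ⟨h1, h2⟩ := hx hp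
    have e0 : (fun n : ℕ ↦ ‖fr m τ (p ^ n)‖) = fun n : ℕ ↦ fr m τ (p ^ n) := by
      funext n
      rw [Real.norm_of_nonneg (fr_nonneg hm _ _)]
    rw [e0, ← summable_nat_add_iff 1, e1 hp]
    exact (summable_geometric_of_lt_one h1.le (by linarith)).mul_right _
  have hle : ∀ {p : ℕ}, p.Prime → ∑' n : ℕ, fr m τ (p ^ n) ≤
      Real.exp (C * c * ((p : ℝ) ^ (1 + τ))⁻¹) := by
    intro p hp
    obtain ⟨h1, h2⟩ := hx hp
    have h0 : (0 : ℝ) < p := by exact_mod_cast hp.pos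
    have hs := (hsum hp).of_norm
    rw [hs.tsum_eq_zero_add, pow_zero, fr_one, e1 hp, tsum_mul_right,
      tsum_geometric_of_lt_one h1.le (by linarith)]
    have hinv : (1 - (p : ℝ) ^ (-τ))⁻¹ ≤ c := by
      rw [hc, one_div]
      exact inv_anti₀ (by linarith) (by linarith)
    have h4 : (p : ℝ) ^ (-τ) * (C / p) = C * ((p : ℝ) ^ (1 + τ))⁻¹ := by
      rw [Real.rpow_neg h0.le, Real.rpow_add h0, Real.rpow_one]
      field_simp
    have h5 : (p : ℝ) ^ (-τ) * rr m p ≤ C * ((p : ℝ) ^ (1 + τ))⁻¹ := by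
      rw [← h4]
      exact mul_le_mul_of_nonneg_left (hrr p hp) h1.le
    have h5' : 0 ≤ (p : ℝ) ^ (-τ) * rr m p := mul_nonneg h1.le (rr_nonneg hm hp)
    have h6 : (1 - (p : ℝ) ^ (-τ))⁻¹ * ((p : ℝ) ^ (-τ) * rr m p) ≤
        c * (C * ((p : ℝ) ^ (1 + τ))⁻¹) :=
      mul_le_mul hinv h5 h5' (by linarith)
    have h7 := Real.add_one_le_exp (C * c * ((p : ℝ) ^ (1 + τ))⁻¹)
    linarith
  refine summable_of_sum_range_le (c := Real.exp (C * c * Z)) (fr_nonneg hm τ) fun M => ?_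
  have hS := EulerProduct.summable_and_hasSum_factoredNumbers_prod_filter_prime_tsum
    (f := fr m τ) (fr_one m τ) (fun {a b} h => fr_mul h) hsum (range (M + 1))
  have hmem : ∀ a ∈ Icc 1 M, a ∈ Nat.factoredNumbers (range (M + 1)) := by
    intro a ha
    obtain ⟨h1, h2⟩ := mem_Icc.1 ha
    refine Nat.mem_factoredNumbers_of_primeFactors_subset (by omega) ?_
    intro p hp
    have := Nat.le_of_mem_primeFactors hp
    exact mem_range.2 (by omega)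
  have h7 : ∑ a ∈ Icc 1 M, fr m τ a ≤ ∏ p ∈ range (M + 1) with p.Prime, ∑' n : ℕ, fr m τ (p ^ n) := by
    rw [← Finset.sum_subtype_of_mem (fun a => fr m τ a) hmem]
    exact sum_le_hasSum _ (fun i _ => fr_nonneg hm _ _) hS.2
  have h8 : ∑ i ∈ range M, fr m τ i ≤ ∑ a ∈ Icc 1 M, fr m τ a := by
    have h4 : ∑ i ∈ range M, fr m τ i ≤ ∑ i ∈ insert 0 (Icc 1 M), fr m τ i := by
      refine sum_le_sum_of_subset_of_nonneg ?_ fun i _ _ => fr_nonneg hm τ i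
      intro i hi
      rw [mem_range] at hi
      rw [mem_insert, mem_Icc]
      omega
    rw [Finset.sum_insert (by simp), fr_zero hτ, zero_add] at h4
    exact h4
  refine h8.trans (h7.trans ?_)
  calc ∏ p ∈ range (M + 1) with p.Prime, ∑' n : ℕ, fr m τ (p ^ n)
      ≤ ∏ p ∈ range (M + 1) with p.Prime, Real.exp (C * c * ((p : ℝ) ^ (1 + τ))⁻¹) := by
        refine Finset.prod_le_prod (fun p _ => tsum_nonneg fun n => fr_nonneg hm _ _) ?_
        intro p hp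
        exact hle (mem_filter.1 hp).2
    _ = Real.exp (∑ p ∈ range (M + 1) with p.Prime, C * c * ((p : ℝ) ^ (1 + τ))⁻¹) := by
        rw [Real.exp_sum]
    _ ≤ Real.exp (C * c * Z) := by
        refine Real.exp_le_exp.2 ?_
        rw [← mul_sum, hZ]
        exact mul_le_mul_of_nonneg_left (hsm.sum_le_tsum _ (fun n _ => by positivity))
          (by positivity)

/-- the weight of the repeated part `w` -/
noncomputable def wgt (m w : ℕ) : ℝ := fr m (1 / (m + 1)) w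

lemma wgt_nonneg {m : ℕ} (hm : 2 ≤ m) (w : ℕ) : 0 ≤ wgt m w := fr_nonneg hm _ w

lemma wgt_summable {m : ℕ} (hm : 2 ≤ m) : Summable (wgt m) := fr_summable hm (by positivity)

lemma wgt_zero (m : ℕ) : wgt m 0 = 0 := fr_zero (by positivity)

lemma wgt_one (m : ℕ) : wgt m 1 = 1 := fr_one _ _

lemma wgt_eq (m : ℕ) {w : ℕ} (hw : 0 < w) : wt m w * (w : ℝ) ^ ((m : ℝ) / (m + 1)) = wgt m w := by
  have h0 : (0 : ℝ) < w := by exact_mod_cast hw
  unfold wt wgt fr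
  have : (w : ℝ) ^ (-(1 / ((m : ℝ) + 1))) = (w : ℝ) ^ ((m : ℝ) / (m + 1)) / w := by
    nth_rewrite 3 [← Real.rpow_one (w : ℝ)]
    rw [← Real.rpow_sub h0]
    congr 1
    field_simp
    ring
  rw [this]
  ring

/-- the Euler factor -/
lemma wgt_tsum {m : ℕ} {q : ℕ} (hq : q.Prime) :
    ∑' e : ℕ, wgt m (q ^ e) = 1 + rr m q / ((q : ℝ) ^ (1 / ((m : ℝ) + 1)) - 1) := by
  have h2 : (2 : ℝ) ≤ q := by exact_mod_cast hq.two_le
  have hq0 : (0 : ℝ) < q := by linarith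
  obtain ⟨y, hy⟩ : ∃ y : ℝ, y = (q : ℝ) ^ (1 / ((m : ℝ) + 1)) := ⟨_, rfl⟩
  have hy1 : 1 < y := by rw [hy]; exact Real.one_lt_rpow (by linarith) (by positivity)
  have hyi : (q : ℝ) ^ (-(1 / ((m : ℝ) + 1))) = y⁻¹ := by rw [hy, Real.rpow_neg hq0.le]
  have hyi0 : 0 < y⁻¹ := by positivity
  have hyi1 : y⁻¹ < 1 := inv_lt_one_of_one_lt₀ hy1
  have e1 : (fun e : ℕ => wgt m (q ^ (e + 1))) = fun e : ℕ => y⁻¹ ^ e * (y⁻¹ * rr m q) := by
    funext e
    unfold wgt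
    rw [fr_pow hq, hyi, pow_succ]
    ring
  have hs1 : Summable (fun e : ℕ => wgt m (q ^ (e + 1))) := by
    rw [e1]
    exact (summable_geometric_of_lt_one hyi0.le hyi1).mul_right _
  have hs : Summable (fun e : ℕ => wgt m (q ^ e)) := (summable_nat_add_iff 1).1 hs1
  rw [hs.tsum_eq_zero_add, pow_zero, wgt_one, e1, tsum_mul_right,
    tsum_geometric_of_lt_one hyi0.le hyi1, ← hy]
  congr 1
  have : y - 1 ≠ 0 := by linarith
  have hy0 : y ≠ 0 := by linarith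
  field_simp

/-- the constant as an Euler product -/
lemma const_eq {m : ℕ} (hm : 2 ≤ m) : C0 m * ∑' w : ℕ, wgt m w =
    ∏' q : Nat.Primes, (gu q m + (m + 1) * ((((q : ℕ) : ℝ) - 1) / ((q : ℕ) : ℝ) ^ 2) * gu q (m - 1) *
      (1 + 1 / (((q : ℕ) : ℝ) ^ (1 / ((m : ℝ) + 1)) - 1))) := by
  have hn : Summable (fun w => ‖wgt m w‖) := by
    refine (wgt_summable hm).congr fun w => ?_
    rw [Real.norm_of_nonneg (wgt_nonneg hm w)]
  have h1 := EulerProduct.eulerProduct_hasProd (wgt_one m) (fun {a b} h => fr_mul h) hn (wgt_zero m)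
  have h2 : HasProd (fun q : Nat.Primes => dd m (q : ℕ) 0) (C0 m) := by
    have h3 := C0_hasProd hm
    have e : (fun n : ℕ => if n.Prime then dd m n 0 else 1) =
        Set.mulIndicator {p : ℕ | p.Prime} (fun n => dd m n 0) := by
      funext n
      by_cases hn : n.Prime
      · rw [Set.mulIndicator_of_mem (show n ∈ {p : ℕ | p.Prime} from hn), if_pos hn]
      · rw [Set.mulIndicator_of_notMem (show n ∉ {p : ℕ | p.Prime} from hn), if_neg hn]
    rw [e, ← hasProd_subtype_iff_mulIndicator] at h3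
    exact h3
  have h4 := (h2.mul h1).tprod_eq
  rw [← h4]
  refine tprod_congr fun q => ?_
  have hq := q.2
  rw [wgt_tsum hq]
  have hd := (dd_zero_pos hm hq).ne'
  unfold rr
  obtain ⟨D, hD⟩ : ∃ D, D = dd m (q : ℕ) 0 := ⟨_, rfl⟩
  rw [← hD] at hd ⊢
  obtain ⟨y, hy⟩ : ∃ y : ℝ, y = ((q : ℕ) : ℝ) ^ (1 / ((m : ℝ) + 1)) := ⟨_, rfl⟩
  rw [← hy]
  obtain ⟨b, hb⟩ : ∃ b : ℝ, b = (m + 1) * ((((q : ℕ) : ℝ) - 1) / ((q : ℕ) : ℝ) ^ 2) * gu q (m - 1) :=
    ⟨_, rfl⟩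
  rw [← hb]
  have e3 : gu q m = D - b := by
    rw [hD, dd_zero, hb]
    ring
  rw [e3]
  field_simp
  ring

/-- the tail of the sum over the repeated parts -/
lemma wgt_tail {m : ℕ} (hm : 2 ≤ m) : ∃ C : ℝ, 0 < C ∧ ∀ W : ℝ, 1 ≤ W → ∀ S : Finset ℕ,
    (∀ w ∈ S, W < (w : ℝ)) → ∑ w ∈ S, wgt m w ≤ C * W ^ (-(1 / (2 * ((m : ℝ) + 1)))) := by
  have hs := fr_summable hm (τ := 1 / (2 * ((m : ℝ) + 1))) (by positivity)
  refine ⟨∑' w, fr m (1 / (2 * ((m : ℝ) + 1))) w + 1, ?_, fun W hW S hS => ?_⟩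
  · have : 0 ≤ ∑' w, fr m (1 / (2 * ((m : ℝ) + 1))) w := tsum_nonneg fun w => fr_nonneg hm _ _
    linarith
  have hW0 : 0 < W := by linarith
  obtain ⟨τ, hτ⟩ : ∃ τ : ℝ, τ = 1 / (2 * ((m : ℝ) + 1)) := ⟨_, rfl⟩
  have hτ0 : 0 < τ := by rw [hτ]; positivity
  have h2τ : 1 / ((m : ℝ) + 1) = τ + τ := by
    rw [hτ]
    field_simp
    norm_num
  rw [← hτ] at hs ⊢
  have h1 : ∀ w ∈ S, wgt m w ≤ W ^ (-τ) * fr m τ w := by
    intro w hw
    have h2 := hS w hw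
    have hw0 : (0 : ℝ) < w := by linarith
    unfold wgt
    rw [h2τ]
    unfold fr
    rw [neg_add, Real.rpow_add hw0, ← mul_assoc]
    have h3 : 0 ≤ ∏ q ∈ w.primeFactors, rr m q :=
      prod_nonneg fun q hq => rr_nonneg hm (Nat.prime_of_mem_primeFactors hq)
    refine mul_le_mul_of_nonneg_right ?_ h3
    refine mul_le_mul_of_nonneg_right ?_ (by positivity)
    exact Real.rpow_le_rpow_of_nonpos hW0 h2.le (by linarith)
  refine (sum_le_sum h1).trans ?_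
  rw [← mul_sum, mul_comm]
  refine mul_le_mul_of_nonneg_right ?_ (by positivity)
  have := hs.sum_le_tsum S fun w _ => fr_nonneg hm _ _
  linarith

end Pool.Agent.V7H9.SN
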