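import Pool.Agent.V7H9.SN.Wide
import Pool.Agent.TH867.NA.Main

set_option autoImplicit false

/-!
# Tuples with a large repeated part: the bound
-/

namespace Pool.Agent.V7H9.SN

open Finset Pool.Agent.H785R2.ABC Pool.Agent.H705R2.ABC Pool.Agent.W625.NC

lemma rad_pos (n : ℕ) : 0 < rad n :=
  Finset.prod_pos fun p hp => (Nat.prime_of_mem_primeFactors hp).pos

lemma rad_le {n : ℕ} (hn : n ≠ 0) : rad n ≤ n :=
  Nat.le_of_dvd (Nat.pos_of_ne_zero hn) (Nat.prod_primeFactors_dvd n)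

lemma lr_eq (n : ℕ) : Pool.Agent.TH867.SQ.lr n = Real.log (rad n) := by
  unfold Pool.Agent.TH867.SQ.lr rad
  push_cast
  rw [Real.log_prod]
  intro _ hp
  exact_mod_cast (Nat.prime_of_mem_primeFactors hp).ne_zero

/-- the radical of the powerful part -/
lemma rad_pow_le {K n : ℕ} (hn : n ≠ 0) {U V : ℝ} (hU : 1 ≤ U) (hV : 1 ≤ V)
    (h1 : ∀ i : Fin (K + 1), 1 ≤ (i : ℕ) → (i : ℕ) < K → (rd K n {i} : ℝ) ≤ U)
    (h2 : (n : ℝ) ≤ V ^ (K + 1)) : (rad (part K n {0}ᶜ) : ℝ) ≤ U ^ K * V := by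
  classical
  have hB := basics
  have hn1 : 1 ≤ n := Nat.one_le_iff_ne_zero.2 hn
  rw [hB.rad_part K n _ hn1, hB.rd_prod]
  push_cast
  have hlast : (rd K n {Fin.last K} : ℝ) ≤ V := by
    have h3 := hB.part_last K n
    have h4 := Nat.le_of_dvd (by omega) (hB.part_dvd K n {Fin.last K} hn1)
    have h5 : ((rd K n {Fin.last K} : ℕ) : ℝ) ^ (K + 1) ≤ V ^ (K + 1) := by
      have : ((rd K n {Fin.last K} ^ (K + 1) : ℕ) : ℝ) ≤ n := by exact_mod_cast h3.trans h4
      push_cast at this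
      exact this.trans h2
    exact le_of_pow_le_pow_left₀ (by omega) (by linarith) h5
  have h3 : ∀ i ∈ ({0}ᶜ : Finset (Fin (K + 1))), (rd K n {i} : ℝ) ≤
      U * (if i = Fin.last K then V else 1) := by
    intro i hi
    rw [mem_compl, mem_singleton] at hi
    split_ifs with h
    · rw [h]
      refine hlast.trans ?_
      nlinarith
    · rw [mul_one]
      refine h1 i ?_ ?_
      · by_contra hcon
        apply hi
        ext
        rw [Fin.val_zero]
        omega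
      · have h4 := i.2
        have h5 : (i : ℕ) ≠ K := fun h' => h (Fin.ext h')
        omega
  refine (prod_le_prod (fun i _ => Nat.cast_nonneg _) h3).trans ?_
  rw [prod_mul_distrib, prod_const, card_compl, card_singleton, Fintype.card_fin,
    Nat.add_sub_cancel]
  refine mul_le_mul_of_nonneg_left ?_ (by positivity)
  rw [prod_ite_eq']
  split_ifs
  · exact le_rfl
  · exact hV

lemma log_height {L X : ℝ} (hL : 0 < L) (hX : 1 ≤ X) {η : ℝ} (hη : 0 < η) :
    L * Real.log X ≤ (1 + Real.log (X * Real.exp L)) ^ (2 + η) := by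
  have hX0 : 0 < X := by linarith
  have hl : 0 ≤ Real.log X := Real.log_nonneg hX
  have h1 : Real.log (X * Real.exp L) = Real.log X + L := by
    rw [Real.log_mul hX0.ne' (Real.exp_pos L).ne', Real.log_exp]
  rw [h1]
  have h2 : (1 : ℝ) ≤ 1 + (Real.log X + L) := by linarith
  calc L * Real.log X ≤ (1 + (Real.log X + L)) ^ (2 : ℝ) := by
        rw [show (2 : ℝ) = ((2 : ℕ) : ℝ) by norm_num, Real.rpow_natCast]
        nlinarith
    _ ≤ _ := Real.rpow_le_rpow_of_exponent_le h2 (by linarith)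

/-- **Few tuples have a large repeated part.** -/
theorem tail {m : ℕ} (hm : 2 ≤ m) {L η : ℝ} (hL : 0 < L) (hη : 0 < η) : ∃ C ν : ℝ, 0 < C ∧ 0 < ν ∧
    ∀ X : ℝ, 1 ≤ X → ∀ F : Finset (Fin (m + 1) → ℤ), (∀ x ∈ F, (∀ i, x i ≠ 0) ∧
      (∀ i j, i ≠ j → IsCoprime (x i) (x j)) ∧ ∑ i, x i = 0 ∧ (∀ i, |(x i : ℝ)| ≤ X ^ L) ∧
      ((∏ i, rad (x i).natAbs : ℕ) : ℝ) ≤ X ∧
      X ^ η * ((∏ i, rad (x i).natAbs : ℕ) : ℝ) ≤ ∏ i, |(x i : ℝ)|) →
    (F.card : ℝ) ≤ C * X ^ ((m : ℝ) / (m + 1) - ν) := by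
  classical
  have hB := basics
  have hmr : (2 : ℝ) ≤ m := by exact_mod_cast hm
  obtain ⟨n, hn⟩ : ∃ n : ℝ, n = (m : ℝ) + 1 := ⟨_, rfl⟩
  have hn3 : 3 ≤ n := by rw [hn]; linarith
  have hn0 : 0 < n := by linarith
  obtain ⟨e0, he0⟩ : ∃ e0 : ℝ, e0 = (m : ℝ) / (m + 1) := ⟨_, rfl⟩
  have he0n : e0 = m / n := by rw [he0, hn]
  have he1 : 1 - e0 = 1 / n := by
    rw [he0n, hn]
    field_simp
    ring
  -- parameters
  obtain ⟨ρ, hρ⟩ : ∃ ρ : ℝ, ρ = min (η / n) (1 / n) := ⟨_, rfl⟩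
  have hρ0 : 0 < ρ := by rw [hρ]; exact lt_min (by positivity) (by positivity)
  have hρ1 : ρ ≤ η / n := by rw [hρ]; exact min_le_left _ _
  have hρ2 : ρ ≤ 1 / n := by rw [hρ]; exact min_le_right _ _
  have hρ3 : ρ ≤ 1 / 3 := hρ2.trans (by rw [div_le_div_iff₀ hn0 (by norm_num)]; linarith)
  obtain ⟨K, hK⟩ := exists_nat_ge (8 * L / ρ)
  have hKr : 8 * L ≤ K * ρ := by rwa [div_le_iff₀ hρ0] at hK
  have hK0 : 0 < K := by
    rcases Nat.eq_zero_or_pos K with h | h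
    · rw [h] at hKr
      simp at hKr
      linarith
    · exact h
  have hKr1 : (1 : ℝ) ≤ K := by exact_mod_cast hK0
  obtain ⟨ν1, hν1⟩ : ∃ ν1 : ℝ, ν1 = ρ / (8 * K) := ⟨_, rfl⟩
  have hν10 : 0 < ν1 := by rw [hν1]; positivity
  have hν1K : K * ν1 = ρ / 8 := by
    rw [hν1]
    field_simp
  have hν1ρ : ν1 ≤ ρ / 8 := by nlinarith
  obtain ⟨δ, hδ⟩ : ∃ δ : ℝ, δ = ν1 / (8 * m) := ⟨_, rfl⟩
  have hm0 : (0 : ℝ) < m := by linarith
  have hδ0 : 0 < δ := by rw [hδ]; positivity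
  have hmδ : m * δ = ν1 / 8 := by
    rw [hδ]
    field_simp
  have hδν : δ ≤ ν1 / 16 := by nlinarith
  obtain ⟨ε, hε⟩ : ∃ ε : ℝ, ε = ν1 / (8 * L) := ⟨_, rfl⟩
  have hε0 : 0 < ε := by rw [hε]; positivity
  have hLε : L * ε = ν1 / 8 := by
    rw [hε]
    field_simp
  have he0δ : δ ≤ e0 := by
    have : e0 = 1 - 1 / n := by linarith
    have h2 : 1 / n ≤ 1 / 3 := by rw [div_le_div_iff₀ hn0 (by norm_num)]; linarith
    linarith
  obtain ⟨η', hη', C1, hC1, hup⟩ := Pool.Agent.TH867.NA.upper m (δ / 2) (by positivity)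
  obtain ⟨C2, hC2, hwd⟩ := wide_diff hm K hε0
  obtain ⟨C3, hC3, hwp⟩ := wide_pow (m := m) (by omega) hK0 hε0
  refine ⟨C1 * (Real.exp L) ^ (δ / 2) + C2 + 2 * C3, δ / 2, by positivity, by positivity,
    fun X hX F hF => ?_⟩
  rw [← he0]
  have hX0 : 0 < X := by linarith
  obtain ⟨R, hR⟩ : ∃ R : ℝ, R = X ^ (1 / n + δ) := ⟨_, rfl⟩
  obtain ⟨U, hU⟩ : ∃ U : ℝ, U = X ^ ν1 := ⟨_, rfl⟩
  obtain ⟨V, hV⟩ : ∃ V : ℝ, V = X ^ (L / (K + 1)) := ⟨_, rfl⟩
  obtain ⟨Y, hY⟩ : ∃ Y : ℝ, Y = X ^ (η / n) := ⟨_, rfl⟩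
  obtain ⟨Z, hZ⟩ : ∃ Z : ℝ, Z = X ^ (e0 - δ) := ⟨_, rfl⟩
  have hR0 : 0 < R := by rw [hR]; positivity
  have hU1 : 1 ≤ U := by rw [hU]; exact Real.one_le_rpow hX hν10.le
  have hV1 : 1 ≤ V := by rw [hV]; exact Real.one_le_rpow hX (by positivity)
  have hY1 : 1 ≤ Y := by rw [hY]; exact Real.one_le_rpow hX (by positivity)
  have hZ1 : 1 ≤ Z := by rw [hZ]; exact Real.one_le_rpow hX (by linarith)
  have hXLpos : (1 : ℝ) ≤ X ^ L := Real.one_le_rpow hX hL.le
  obtain ⟨N, hN⟩ : ∃ N : ℕ, N = ⌊X ^ L⌋₊ := ⟨_, rfl⟩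
  have hN1 : 1 ≤ N := by
    rw [hN]
    exact (Nat.one_le_floor_iff _).2 hXLpos
  have hNr : (N : ℝ) ≤ X ^ L := by rw [hN]; exact Nat.floor_le (by positivity)
  have hNε : (N : ℝ) ^ ε ≤ X ^ (ν1 / 8) := by
    calc (N : ℝ) ^ ε ≤ (X ^ L) ^ ε := Real.rpow_le_rpow (Nat.cast_nonneg _) hNr hε0.le
      _ = X ^ (ν1 / 8) := by rw [← Real.rpow_mul hX0.le, hLε]
  have hcast : ∀ z : ℤ, |(z : ℝ)| = (z.natAbs : ℝ) := fun z => by
    rw [Nat.cast_natAbs, Int.cast_abs]
  have hAd : ∀ x ∈ F, Ad N x := by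
    intro x hx
    obtain ⟨h1, h2, h3, h4, -⟩ := hF x hx
    refine ⟨h1, h2, h3, fun i => ?_⟩
    have h5 := h4 i
    rw [hcast] at h5
    rw [Int.abs_eq_natAbs, hN]
    exact_mod_cast Nat.le_floor h5
  obtain ⟨F1, hF1⟩ : ∃ F1, F1 = F.filter fun x =>
    ∃ j, ((∏ i ∈ univ.erase j, rad (x i).natAbs : ℕ) : ℝ) ≤ Z := ⟨_, rfl⟩
  obtain ⟨Fa, hFa⟩ : ∃ Fa, Fa = F.filter fun x => (∀ l, (rad (x l).natAbs : ℝ) ≤ R) ∧
    ∃ (j : Fin (m + 1)) (i : Fin (K + 1)), 1 ≤ (i : ℕ) ∧ (i : ℕ) < K ∧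
      U ≤ (rd K (x j).natAbs {i} : ℝ) := ⟨_, rfl⟩
  obtain ⟨Fb, hFb⟩ : ∃ Fb, Fb = F.filter fun x => (∀ l, (rad (x l).natAbs : ℝ) ≤ R) ∧
      (∀ l, (rad (part K (x l).natAbs {0}ᶜ) : ℝ) ≤ U ^ K * V) ∧
      ∃ j, Y ≤ (part K (x j).natAbs {0}ᶜ : ℝ) := ⟨_, rfl⟩
  have hcov : F ⊆ F1 ∪ (Fa ∪ Fb) := by
    intro x hx
    obtain ⟨h1, h2, h3, h4, h5, h6⟩ := hF x hx
    rw [mem_union, mem_union, hF1, hFa, hFb, mem_filter, mem_filter, mem_filter]
    by_cases c1 : ∃ j, ((∏ i ∈ univ.erase j, rad (x i).natAbs : ℕ) : ℝ) ≤ Z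
    · exact Or.inl ⟨hx, c1⟩
    · push Not at c1
      right
      have hRl : ∀ l, (rad (x l).natAbs : ℝ) ≤ R := by
        intro l
        have a1 := (c1 l).le
        have a2 : ((∏ i, rad (x i).natAbs : ℕ) : ℝ) =
            (rad (x l).natAbs : ℝ) * ((∏ i ∈ univ.erase l, rad (x i).natAbs : ℕ) : ℝ) := by
          rw [← mul_prod_erase univ _ (mem_univ l)]
          push_cast
          rfl
        rw [a2] at h5
        have a3 : (rad (x l).natAbs : ℝ) * Z ≤ X :=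
          (mul_le_mul_of_nonneg_left a1 (Nat.cast_nonneg _)).trans h5
        have a4 : R * Z = X := by
          rw [hR, hZ, ← Real.rpow_add hX0]
          have : 1 / n + δ + (e0 - δ) = 1 := by linarith
          rw [this, Real.rpow_one]
        rw [← a4] at a3
        exact le_of_mul_le_mul_right a3 (by linarith)
      by_cases c2 : ∃ (j : Fin (m + 1)) (i : Fin (K + 1)), 1 ≤ (i : ℕ) ∧ (i : ℕ) < K ∧
          U ≤ (rd K (x j).natAbs {i} : ℝ)
      · exact Or.inl ⟨hx, hRl, c2⟩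
      · push Not at c2
        refine Or.inr ⟨hx, hRl, fun l => ?_, ?_⟩
        · refine rad_pow_le (Int.natAbs_ne_zero.2 (h1 l)) hU1 hV1
            (fun i hi1 hi2 => (c2 l i hi1 hi2).le) ?_
          have a5 := h4 l
          rw [hcast] at a5
          refine a5.trans (le_of_eq ?_)
          rw [hV, ← Real.rpow_natCast, ← Real.rpow_mul hX0.le]
          congr 1
          push_cast
          field_simp
        · by_contra c3
          push Not at c3
          have a6 : ∏ i, |(x i : ℝ)| < X ^ η * ((∏ i, rad (x i).natAbs : ℕ) : ℝ) := by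
            have e1 : X ^ η * ((∏ i, rad (x i).natAbs : ℕ) : ℝ) =
                ∏ i, (Y * (rad (x i).natAbs : ℝ)) := by
              rw [prod_mul_distrib, prod_const, card_univ, Fintype.card_fin, hY,
                ← Real.rpow_natCast, ← Real.rpow_mul hX0.le]
              push_cast
              congr 2
              rw [← hn]
              field_simp
            rw [e1]
            refine Finset.prod_lt_prod_of_nonempty (fun i _ => abs_pos.2 (by exact_mod_cast h1 i))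
              (fun i _ => ?_) univ_nonempty
            have a7 : 1 ≤ (x i).natAbs := Int.natAbs_pos.2 (h1 i)
            have a8 := hB.part_mul K (x i).natAbs {0} a7
            have a9 := hB.part_single K (x i).natAbs 0 (by rw [Fin.val_zero]; exact hK0)
            rw [Fin.val_zero, zero_add, pow_one] at a9
            rw [a9] at a8
            have a10 : rd K (x i).natAbs {0} ≤ rad (x i).natAbs := by
              rw [← hB.rd_mul K (x i).natAbs {0}]
              exact Nat.le_mul_of_pos_right _ (hB.rd_pos _ _ _)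
            have a11 : (rd K (x i).natAbs {0} : ℝ) ≤ rad (x i).natAbs := by exact_mod_cast a10
            have a12 : |(x i : ℝ)| = (rd K (x i).natAbs {0} : ℝ) * part K (x i).natAbs {0}ᶜ := by
              rw [hcast]
              exact_mod_cast a8.symm
            have a13 : (0 : ℝ) < rd K (x i).natAbs {0} := by exact_mod_cast hB.rd_pos _ _ _
            rw [a12]
            calc (rd K (x i).natAbs {0} : ℝ) * part K (x i).natAbs {0}ᶜ <
                  (rd K (x i).natAbs {0} : ℝ) * Y := mul_lt_mul_of_pos_left (c3 i) a13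
              _ ≤ rad (x i).natAbs * Y := mul_le_mul_of_nonneg_right a11 (by linarith)
              _ = _ := mul_comm _ _
          exact absurd h6 (not_le.2 a6)
  -- the three bounds
  have b1 : (F1.card : ℝ) ≤ C1 * (Real.exp L) ^ (δ / 2) * X ^ (e0 - δ / 2) := by
    have hXe : X ≤ X * Real.exp L :=
      le_mul_of_one_le_right hX0.le (Real.one_le_exp hL.le)
    have hZX : Z ≤ X := by
      rw [hZ]
      calc X ^ (e0 - δ) ≤ X ^ (1 : ℝ) := by
            refine Real.rpow_le_rpow_of_exponent_le hX ?_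
            have : 0 < 1 / n := by positivity
            linarith
        _ = X := Real.rpow_one X
    have h := hup (X * Real.exp L) Z (hX.trans hXe) hZ1 (hZX.trans hXe) F1 (fun x hx => by
      rw [hF1, mem_filter] at hx
      obtain ⟨hx1, j, hj⟩ := hx
      obtain ⟨h1, h2, h3, h4, h5, h6⟩ := hF x hx1
      refine ⟨h1, h3, fun i => ?_, j, ?_⟩
      · have a1 : (0 : ℝ) < |(x i : ℝ)| := abs_pos.2 (by exact_mod_cast h1 i)
        have a2 := Real.log_le_log a1 (h4 i)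
        rw [Real.log_rpow hX0] at a2
        exact a2.trans (log_height hL hX hη')
      · have a1 : ∑ i, Pool.Agent.TH867.SQ.lr (x i).natAbs - Pool.Agent.TH867.SQ.lr (x j).natAbs =
            Real.log ((∏ i ∈ univ.erase j, rad (x i).natAbs : ℕ) : ℝ) := by
          rw [← sum_erase_eq_sub (mem_univ j)]
          push_cast
          rw [Real.log_prod]
          · exact sum_congr rfl fun i _ => lr_eq _
          · intro i _
            exact_mod_cast (rad_pos _).ne'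
        rw [a1]
        refine Real.log_le_log ?_ hj
        exact_mod_cast Finset.prod_pos fun i _ => rad_pos _)
    refine h.trans (le_of_eq ?_)
    rw [Real.mul_rpow hX0.le (Real.exp_pos L).le, hZ]
    have e1 : X ^ (δ / 2) * X ^ (e0 - δ) = X ^ (e0 - δ / 2) := by
      rw [← Real.rpow_add hX0]
      congr 1
      ring
    rw [← e1]
    ring
  have hRm : R ^ m = X ^ (e0 + ν1 / 8) := by
    rw [hR, ← Real.rpow_natCast, ← Real.rpow_mul hX0.le]
    congr 1
    rw [he0n, ← hmδ]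
    field_simp
  have b2 : (Fa.card : ℝ) ≤ C2 * X ^ (e0 - δ / 2) := by
    have h := hwd N R U hN1 hR0.le hU1 Fa (fun x hx => by
      rw [hFa, mem_filter] at hx
      exact ⟨hAd x hx.1, hx.2.1, hx.2.2⟩)
    refine h.trans ?_
    have e1 : U ^ (-(1 / 2) : ℝ) = X ^ (-(ν1 / 2)) := by
      rw [hU, ← Real.rpow_mul hX0.le]
      congr 1
      ring
    rw [hRm, e1, mul_assoc]
    refine mul_le_mul_of_nonneg_left ?_ hC2.le
    calc (N : ℝ) ^ ε * (X ^ (e0 + ν1 / 8) * X ^ (-(ν1 / 2))) ≤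
          X ^ (ν1 / 8) * (X ^ (e0 + ν1 / 8) * X ^ (-(ν1 / 2))) :=
          mul_le_mul_of_nonneg_right hNε (by positivity)
      _ = X ^ (ν1 / 8 + (e0 + ν1 / 8 + -(ν1 / 2))) := by
          rw [← Real.rpow_add hX0, ← Real.rpow_add hX0]
      _ ≤ X ^ (e0 - δ / 2) := Real.rpow_le_rpow_of_exponent_le hX (by linarith)
  have b3 : (Fb.card : ℝ) ≤ 2 * C3 * X ^ (e0 - δ / 2) := by
    have h := hwp N R (U ^ K * V) Y hN1 hR0.le (by positivity) hY1 Fb (fun x hx => by
      rw [hFb, mem_filter] at hx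
      exact ⟨hAd x hx.1, hx.2.1, hx.2.2.1, hx.2.2.2⟩)
    refine h.trans ?_
    have e1 : (U ^ K * V) ^ 2 ≤ X ^ (ρ / 4 + ρ / 4) := by
      have e2 : (U ^ K * V) ^ 2 = X ^ (2 * (K * ν1) + 2 * (L / (K + 1))) := by
        rw [hU, hV, mul_pow, ← pow_mul, ← Real.rpow_natCast, ← Real.rpow_natCast (X ^ (L / (K + 1))),
          ← Real.rpow_mul hX0.le, ← Real.rpow_mul hX0.le, ← Real.rpow_add hX0]
        congr 1
        push_cast
        ring
      rw [e2]
      refine Real.rpow_le_rpow_of_exponent_le hX ?_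
      rw [hν1K]
      have e3 : L / (K + 1) ≤ ρ / 8 := by
        rw [div_le_div_iff₀ (by positivity) (by norm_num)]
        linarith
      linarith
    have e4 : R / Y + 1 ≤ 2 * (R * X ^ (-ρ)) := by
      have e5 : R / Y ≤ R * X ^ (-ρ) := by
        rw [div_eq_mul_inv, hY, ← Real.rpow_neg hX0.le]
        refine mul_le_mul_of_nonneg_left ?_ hR0.le
        exact Real.rpow_le_rpow_of_exponent_le hX (by linarith)
      have e6 : 1 ≤ R * X ^ (-ρ) := by
        rw [hR, ← Real.rpow_add hX0]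
        exact Real.one_le_rpow hX (by linarith)
      linarith
    have e7 : R ^ (m - 1) * R = R ^ m := by
      rw [← pow_succ]
      congr 1
      omega
    calc C3 * (N : ℝ) ^ ε * (R ^ (m - 1) * (U ^ K * V) ^ 2 * (R / Y + 1)) ≤
          C3 * X ^ (ν1 / 8) * (R ^ (m - 1) * X ^ (ρ / 4 + ρ / 4) * (2 * (R * X ^ (-ρ)))) := by
          gcongr
      _ = 2 * C3 * (X ^ (ν1 / 8) * (X ^ (e0 + ν1 / 8) * (X ^ (ρ / 4 + ρ / 4) * X ^ (-ρ)))) := by
          rw [← hRm, ← e7]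
          ring
      _ = 2 * C3 * X ^ (ν1 / 8 + (e0 + ν1 / 8 + (ρ / 4 + ρ / 4 + -ρ))) := by
          rw [← Real.rpow_add hX0, ← Real.rpow_add hX0, ← Real.rpow_add hX0]
      _ ≤ 2 * C3 * X ^ (e0 - δ / 2) := by
          refine mul_le_mul_of_nonneg_left ?_ (by positivity)
          exact Real.rpow_le_rpow_of_exponent_le hX (by linarith)
  have h1 : F.card ≤ F1.card + (Fa.card + Fb.card) :=
    (card_le_card hcov).trans ((card_union_le _ _).trans (Nat.add_le_add_left (card_union_le _ _) _))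
  have h2 : (F.card : ℝ) ≤ F1.card + (Fa.card + Fb.card) := by exact_mod_cast h1
  have h3 : (C1 * Real.exp L ^ (δ / 2) + C2 + 2 * C3) * X ^ (e0 - δ / 2) =
      C1 * Real.exp L ^ (δ / 2) * X ^ (e0 - δ / 2) + C2 * X ^ (e0 - δ / 2) +
        2 * C3 * X ^ (e0 - δ / 2) := by ring
  rw [h3]
  linarith

end Pool.Agent.V7H9.SN
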