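import Pool.Agent.V7H9.SN.Eff2
import Pool.Agent.V7H9.SN.Tail
import Pool.Agent.V7H9.SN.Sum

set_option autoImplicit false

/-!
# The local conditions and the repeated part
-/

namespace Pool.Agent.V7H9.SN

open Finset Pool.Agent.H785R2.ABC

/-- the product of the entries in absolute value -/
def pr {n : ℕ} (x : Fin n → ℤ) : ℕ := ∏ i, (x i).natAbs

/-- the repeated part: the product of the entries divided by its radical -/
def rp {n : ℕ} (x : Fin n → ℤ) : ℕ := pr x / rad (pr x)

lemma pr_pos {n : ℕ} {x : Fin n → ℤ} (h : ∀ i, x i ≠ 0) : 0 < pr x :=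
  Finset.prod_pos fun i _ => Int.natAbs_pos.2 (h i)

lemma rad_dvd (n : ℕ) : rad n ∣ n := Nat.prod_primeFactors_dvd n

lemma pr_eq {n : ℕ} (x : Fin n → ℤ) : rad (pr x) * rp x = pr x :=
  Nat.mul_div_cancel' (rad_dvd _)

lemma rp_pos {n : ℕ} {x : Fin n → ℤ} (h : ∀ i, x i ≠ 0) : 0 < rp x := by
  have h1 := pr_pos h
  rw [← pr_eq x] at h1
  rcases Nat.eq_zero_or_pos (rp x) with h3 | h3
  · rw [h3, mul_zero] at h1
    exact absurd h1 (lt_irrefl 0)
  · exact h3

lemma rad_fac (n q : ℕ) (hq : q.Prime) (hn : n ≠ 0) :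
    (rad n).factorization q = if q ∣ n then 1 else 0 := by
  classical
  unfold rad
  rw [Nat.factorization_prod (fun p hp => (Nat.prime_of_mem_primeFactors hp).ne_zero),
    Finset.sum_apply']
  have h1 : ∀ p ∈ n.primeFactors, p.factorization q = if p = q then 1 else 0 := by
    intro p hp
    rw [(Nat.prime_of_mem_primeFactors hp).factorization, Finsupp.single_apply]
  rw [sum_congr rfl h1, sum_ite_eq']
  have h2 : q ∈ n.primeFactors ↔ q ∣ n := by
    rw [Nat.mem_primeFactors]
    exact ⟨fun h => h.2.1, fun h => ⟨hq, h, hn⟩⟩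
  simp only [h2]

/-- divisibility by powers of a prime that divides at most one entry -/
lemma pow_dvd_pr {n : ℕ} {x : Fin n → ℤ} {q k : ℕ} (hq : q.Prime) (i : Fin n)
    (h : ∀ j, j ≠ i → ¬ (q : ℤ) ∣ x j) : q ^ k ∣ pr x ↔ (q : ℤ) ^ k ∣ x i := by
  have h1 : Nat.Coprime (q ^ k) (∏ j ∈ univ.erase i, (x j).natAbs) := by
    refine Nat.Coprime.prod_right fun j hj => Nat.Coprime.pow_left _ ?_
    rw [hq.coprime_iff_not_dvd]
    intro h2
    exact h j (ne_of_mem_erase hj) (Int.natCast_dvd.2 h2)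
  have h2 : pr x = (x i).natAbs * ∏ j ∈ univ.erase i, (x j).natAbs :=
    (mul_prod_erase univ _ (mem_univ i)).symm
  have h3 : (q : ℤ) ^ k ∣ x i ↔ q ^ k ∣ (x i).natAbs := by
    rw [← Int.natCast_dvd]
    push_cast
    rfl
  rw [h3, h2]
  exact ⟨fun h => h1.dvd_of_dvd_mul_right h, fun h => h.mul_right _⟩

lemma dvd_pr {n : ℕ} {x : Fin n → ℤ} {q : ℕ} (hq : q.Prime) :
    q ∣ pr x ↔ ∃ i, (q : ℤ) ∣ x i := by
  unfold pr
  rw [hq.prime.dvd_finsetProd_iff]
  constructor
  · rintro ⟨i, -, hi⟩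
    exact ⟨i, Int.natCast_dvd.2 hi⟩
  · rintro ⟨i, hi⟩
    exact ⟨i, mem_univ i, Int.natCast_dvd.1 hi⟩

lemma Loc_iff {m w : ℕ} (hw : 0 < w) (z : Fin m → ℤ) : Loc w z ↔ (∀ i, full z i ≠ 0) ∧
    (∀ i j, i ≠ j → IsCoprime (full z i) (full z j)) ∧ rp (full z) = w := by
  constructor
  · intro h
    have hne : ∀ i, full z i ≠ 0 := by
      intro i hi
      have h2 := (h 2 Nat.prime_two).2.2 i
      rw [hi] at h2
      exact h2 (dvd_zero _)
    refine ⟨hne, fun i j hij => ?_, ?_⟩
    · rw [Int.isCoprime_iff_gcd_eq_one]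
      by_contra hcon
      obtain ⟨q, hq, hqd⟩ := Nat.exists_prime_and_dvd hcon
      have h1 := (h q hq).1 i j hij
      have h2 : (q : ℤ) ∣ (Int.gcd (full z i) (full z j) : ℤ) := by exact_mod_cast hqd
      exact h1 ⟨h2.trans (Int.gcd_dvd_left _ _), h2.trans (Int.gcd_dvd_right _ _)⟩
    · have hP := pr_pos hne
      have key : pr (full z) = rad (pr (full z)) * w := by
        refine Nat.eq_of_factorization_eq hP.ne' (Nat.mul_ne_zero (rad_pos _).ne' hw.ne') ?_
        intro q
        by_cases hq : q.Prime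
        · rw [Nat.factorization_mul (rad_pos _).ne' hw.ne', Finsupp.add_apply,
            rad_fac _ _ hq hP.ne']
          obtain ⟨a1, a2, a3⟩ := h q hq
          obtain ⟨e, he⟩ : ∃ e, e = w.factorization q := ⟨_, rfl⟩
          rw [← he] at a2 a3 ⊢
          by_cases hd : q ∣ pr (full z)
          · obtain ⟨i, hi⟩ := (dvd_pr hq).1 hd
            have huniq : ∀ j, j ≠ i → ¬ (q : ℤ) ∣ full z j := fun j hj h => a1 j i hj ⟨h, hi⟩
            rw [if_pos hd]
            have h1 : q ^ (e + 1) ∣ pr (full z) := by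
              rw [pow_dvd_pr hq i huniq]
              rcases Nat.eq_zero_or_pos e with h0 | h0
              · rw [h0, zero_add, pow_one]
                exact hi
              · obtain ⟨j, hj⟩ := a2 h0
                by_cases hij : j = i
                · rwa [hij] at hj
                · exact absurd ((dvd_pow_self _ (by omega)).trans hj) (huniq j hij)
            have h2 : ¬ q ^ (e + 2) ∣ pr (full z) := by
              rw [pow_dvd_pr hq i huniq]
              exact a3 i
            rw [hq.pow_dvd_iff_le_factorization hP.ne'] at h1 h2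
            omega
          · rw [if_neg hd, Nat.factorization_eq_zero_of_not_dvd hd, zero_add]
            by_contra hcon
            obtain ⟨i, hi⟩ := a2 (by omega)
            exact hd ((dvd_pr hq).2 ⟨i, (dvd_pow_self _ (by omega)).trans hi⟩)
        · rw [Nat.factorization_eq_zero_of_not_prime _ hq,
            Nat.factorization_eq_zero_of_not_prime _ hq]
      exact Nat.div_eq_of_eq_mul_right (rad_pos _) key
  · rintro ⟨hne, hc, hrp⟩ q hq
    have hP := pr_pos hne
    have key : rad (pr (full z)) * w = pr (full z) := by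
      rw [← hrp]
      exact pr_eq _
    have hfac : (pr (full z)).factorization q =
        (if q ∣ pr (full z) then 1 else 0) + w.factorization q := by
      conv_lhs => rw [← key]
      rw [Nat.factorization_mul (rad_pos _).ne' hw.ne', Finsupp.add_apply, rad_fac _ _ hq hP.ne']
    have a1 : ∀ i j, i ≠ j → ¬ ((q : ℤ) ∣ full z i ∧ (q : ℤ) ∣ full z j) := by
      rintro i j hij ⟨h1, h2⟩
      have h3 := (hc i j hij).isUnit_of_dvd' h1 h2
      exact (Nat.prime_iff_prime_int.1 hq).not_isUnit h3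
    obtain ⟨e, he⟩ : ∃ e, e = w.factorization q := ⟨_, rfl⟩
    rw [← he] at hfac ⊢
    refine ⟨a1, fun h0 => ?_, fun i hi => ?_⟩
    · have hd : q ∣ pr (full z) := by
        by_contra hcon
        rw [if_neg hcon, Nat.factorization_eq_zero_of_not_dvd hcon] at hfac
        omega
      obtain ⟨i, hi⟩ := (dvd_pr hq).1 hd
      have huniq : ∀ j, j ≠ i → ¬ (q : ℤ) ∣ full z j := fun j hj h => a1 j i hj ⟨h, hi⟩
      refine ⟨i, ?_⟩
      rw [← pow_dvd_pr hq i huniq, hq.pow_dvd_iff_le_factorization hP.ne', hfac, if_pos hd]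
      omega
    · have hi1 : (q : ℤ) ∣ full z i := (dvd_pow_self _ (by omega)).trans hi
      have huniq : ∀ j, j ≠ i → ¬ (q : ℤ) ∣ full z j := fun j hj h => a1 j i hj ⟨h, hi1⟩
      have hd : q ∣ pr (full z) := (dvd_pr hq).2 ⟨i, hi1⟩
      rw [← pow_dvd_pr hq i huniq, hq.pow_dvd_iff_le_factorization hP.ne', hfac, if_pos hd] at hi
      omega

end Pool.Agent.V7H9.SN
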