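import Mathlib

set_option autoImplicit false

/-!
# The integral of `|t| ^ (α - 1) |1 - t| ^ (β - 1)` over the line
-/

namespace Pool.Agent.V7H9.SN

open MeasureTheory

/-- the power of the absolute value -/
noncomputable def pw (s t : ℝ) : ENNReal := ENNReal.ofReal (|t| ^ s)

lemma pw_meas (s : ℝ) : Measurable (pw s) := by
  unfold pw
  fun_prop

lemma pw_add {s r t : ℝ} (ht : t ≠ 0) : pw s t * pw r t = pw (s + r) t := by
  unfold pw
  rw [← ENNReal.ofReal_mul (by positivity), ← Real.rpow_add (abs_pos.2 ht)]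

lemma beta01 {α β : ℝ} (hα : 0 < α) (hβ : 0 < β) :
    ∫⁻ t in Set.Ioo (0 : ℝ) 1, pw (α - 1) t * pw (β - 1) (1 - t) =
      ENNReal.ofReal (ProbabilityTheory.beta α β) := by
  have hB := ProbabilityTheory.beta_pos hα hβ
  have h := ProbabilityTheory.lintegral_betaPDF_eq_one hα hβ
  rw [ProbabilityTheory.lintegral_betaPDF] at h
  have h2 : ∫⁻ t in Set.Ioo (0 : ℝ) 1, ENNReal.ofReal (1 / ProbabilityTheory.beta α β * t ^ (α - 1) *
      (1 - t) ^ (β - 1)) = ENNReal.ofReal (1 / ProbabilityTheory.beta α β) *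
        ∫⁻ t in Set.Ioo (0 : ℝ) 1, pw (α - 1) t * pw (β - 1) (1 - t) := by
    rw [← lintegral_const_mul' _ _ ENNReal.ofReal_ne_top]
    refine setLIntegral_congr_fun measurableSet_Ioo fun t ht => ?_
    obtain ⟨h1, h2⟩ := ht
    have h3 : 0 < 1 - t := by linarith
    simp only [pw]
    rw [abs_of_pos h1, abs_of_pos h3, ← ENNReal.ofReal_mul (by positivity),
      ← ENNReal.ofReal_mul (by positivity), mul_assoc]
  rw [h2] at h
  obtain ⟨I, hI⟩ : ∃ I, I = ∫⁻ t in Set.Ioo (0 : ℝ) 1, pw (α - 1) t * pw (β - 1) (1 - t) := ⟨_, rfl⟩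
  rw [← hI] at h ⊢
  calc I = ENNReal.ofReal (ProbabilityTheory.beta α β) *
        (ENNReal.ofReal (1 / ProbabilityTheory.beta α β) * I) := by
        rw [← mul_assoc, ← ENNReal.ofReal_mul hB.le, mul_one_div_cancel hB.ne', ENNReal.ofReal_one,
          one_mul]
    _ = _ := by rw [h, mul_one]

lemma beta1inf {α β : ℝ} (hβ : 0 < β) (hαβ : α + β < 1) :
    ∫⁻ t in Set.Ioi (1 : ℝ), pw (α - 1) t * pw (β - 1) (1 - t) =
      ENNReal.ofReal (ProbabilityTheory.beta (1 - α - β) β) := by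
  rw [← beta01 (by linarith : 0 < 1 - α - β) hβ]
  have himg : (fun x : ℝ => x⁻¹) '' Set.Ioo 0 1 = Set.Ioi 1 := by
    ext t
    rw [Set.mem_image, Set.mem_Ioi]
    constructor
    · rintro ⟨x, ⟨h1, h2⟩, rfl⟩
      exact (one_lt_inv₀ h1).2 h2
    · intro h
      exact ⟨t⁻¹, ⟨by positivity, inv_lt_one_of_one_lt₀ h⟩, inv_inv t⟩
  rw [← himg]
  have hder : ∀ x ∈ Set.Ioo (0 : ℝ) 1, HasDerivWithinAt (fun x : ℝ => x⁻¹) (-(x ^ 2)⁻¹)
      (Set.Ioo 0 1) x := fun x hx => (hasDerivAt_inv hx.1.ne').hasDerivWithinAt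
  rw [lintegral_image_eq_lintegral_abs_deriv_mul measurableSet_Ioo hder
    (inv_injective.injOn)]
  refine setLIntegral_congr_fun measurableSet_Ioo fun x hx => ?_
  obtain ⟨h1, h2⟩ := hx
  have h3 : 0 < 1 - x := by linarith
  simp only [pw]
  have e1 : |1 - x⁻¹| = (1 - x) * x⁻¹ := by
    rw [abs_of_nonpos (by
      have : 1 < x⁻¹ := (one_lt_inv₀ h1).2 h2
      linarith)]
    field_simp
    ring
  rw [e1, abs_of_pos (by positivity : 0 < x⁻¹), abs_of_pos h1, abs_of_pos h3, abs_neg,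
    abs_of_pos (by positivity : 0 < (x ^ 2)⁻¹), ← ENNReal.ofReal_mul (by positivity),
    ← ENNReal.ofReal_mul (by positivity), ← ENNReal.ofReal_mul (by positivity)]
  congr 1
  rw [Real.mul_rpow h3.le (by positivity), ← Real.rpow_neg_one x, ← Real.rpow_mul h1.le,
    ← Real.rpow_mul h1.le]
  have e2 : (x ^ 2)⁻¹ = x ^ (-2 : ℝ) := by
    rw [Real.rpow_neg h1.le]
    norm_num
  have e3 : x ^ (1 - α - β - 1) = x ^ (-2 : ℝ) * x ^ (-1 * (α - 1)) * x ^ (-1 * (β - 1)) := by
    rw [← Real.rpow_add h1, ← Real.rpow_add h1]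
    congr 1
    ring
  rw [e2, e3]
  ring

lemma betaNeg {α β : ℝ} (hα : 0 < α) (hαβ : α + β < 1) :
    ∫⁻ t in Set.Iio (0 : ℝ), pw (α - 1) t * pw (β - 1) (1 - t) =
      ENNReal.ofReal (ProbabilityTheory.beta (1 - α - β) α) := by
  have h := beta1inf (α := β) hα (by linarith)
  have e : 1 - β - α = 1 - α - β := by ring
  rw [e] at h
  rw [← h]
  have himg : (fun x : ℝ => 1 - x) '' Set.Ioi 1 = Set.Iio 0 := by
    ext t
    rw [Set.mem_image, Set.mem_Iio]
    constructor
    · rintro ⟨x, hx, rfl⟩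
      rw [Set.mem_Ioi] at hx
      linarith
    · intro h
      exact ⟨1 - t, by rw [Set.mem_Ioi]; linarith, by ring⟩
  rw [← himg]
  have hder : ∀ x ∈ Set.Ioi (1 : ℝ), HasDerivWithinAt (fun x : ℝ => 1 - x) (-1)
      (Set.Ioi 1) x := fun x hx => ((hasDerivAt_id' x).const_sub 1).hasDerivWithinAt
  rw [lintegral_image_eq_lintegral_abs_deriv_mul measurableSet_Ioi hder
    (fun x _ y _ h => by linarith)]
  refine setLIntegral_congr_fun measurableSet_Ioi fun x hx => ?_
  simp only [abs_neg, abs_one, ENNReal.ofReal_one, one_mul, sub_sub_cancel]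
  rw [mul_comm]

/-- the Gamma factor -/
noncomputable def gf (s : ℝ) : ℝ := Real.Gamma s * Real.cos (Real.pi * s / 2)

lemma gf_pos {s : ℝ} (h0 : 0 < s) (h1 : s < 1) : 0 < gf s := by
  unfold gf
  have hpi := Real.pi_pos
  refine mul_pos (Real.Gamma_pos_of_pos h0) (Real.cos_pos_of_mem_Ioo ⟨?_, ?_⟩) <;> nlinarith

lemma gf_refl {s : ℝ} (h0 : 0 < s) (h1 : s < 1) : gf s * gf (1 - s) = Real.pi / 2 := by
  unfold gf
  have hpi := Real.pi_pos
  have h := Real.Gamma_mul_Gamma_one_sub s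
  have hs : Real.sin (Real.pi * s) ≠ 0 := by
    refine (Real.sin_pos_of_pos_of_lt_pi (by positivity) ?_).ne'
    nlinarith
  have e1 : Real.cos (Real.pi * (1 - s) / 2) = Real.sin (Real.pi * s / 2) := by
    rw [← Real.cos_pi_div_two_sub]
    congr 1
    ring
  have e2 : Real.sin (Real.pi * s) = 2 * Real.sin (Real.pi * s / 2) * Real.cos (Real.pi * s / 2) := by
    rw [← Real.sin_two_mul]
    congr 1
    ring
  rw [e1]
  calc Real.Gamma s * Real.cos (Real.pi * s / 2) * (Real.Gamma (1 - s) * Real.sin (Real.pi * s / 2)) =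
      (Real.Gamma s * Real.Gamma (1 - s)) * (2 * Real.sin (Real.pi * s / 2) *
        Real.cos (Real.pi * s / 2)) / 2 := by ring
    _ = Real.pi / 2 := by
      rw [h, ← e2]
      field_simp

lemma beta_eq {α β : ℝ} (hβ0 : 0 < α + β) (hβ1 : α + β < 1) : ProbabilityTheory.beta α β =
    Real.Gamma α * Real.Gamma β * Real.Gamma (1 - α - β) * Real.sin (Real.pi * (1 - α - β)) /
      Real.pi := by
  unfold ProbabilityTheory.beta
  have hpi := Real.pi_pos
  have h := Real.Gamma_mul_Gamma_one_sub (1 - α - β)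
  have e : 1 - (1 - α - β) = α + β := by ring
  rw [e] at h
  have hs : 0 < Real.sin (Real.pi * (1 - α - β)) := by
    refine Real.sin_pos_of_pos_of_lt_pi (mul_pos hpi (by linarith)) ?_
    nlinarith
  have hG := Real.Gamma_pos_of_pos hβ0
  rw [eq_div_iff hs.ne'] at h
  rw [div_eq_div_iff hG.ne' hpi.ne']
  linear_combination (-(Real.Gamma α * Real.Gamma β)) * h

/-- the constant of the line integral -/
noncomputable def Bl (α β : ℝ) : ℝ := 4 / Real.pi * gf α * gf β * gf (1 - α - β)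

lemma beta_sum {α β : ℝ} (hα : 0 < α) (hβ : 0 < β) (hαβ : α + β < 1) :
    ProbabilityTheory.beta (1 - α - β) α + ProbabilityTheory.beta α β +
      ProbabilityTheory.beta (1 - α - β) β = Bl α β := by
  have hpi := Real.pi_pos
  rw [beta_eq (by linarith) hαβ, beta_eq (α := 1 - α - β) (β := α) (by linarith) (by linarith),
    beta_eq (α := 1 - α - β) (β := β) (by linarith) (by linarith)]
  have e1 : 1 - (1 - α - β) - α = β := by ring
  have e2 : 1 - (1 - α - β) - β = α := by ring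
  rw [e1, e2]
  unfold Bl gf
  obtain ⟨A, hA⟩ : ∃ A, A = Real.pi * α / 2 := ⟨_, rfl⟩
  obtain ⟨B, hB⟩ : ∃ B, B = Real.pi * β / 2 := ⟨_, rfl⟩
  have c1 : Real.cos (Real.pi * (1 - α - β) / 2) = Real.sin (A + B) := by
    rw [← Real.cos_pi_div_two_sub]
    congr 1
    rw [hA, hB]
    ring
  have c2 : Real.sin (Real.pi * (1 - α - β)) = Real.sin (2 * (A + B)) := by
    rw [← Real.sin_pi_sub]
    congr 1
    rw [hA, hB]
    ring
  have c3 : Real.sin (Real.pi * α) = Real.sin (2 * A) := by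
    congr 1
    rw [hA]
    ring
  have c4 : Real.sin (Real.pi * β) = Real.sin (2 * B) := by
    congr 1
    rw [hB]
    ring
  rw [c1, c2, c3, c4, ← hA, ← hB]
  have key : Real.sin (2 * B) + Real.sin (2 * (A + B)) + Real.sin (2 * A) =
      4 * Real.cos A * Real.cos B * Real.sin (A + B) := by
    rw [Real.sin_two_mul, Real.sin_two_mul, Real.sin_two_mul, Real.sin_add, Real.cos_add]
    have s1 := Real.sin_sq_add_cos_sq A
    have s2 := Real.sin_sq_add_cos_sq B
    have t1 : Real.sin A ^ 2 = 1 - Real.cos A ^ 2 := by linarith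
    have t2 : Real.sin B ^ 2 = 1 - Real.cos B ^ 2 := by linarith
    linear_combination (-2 * Real.sin B * Real.cos B) * t1 + (-2 * Real.sin A * Real.cos A) * t2
  calc Real.Gamma (1 - α - β) * Real.Gamma α * Real.Gamma β * Real.sin (2 * B) / Real.pi +
      Real.Gamma α * Real.Gamma β * Real.Gamma (1 - α - β) * Real.sin (2 * (A + B)) / Real.pi +
      Real.Gamma (1 - α - β) * Real.Gamma β * Real.Gamma α * Real.sin (2 * A) / Real.pi =
      Real.Gamma α * Real.Gamma β * Real.Gamma (1 - α - β) / Real.pi *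
        (Real.sin (2 * B) + Real.sin (2 * (A + B)) + Real.sin (2 * A)) := by ring
    _ = _ := by
      rw [key]
      ring

/-- **The line integral.** -/
theorem line_int {α β : ℝ} (hα : 0 < α) (hβ : 0 < β) (hαβ : α + β < 1) :
    ∫⁻ t : ℝ, pw (α - 1) t * pw (β - 1) (1 - t) = ENNReal.ofReal (Bl α β) := by
  have h1 := beta01 hα hβ
  have h2 := beta1inf hβ hαβ
  have h3 := betaNeg hα hαβ
  have b1 := ProbabilityTheory.beta_pos hα hβ
  have b2 := ProbabilityTheory.beta_pos (by linarith : 0 < 1 - α - β) hβ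
  have b3 := ProbabilityTheory.beta_pos (by linarith : 0 < 1 - α - β) hα
  rw [← beta_sum hα hβ hαβ, ENNReal.ofReal_add (by positivity) b2.le,
    ENNReal.ofReal_add b3.le b1.le, ← h1, ← h2, ← h3]
  rw [← lintegral_add_compl _ (measurableSet_Iio (a := (0 : ℝ))), Set.compl_Iio, add_assoc]
  congr 1
  have h4 : Set.Ici (0 : ℝ) = Set.Ico 0 1 ∪ Set.Ici 1 := by
    rw [Set.Ico_union_Ici_eq_Ici zero_le_one]
  rw [h4, lintegral_union measurableSet_Ici (by
    rw [Set.disjoint_left]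
    intro t ht ht2
    exact absurd ht.2 (not_lt.2 ht2))]
  rw [setLIntegral_congr (Ioo_ae_eq_Ico (a := (0 : ℝ)) (b := 1)).symm,
    setLIntegral_congr (Ioi_ae_eq_Ici (a := (1 : ℝ))).symm]

/-- **The convolution.** -/
theorem conv {α β : ℝ} (hα : 0 < α) (hβ : 0 < β) (hαβ : α + β < 1) {u : ℝ} (hu : u ≠ 0) :
    ∫⁻ t : ℝ, pw (α - 1) t * pw (β - 1) (u + t) = ENNReal.ofReal (Bl α β) * pw (α + β - 1) u := by
  have hu' : -u ≠ 0 := neg_ne_zero.2 hu
  have hmeas : Measurable fun t : ℝ => pw (α - 1) t * pw (β - 1) (u + t) :=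
    (pw_meas _).mul ((pw_meas _).comp (measurable_const.add measurable_id))
  have h1 : ∫⁻ t : ℝ, pw (α - 1) t * pw (β - 1) (u + t) =
      ENNReal.ofReal |-u| * ∫⁻ s : ℝ, pw (α - 1) (-u * s) * pw (β - 1) (u + -u * s) := by
    conv_lhs => rw [← Real.smul_map_volume_mul_left hu']
    rw [lintegral_smul_measure, lintegral_map hmeas (measurable_const_mul (-u))]
    rfl
  rw [h1]
  have hab : 0 < |u| := abs_pos.2 hu
  have h2 : ∀ s : ℝ, pw (α - 1) (-u * s) * pw (β - 1) (u + -u * s) =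
      ENNReal.ofReal (|u| ^ (α - 1) * |u| ^ (β - 1)) * (pw (α - 1) s * pw (β - 1) (1 - s)) := by
    intro s
    have e1 : u + -u * s = u * (1 - s) := by ring
    rw [e1]
    unfold pw
    rw [abs_mul, abs_mul, abs_neg, Real.mul_rpow (abs_nonneg _) (abs_nonneg _),
      Real.mul_rpow (abs_nonneg _) (abs_nonneg _), ← ENNReal.ofReal_mul (by positivity),
      ← ENNReal.ofReal_mul (by positivity), ← ENNReal.ofReal_mul (by positivity)]
    congr 1
    ring
  simp only [h2]
  rw [lintegral_const_mul' _ _ ENNReal.ofReal_ne_top, line_int hα hβ hαβ, ← mul_assoc, mul_comm]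
  congr 1
  unfold pw
  rw [← ENNReal.ofReal_mul (abs_nonneg _), abs_neg]
  congr 1
  rw [← Real.rpow_add hab]
  have e : |u| * |u| ^ (α - 1 + (β - 1)) = |u| ^ (1 : ℝ) * |u| ^ (α - 1 + (β - 1)) := by
    rw [Real.rpow_one]
  rw [e, ← Real.rpow_add hab]
  congr 1
  ring

end Pool.Agent.V7H9.SN
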