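import Pool.Agent.V7H9.SN.Reg

set_option autoImplicit false

/-!
# Counting tuples with a bounded product, and the volume of the region
-/

namespace Pool.Agent.V7H9.SN

open Finset MeasureTheory

/-- the integers up to `N` in absolute value, without zero -/
noncomputable def Nz (N : ℕ) : Finset ℤ := (Finset.Icc (-(N : ℤ)) N).erase 0

lemma mem_Nz {N : ℕ} {z : ℤ} : z ∈ Nz N ↔ z ≠ 0 ∧ |z| ≤ N := by
  unfold Nz
  rw [mem_erase, mem_Icc, abs_le]

lemma sum_Nz (f : ℕ → ℝ) (N : ℕ) :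
    ∑ z ∈ Nz N, f z.natAbs = 2 * ∑ n ∈ Finset.Icc 1 N, f n := by
  classical
  have h : Nz N = (Finset.Icc 1 N).image (fun n : ℕ => (n : ℤ)) ∪
      (Finset.Icc 1 N).image (fun n : ℕ => -(n : ℤ)) := by
    ext z
    rw [mem_Nz, mem_union, mem_image, mem_image]
    constructor
    · rintro ⟨h1, h2⟩
      rw [abs_le] at h2
      rcases lt_or_gt_of_ne h1 with h | h
      · exact Or.inr ⟨z.natAbs, mem_Icc.2 ⟨by omega, by omega⟩, by omega⟩
      · exact Or.inl ⟨z.natAbs, mem_Icc.2 ⟨by omega, by omega⟩, by omega⟩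
    · rintro (⟨n, hn, rfl⟩ | ⟨n, hn, rfl⟩)
      · rw [mem_Icc] at hn
        exact ⟨by omega, by rw [abs_le]; omega⟩
      · rw [mem_Icc] at hn
        exact ⟨by omega, by rw [abs_le]; omega⟩
  rw [h, sum_union, sum_image, sum_image, two_mul]
  · simp
  · intro a _ b _ hab
    simp only at hab
    omega
  · intro a _ b _ hab
    simp only at hab
    omega
  · rw [disjoint_left]
    intro z hz hz'
    obtain ⟨a, ha, rfl⟩ := mem_image.1 hz
    obtain ⟨b, hb, hab⟩ := mem_image.1 hz'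
    rw [mem_Icc] at ha hb
    omega

lemma entry_le {ι : Type*} [Fintype ι] {y : ι → ℤ} (h : ∀ i, y i ≠ 0) (i : ι) :
    |(y i : ℝ)| ≤ ∏ i, |(y i : ℝ)| := by
  classical
  rw [← mul_prod_erase univ _ (mem_univ i)]
  refine le_mul_of_one_le_right (abs_nonneg _) (one_le_prod fun j _ => ?_)
  exact_mod_cast Int.one_le_abs (h j)

/-- the number of tuples of nonzero integers with bounded product -/
theorem prod_count (k : ℕ) {ε : ℝ} (hε : 0 < ε) : ∃ C : ℝ, 0 < C ∧ ∀ Z : ℝ, 1 ≤ Z →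
    ∀ F : Finset (Fin k → ℤ), (∀ y ∈ F, (∀ i, y i ≠ 0) ∧ ∏ i, |(y i : ℝ)| ≤ Z) →
    (F.card : ℝ) ≤ C * Z ^ (1 + ε) := by
  classical
  obtain ⟨s, hs⟩ : ∃ s : ℝ, s = ∑' n : ℕ, ((n : ℝ) ^ (1 + ε))⁻¹ := ⟨_, rfl⟩
  have hsm : Summable fun n : ℕ => ((n : ℝ) ^ (1 + ε))⁻¹ :=
    Real.summable_nat_rpow_inv.2 (by linarith)
  have hs0 : 0 ≤ s := by rw [hs]; exact tsum_nonneg fun n => by positivity
  refine ⟨(2 * s + 1) ^ k, by positivity, fun Z hZ F hF => ?_⟩
  have hZ0 : 0 < Z := by linarith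
  obtain ⟨N, hN⟩ : ∃ N : ℕ, N = ⌊Z⌋₊ := ⟨_, rfl⟩
  obtain ⟨g, hg⟩ : ∃ g : ℕ → ℝ, g = fun n : ℕ => ((n : ℝ) ^ (1 + ε))⁻¹ := ⟨_, rfl⟩
  have hgn : ∀ n, 0 ≤ g n := fun n => by rw [hg]; positivity
  have hcast : ∀ z : ℤ, |(z : ℝ)| = (z.natAbs : ℝ) := fun z => by
    rw [Nat.cast_natAbs, Int.cast_abs]
  have h1 : ∀ y ∈ F, (1 : ℝ) ≤ Z ^ (1 + ε) * ∏ i, g (y i).natAbs := by
    intro y hy
    obtain ⟨h2, h3⟩ := hF y hy
    have h4 : ∏ i, g (y i).natAbs = ((∏ i, |(y i : ℝ)|) ^ (1 + ε))⁻¹ := by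
      rw [hg, ← Real.finsetProd_rpow _ _ (fun i _ => abs_nonneg _), ← prod_inv_distrib]
      refine prod_congr rfl fun i _ => ?_
      rw [hcast]
    have h5 : 0 < ∏ i, |(y i : ℝ)| :=
      Finset.prod_pos fun i _ => abs_pos.2 (by exact_mod_cast h2 i)
    rw [h4, ← div_eq_mul_inv, le_div_iff₀ (by positivity), one_mul]
    exact Real.rpow_le_rpow h5.le h3 (by linarith)
  have hsub : F ⊆ Fintype.piFinset fun _ : Fin k => Nz N := by
    intro y hy
    rw [Fintype.mem_piFinset]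
    intro i
    obtain ⟨h2, h3⟩ := hF y hy
    rw [mem_Nz]
    refine ⟨h2 i, ?_⟩
    have h4 := (entry_le h2 i).trans h3
    rw [hcast] at h4
    have h5 : (y i).natAbs ≤ N := by
      rw [hN]
      exact Nat.le_floor h4
    rw [Int.abs_eq_natAbs]
    exact_mod_cast h5
  have h2 : (F.card : ℝ) ≤ ∑ y ∈ Fintype.piFinset fun _ : Fin k => Nz N,
      Z ^ (1 + ε) * ∏ i, g (y i).natAbs := by
    calc (F.card : ℝ) = ∑ y ∈ F, (1 : ℝ) := by simp
      _ ≤ ∑ y ∈ F, Z ^ (1 + ε) * ∏ i, g (y i).natAbs := sum_le_sum h1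
      _ ≤ _ := sum_le_sum_of_subset_of_nonneg hsub fun y _ _ =>
          mul_nonneg (by positivity) (prod_nonneg fun i _ => hgn _)
  refine h2.trans ?_
  rw [← mul_sum, ← Finset.prod_univ_sum (fun _ : Fin k => Nz N) (fun _ z => g z.natAbs)]
  simp only [sum_Nz]
  rw [prod_const, card_univ, Fintype.card_fin, mul_comm]
  refine mul_le_mul_of_nonneg_right ?_ (by positivity)
  refine pow_le_pow_left₀ (mul_nonneg (by norm_num) (sum_nonneg fun n _ => hgn n)) ?_ k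
  have h3 : ∑ n ∈ Finset.Icc 1 N, g n ≤ s := by
    rw [hs, hg]
    exact hsm.sum_le_tsum _ fun n _ => by positivity
  linarith

/-- any `m` entries determine a tuple with sum zero -/
lemma inj_card {m : ℕ} (l : Fin (m + 1)) (F : Finset (Fin (m + 1) → ℤ))
    (T : Fin (m + 1) → Finset ℤ) (h : ∀ x ∈ F, ∑ i, x i = 0 ∧ ∀ i, i ≠ l → x i ∈ T i) :
    F.card ≤ ∏ i ∈ univ.erase l, (T i).card := by
  classical
  have h1 : F.card ≤ (Fintype.piFinset fun i : Fin m => T (l.succAbove i)).card := by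
    refine card_le_card_of_injOn (fun x i => x (l.succAbove i)) (fun x hx => ?_) ?_
    · rw [mem_coe, Fintype.mem_piFinset]
      exact fun i => (h x hx).2 _ (Fin.succAbove_ne l i)
    · intro x hx y hy hxy
      exact sum_inj (h x hx).1 (h y hy).1 l fun i => congrFun hxy i
  refine h1.trans (le_of_eq ?_)
  rw [Fintype.card_piFinset]
  have h2 : univ.erase l = (univ : Finset (Fin m)).map l.succAboveEmb := by
    ext i
    rw [mem_erase, mem_map]
    simp only [mem_univ, and_true, true_and]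
    constructor
    · intro hi
      obtain ⟨j, hj⟩ := Fin.exists_succAbove_eq hi
      exact ⟨j, hj⟩
    · rintro ⟨j, rfl⟩
      exact Fin.succAbove_ne l j
  rw [h2, prod_map]
  rfl

/-- tuples with a large entry and a bounded product -/
theorem cusp (m : ℕ) {ε : ℝ} (hε : 0 < ε) : ∃ C : ℝ, 0 < C ∧ ∀ P H : ℝ, 0 ≤ P → 0 < H →
    ∀ F : Finset (Fin (m + 1) → ℤ), (∀ x ∈ F, (∀ i, x i ≠ 0) ∧ ∑ i, x i = 0 ∧
      ∏ i, |(x i : ℝ)| ≤ P ∧ ∃ i, H ≤ |(x i : ℝ)|) → (F.card : ℝ) ≤ C * (P / H) ^ (1 + ε) := by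
  classical
  obtain ⟨C, hC, h⟩ := prod_count m hε
  refine ⟨(m + 1) * C, by positivity, fun P H hP hH F hF => ?_⟩
  rcases F.eq_empty_or_nonempty with hF0 | ⟨x0, hx0⟩
  · rw [hF0]
    simp only [card_empty, Nat.cast_zero]
    positivity
  have hother : ∀ x ∈ F, ∀ i, H ≤ |(x i : ℝ)| → ∏ j : Fin m, |(x (i.succAbove j) : ℝ)| ≤ P / H := by
    intro x hx i hi
    obtain ⟨h1, h2, h3, -⟩ := hF x hx
    rw [Fin.prod_univ_succAbove _ i] at h3
    rw [le_div_iff₀ hH]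
    have h4 : 0 ≤ ∏ j : Fin m, |(x (i.succAbove j) : ℝ)| := prod_nonneg fun j _ => abs_nonneg _
    nlinarith
  have hone : ∀ x ∈ F, ∀ i : Fin (m + 1), 1 ≤ ∏ j : Fin m, |(x (i.succAbove j) : ℝ)| := by
    intro x hx i
    refine one_le_prod fun j _ => ?_
    have := Int.one_le_abs ((hF x hx).1 (i.succAbove j))
    exact_mod_cast this
  have hPH : 1 ≤ P / H := by
    obtain ⟨h1, h2, h3, i, hi⟩ := hF x0 hx0
    exact (hone x0 hx0 i).trans (hother x0 hx0 i hi)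
  have hcov : F ⊆ univ.biUnion fun i => F.filter fun x => H ≤ |(x i : ℝ)| := by
    intro x hx
    obtain ⟨-, -, -, i, hi⟩ := hF x hx
    rw [mem_biUnion]
    exact ⟨i, mem_univ _, mem_filter.2 ⟨hx, hi⟩⟩
  have h1 : F.card ≤ ∑ i, (F.filter fun x => H ≤ |(x i : ℝ)|).card :=
    (card_le_card hcov).trans card_biUnion_le
  have h2 : ∀ i : Fin (m + 1), ((F.filter fun x => H ≤ |(x i : ℝ)|).card : ℝ) ≤ C * (P / H) ^ (1 + ε) := by
    intro i
    have h3 : (F.filter fun x => H ≤ |(x i : ℝ)|).card =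
        ((F.filter fun x => H ≤ |(x i : ℝ)|).image fun x (j : Fin m) => x (i.succAbove j)).card := by
      refine (card_image_of_injOn ?_).symm
      intro x hx y hy hxy
      exact sum_inj (hF x (mem_filter.1 (mem_coe.1 hx)).1).2.1
        (hF y (mem_filter.1 (mem_coe.1 hy)).1).2.1 i fun j => congrFun hxy j
    rw [h3]
    refine h _ hPH _ fun y hy => ?_
    obtain ⟨x, hx, rfl⟩ := mem_image.1 hy
    obtain ⟨hx1, hx2⟩ := mem_filter.1 hx
    exact ⟨fun j => (hF x hx1).1 _, hother x hx1 i hx2⟩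
  calc (F.card : ℝ) ≤ ∑ i : Fin (m + 1), ((F.filter fun x => H ≤ |(x i : ℝ)|).card : ℝ) := by
        exact_mod_cast h1
    _ ≤ ∑ _i : Fin (m + 1), C * (P / H) ^ (1 + ε) := sum_le_sum fun i _ => h2 i
    _ = _ := by
        rw [sum_const, card_univ, Fintype.card_fin, nsmul_eq_mul]
        push_cast
        ring

end Pool.Agent.V7H9.SN
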