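import Pool.Agent.V7H9.SN.Loc

set_option autoImplicit false

/-!
# Bounds for the local densities, and the densities as Euler products
-/

namespace Pool.Agent.V7H9.SN

open Finset Filter Topology

lemma gu_nonneg {q : ℕ} (hq : 0 < q) (k : ℕ) : 0 ≤ gu q k := by
  have h := cnt_Un hq (dvd_refl q) k
  have hq0 : (0 : ℝ) < q := by exact_mod_cast hq
  have h1 : (0 : ℝ) ≤ cnt k q (Un q) := Nat.cast_nonneg _
  rw [h] at h1
  exact nonneg_of_mul_nonneg_left h1 (by positivity)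

lemma gu_le_one {q : ℕ} (hq : 0 < q) (k : ℕ) : gu q k ≤ 1 := by
  have h := cnt_Un hq (dvd_refl q) k
  have hq0 : (0 : ℝ) < q := by exact_mod_cast hq
  have h1 : (cnt k q (Un q) : ℝ) ≤ (q : ℝ) ^ k := by exact_mod_cast cnt_le k q (Un q)
  rw [h] at h1
  have h2 : (0 : ℝ) < (q : ℝ) ^ k := by positivity
  have h3 : gu q k * (q : ℝ) ^ k ≤ 1 * (q : ℝ) ^ k := by rw [one_mul]; exact h1
  exact le_of_mul_le_mul_right h3 h2

lemma dd_nonneg {m : ℕ} (hm : 1 ≤ m) {q : ℕ} (hq : 0 < q) (e : ℕ) : 0 ≤ dd m q e := by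
  have h := card_Lc hm hq e
  have hq0 : (0 : ℝ) < q := by exact_mod_cast hq
  have h1 : (0 : ℝ) ≤ cnt m (q ^ (e + 2)) (Lc q e) := Nat.cast_nonneg _
  rw [h] at h1
  exact nonneg_of_mul_nonneg_left h1 (by push_cast; positivity)

lemma dd_le_one {m : ℕ} (hm : 1 ≤ m) {q : ℕ} (hq : 0 < q) (e : ℕ) : dd m q e ≤ 1 := by
  have h := card_Lc hm hq e
  have hq0 : (0 : ℝ) < q := by exact_mod_cast hq
  have h1 : (cnt m (q ^ (e + 2)) (Lc q e) : ℝ) ≤ ((q ^ (e + 2) : ℕ) : ℝ) ^ m := by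
    exact_mod_cast cnt_le m _ _
  rw [h] at h1
  have h2 : (0 : ℝ) < ((q ^ (e + 2) : ℕ) : ℝ) ^ m := by push_cast; positivity
  have h3 : dd m q e * ((q ^ (e + 2) : ℕ) : ℝ) ^ m ≤ 1 * ((q ^ (e + 2) : ℕ) : ℝ) ^ m := by
    rw [one_mul]; exact h1
  exact le_of_mul_le_mul_right h3 h2

/-- the constant in the bound for the bad density -/
noncomputable def KK (m : ℕ) : ℝ := 3 * ((m : ℝ) + 1) ^ 2

lemma KK_pos (m : ℕ) : 0 < KK m := by unfold KK; positivity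

lemma dd_zero (m q : ℕ) : dd m q 0 =
    gu q m + (m + 1) * (((q : ℝ) - 1) / (q : ℝ) ^ 2) * gu q (m - 1) := by
  unfold dd
  rw [if_pos rfl, zero_add]

lemma gu_ge {q : ℕ} (hq : 1 ≤ q) (k : ℕ) :
    1 - (k + 1) / (q : ℝ) - 1 / (q : ℝ) ^ k ≤ gu q k := by
  have hq1 : (1 : ℝ) ≤ q := by exact_mod_cast hq
  have hq0 : (0 : ℝ) < q := by linarith
  have h1 : 1 - (k + 1) / (q : ℝ) ≤ (1 - 1 / (q : ℝ)) ^ (k + 1) := by
    have h2 : (-2 : ℝ) ≤ -(1 / (q : ℝ)) := by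
      have : 1 / (q : ℝ) ≤ 1 := by rw [div_le_one hq0]; exact hq1
      linarith
    have h3 := one_add_mul_le_pow h2 (k + 1)
    have e : (1 : ℝ) + ((k + 1 : ℕ) : ℝ) * -(1 / (q : ℝ)) = 1 - (k + 1) / (q : ℝ) := by
      push_cast
      ring
    rw [e] at h3
    have e2 : (1 : ℝ) + -(1 / (q : ℝ)) = 1 - 1 / (q : ℝ) := by ring
    rwa [e2] at h3
  have h4 : (1 - 1 / (q : ℝ)) ^ (k + 1) - 1 / (q : ℝ) ^ k ≤ gu q k := by
    have e : (1 - 1 / (q : ℝ)) ^ (k + 1) = ((q : ℝ) - 1) ^ (k + 1) / (q : ℝ) ^ (k + 1) := by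
      rw [← div_pow]
      congr 1
      field_simp
    unfold gu
    rw [e, add_div]
    have h5 : -(1 / (q : ℝ) ^ k) ≤ (-1) ^ (k + 1) * ((q : ℝ) - 1) / (q : ℝ) ^ (k + 1) := by
      have e3 : -(1 / (q : ℝ) ^ k) = -(q : ℝ) / (q : ℝ) ^ (k + 1) := by
        rw [pow_succ]
        field_simp
      rw [e3]
      refine div_le_div_of_nonneg_right ?_ (by positivity)
      rcases neg_one_pow_eq_or ℝ (k + 1) with h | h <;> rw [h] <;> linarith
    linarith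
  linarith

lemma dd_zero_ge {m : ℕ} (hm : 2 ≤ m) {q : ℕ} (hq : 1 ≤ q) :
    1 - KK m / (q : ℝ) ^ 2 ≤ dd m q 0 := by
  have hq1 : (1 : ℝ) ≤ q := by exact_mod_cast hq
  have hq0 : (0 : ℝ) < q := by linarith
  obtain ⟨k, rfl⟩ : ∃ k, m = k + 2 := ⟨m - 2, by omega⟩
  have e1 : k + 2 - 1 = k + 1 := by omega
  rw [dd_zero, e1]
  have h1 := gu_ge hq (k + 2)
  have h2 := gu_ge hq (k + 1)
  push_cast at h1 h2 ⊢
  obtain ⟨s, hs⟩ : ∃ s : ℝ, s = 1 / (q : ℝ) := ⟨_, rfl⟩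
  have hs0 : 0 < s := by rw [hs]; positivity
  have hs1 : s ≤ 1 := by rw [hs, div_le_one hq0]; exact hq1
  have hsk : s ^ (k + 2) ≤ s ^ 2 := pow_le_pow_of_le_one hs0.le hs1 (by omega)
  have hsk1 : s ^ (k + 1) ≤ s := by
    have := pow_le_pow_of_le_one hs0.le hs1 (show 1 ≤ k + 1 by omega)
    rwa [pow_one] at this
  have f1 : 1 / (q : ℝ) ^ (k + 2) = s ^ (k + 2) := by rw [hs, one_div_pow]
  have f2 : 1 / (q : ℝ) ^ (k + 1) = s ^ (k + 1) := by rw [hs, one_div_pow]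
  have f3 : ((k : ℝ) + 2 + 1) / q = (k + 3) * s := by rw [hs]; ring
  have f4 : ((k : ℝ) + 1 + 1) / q = (k + 2) * s := by rw [hs]; ring
  have f5 : ((q : ℝ) - 1) / (q : ℝ) ^ 2 = s - s ^ 2 := by rw [hs]; field_simp
  have f6 : KK (k + 2) / (q : ℝ) ^ 2 = 3 * ((k : ℝ) + 3) ^ 2 * s ^ 2 := by
    unfold KK
    rw [hs]
    push_cast
    ring
  rw [f1, f3] at h1
  rw [f2, f4] at h2
  rw [f5, f6]
  have hss : 0 ≤ s - s ^ 2 := by nlinarith
  have hk : (0 : ℝ) ≤ k := Nat.cast_nonneg k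
  have h3 : 1 - (k + 3) * s ≤ gu q (k + 1) := by linarith
  have h4 : ((k : ℝ) + 3) * (s - s ^ 2) * (1 - (k + 3) * s) ≤
      ((k : ℝ) + 3) * (s - s ^ 2) * gu q (k + 1) :=
    mul_le_mul_of_nonneg_left h3 (by positivity)
  have h5 : ((k : ℝ) + 2 + 1) * (s - s ^ 2) * gu q (k + 1) =
      ((k : ℝ) + 3) * (s - s ^ 2) * gu q (k + 1) := by ring
  rw [h5]
  have h6 : 0 ≤ s ^ 3 * ((k : ℝ) + 3) ^ 2 := by positivity
  nlinarith [sq_nonneg s, mul_nonneg hk (sq_nonneg s)]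

lemma dd_zero_pos {m : ℕ} (hm : 2 ≤ m) {q : ℕ} (hq : q.Prime) : 0 < dd m q 0 := by
  have h2 : (2 : ℝ) ≤ q := by exact_mod_cast hq.two_le
  have hq0 : (0 : ℝ) < q := by linarith
  obtain ⟨k, rfl⟩ : ∃ k, m = k + 1 := ⟨m - 1, by omega⟩
  rw [dd_zero, Nat.add_sub_cancel]
  have h3 := gu_nonneg hq.pos (k + 1)
  have h4 := gu_nonneg hq.pos k
  have h5 : (0 : ℝ) < (((k + 1 : ℕ) : ℝ) + 1) * (((q : ℝ) - 1) / (q : ℝ) ^ 2) := by
    have : 0 < (q : ℝ) - 1 := by linarith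
    positivity
  rcases h3.lt_or_eq with h | h
  · have := mul_nonneg h5.le h4
    linarith
  · have h6 := gu_succ hq.pos k
    rw [← h] at h6
    have h7 : 0 < (1 - 1 / (q : ℝ)) ^ (k + 1) := by
      have : 1 / (q : ℝ) ≤ 1 / 2 := by
        rw [div_le_div_iff₀ hq0 (by norm_num)]
        linarith
      have : 0 < 1 - 1 / (q : ℝ) := by linarith
      positivity
    have h8 : 0 < gu q k / q := by linarith
    have h9 : 0 < gu q k := by
      by_contra hcon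
      have : gu q k = 0 := le_antisymm (not_lt.1 hcon) h4
      rw [this, zero_div] at h8
      exact lt_irrefl _ h8
    have := mul_pos h5 h9
    linarith

/-- a uniform lower bound -/
lemma dd_zero_lower {m : ℕ} (hm : 2 ≤ m) : ∃ c : ℝ, 0 < c ∧ ∀ q : ℕ, q.Prime → c ≤ dd m q 0 := by
  classical
  obtain ⟨Q, hQ⟩ : ∃ Q : ℕ, Q = 3 * (m + 1) := ⟨_, rfl⟩
  have hfin : ∀ S : Finset ℕ, (∀ q ∈ S, q.Prime) → ∃ c : ℝ, 0 < c ∧ ∀ q ∈ S, c ≤ dd m q 0 := by
    intro S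
    induction S using Finset.induction_on with
    | empty => exact fun _ => ⟨1, one_pos, fun q hq => absurd hq (notMem_empty q)⟩
    | insert a S ha ih =>
      intro h
      obtain ⟨c, hc, h1⟩ := ih fun q hq => h q (mem_insert_of_mem hq)
      refine ⟨min c (dd m a 0), lt_min hc (dd_zero_pos hm (h a (mem_insert_self a S))), ?_⟩
      intro q hq
      rcases mem_insert.1 hq with h2 | h2
      · rw [h2]; exact min_le_right _ _
      · exact (min_le_left _ _).trans (h1 q h2)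
  obtain ⟨c, hc, h⟩ := hfin ((range Q).filter Nat.Prime) fun q hq => (mem_filter.1 hq).2
  refine ⟨min c (1 / 2), lt_min hc (by norm_num), fun q hq => ?_⟩
  rcases lt_or_ge q Q with h1 | h1
  · exact (min_le_left _ _).trans (h q (mem_filter.2 ⟨mem_range.2 h1, hq⟩))
  · refine (min_le_right _ _).trans (le_trans ?_ (dd_zero_ge hm hq.one_le))
    have h2 : (3 : ℝ) * (m + 1) ≤ q := by
      have : Q ≤ q := h1
      rw [hQ] at this
      exact_mod_cast this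
    have h3 : KK m / (q : ℝ) ^ 2 ≤ 1 / 2 := by
      have hm0 : (0 : ℝ) ≤ m := Nat.cast_nonneg m
      rw [div_le_div_iff₀ (by have : (0 : ℝ) < q := by linarith
                              positivity) (by norm_num)]
      unfold KK
      nlinarith
    linarith

/-- the factor of a prime divisor of the repeated part -/
noncomputable def rr (m q : ℕ) : ℝ :=
  (m + 1) * (((q : ℝ) - 1) / (q : ℝ) ^ 2) * gu q (m - 1) / dd m q 0

lemma rr_nonneg {m : ℕ} (hm : 2 ≤ m) {q : ℕ} (hq : q.Prime) : 0 ≤ rr m q := by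
  have h2 : (2 : ℝ) ≤ q := by exact_mod_cast hq.two_le
  unfold rr
  have h3 := gu_nonneg hq.pos (m - 1)
  have h4 := dd_zero_pos hm hq
  have : 0 < (q : ℝ) - 1 := by linarith
  positivity

lemma rr_le {m : ℕ} (hm : 2 ≤ m) : ∃ C : ℝ, 0 < C ∧ ∀ q : ℕ, q.Prime → rr m q ≤ C / q := by
  obtain ⟨c, hc, h⟩ := dd_zero_lower hm
  refine ⟨(m + 1) / c, by positivity, fun q hq => ?_⟩
  have h2 : (2 : ℝ) ≤ q := by exact_mod_cast hq.two_le
  have hq0 : (0 : ℝ) < q := by linarith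
  unfold rr
  have h3 := gu_nonneg hq.pos (m - 1)
  have h4 := gu_le_one hq.pos (m - 1)
  have h5 : ((q : ℝ) - 1) / (q : ℝ) ^ 2 ≤ 1 / q := by
    rw [div_le_div_iff₀ (by positivity) hq0]
    nlinarith
  have h6 : 0 ≤ ((q : ℝ) - 1) / (q : ℝ) ^ 2 := div_nonneg (by linarith) (by positivity)
  calc (m + 1) * (((q : ℝ) - 1) / (q : ℝ) ^ 2) * gu q (m - 1) / dd m q 0 ≤
        (m + 1) * (1 / q) * 1 / c := by
        refine div_le_div₀ (by positivity) ?_ hc (h q hq)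
        refine mul_le_mul (mul_le_mul_of_nonneg_left h5 (by positivity)) h4 h3 (by positivity)
    _ = (m + 1) / c / q := by ring

lemma dd_succ {m : ℕ} (hm : 2 ≤ m) {q e : ℕ} (hq : q.Prime) (he : 0 < e) :
    dd m q e = dd m q 0 * (rr m q / (q : ℝ) ^ e) := by
  have h4 := (dd_zero_pos hm hq).ne'
  have hq0 : (q : ℝ) ≠ 0 := by exact_mod_cast hq.ne_zero
  unfold rr
  obtain ⟨D, hD⟩ : ∃ D, D = dd m q 0 := ⟨_, rfl⟩
  rw [← hD] at h4 ⊢
  unfold dd
  rw [if_neg he.ne', zero_add, pow_add]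
  field_simp

/-- the primes up to `N` -/
def PP (N : ℕ) : Finset ℕ := (range (N + 1)).filter Nat.Prime

lemma mem_PP {N q : ℕ} : q ∈ PP N ↔ q ≤ N ∧ q.Prime := by
  unfold PP
  rw [mem_filter, mem_range, Nat.lt_succ_iff]

lemma PP_prime (N : ℕ) : ∀ q ∈ PP N, q.Prime := fun _ hq => (mem_PP.1 hq).2

/-- the density of the tuples with squarefree, pairwise coprime entries -/
noncomputable def C0 (m : ℕ) : ℝ := ∏' q : Nat.Primes, dd m (q : ℕ) 0

/-- the summand -/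
noncomputable def gg0 (m n : ℕ) : ℝ := if n.Prime then dd m n 0 - 1 else 0

lemma gg0_summable {m : ℕ} (hm : 2 ≤ m) : Summable (fun n => ‖gg0 m n‖) := by
  have h : Summable fun n : ℕ => KK m * ((n : ℝ) ^ 2)⁻¹ :=
    (Real.summable_nat_pow_inv.2 (by norm_num)).mul_left (KK m)
  refine Summable.of_nonneg_of_le (fun n => norm_nonneg _) (fun n => ?_) h
  unfold gg0
  split_ifs with hp
  · have h1 := dd_zero_ge hm hp.one_le
    have h2 := dd_le_one (m := m) (by omega) hp.pos 0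
    rw [Real.norm_eq_abs, abs_le, ← div_eq_mul_inv]
    constructor <;> linarith
  · rw [norm_zero]
    have := KK_pos m
    positivity

lemma ff0_eq (m n : ℕ) : 1 + gg0 m n = if n.Prime then dd m n 0 else 1 := by
  unfold gg0
  split_ifs <;> ring

lemma C0_hasProd {m : ℕ} (hm : 2 ≤ m) :
    HasProd (fun n : ℕ => if n.Prime then dd m n 0 else 1) (C0 m) := by
  have hs : Multipliable (fun n : ℕ => 1 + gg0 m n) := multipliable_one_add_of_summable (gg0_summable hm)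
  have h1 := hs.hasProd
  have e : (fun n : ℕ => 1 + gg0 m n) = fun n : ℕ => if n.Prime then dd m n 0 else 1 :=
    funext (ff0_eq m)
  rw [e] at h1
  have e2 : ∏' n : ℕ, (if n.Prime then dd m n 0 else 1) = C0 m := by
    have h2 := tprod_subtype {p : ℕ | p.Prime} (fun n => dd m n 0)
    have h3 : (fun x => Set.mulIndicator {p : ℕ | p.Prime} (fun n => dd m n 0) x) =
        fun n : ℕ => if n.Prime then dd m n 0 else 1 := by
      funext n
      by_cases hn : n.Prime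
      · rw [Set.mulIndicator_of_mem (show n ∈ {p : ℕ | p.Prime} from hn), if_pos hn]
      · rw [Set.mulIndicator_of_notMem (show n ∉ {p : ℕ | p.Prime} from hn), if_neg hn]
    rw [h3] at h2
    rw [← h2]
    rfl
  rwa [e2] at h1

lemma C0_pos {m : ℕ} (hm : 2 ≤ m) : 0 < C0 m := by
  have h1 := (C0_hasProd hm).tprod_eq
  have hs : Summable (fun n => Real.log (1 + gg0 m n)) :=
    Real.summable_log_one_add_of_summable (gg0_summable hm).of_norm
  have e : (fun n : ℕ => 1 + gg0 m n) = fun n : ℕ => if n.Prime then dd m n 0 else 1 :=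
    funext (ff0_eq m)
  have hpos : ∀ n : ℕ, 0 < 1 + gg0 m n := by
    intro n
    rw [ff0_eq]
    split_ifs with h
    · exact dd_zero_pos hm h
    · exact one_pos
  have h2 := Real.rexp_tsum_eq_tprod hpos hs
  rw [e, h1] at h2
  rw [← h2]
  exact Real.exp_pos _

/-- the density of the local conditions at the primes up to `P0` -/
noncomputable def Dw (m w P0 : ℕ) : ℝ := ∏ q ∈ PP P0, dd m q (w.factorization q)

/-- the relative density of the repeated part `w` -/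
noncomputable def wt (m w : ℕ) : ℝ := (∏ q ∈ w.primeFactors, rr m q) / w

lemma Dw_one_tendsto {m : ℕ} (hm : 2 ≤ m) :
    Tendsto (fun P0 : ℕ => ∏ q ∈ PP P0, dd m q 0) atTop (𝓝 (C0 m)) := by
  have h1 := (C0_hasProd hm).tendsto_prod_nat
  have h2 := h1.comp (tendsto_add_atTop_nat 1)
  refine h2.congr fun P0 => ?_
  simp only [Function.comp]
  unfold PP
  rw [prod_filter]

lemma Dw_eq {m : ℕ} (hm : 2 ≤ m) {w : ℕ} (hw : 0 < w) {P0 : ℕ} (hP : w ≤ P0) :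
    Dw m w P0 = (∏ q ∈ PP P0, dd m q 0) * wt m w := by
  unfold Dw
  have e : ∀ q ∈ PP P0, dd m q (w.factorization q) =
      dd m q 0 * (if q ∈ w.primeFactors then rr m q / (q : ℝ) ^ (w.factorization q) else 1) := by
    intro q hq
    have hqp := PP_prime P0 q hq
    by_cases h : q ∈ w.primeFactors
    · rw [if_pos h]
      refine dd_succ hm hqp ?_
      exact hqp.factorization_pos_of_dvd hw.ne' (Nat.dvd_of_mem_primeFactors h)
    · rw [if_neg h, mul_one]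
      have : w.factorization q = 0 := by
        refine Nat.factorization_eq_zero_of_not_dvd fun hd => h ?_
        exact Nat.mem_primeFactors.2 ⟨hqp, hd, hw.ne'⟩
      rw [this]
  rw [prod_congr rfl e, prod_mul_distrib]
  congr 1
  have hsub : w.primeFactors ⊆ PP P0 := by
    intro q hq
    refine mem_PP.2 ⟨?_, Nat.prime_of_mem_primeFactors hq⟩
    exact (Nat.le_of_mem_primeFactors hq).trans hP
  rw [Finset.prod_ite_mem, inter_eq_right.2 hsub, prod_div_distrib]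
  unfold wt
  congr 1
  have h2 := Nat.prod_factorization_pow_eq_self hw.ne'
  have h3 : (w : ℝ) = ∏ q ∈ w.primeFactors, (q : ℝ) ^ (w.factorization q) := by
    conv_lhs => rw [← h2]
    rw [Finsupp.prod, Nat.support_factorization]
    push_cast
    rfl
  exact h3.symm

/-- **The density of the repeated part `w`.** -/
theorem Dw_tendsto {m : ℕ} (hm : 2 ≤ m) {w : ℕ} (hw : 0 < w) :
    Tendsto (fun P0 : ℕ => Dw m w P0) atTop (𝓝 (C0 m * wt m w)) := by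
  refine ((Dw_one_tendsto hm).mul_const (wt m w)).congr' ?_
  filter_upwards [eventually_ge_atTop w] with P0 hP
  exact (Dw_eq hm hw hP).symm

lemma Dw_le_one {m : ℕ} (hm : 2 ≤ m) (w P0 : ℕ) : Dw m w P0 ≤ 1 :=
  prod_le_one (fun q hq => dd_nonneg (by omega) (PP_prime P0 q hq).pos _)
    (fun q hq => dd_le_one (by omega) (PP_prime P0 q hq).pos _)

lemma wt_nonneg {m : ℕ} (hm : 2 ≤ m) (w : ℕ) : 0 ≤ wt m w := by
  unfold wt
  refine div_nonneg (prod_nonneg fun q hq => ?_) (Nat.cast_nonneg _)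
  exact rr_nonneg hm (Nat.prime_of_mem_primeFactors hq)

lemma C0wt_le {m : ℕ} (hm : 2 ≤ m) {w : ℕ} (hw : 0 < w) : C0 m * wt m w ≤ 1 :=
  le_of_tendsto (Dw_tendsto hm hw) (Eventually.of_forall fun P0 => Dw_le_one hm w P0)

/-- the density of the bad local behaviour -/
noncomputable def bet (m q : ℕ) : ℝ := 1 - dd m q 0

lemma bet_nonneg {m : ℕ} (hm : 2 ≤ m) {q : ℕ} (hq : q.Prime) : 0 ≤ bet m q := by
  unfold bet
  linarith [dd_le_one (m := m) (by omega) hq.pos 0]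

lemma bet_le {m : ℕ} (hm : 2 ≤ m) {q : ℕ} (hq : q.Prime) : bet m q ≤ KK m / (q : ℝ) ^ 2 := by
  unfold bet
  linarith [dd_zero_ge hm hq.one_le]

/-- Rankin's trick -/
theorem rankin {m : ℕ} (hm : 2 ≤ m) : ∃ C1 : ℝ, 0 < C1 ∧ ∀ (N : ℕ) (D : ℝ), 1 ≤ D →
    ∑ S ∈ (PP N).powerset with D < ((∏ q ∈ S, q : ℕ) : ℝ), ∏ q ∈ S, bet m q ≤
      C1 * D ^ (-(1 / 2) : ℝ) := by
  classical
  obtain ⟨Z, hZ⟩ : ∃ Z : ℝ, Z = ∑' n : ℕ, ((n : ℝ) ^ ((3 : ℝ) / 2))⁻¹ := ⟨_, rfl⟩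
  have hsm : Summable fun n : ℕ => ((n : ℝ) ^ ((3 : ℝ) / 2))⁻¹ :=
    Real.summable_nat_rpow_inv.2 (by norm_num)
  have hK := KK_pos m
  refine ⟨Real.exp (KK m * Z), Real.exp_pos _, fun N D hD => ?_⟩
  have hD0 : 0 < D := by linarith
  have hterm : ∀ S ∈ (PP N).powerset.filter (fun S => D < ((∏ q ∈ S, q : ℕ) : ℝ)),
      ∏ q ∈ S, bet m q ≤ D ^ (-(1 / 2) : ℝ) * ∏ q ∈ S, ((q : ℝ) ^ ((1 : ℝ) / 2) * bet m q) := by
    intro S hS
    obtain ⟨h1, h2⟩ := mem_filter.1 hS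
    have hp : ∀ q ∈ S, q.Prime := fun q hq => PP_prime N q (mem_powerset.1 h1 hq)
    have h3 : 0 ≤ ∏ q ∈ S, bet m q := prod_nonneg fun q hq => bet_nonneg hm (hp q hq)
    rw [prod_mul_distrib]
    have h4 : ∏ q ∈ S, (q : ℝ) ^ ((1 : ℝ) / 2) = (((∏ q ∈ S, q : ℕ) : ℝ)) ^ ((1 : ℝ) / 2) := by
      push_cast
      rw [Real.finsetProd_rpow S (fun q => (q : ℝ)) (fun q _ => Nat.cast_nonneg q)]
    rw [h4, ← mul_assoc]
    have h5 : 1 ≤ D ^ (-(1 / 2) : ℝ) * (((∏ q ∈ S, q : ℕ) : ℝ)) ^ ((1 : ℝ) / 2) := by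
      have h6 : D ^ ((1 : ℝ) / 2) ≤ (((∏ q ∈ S, q : ℕ) : ℝ)) ^ ((1 : ℝ) / 2) :=
        Real.rpow_le_rpow hD0.le h2.le (by norm_num)
      have h7 : D ^ (-(1 / 2) : ℝ) * D ^ ((1 : ℝ) / 2) = 1 := by
        rw [← Real.rpow_add hD0]
        norm_num
      exact h7.symm.le.trans (mul_le_mul_of_nonneg_left h6 (Real.rpow_nonneg hD0.le _))
    nlinarith
  refine (sum_le_sum hterm).trans ?_
  rw [← mul_sum, mul_comm (Real.exp (KK m * Z))]
  refine mul_le_mul_of_nonneg_left ?_ (Real.rpow_nonneg hD0.le _)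
  have hnn : ∀ q ∈ PP N, 0 ≤ (q : ℝ) ^ ((1 : ℝ) / 2) * bet m q := fun q hq =>
    mul_nonneg (by positivity) (bet_nonneg hm (PP_prime N q hq))
  have h1 : ∑ S ∈ (PP N).powerset with D < ((∏ q ∈ S, q : ℕ) : ℝ),
      ∏ q ∈ S, ((q : ℝ) ^ ((1 : ℝ) / 2) * bet m q) ≤
      ∑ S ∈ (PP N).powerset, ∏ q ∈ S, ((q : ℝ) ^ ((1 : ℝ) / 2) * bet m q) := by
    refine sum_le_sum_of_subset_of_nonneg (filter_subset _ _) fun S hS _ => ?_
    exact prod_nonneg fun q hq => hnn q (mem_powerset.1 hS hq)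
  refine h1.trans ?_
  rw [← prod_one_add]
  calc ∏ q ∈ PP N, (1 + (q : ℝ) ^ ((1 : ℝ) / 2) * bet m q)
      ≤ ∏ q ∈ PP N, Real.exp (KK m * ((q : ℝ) ^ ((3 : ℝ) / 2))⁻¹) := by
        refine prod_le_prod (fun q hq => by have := hnn q hq; linarith) fun q hq => ?_
        have hqp := PP_prime N q hq
        have h0 : (0 : ℝ) < q := by exact_mod_cast hqp.pos
        have h2 : (q : ℝ) ^ ((1 : ℝ) / 2) * bet m q ≤ KK m * ((q : ℝ) ^ ((3 : ℝ) / 2))⁻¹ := by
          have h3 : (q : ℝ) ^ ((1 : ℝ) / 2) * (KK m / (q : ℝ) ^ 2) =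
              KK m * ((q : ℝ) ^ ((3 : ℝ) / 2))⁻¹ := by
            rw [← Real.rpow_neg h0.le, ← Real.rpow_natCast, mul_div_assoc', mul_comm,
              mul_div_assoc, ← Real.rpow_sub h0]
            norm_num
          rw [← h3]
          exact mul_le_mul_of_nonneg_left (bet_le hm hqp) (by positivity)
        have h4 := Real.add_one_le_exp (KK m * ((q : ℝ) ^ ((3 : ℝ) / 2))⁻¹)
        linarith
    _ = Real.exp (∑ q ∈ PP N, KK m * ((q : ℝ) ^ ((3 : ℝ) / 2))⁻¹) := by rw [Real.exp_sum]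
    _ ≤ Real.exp (KK m * Z) := by
        refine Real.exp_le_exp.2 ?_
        rw [← mul_sum, hZ]
        exact mul_le_mul_of_nonneg_left (hsm.sum_le_tsum _ (fun n _ => by positivity)) hK.le

/-- the primes up to `N` that do not divide `w` -/
def PPw (w N : ℕ) : Finset ℕ := (PP N).filter (fun q => ¬ q ∣ w)

lemma mem_PPw {w N q : ℕ} : q ∈ PPw w N ↔ (q ≤ N ∧ q.Prime) ∧ ¬ q ∣ w := by
  unfold PPw
  rw [mem_filter, mem_PP]

lemma PPw_sub (w N : ℕ) : PPw w N ⊆ PP N := filter_subset _ _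

/-- the densities at the primes dividing `w` -/
noncomputable def Aw (m w : ℕ) : ℝ := ∏ q ∈ w.primeFactors, dd m q (w.factorization q)

lemma Aw_nonneg {m : ℕ} (hm : 2 ≤ m) (w : ℕ) : 0 ≤ Aw m w :=
  prod_nonneg fun q hq => dd_nonneg (by omega) (Nat.prime_of_mem_primeFactors hq).pos _

lemma Aw_le_one {m : ℕ} (hm : 2 ≤ m) (w : ℕ) : Aw m w ≤ 1 :=
  prod_le_one (fun q hq => dd_nonneg (by omega) (Nat.prime_of_mem_primeFactors hq).pos _)
    (fun q hq => dd_le_one (by omega) (Nat.prime_of_mem_primeFactors hq).pos _)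

lemma PP_split {w : ℕ} (hw : 0 < w) {N : ℕ} (hN : w ≤ N) :
    Disjoint w.primeFactors (PPw w N) ∧ PP N = w.primeFactors ∪ PPw w N := by
  constructor
  · rw [disjoint_left]
    intro q hq hq'
    exact (mem_PPw.1 hq').2 (Nat.dvd_of_mem_primeFactors hq)
  · ext q
    rw [mem_union, mem_PPw, mem_PP, Nat.mem_primeFactors]
    constructor
    · rintro ⟨h1, h2⟩
      by_cases h : q ∣ w
      · exact Or.inl ⟨h2, h, hw.ne'⟩
      · exact Or.inr ⟨⟨h1, h2⟩, h⟩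
    · rintro (⟨h1, h2, -⟩ | ⟨h1, -⟩)
      · exact ⟨(Nat.le_of_dvd hw h2).trans hN, h1⟩
      · exact h1

lemma Dw_split {m w : ℕ} (hw : 0 < w) {N : ℕ} (hN : w ≤ N) :
    Dw m w N = Aw m w * ∏ q ∈ PPw w N, (1 - bet m q) := by
  obtain ⟨h1, h2⟩ := PP_split hw hN
  unfold Dw Aw
  rw [h2, prod_union h1]
  congr 1
  refine prod_congr rfl fun q hq => ?_
  have : w.factorization q = 0 := Nat.factorization_eq_zero_of_not_dvd (mem_PPw.1 hq).2
  rw [this]
  unfold bet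
  ring

/-- the truncated singular series -/
noncomputable def TS0 (m w D : ℕ) : ℝ :=
  ∑ S ∈ (PPw w D).powerset with ((∏ q ∈ S, q : ℕ) : ℝ) ≤ D, (-1 : ℝ) ^ S.card * ∏ q ∈ S, bet m q

theorem TS0_approx {m : ℕ} (hm : 2 ≤ m) : ∃ C1 : ℝ, 0 < C1 ∧
    (∀ (N : ℕ) (D : ℝ), 1 ≤ D →
    ∑ S ∈ (PP N).powerset with D < ((∏ q ∈ S, q : ℕ) : ℝ), ∏ q ∈ S, bet m q ≤
      C1 * D ^ (-(1 / 2) : ℝ)) ∧ ∀ (w D : ℕ), 0 < w → 1 ≤ D →
    |Aw m w * TS0 m w D - C0 m * wt m w| ≤ C1 * (D : ℝ) ^ (-(1 / 2) : ℝ) := by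
  classical
  obtain ⟨C1, hC1, hR⟩ := rankin hm
  refine ⟨C1, hC1, hR, fun w D hw hD => ?_⟩
  have hD1 : (1 : ℝ) ≤ D := by exact_mod_cast hD
  have hlim := (((Dw_tendsto hm hw).const_sub (Aw m w * TS0 m w D))).abs
  refine le_of_tendsto hlim ?_
  filter_upwards [eventually_ge_atTop (max w D)] with N hN
  have hwN : w ≤ N := (le_max_left _ _).trans hN
  have hDN : D ≤ N := (le_max_right _ _).trans hN
  rw [Dw_split hw hwN, ← mul_sub, abs_mul, abs_of_nonneg (Aw_nonneg hm w)]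
  have e1 : ∏ q ∈ PPw w N, (1 - bet m q) =
      ∑ S ∈ (PPw w N).powerset, (-1 : ℝ) ^ S.card * ∏ q ∈ S, bet m q := by
    have : ∏ q ∈ PPw w N, (1 - bet m q) = ∏ q ∈ PPw w N, (1 + (-bet m q)) := by
      refine prod_congr rfl fun q _ => by ring
    rw [this, prod_one_add]
    refine sum_congr rfl fun S _ => ?_
    rw [prod_neg]
  have e2 : TS0 m w D = ∑ S ∈ (PPw w N).powerset with ((∏ q ∈ S, q : ℕ) : ℝ) ≤ D,
      (-1 : ℝ) ^ S.card * ∏ q ∈ S, bet m q := by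
    unfold TS0
    refine sum_congr ?_ fun _ _ => rfl
    ext S
    rw [mem_filter, mem_filter, mem_powerset, mem_powerset]
    constructor
    · rintro ⟨h1, h2⟩
      refine ⟨fun q hq => ?_, h2⟩
      have := mem_PPw.1 (h1 hq)
      exact mem_PPw.2 ⟨⟨this.1.1.trans hDN, this.1.2⟩, this.2⟩
    · rintro ⟨h1, h2⟩
      refine ⟨fun q hq => ?_, h2⟩
      have h3 := mem_PPw.1 (h1 hq)
      have h4 : q ∣ ∏ q ∈ S, q := dvd_prod_of_mem _ hq
      have h5 : 0 < ∏ q ∈ S, q := Finset.prod_pos fun r hr => (mem_PPw.1 (h1 hr)).1.2.pos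
      have h6 := Nat.le_of_dvd h5 h4
      have h7 : ∏ q ∈ S, q ≤ D := by exact_mod_cast h2
      exact mem_PPw.2 ⟨⟨h6.trans h7, h3.1.2⟩, h3.2⟩
  rw [e1, e2, ← sum_filter_add_sum_filter_not (PPw w N).powerset
    (fun S => ((∏ q ∈ S, q : ℕ) : ℝ) ≤ D), sub_add_eq_sub_sub, sub_self, zero_sub, abs_neg]
  have h1 : |∑ S ∈ (PPw w N).powerset with ¬ ((∏ q ∈ S, q : ℕ) : ℝ) ≤ D,
      (-1 : ℝ) ^ S.card * ∏ q ∈ S, bet m q| ≤ C1 * (D : ℝ) ^ (-(1 / 2) : ℝ) := by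
    refine (abs_sum_le_sum_abs _ _).trans ?_
    refine le_trans ?_ (hR N D hD1)
    have h2 : ∀ S ∈ (PPw w N).powerset.filter (fun S => ¬ ((∏ q ∈ S, q : ℕ) : ℝ) ≤ D),
        |(-1 : ℝ) ^ S.card * ∏ q ∈ S, bet m q| = ∏ q ∈ S, bet m q := by
      intro S hS
      have h3 := mem_powerset.1 (mem_filter.1 hS).1
      rw [abs_mul, abs_pow, abs_neg, abs_one, one_pow, one_mul, abs_of_nonneg]
      exact prod_nonneg fun q hq => bet_nonneg hm (mem_PPw.1 (h3 hq)).1.2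
    rw [sum_congr rfl h2]
    refine sum_le_sum_of_subset_of_nonneg ?_ fun S hS _ => ?_
    · intro S hS
      obtain ⟨h3, h4⟩ := mem_filter.1 hS
      exact mem_filter.2 ⟨mem_powerset.2 ((mem_powerset.1 h3).trans (PPw_sub w N)), not_le.1 h4⟩
    · have h3 := mem_powerset.1 (mem_filter.1 hS).1
      exact prod_nonneg fun q hq => bet_nonneg hm (PP_prime N q (h3 hq))
  calc Aw m w * |∑ S ∈ (PPw w N).powerset with ¬ ((∏ q ∈ S, q : ℕ) : ℝ) ≤ D,
      (-1 : ℝ) ^ S.card * ∏ q ∈ S, bet m q| ≤ 1 * (C1 * (D : ℝ) ^ (-(1 / 2) : ℝ)) :=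
        mul_le_mul (Aw_le_one hm w) h1 (abs_nonneg _) zero_le_one
    _ = _ := one_mul _

/-- the sets of primes with bounded product -/
lemma card_sets {w N M : ℕ} :
    (((PPw w N).powerset.filter (fun S => ((∏ q ∈ S, q : ℕ) : ℝ) ≤ M)).card : ℝ) ≤ M := by
  classical
  have : ((PPw w N).powerset.filter (fun S => ((∏ q ∈ S, q : ℕ) : ℝ) ≤ M)).card ≤
      (Finset.Icc 1 M).card := by
    refine card_le_card_of_injOn (fun S => ∏ q ∈ S, q) ?_ ?_
    · intro S hS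
      rw [mem_coe, mem_filter, mem_powerset] at hS
      rw [mem_coe, mem_Icc]
      refine ⟨Nat.succ_le_of_lt (Finset.prod_pos fun r hr => (mem_PPw.1 (hS.1 hr)).1.2.pos), ?_⟩
      exact_mod_cast hS.2
    · intro S hS S' hS' h
      rw [mem_coe, mem_filter, mem_powerset] at hS hS'
      have h1 := Nat.primeFactors_prod (s := S) (fun q hq => (mem_PPw.1 (hS.1 hq)).1.2)
      have h2 := Nat.primeFactors_prod (s := S') (fun q hq => (mem_PPw.1 (hS'.1 hq)).1.2)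
      simp only at h
      rw [← h1, ← h2, h]
  rw [Nat.card_Icc] at this
  have h2 : ((PPw w N).powerset.filter (fun S => ((∏ q ∈ S, q : ℕ) : ℝ) ≤ M)).card ≤ M := by omega
  exact_mod_cast h2

end Pool.Agent.V7H9.SN
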