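import Pool.Agent.V7H9.SN.Vol
import Pool.Agent.W625.NC.Dc
import Pool.Agent.H785R2.ABC.A345
import Pool.Agent.H785R2.ABC.A12
import Pool.Agent.H785R2.ABC.Basics
import Pool.Agent.H705R2.ABC.Fac

set_option autoImplicit false

/-!
# The difference bound
-/

namespace Pool.Agent.V7H9.SN

open Finset Pool.Agent.H785R2.ABC Pool.Agent.H705R2.ABC Pool.Agent.W625.NC
open Pool.Agent.W625.NC.Dc (num_inj num_lin)
open Pool.Agent.H705R2.ABC.Dc (cs_count pow_diff_inj combine)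

theorem a4 : StmtA4 := stmtA4_of (stmtA3_of stmtA2)

/-- triples on an affine plane with radicals at most `R`, whose first entry has a large part of
exponent `i + 1 ≥ 2` -/
theorem diff_count (K : ℕ) {ε : ℝ} (hε : 0 < ε) : ∃ C : ℝ, 0 < C ∧ ∀ (σ : Fin 3 → ℤ),
    (∀ j, σ j = 1 ∨ σ j = -1) → ∀ (h : ℤ) (X : ℕ) (R U : ℝ) (i : Fin (K + 1)), 1 ≤ (i : ℕ) →
    (i : ℕ) < K → 1 ≤ X → 0 ≤ R → 1 ≤ U → ∀ T : Finset (ℕ × ℕ × ℕ),
    (∀ t ∈ T, HTri σ h X t ∧ (∀ j, (rad (num t j) : ℝ) ≤ R) ∧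
      U ≤ (rd K (num t 0) {i} : ℝ)) →
    (T.card : ℝ) ≤ C * (X : ℝ) ^ ε * (R ^ 2 * U ^ (-(1 / 2) : ℝ)) := by
  have hF : Basics := basics
  obtain ⟨D4, hD4, hA⟩ := a4 (ε / 3) (by positivity)
  obtain ⟨Dt, hDt, hτ⟩ := stmtTau (ε / 3) (by positivity)
  refine ⟨2 * D4 ^ 2 * (1 + Dt), by positivity, ?_⟩
  intro σ hσ h X R U i hi1 hiK hXpos hR hU1 T hT
  classical
  have hU0 : 0 < U := by linarith
  have hnumX : ∀ t ∈ T, ∀ j, num t j ≤ X := fun t ht j => (hT t ht).1.le j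
  have hnum1 : ∀ t ∈ T, ∀ j, 1 ≤ num t j := fun t ht j => (hT t ht).1.pos j
  -- the power of X
  obtain ⟨y, hy⟩ : ∃ y : ℝ, y = (X : ℝ) ^ (ε / 3) := ⟨_, rfl⟩
  have hXr : (1 : ℝ) ≤ X := by exact_mod_cast hXpos
  have hy1 : 1 ≤ y := by rw [hy]; exact Real.one_le_rpow hXr (by positivity)
  have hy3 : y ^ 3 = (X : ℝ) ^ ε := by
    rw [hy, ← Real.rpow_natCast, ← Real.rpow_mul (by positivity)]
    norm_num
  -- the sets of numbers with small radical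
  have hU' : ∀ R : ℝ, 0 ≤ R → (((Finset.Icc 1 X).filter fun d => (rad d : ℝ) ≤ R).card : ℝ) ≤
      D4 * y * R := by
    intro R hR
    have h1 := hA X hXpos R hR
    rwa [← hy] at h1
  -- the map G
  let G : ℕ × ℕ × ℕ → ℕ × ℕ := fun t => (part K (num t 0) {i}ᶜ, num t 1)
  have himg : ((T.image G).card : ℝ) ≤ (D4 * y * (R / U)) * (D4 * y * R) := by
    have h1 : T.image G ⊆ ((Finset.Icc 1 X).filter fun d => (rad d : ℝ) ≤ R / U) ×ˢ
        ((Finset.Icc 1 X).filter fun d => (rad d : ℝ) ≤ R) := by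
      intro z hz
      obtain ⟨t, ht, rfl⟩ := mem_image.1 hz
      obtain ⟨a1, a2, a3⟩ := hT t ht
      simp only [G, mem_product, mem_filter, mem_Icc]
      refine ⟨⟨⟨hF.part_pos _ _ _, ?_⟩, ?_⟩, ⟨hnum1 t ht 1, hnumX t ht 1⟩, a2 1⟩
      · exact (Nat.le_of_dvd (hnum1 t ht 0) (hF.part_dvd _ _ _ (hnum1 t ht 0))).trans (hnumX t ht 0)
      · rw [hF.rad_part _ _ _ (hnum1 t ht 0), le_div_iff₀ hU0]
        have h2 := hF.rd_mul K (num t 0) {i}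
        have h3 : (rd K (num t 0) {i} : ℝ) * rd K (num t 0) {i}ᶜ = rad (num t 0) := by
          exact_mod_cast h2
        have h4 : (0 : ℝ) ≤ rd K (num t 0) {i}ᶜ := Nat.cast_nonneg _
        have h5 := a2 0
        nlinarith
    calc ((T.image G).card : ℝ) ≤ ((((Finset.Icc 1 X).filter fun d => (rad d : ℝ) ≤ R / U) ×ˢ
        ((Finset.Icc 1 X).filter fun d => (rad d : ℝ) ≤ R)).card : ℝ) := by
          exact_mod_cast card_le_card h1
      _ = (((Finset.Icc 1 X).filter fun d => (rad d : ℝ) ≤ R / U).card : ℝ) *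
          (((Finset.Icc 1 X).filter fun d => (rad d : ℝ) ≤ R).card : ℝ) := by
          rw [card_product]; push_cast; ring
      _ ≤ _ := mul_le_mul (hU' (R / U) (by positivity)) (hU' R hR) (by positivity) (by positivity)
  -- the pairs
  obtain ⟨a, b, c0, hab, hlin⟩ := num_lin hσ h X (p := 0) (q := 1) (r := 2) (by decide) (by decide)
    (by decide)
  let Us : Finset ℕ := (Finset.Icc 1 X).filter fun d => (rad d : ℝ) ≤ R
  let x : ℕ × ℕ × ℕ → ℕ := fun t => rd K (num t 0) {i}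
  let A : ℕ × ℕ × ℕ → ℕ := fun t => part K (num t 0) {i}ᶜ
  have hnp : ∀ t ∈ T, num t 0 = A t * x t ^ ((i : ℕ) + 1) := by
    intro t ht
    have h1 := hF.part_mul K (num t 0) {i} (hnum1 t ht 0)
    rw [hF.part_single K (num t 0) i hiK] at h1
    rw [← h1, mul_comm]
  let P := (T ×ˢ T).filter fun z => z.1 ≠ z.2 ∧ G z.1 = G z.2
  have hP : ∀ z ∈ P, z.1 ∈ T ∧ z.2 ∈ T ∧ z.1 ≠ z.2 ∧ A z.1 = A z.2 ∧
      num z.1 1 = num z.2 1 := by
    intro z hz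
    simp only [P, mem_filter, mem_product, G, Prod.mk.injEq] at hz
    exact ⟨hz.1.1, hz.1.2, hz.2.1, hz.2.2.1, hz.2.2.2⟩
  have hdiff : ∀ z ∈ P, (num z.1 2 : ℤ) - num z.2 2 =
      a * (A z.1 * ((x z.1 : ℤ) ^ ((i : ℕ) + 1) - (x z.2 : ℤ) ^ ((i : ℕ) + 1))) := by
    intro z hz
    obtain ⟨h1, h2, h3, h4, h5⟩ := hP z hz
    rw [hlin z.1 (hT _ h1).1, hlin z.2 (hT _ h2).1, h5, hnp z.1 h1, hnp z.2 h2, ← h4]
    push_cast
    ring
  have hxne : ∀ z ∈ P, x z.1 ≠ x z.2 := by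
    intro z hz hx
    obtain ⟨h1, h2, h3, h4, h5⟩ := hP z hz
    refine h3 (num_inj hσ (hT _ h1).1 (hT _ h2).1 (p := 0) (q := 1) (by decide) ?_ h5)
    rw [hnp z.1 h1, hnp z.2 h2, h4, hx]
  have hrne : ∀ z ∈ P, num z.1 2 ≠ num z.2 2 := by
    intro z hz hx
    obtain ⟨h1, h2, h3, h4, h5⟩ := hP z hz
    exact h3 (num_inj hσ (hT _ h1).1 (hT _ h2).1 (p := 1) (q := 2) (by decide) h5 hx)
  let Φ : (ℕ × ℕ × ℕ) × (ℕ × ℕ × ℕ) → (ℕ × ℕ) × (ℕ × ℕ × Bool) := fun z =>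
    ((num z.1 2, num z.2 2), (A z.1, ((x z.1 : ℤ) - x z.2).natAbs, decide (x z.2 < x z.1)))
  let dv : ℕ × ℕ → Finset ℕ := fun w => ((w.1 : ℤ) - w.2).natAbs.divisors
  let Z : Finset ((ℕ × ℕ) × (ℕ × ℕ × Bool)) :=
    (Us ×ˢ Us).biUnion fun w => ({w} : Finset (ℕ × ℕ)) ×ˢ (dv w ×ˢ (dv w ×ˢ (univ : Finset Bool)))
  have hmaps : ∀ z ∈ P, Φ z ∈ Z := by
    intro z hz
    obtain ⟨h1, h2, h3, h4, h5⟩ := hP z hz
    have hd := hdiff z hz
    have hmemU : ∀ t ∈ T, num t 2 ∈ Us := by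
      intro t ht
      simp only [Us, mem_filter, mem_Icc]
      exact ⟨⟨hnum1 t ht 2, hnumX t ht 2⟩, (hT t ht).2.1 2⟩
    simp only [Z, mem_biUnion, mem_product, mem_singleton]
    refine ⟨(num z.1 2, num z.2 2), ⟨hmemU _ h1, hmemU _ h2⟩, rfl, ?_, ?_, mem_univ _⟩
    · simp only [Φ, dv, Nat.mem_divisors]
      refine ⟨?_, ?_⟩
      · rw [← Int.natCast_dvd, hd]
        exact ⟨a * ((x z.1 : ℤ) ^ ((i : ℕ) + 1) - (x z.2 : ℤ) ^ ((i : ℕ) + 1)), by ring⟩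
      · have := hrne z hz
        omega
    · simp only [Φ, dv, Nat.mem_divisors]
      refine ⟨?_, ?_⟩
      · rw [Int.natAbs_dvd_natAbs, hd]
        exact Dvd.dvd.mul_left (Dvd.dvd.mul_left (sub_dvd_pow_sub_pow _ _ _) _) _
      · have := hrne z hz
        omega
  have hinj : Set.InjOn Φ (P : Set ((ℕ × ℕ × ℕ) × (ℕ × ℕ × ℕ))) := by
    intro z hz w hw hzw
    have hz' := Finset.mem_coe.1 hz
    have hw' := Finset.mem_coe.1 hw
    obtain ⟨h1, h2, h3, h4, h5⟩ := hP z hz'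
    obtain ⟨g1, g2, g3, g4, g5⟩ := hP w hw'
    simp only [Φ, Prod.mk.injEq] at hzw
    obtain ⟨⟨e1, e2⟩, e3, e4, e5⟩ := hzw
    have hdz := hdiff z hz'
    have hdw := hdiff w hw'
    have hA0 : (A z.1 : ℤ) ≠ 0 := by
      have : 1 ≤ A z.1 := hF.part_pos _ _ _
      omega
    have ha0 : a ≠ 0 := by rcases hab with h | h <;> rw [h] <;> norm_num
    rw [e1, e2, hdw, ← e3] at hdz
    have e6 := mul_left_cancel₀ hA0 (mul_left_cancel₀ ha0 hdz)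
    obtain ⟨e7, e8⟩ := pow_diff_inj (k := (i : ℕ) + 1) (by omega) (hxne z hz') e6.symm e4 e5
    refine Prod.ext ?_ ?_
    · refine num_inj hσ (hT _ h1).1 (hT _ g1).1 (p := 0) (q := 2) (by decide) ?_ e1
      rw [hnp z.1 h1, hnp w.1 g1, e3, e7]
    · refine num_inj hσ (hT _ h2).1 (hT _ g2).1 (p := 0) (q := 2) (by decide) ?_ e2
      rw [hnp z.2 h2, hnp w.2 g2, ← h4, ← g4, e3, e8]
  have hdv : ∀ w ∈ Us ×ˢ Us, ((dv w).card : ℝ) ≤ Dt * y := by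
    intro w hw
    simp only [Us, mem_product, mem_filter, mem_Icc] at hw
    by_cases h0 : ((w.1 : ℤ) - w.2).natAbs = 0
    · simp only [dv, h0, Nat.divisors_zero, card_empty, Nat.cast_zero]
      positivity
    · refine (hτ _ (Nat.one_le_iff_ne_zero.2 h0)).trans ?_
      rw [hy]
      refine mul_le_mul_of_nonneg_left (Real.rpow_le_rpow (by positivity) ?_ (by positivity)) hDt.le
      have : ((w.1 : ℤ) - w.2).natAbs ≤ X := by omega
      exact_mod_cast this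
  have hPcard : (P.card : ℝ) ≤ (D4 * y * R) ^ 2 * (2 * (Dt * y) ^ 2) := by
    have h1 : P.card ≤ Z.card := card_le_card_of_injOn Φ (fun z hz => hmaps z hz) hinj
    have h2 : (Z.card : ℝ) ≤ ∑ w ∈ Us ×ˢ Us, (2 * (Dt * y) ^ 2) := by
      have h3 : Z.card ≤ ∑ w ∈ Us ×ˢ Us, (({w} : Finset (ℕ × ℕ)) ×ˢ
          (dv w ×ˢ (dv w ×ˢ (univ : Finset Bool)))).card := card_biUnion_le
      calc (Z.card : ℝ) ≤ ((∑ w ∈ Us ×ˢ Us, (({w} : Finset (ℕ × ℕ)) ×ˢ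
          (dv w ×ˢ (dv w ×ˢ (univ : Finset Bool)))).card : ℕ) : ℝ) := by exact_mod_cast h3
        _ ≤ _ := by
          push_cast
          refine sum_le_sum fun w hw => ?_
          have h4 := hdv w hw
          rw [card_product, card_product, card_product, card_singleton, card_univ,
            Fintype.card_bool]
          push_cast
          have h5 : ((dv w).card : ℝ) * (dv w).card ≤ (Dt * y) * (Dt * y) :=
            mul_le_mul h4 h4 (Nat.cast_nonneg _) (by positivity)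
          nlinarith
    have h6 : ((Us ×ˢ Us).card : ℝ) ≤ (D4 * y * R) ^ 2 := by
      rw [card_product]
      push_cast
      rw [sq]
      exact mul_le_mul (hU' R hR) (hU' R hR) (Nat.cast_nonneg _) (by positivity)
    calc (P.card : ℝ) ≤ Z.card := by exact_mod_cast h1
      _ ≤ ∑ w ∈ Us ×ˢ Us, (2 * (Dt * y) ^ 2) := h2
      _ = ((Us ×ˢ Us).card : ℝ) * (2 * (Dt * y) ^ 2) := by rw [sum_const, nsmul_eq_mul]
      _ ≤ _ := mul_le_mul_of_nonneg_right h6 (by positivity)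
  -- Cauchy-Schwarz
  have hcs : (T.card : ℝ) ^ 2 ≤ ((T.image G).card : ℝ) * (T.card + P.card) := by
    exact_mod_cast cs_count T G
  have hy0 : 0 ≤ y := by linarith
  obtain ⟨ρ, hρ⟩ : ∃ ρ : ℝ, ρ = U ^ (-(1 / 2) : ℝ) := ⟨_, rfl⟩
  have hρ0 : 0 < ρ := by rw [hρ]; positivity
  have hρ2 : ρ ^ 2 = U⁻¹ := by
    rw [hρ, ← Real.rpow_natCast, ← Real.rpow_mul (by positivity), ← Real.rpow_neg_one]
    norm_num
  have hρ1 : ρ ≤ 1 := by
    rw [hρ]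
    exact Real.rpow_le_one_of_one_le_of_nonpos hU1 (by norm_num)
  rw [← hρ]
  have hfin : (T.card : ℝ) ≤ 2 * ((D4 * y * (R / U)) * (D4 * y * R)) +
      2 * D4 ^ 2 * Dt * y ^ 3 * R ^ 2 * ρ := by
    refine combine (M := ((D4 * y * R) ^ 2 * (2 * (Dt * y) ^ 2))) (Nat.cast_nonneg _) (by positivity)
      (by positivity) ?_ ?_
    · refine hcs.trans ?_
      exact mul_le_mul himg (by linarith) (add_nonneg (Nat.cast_nonneg _) (Nat.cast_nonneg _))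
        (by positivity)
    · have : (2 * D4 ^ 2 * Dt * y ^ 3 * R ^ 2 * ρ) ^ 2 = 4 * D4 ^ 4 * Dt ^ 2 * y ^ 6 * R ^ 4 * ρ ^ 2 := by
        ring
      rw [this, hρ2, div_eq_mul_inv]
      apply le_of_eq
      ring
  have hy23 : y ^ 2 ≤ y ^ 3 := pow_le_pow_right₀ hy1 (by norm_num)
  have hρU : U⁻¹ ≤ ρ := by
    rw [← hρ2]
    nlinarith
  calc (T.card : ℝ) ≤ 2 * ((D4 * y * (R / U)) * (D4 * y * R)) +
        2 * D4 ^ 2 * Dt * y ^ 3 * R ^ 2 * ρ := hfin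
    _ = 2 * D4 ^ 2 * R ^ 2 * (y ^ 2 * U⁻¹) + 2 * D4 ^ 2 * Dt * y ^ 3 * R ^ 2 * ρ := by
        rw [div_eq_mul_inv]; ring
    _ ≤ 2 * D4 ^ 2 * R ^ 2 * (y ^ 3 * ρ) + 2 * D4 ^ 2 * Dt * y ^ 3 * R ^ 2 * ρ := by
        have h1 : y ^ 2 * U⁻¹ ≤ y ^ 3 * ρ := mul_le_mul hy23 hρU (by positivity) (by positivity)
        have : 2 * D4 ^ 2 * R ^ 2 * (y ^ 2 * U⁻¹) ≤ 2 * D4 ^ 2 * R ^ 2 * (y ^ 3 * ρ) :=
          mul_le_mul_of_nonneg_left h1 (by positivity)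
        linarith
    _ = 2 * D4 ^ 2 * (1 + Dt) * y ^ 3 * (R ^ 2 * ρ) := by ring
    _ = _ := by rw [hy3]

end Pool.Agent.V7H9.SN
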