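import Pool.Agent.V7H9.SN.Cusp

set_option autoImplicit false

/-!
# The volume of the region
-/

namespace Pool.Agent.V7H9.SN

open Finset MeasureTheory

lemma card_IcN (N : ℕ) : (Finset.Icc (-(N : ℤ)) N).card = 2 * N + 1 := by
  rw [Int.card_Icc]
  omega

/-- tuples with one restricted entry -/
lemma one_index {m N : ℕ} (hm : 1 ≤ m) (j : Fin (m + 1)) (F : Finset (Fin (m + 1) → ℤ))
    (S : Finset ℤ) (h : ∀ x ∈ F, ∑ i, x i = 0 ∧ (∀ i, |x i| ≤ (N : ℤ)) ∧ x j ∈ S) :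
    F.card ≤ S.card * (2 * N + 1) ^ (m - 1) := by
  classical
  obtain ⟨l, hl⟩ : ∃ l : Fin (m + 1), l ≠ j := by
    have : Nontrivial (Fin (m + 1)) := Fin.nontrivial_iff_two_le.2 (by omega)
    exact exists_ne j
  have h1 := inj_card l F (fun i => if i = j then S else Finset.Icc (-(N : ℤ)) N) (fun x hx => by
    obtain ⟨a1, a2, a3⟩ := h x hx
    refine ⟨a1, fun i _ => ?_⟩
    split_ifs with hi
    · rw [hi]; exact a3
    · rw [mem_Icc]; exact abs_le.1 (a2 i))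
  refine h1.trans (le_of_eq ?_)
  have hj : j ∈ univ.erase l := mem_erase.2 ⟨hl.symm, mem_univ _⟩
  rw [← mul_prod_erase _ _ hj, if_pos rfl]
  congr 1
  have h2 : ∀ i ∈ (univ.erase l).erase j,
      (if i = j then S else Finset.Icc (-(N : ℤ)) N).card = 2 * N + 1 := by
    intro i hi
    rw [if_neg (ne_of_mem_erase hi), card_IcN]
  rw [prod_congr rfl h2, prod_const, card_erase_of_mem hj, card_erase_of_mem (mem_univ _),
    card_univ, Fintype.card_fin]
  rfl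

/-- tuples with two restricted entries -/
lemma two_index {m N : ℕ} (hm : 2 ≤ m) {j k : Fin (m + 1)} (hjk : j ≠ k)
    (F : Finset (Fin (m + 1) → ℤ)) (S T : Finset ℤ)
    (h : ∀ x ∈ F, ∑ i, x i = 0 ∧ (∀ i, |x i| ≤ (N : ℤ)) ∧ x j ∈ S ∧ x k ∈ T) :
    F.card ≤ S.card * T.card * (2 * N + 1) ^ (m - 2) := by
  classical
  obtain ⟨l, hl⟩ : ∃ l : Fin (m + 1), l ∉ ({j, k} : Finset (Fin (m + 1))) := by
    by_contra hc
    push Not at hc
    have h1 : (univ : Finset (Fin (m + 1))) ⊆ {j, k} := fun i _ => by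
      by_contra hcon
      exact hcon (hc i)
    have h2 := card_le_card h1
    rw [card_univ, Fintype.card_fin] at h2
    have h3 := card_le_two (a := j) (b := k)
    omega
  rw [mem_insert, mem_singleton, not_or] at hl
  have h1 := inj_card l F (fun i => if i = j then S else if i = k then T else
    Finset.Icc (-(N : ℤ)) N) (fun x hx => by
    obtain ⟨a1, a2, a3, a4⟩ := h x hx
    refine ⟨a1, fun i _ => ?_⟩
    split_ifs with hi hi2
    · rw [hi]; exact a3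
    · rw [hi2]; exact a4
    · rw [mem_Icc]; exact abs_le.1 (a2 i))
  refine h1.trans (le_of_eq ?_)
  have hj : j ∈ univ.erase l := mem_erase.2 ⟨Ne.symm hl.1, mem_univ _⟩
  have hk : k ∈ (univ.erase l).erase j := mem_erase.2 ⟨hjk.symm, mem_erase.2 ⟨Ne.symm hl.2, mem_univ _⟩⟩
  rw [← mul_prod_erase _ _ hj, if_pos rfl, ← mul_prod_erase _ _ hk, if_neg hjk.symm, if_pos rfl,
    ← mul_assoc]
  congr 1
  have h2 : ∀ i ∈ ((univ.erase l).erase j).erase k,
      (if i = j then S else if i = k then T else Finset.Icc (-(N : ℤ)) N).card = 2 * N + 1 := by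
    intro i hi
    rw [if_neg (ne_of_mem_erase (mem_of_mem_erase hi)), if_neg (ne_of_mem_erase hi), card_IcN]
  rw [prod_congr rfl h2, prod_const, card_erase_of_mem hk, card_erase_of_mem hj,
    card_erase_of_mem (mem_univ _), card_univ, Fintype.card_fin]
  rfl

lemma full_abs_le {m : ℕ} (hm : 1 ≤ m) {z : Fin m → ℤ} {B : ℝ} (h : ∀ i, |(z i : ℝ)| ≤ B)
    (i : Fin (m + 1)) : |full z i| ≤ (⌊m * B⌋₊ : ℤ) := by
  have hB : 0 ≤ B := by
    have : 0 < m := hm
    exact (abs_nonneg _).trans (h ⟨0, this⟩)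
  have hmr : (1 : ℝ) ≤ m := by exact_mod_cast hm
  have key : |((full z i : ℤ) : ℝ)| ≤ m * B := by
    refine Fin.cases ?_ (fun j => ?_) i
    · rw [full_zero]
      push_cast
      rw [abs_neg]
      refine (abs_sum_le_sum_abs _ _).trans ?_
      refine (sum_le_sum fun j _ => h j).trans (le_of_eq ?_)
      rw [sum_const, card_univ, Fintype.card_fin, nsmul_eq_mul]
    · rw [full_succ]
      refine (h j).trans ?_
      nlinarith
  have e : |((full z i : ℤ) : ℝ)| = ((full z i).natAbs : ℝ) := by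
    rw [Nat.cast_natAbs, Int.cast_abs]
  rw [e] at key
  rw [Int.abs_eq_natAbs]
  exact_mod_cast Nat.le_floor key

/-- tuples with a zero entry -/
lemma zero_count {m N : ℕ} (hm : 1 ≤ m) (F : Finset (Fin (m + 1) → ℤ))
    (h : ∀ x ∈ F, ∑ i, x i = 0 ∧ (∀ i, |x i| ≤ (N : ℤ)) ∧ ∃ i, x i = 0) :
    F.card ≤ (m + 1) * (2 * N + 1) ^ (m - 1) := by
  classical
  have hcov : F ⊆ univ.biUnion fun i => F.filter fun x => x i = 0 := by
    intro x hx
    obtain ⟨-, -, i, hi⟩ := h x hx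
    rw [mem_biUnion]
    exact ⟨i, mem_univ _, mem_filter.2 ⟨hx, hi⟩⟩
  have h1 : F.card ≤ ∑ i, (F.filter fun x => x i = 0).card :=
    (card_le_card hcov).trans card_biUnion_le
  have h2 : ∀ i ∈ (univ : Finset (Fin (m + 1))), (F.filter fun x => x i = 0).card ≤
      (2 * N + 1) ^ (m - 1) := by
    intro i _
    have := one_index (N := N) hm i (F.filter fun x => x i = 0) {0} (fun x hx => by
      obtain ⟨a1, a2⟩ := mem_filter.1 hx
      obtain ⟨b1, b2, -⟩ := h x a1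
      exact ⟨b1, b2, by rw [a2]; simp⟩)
    rwa [card_singleton, one_mul] at this
  refine h1.trans ((sum_le_sum h2).trans (le_of_eq ?_))
  rw [sum_const, card_univ, Fintype.card_fin, smul_eq_mul]

lemma RT_bd {m : ℕ} {T : ℝ} {y : Fin m → ℝ} (hy : y ∈ RT m T) : ∀ i, |y i| ≤ T := hy.2

lemma RT_sec' {m : ℕ} (T : ℝ) (i : Fin m) (y : Fin m → ℝ) :
    Nice 2 {t | Function.update y i t ∈ RT m T} := by
  have h := RT_sec (A := Set.univ) (k := 1) T (fun i y => nice_ord Set.ordConnected_univ) i y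
  rw [Set.univ_inter] at h
  exact h

/-- the points of the lattice -/
lemma RT_count {m : ℕ} {T x : ℝ} (hT : 0 ≤ T) (hx : 0 < x) :
    {z : Fin m → ℤ | (fun i => (z i : ℝ) / x) ∈ RT m T}.Finite ∧
    |({z : Fin m → ℤ | (fun i => (z i : ℝ) / x) ∈ RT m T}.ncard : ℝ) -
      x ^ m * (volume (RT m T)).toReal| ≤ m * 2 * (2 * (T * x) + 1) ^ (m - 1) := by
  have h := lattice_scaled (q := 1) one_pos (fun _ => 0) hT hx (RT_meas m T)
    (fun y hy => RT_bd hy) (RT_sec' T)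
  have e : {z : Fin m → ℤ | (∀ i, ((1 : ℕ) : ℤ) ∣ z i - 0) ∧ (fun i => (z i : ℝ) / x) ∈ RT m T} =
      {z : Fin m → ℤ | (fun i => (z i : ℝ) / x) ∈ RT m T} := by
    ext z
    simp
  rw [e] at h
  refine ⟨h.1, ?_⟩
  have h2 := h.2
  push_cast at h2
  rw [one_pow, one_mul, mul_one] at h2
  exact h2

lemma RT_mono {m : ℕ} {T T' : ℝ} (h : T ≤ T') : RT m T ⊆ RT m T' :=
  fun _ hy => ⟨hy.1, fun i => (hy.2 i).trans h⟩

/-- the dyadic step -/
theorem vol_step {m : ℕ} (hm : 1 ≤ m) : ∃ C : ℝ, 0 < C ∧ ∀ T : ℝ, 1 ≤ T →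
    (volume (RT m (2 * T))).toReal - (volume (RT m T)).toReal ≤ C * T ^ (-(1 / 2) : ℝ) := by
  classical
  have hmr : (1 : ℝ) ≤ m := by exact_mod_cast hm
  obtain ⟨ε, hε⟩ : ∃ ε : ℝ, ε = 1 / (2 * (m : ℝ) ^ 2) := ⟨_, rfl⟩
  have hε0 : 0 < ε := by rw [hε]; positivity
  obtain ⟨C, hC, hcusp⟩ := cusp m hε0
  refine ⟨C + (5 * m + 1) * (5 * m) ^ (m - 1), by positivity, fun T hT => ?_⟩
  have hT0 : 0 < T := by linarith
  obtain ⟨x, hx⟩ : ∃ x : ℝ, x = T ^ m := ⟨_, rfl⟩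
  have hx1 : 1 ≤ x := by rw [hx]; exact one_le_pow₀ hT
  have hx0 : 0 < x := by linarith
  obtain ⟨f2, c2⟩ := RT_count (m := m) (T := 2 * T) (by positivity) hx0
  obtain ⟨f1, c1⟩ := RT_count (m := m) (T := T) (by positivity) hx0
  obtain ⟨N2, hN2⟩ : ∃ N2, N2 = {z : Fin m → ℤ | (fun i => (z i : ℝ) / x) ∈ RT m (2 * T)} := ⟨_, rfl⟩
  obtain ⟨N1, hN1⟩ : ∃ N1, N1 = {z : Fin m → ℤ | (fun i => (z i : ℝ) / x) ∈ RT m T} := ⟨_, rfl⟩
  rw [← hN2] at f2 c2
  rw [← hN1] at f1 c1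
  have hsub : N1 ⊆ N2 := by
    rw [hN1, hN2]
    exact fun z hz => RT_mono (by linarith) hz
  have hdf : (N2 \ N1).Finite := f2.subset Set.sdiff_subset
  have hd : (N2.ncard : ℝ) - N1.ncard = ((N2 \ N1).ncard : ℝ) := by
    rw [Set.ncard_sdiff hsub f1, Nat.cast_sub (Set.ncard_le_ncard hsub f2)]
  obtain ⟨G, hG⟩ : ∃ G : Finset (Fin m → ℤ), G = hdf.toFinset := ⟨_, rfl⟩
  have hGc : ((N2 \ N1).ncard : ℝ) = G.card := by
    rw [hG, Set.ncard_eq_toFinset_card _ hdf]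
  have hmem : ∀ z ∈ G, (∏ i, |((full z i : ℤ) : ℝ)| ≤ x ^ (m + 1)) ∧ (∀ i, |(z i : ℝ)| ≤ 2 * T * x) ∧
      ∃ i, T * x < |(z i : ℝ)| := by
    intro z hz
    rw [hG, Set.Finite.mem_toFinset, Set.mem_sdiff, hN1, hN2, Set.mem_ofPred_eq,
      Set.mem_ofPred_eq] at hz
    obtain ⟨⟨a1, a2⟩, a3⟩ := hz
    have b1 : ∏ i, |((full z i : ℤ) : ℝ)| ≤ x ^ (m + 1) := by
      simp only [full_div, abs_div, abs_of_pos hx0] at a1
      rw [prod_div_distrib, prod_const, card_univ, Fintype.card_fin,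
        div_le_one (by positivity)] at a1
      simp only [full_cast]
      exact a1
    refine ⟨b1, fun i => ?_, ?_⟩
    · have := a2 i
      simp only [abs_div, abs_of_pos hx0] at this
      rwa [div_le_iff₀ hx0] at this
    · by_contra hcon
      push Not at hcon
      apply a3
      refine ⟨a1, fun i => ?_⟩
      simp only [abs_div, abs_of_pos hx0]
      rw [div_le_iff₀ hx0]
      exact hcon i
  -- the two parts
  obtain ⟨G0, hG0⟩ : ∃ G0, G0 = G.filter fun z => ∃ i, full z i = 0 := ⟨_, rfl⟩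
  obtain ⟨G1, hG1⟩ : ∃ G1, G1 = G.filter fun z => ¬ ∃ i, full z i = 0 := ⟨_, rfl⟩
  have hsplit : (G.card : ℝ) = G0.card + G1.card := by
    rw [hG0, hG1]
    exact_mod_cast (card_filter_add_card_filter_not (s := G) (fun z => ∃ i, full z i = 0)).symm
  have hfi : Function.Injective (full : (Fin m → ℤ) → (Fin (m + 1) → ℤ)) := fun _ _ h => full_inj h
  obtain ⟨N, hN⟩ : ∃ N : ℕ, N = ⌊(m : ℝ) * (2 * T * x)⌋₊ := ⟨_, rfl⟩
  have hNr : (N : ℝ) ≤ m * (2 * T * x) := by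
    rw [hN]
    exact Nat.floor_le (by positivity)
  have hTx : 1 ≤ T * x := by nlinarith
  have k0 : (G0.card : ℝ) ≤ (m + 1) * (5 * m * (T * x)) ^ (m - 1) := by
    have h1 := zero_count (N := N) hm (G0.image full) (fun w hw => by
      obtain ⟨z, hz, rfl⟩ := mem_image.1 hw
      rw [hG0, mem_filter] at hz
      refine ⟨sum_full z, fun i => ?_, hz.2⟩
      rw [hN]
      exact full_abs_le hm (hmem z hz.1).2.1 i)
    rw [card_image_of_injective _ hfi] at h1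
    have h2 : (G0.card : ℝ) ≤ (m + 1) * (2 * N + 1) ^ (m - 1) := by exact_mod_cast h1
    refine h2.trans (mul_le_mul_of_nonneg_left (pow_le_pow_left₀ (by positivity) ?_ _)
      (by positivity))
    nlinarith
  have k1 : (G1.card : ℝ) ≤ C * (x ^ (m + 1) / (T * x)) ^ (1 + ε) := by
    have h1 := hcusp (x ^ (m + 1)) (T * x) (by positivity) (by positivity) (G1.image full)
      (fun w hw => by
        obtain ⟨z, hz, rfl⟩ := mem_image.1 hw
        rw [hG1, mem_filter] at hz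
        obtain ⟨b1, b2, i, b3⟩ := hmem z hz.1
        refine ⟨fun i hi => hz.2 ⟨i, hi⟩, sum_full z, b1, i.succ, ?_⟩
        rw [full_succ]
        exact b3.le)
    rwa [card_image_of_injective _ hfi] at h1
  -- the powers
  have hxm : (0 : ℝ) < x ^ m := by positivity
  have p1 : (x ^ (m + 1) / (T * x)) ^ (1 + ε) ≤ x ^ m * T ^ (-(1 / 2) : ℝ) := by
    have e1 : x ^ (m + 1) / (T * x) = T ^ ((m : ℝ) ^ 2 - 1) := by
      rw [Real.rpow_sub hT0, Real.rpow_one]
      have : T ^ ((m : ℝ) ^ 2) = x ^ m := by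
        rw [hx, ← pow_mul, ← sq, ← Real.rpow_natCast T (m ^ 2)]
        push_cast
        rfl
      rw [this, pow_succ]
      field_simp
    have e2 : x ^ m = T ^ ((m : ℝ) ^ 2) := by
      rw [hx, ← pow_mul, ← sq, ← Real.rpow_natCast T (m ^ 2)]
      push_cast
      rfl
    rw [e1, e2, ← Real.rpow_mul hT0.le, ← Real.rpow_add hT0]
    refine Real.rpow_le_rpow_of_exponent_le hT ?_
    have h3 : (m : ℝ) ^ 2 * ε = 1 / 2 := by
      rw [hε]
      field_simp
    nlinarith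
  have p2 : (T * x) ^ (m - 1) ≤ x ^ m * T ^ (-(1 / 2) : ℝ) := by
    have e1 : T * (T * x) ^ (m - 1) ≤ x ^ m := by
      obtain ⟨m', rfl⟩ : ∃ m', m = m' + 1 := ⟨m - 1, by omega⟩
      rw [Nat.add_sub_cancel, mul_pow, ← mul_assoc, ← pow_succ', ← hx, pow_succ' x m']
    have e2 : (1 : ℝ) ≤ T * T ^ (-(1 / 2) : ℝ) := by
      rw [← Real.rpow_one_add' hT0.le (by norm_num)]
      exact Real.one_le_rpow hT (by norm_num)
    have e3 : 0 ≤ (T * x) ^ (m - 1) := by positivity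
    have e4 : 0 ≤ T ^ (-(1 / 2) : ℝ) := by positivity
    calc (T * x) ^ (m - 1) = 1 * (T * x) ^ (m - 1) := (one_mul _).symm
      _ ≤ (T * T ^ (-(1 / 2) : ℝ)) * (T * x) ^ (m - 1) := mul_le_mul_of_nonneg_right e2 e3
      _ = T ^ (-(1 / 2) : ℝ) * (T * (T * x) ^ (m - 1)) := by ring
      _ ≤ T ^ (-(1 / 2) : ℝ) * x ^ m := mul_le_mul_of_nonneg_left e1 e4
      _ = _ := mul_comm _ _
  have q1 : (m : ℝ) * 2 * (2 * (2 * T * x) + 1) ^ (m - 1) ≤
      m * 2 * (5 * m * (T * x)) ^ (m - 1) := by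
    refine mul_le_mul_of_nonneg_left (pow_le_pow_left₀ (by positivity) ?_ _) (by positivity)
    nlinarith
  have q2 : (m : ℝ) * 2 * (2 * (T * x) + 1) ^ (m - 1) ≤
      m * 2 * (5 * m * (T * x)) ^ (m - 1) := by
    refine mul_le_mul_of_nonneg_left (pow_le_pow_left₀ (by positivity) ?_ _) (by positivity)
    nlinarith
  have r1 := (abs_le.1 c2).1
  have r2 := (abs_le.1 c1).2
  have e5 : (5 * m * (T * x)) ^ (m - 1) = (5 * (m : ℝ)) ^ (m - 1) * (T * x) ^ (m - 1) := mul_pow _ _ _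
  have s1 : x ^ m * ((volume (RT m (2 * T))).toReal - (volume (RT m T)).toReal) ≤
      C * (x ^ m * T ^ (-(1 / 2) : ℝ)) +
        (5 * m + 1) * (5 * (m : ℝ)) ^ (m - 1) * (x ^ m * T ^ (-(1 / 2) : ℝ)) := by
    have t1 := mul_le_mul_of_nonneg_left p1 hC.le
    have t2 := mul_le_mul_of_nonneg_left p2
      (by positivity : 0 ≤ (5 * (m : ℝ) + 1) * (5 * (m : ℝ)) ^ (m - 1))
    rw [e5] at k0 q1 q2
    rw [hGc, hsplit] at hd
    nlinarith
  have s2 : x ^ m * ((volume (RT m (2 * T))).toReal - (volume (RT m T)).toReal) ≤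
      x ^ m * ((C + (5 * m + 1) * (5 * m) ^ (m - 1)) * T ^ (-(1 / 2) : ℝ)) := by
    refine s1.trans (le_of_eq (by ring))
  exact le_of_mul_le_mul_left s2 hxm

lemma RT_fin (m : ℕ) (T : ℝ) : volume (RT m T) ≠ ⊤ := by
  refine ((measure_mono (t := Set.pi Set.univ fun _ : Fin m => Set.Icc (-T) T) ?_).trans_lt
      ?_).ne
  · intro y hy i _
    exact abs_le.1 (hy.2 i)
  · rw [volume_pi, Measure.pi_pi]
    exact ENNReal.prod_lt_top fun i _ => by rw [Real.volume_Icc]; exact ENNReal.ofReal_lt_top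

/-- **The tail of the volume.** -/
theorem vol_tail {m : ℕ} (hm : 1 ≤ m) : ∃ C : ℝ, 0 < C ∧ ∀ T : ℝ, 1 ≤ T →
    volume (RI m \ RT m T) ≤ ENNReal.ofReal (C * T ^ (-(1 / 2) : ℝ)) := by
  obtain ⟨C, hC, hstep⟩ := vol_step hm
  obtain ⟨r, hr⟩ : ∃ r : ℝ, r = (2 : ℝ) ^ (-(1 / 2) : ℝ) := ⟨_, rfl⟩
  have hr0 : 0 < r := by rw [hr]; positivity
  have hr1 : r < 1 := by
    rw [hr]
    exact Real.rpow_lt_one_of_one_lt_of_neg (by norm_num) (by norm_num)
  refine ⟨C * (1 - r)⁻¹, by have : 0 < 1 - r := by linarith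
                            positivity, fun T hT => ?_⟩
  have hT0 : 0 < T := by linarith
  have hcov : RI m \ RT m T ⊆ ⋃ k : ℕ, RT m (2 * (2 ^ k * T)) \ RT m (2 ^ k * T) := by
    rintro y ⟨h1, h2⟩
    classical
    have hex : ∃ k : ℕ, y ∈ RT m (2 ^ k * T) := by
      obtain ⟨M, hM⟩ : ∃ M : ℝ, M = ∑ i, |y i| := ⟨_, rfl⟩
      obtain ⟨k, hk⟩ := pow_unbounded_of_one_lt M (one_lt_two (α := ℝ))
      refine ⟨k, h1, fun i => ?_⟩
      have h3 : |y i| ≤ M := by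
        rw [hM]
        exact single_le_sum (f := fun i => |y i|) (fun i _ => abs_nonneg _) (mem_univ i)
      have h4 : (2 : ℝ) ^ k ≤ 2 ^ k * T := le_mul_of_one_le_right (by positivity) hT
      linarith
    obtain ⟨k, hk⟩ : ∃ k, k = Nat.find hex := ⟨_, rfl⟩
    have hk1 : y ∈ RT m (2 ^ k * T) := by rw [hk]; exact Nat.find_spec hex
    have hk0 : k ≠ 0 := by
      rintro rfl
      rw [pow_zero, one_mul] at hk1
      exact h2 hk1
    obtain ⟨j, rfl⟩ : ∃ j, k = j + 1 := ⟨k - 1, by omega⟩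
    rw [Set.mem_iUnion]
    refine ⟨j, ?_, fun hcon => ?_⟩
    · rw [← mul_assoc, ← pow_succ']
      exact hk1
    · have := Nat.find_min' hex hcon
      omega
  refine (measure_mono hcov).trans ((measure_iUnion_le _).trans ?_)
  have hk : ∀ k : ℕ, volume (RT m (2 * (2 ^ k * T)) \ RT m (2 ^ k * T)) ≤
      ENNReal.ofReal (C * T ^ (-(1 / 2) : ℝ) * r ^ k) := by
    intro k
    have hTk : 1 ≤ 2 ^ k * T := by
      have : (1 : ℝ) ≤ 2 ^ k := one_le_pow₀ (by norm_num)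
      nlinarith
    have h1 := hstep (2 ^ k * T) hTk
    rw [measure_sdiff (RT_mono (by linarith)) (RT_meas m _).nullMeasurableSet (RT_fin m _)]
    rw [← ENNReal.ofReal_toReal (RT_fin m (2 * (2 ^ k * T))),
      ← ENNReal.ofReal_toReal (RT_fin m (2 ^ k * T)),
      ← ENNReal.ofReal_sub _ ENNReal.toReal_nonneg]
    refine ENNReal.ofReal_le_ofReal (h1.trans (le_of_eq ?_))
    rw [Real.mul_rpow (by positivity) hT0.le, hr, ← Real.rpow_natCast ((2 : ℝ) ^ (-(1 / 2) : ℝ)),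
      ← Real.rpow_mul (by norm_num), mul_comm (-(1 / 2) : ℝ), Real.rpow_mul (by norm_num),
      Real.rpow_natCast]
    ring
  refine (ENNReal.tsum_le_tsum hk).trans ?_
  have hsum : Summable fun k : ℕ => C * T ^ (-(1 / 2) : ℝ) * r ^ k :=
    (summable_geometric_of_lt_one hr0.le hr1).mul_left _
  rw [← ENNReal.ofReal_tsum_of_nonneg (fun k => by positivity) hsum, tsum_mul_left,
    tsum_geometric_of_lt_one hr0.le hr1]
  refine ENNReal.ofReal_le_ofReal (le_of_eq (by ring))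

lemma RI_fin {m : ℕ} (hm : 1 ≤ m) : volume (RI m) ≠ ⊤ := by
  obtain ⟨C, hC, h⟩ := vol_tail hm
  have h1 : RI m ⊆ RT m 1 ∪ (RI m \ RT m 1) := by
    intro y hy
    by_cases h : y ∈ RT m 1
    · exact Or.inl h
    · exact Or.inr ⟨hy, h⟩
  refine ((measure_mono h1).trans_lt ((measure_union_le _ _).trans_lt ?_)).ne
  rw [ENNReal.add_lt_top]
  exact ⟨lt_top_iff_ne_top.2 (RT_fin m 1), (h 1 le_rfl).trans_lt ENNReal.ofReal_lt_top⟩

end Pool.Agent.V7H9.SN
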