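import Pool.Agent.V7H9.SN.Dens
import Pool.Agent.V7H9.SN.Vol

set_option autoImplicit false

/-!
# The Chinese remainder theorem and the count with joint local conditions
-/

namespace Pool.Agent.V7H9.SN

open Finset Filter Topology MeasureTheory

lemma crt {a b : ℕ} (hc : Nat.Coprime a b) (s s' : ℤ) :
    ∃ x : ℤ, (a : ℤ) ∣ x - s ∧ (b : ℤ) ∣ x - s' := by
  obtain ⟨u, v, huv⟩ := Nat.isCoprime_iff_coprime.2 hc
  refine ⟨s * (v * b) + s' * (u * a), ⟨u * (s' - s), ?_⟩, ⟨v * (s - s'), ?_⟩⟩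
  · linear_combination s * huv
  · linear_combination s' * huv

lemma small_eq {Q : ℕ} {x y : ℤ} (hx : 0 ≤ x ∧ x < Q) (hy : 0 ≤ y ∧ y < Q) (h : (Q : ℤ) ∣ x - y) :
    x = y := by
  obtain ⟨u, hu⟩ := h
  have h4 : u = 0 := by
    rcases lt_trichotomy u 0 with h | h | h
    · nlinarith [hx.1, hx.2, hy.1, hy.2]
    · exact h
    · nlinarith [hx.1, hx.2, hy.1, hy.2]
  rw [h4, mul_zero] at hu
  linarith

open scoped Classical in
/-- the classes with a property -/
noncomputable def clsF (m Q : ℕ) (S : (Fin m → ℤ) → Prop) : Finset (Fin m → ℤ) :=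
  (Bx m Q).filter S

lemma cnt_eq_card (m Q : ℕ) (S : (Fin m → ℤ) → Prop) : cnt m Q S = (clsF m Q S).card := rfl

lemma mem_clsF {m Q : ℕ} {S : (Fin m → ℤ) → Prop} {y : Fin m → ℤ} :
    y ∈ clsF m Q S ↔ y ∈ Bx m Q ∧ S y := by
  classical
  exact mem_filter

/-- the Chinese remainder theorem for the counts -/
lemma cnt_mul {m a b : ℕ} (ha : 0 < a) (hb : 0 < b) (hc : Nat.Coprime a b)
    {S1 S2 : (Fin m → ℤ) → Prop} (h1 : Per m a S1) (h2 : Per m b S2) :
    cnt m (a * b) (fun p => S1 p ∧ S2 p) = cnt m a S1 * cnt m b S2 := by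
  classical
  have haz : (0 : ℤ) < a := by exact_mod_cast ha
  have hbz : (0 : ℤ) < b := by exact_mod_cast hb
  have hcz : IsCoprime (a : ℤ) b := Nat.isCoprime_iff_coprime.2 hc
  rw [cnt_eq_card, cnt_eq_card, cnt_eq_card, ← card_product]
  refine card_bij (fun t _ => ((fun i => t i % a), (fun i => t i % b))) ?_ ?_ ?_
  · intro t ht
    rw [mem_clsF] at ht
    obtain ⟨-, a1, a2⟩ := ht
    rw [mem_product, mem_clsF, mem_clsF, mem_Bx, mem_Bx]
    refine ⟨⟨fun i => ⟨Int.emod_nonneg _ haz.ne', Int.emod_lt_of_pos _ haz⟩,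
      h1 t _ (fun i => Int.dvd_self_sub_emod) a1⟩,
      fun i => ⟨Int.emod_nonneg _ hbz.ne', Int.emod_lt_of_pos _ hbz⟩,
      h2 t _ (fun i => Int.dvd_self_sub_emod) a2⟩
  · intro t ht t' ht' h
    rw [mem_clsF, mem_Bx] at ht ht'
    simp only [Prod.mk.injEq] at h
    obtain ⟨b1, b2⟩ := h
    funext i
    refine small_eq (Q := a * b) (ht.1 i) (ht'.1 i) ?_
    have c1 : (a : ℤ) ∣ t i - t' i := Int.ModEq.dvd (congrFun b1 i).symm
    have c2 : (b : ℤ) ∣ t i - t' i := Int.ModEq.dvd (congrFun b2 i).symm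
    push_cast
    exact hcz.mul_dvd c1 c2
  · rintro ⟨s, s'⟩ hs
    rw [mem_product, mem_clsF, mem_clsF, mem_Bx, mem_Bx] at hs
    obtain ⟨⟨b1, b2⟩, b3, b4⟩ := hs
    simp only at b1 b2 b3 b4
    choose x hx1 hx2 using fun i => crt hc (s i) (s' i)
    have hab : (0 : ℤ) < ((a * b : ℕ) : ℤ) := by exact_mod_cast Nat.mul_pos ha hb
    have d1 : ∀ i, (a : ℤ) ∣ x i % ((a * b : ℕ) : ℤ) - s i := by
      intro i
      have h3 : ((a * b : ℕ) : ℤ) ∣ x i - x i % ((a * b : ℕ) : ℤ) := Int.dvd_self_sub_emod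
      have h4 : (a : ℤ) ∣ ((a * b : ℕ) : ℤ) := ⟨b, by push_cast; ring⟩
      have h5 := dvd_sub (hx1 i) (h4.trans h3)
      have e : x i - s i - (x i - x i % ((a * b : ℕ) : ℤ)) = x i % ((a * b : ℕ) : ℤ) - s i := by ring
      rwa [e] at h5
    have d2 : ∀ i, (b : ℤ) ∣ x i % ((a * b : ℕ) : ℤ) - s' i := by
      intro i
      have h3 : ((a * b : ℕ) : ℤ) ∣ x i - x i % ((a * b : ℕ) : ℤ) := Int.dvd_self_sub_emod
      have h4 : (b : ℤ) ∣ ((a * b : ℕ) : ℤ) := ⟨a, by push_cast; ring⟩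
      have h5 := dvd_sub (hx2 i) (h4.trans h3)
      have e : x i - s' i - (x i - x i % ((a * b : ℕ) : ℤ)) = x i % ((a * b : ℕ) : ℤ) - s' i := by ring
      rwa [e] at h5
    refine ⟨fun i => x i % ((a * b : ℕ) : ℤ), ?_, ?_⟩
    · rw [mem_clsF, mem_Bx]
      refine ⟨fun i => ⟨Int.emod_nonneg _ hab.ne', Int.emod_lt_of_pos _ hab⟩,
        h1 s _ (fun i => ?_) b2, h2 s' _ (fun i => ?_) b4⟩
      · rw [← dvd_neg, neg_sub]
        exact d1 i
      · rw [← dvd_neg, neg_sub]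
        exact d2 i
    · refine Prod.ext ?_ ?_
      · funext i
        have h3 : x i % ((a * b : ℕ) : ℤ) % a = s i % a := by
          exact ((Int.modEq_iff_dvd.2 (d1 i)).symm)
        simp only
        rw [h3, Int.emod_eq_of_lt (b1 i).1 (b1 i).2]
      · funext i
        have h3 : x i % ((a * b : ℕ) : ℤ) % b = s' i % b := by
          exact ((Int.modEq_iff_dvd.2 (d2 i)).symm)
        simp only
        rw [h3, Int.emod_eq_of_lt (b3 i).1 (b3 i).2]

lemma Per_mono {m a b : ℕ} (h : a ∣ b) {S : (Fin m → ℤ) → Prop} (hS : Per m a S) : Per m b S := by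
  intro y y' hy
  have hab : (a : ℤ) ∣ b := by exact_mod_cast h
  exact hS y y' fun i => hab.trans (hy i)

theorem cnt_prod {m : ℕ} {P : Finset ℕ} (hP : ∀ q ∈ P, q.Prime) (k : ℕ → ℕ)
    (S : ℕ → (Fin m → ℤ) → Prop) (δ : ℕ → ℝ) (h1 : ∀ q ∈ P, Per m (q ^ k q) (S q))
    (h2 : ∀ q ∈ P, (cnt m (q ^ k q) (S q) : ℝ) = δ q * ((q ^ k q : ℕ) : ℝ) ^ m) :
    Per m (∏ q ∈ P, q ^ k q) (fun y => ∀ q ∈ P, S q y) ∧
    (cnt m (∏ q ∈ P, q ^ k q) (fun y => ∀ q ∈ P, S q y) : ℝ) =
      (∏ q ∈ P, δ q) * ((∏ q ∈ P, q ^ k q : ℕ) : ℝ) ^ m := by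
  classical
  induction P using Finset.induction_on with
  | empty =>
    refine ⟨fun y y' _ _ q hq => absurd hq (notMem_empty q), ?_⟩
    rw [cnt_eq_sum]
    simp only [prod_empty, notMem_empty, IsEmpty.forall_iff, implies_true, if_true]
    rw [sum_const, card_Bx]
    simp
  | insert q P hq ih =>
    obtain ⟨i1, i2⟩ := ih (fun r hr => hP r (mem_insert_of_mem hr))
      (fun r hr => h1 r (mem_insert_of_mem hr)) (fun r hr => h2 r (mem_insert_of_mem hr))
    have hqp := hP q (mem_insert_self q P)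
    have hc : Nat.Coprime (q ^ k q) (∏ r ∈ P, r ^ k r) := by
      refine Nat.Coprime.prod_right fun r hr => Nat.Coprime.pow _ _ ?_
      refine (Nat.coprime_primes hqp (hP r (mem_insert_of_mem hr))).2 ?_
      rintro rfl
      exact hq hr
    have hpos : 0 < ∏ r ∈ P, r ^ k r :=
      Finset.prod_pos fun r hr => pow_pos (hP r (mem_insert_of_mem hr)).pos _
    have g1 := h1 q (mem_insert_self q P)
    have g2 := h2 q (mem_insert_self q P)
    rw [prod_insert hq, prod_insert hq]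
    have e : (fun y : Fin m → ℤ => ∀ r ∈ insert q P, S r y) =
        fun y => S q y ∧ ∀ r ∈ P, S r y := by
      funext y
      exact propext (by rw [forall_mem_insert])
    rw [e]
    refine ⟨?_, ?_⟩
    · intro y y' hy hS
      exact ⟨Per_mono (Dvd.intro _ rfl) g1 y y' hy hS.1,
        Per_mono (Dvd.intro_left _ rfl) i1 y y' hy hS.2⟩
    · rw [cnt_mul (pow_pos hqp.pos _) hpos hc g1 i1]
      push_cast
      push_cast at g2 i2
      rw [g2, i2]
      ring

/-- the bad local behaviour at a prime -/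
def Bd {m : ℕ} (q : ℕ) (y : Fin m → ℤ) : Prop := ¬ Lc q 0 y

lemma Per_Bd (m q : ℕ) : Per m (q ^ 2) (Bd q) := by
  intro y y' h hB hL
  refine hB (Per_Lc m q 0 y' y (fun i => ?_) hL)
  rw [← dvd_neg, neg_sub]
  exact h i

lemma cnt_Bd {m : ℕ} (hm : 1 ≤ m) {q : ℕ} (hq : 0 < q) :
    (cnt m (q ^ 2) (Bd q) : ℝ) = bet m q * ((q ^ 2 : ℕ) : ℝ) ^ m := by
  classical
  have h1 : (cnt m (q ^ 2) (Lc q 0) : ℝ) = dd m q 0 * ((q ^ 2 : ℕ) : ℝ) ^ m := card_Lc hm hq 0
  have h2 : (cnt m (q ^ 2) (Lc q 0) : ℝ) + cnt m (q ^ 2) (Bd q) = ((q ^ 2 : ℕ) : ℝ) ^ m := by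
    rw [cnt_eq_sum, cnt_eq_sum, ← sum_add_distrib]
    have h3 : ∀ y ∈ Bx m (q ^ 2), (if Lc q 0 y then (1 : ℝ) else 0) +
        (if Bd q y then (1 : ℝ) else 0) = 1 := by
      intro y _
      by_cases h : Lc q 0 y
      · rw [if_pos h, if_neg (fun h' : Bd q y => h' h), add_zero]
      · rw [if_neg h, if_pos (show Bd q y from h), zero_add]
    rw [sum_congr rfl h3, sum_const, card_Bx, nsmul_eq_mul, mul_one]
    push_cast
    rfl
  unfold bet
  linarith

/-- the truncated inclusion-exclusion -/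
theorem trunc {D : ℝ} (hD : 1 ≤ D) (B : Finset ℕ) (hB : ∀ q ∈ B, 1 ≤ q ∧ (q : ℝ) ≤ D) :
    |(if B = ∅ then (1 : ℝ) else 0) -
      ∑ S ∈ B.powerset with ((∏ q ∈ S, q : ℕ) : ℝ) ≤ D, (-1 : ℝ) ^ S.card| ≤
      ((B.powerset.filter (fun S => D < ((∏ q ∈ S, q : ℕ) : ℝ) ∧
        ((∏ q ∈ S, q : ℕ) : ℝ) ≤ D * D)).card : ℝ) := by
  classical
  rcases B.eq_empty_or_nonempty with h | ⟨r, hr⟩
  · subst h
    have : ((∅ : Finset ℕ).powerset.filter (fun S => ((∏ q ∈ S, q : ℕ) : ℝ) ≤ D)) = {∅} := by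
      ext S
      simp only [powerset_empty, mem_filter, mem_singleton]
      constructor
      · exact fun h => h.1
      · rintro rfl
        simpa using hD
    rw [this]
    simp
  · rw [if_neg (Finset.nonempty_iff_ne_empty.1 ⟨r, hr⟩)]
    obtain ⟨B', hB', hBe⟩ : ∃ B' : Finset ℕ, r ∉ B' ∧ B = insert r B' :=
      ⟨B.erase r, notMem_erase r B, (insert_erase hr).symm⟩
    have hr1 := hB r hr
    rw [zero_sub, abs_neg, sum_filter, hBe, sum_powerset_insert hB', ← sum_add_distrib]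
    have e : ∀ S ∈ B'.powerset, (if ((∏ q ∈ S, q : ℕ) : ℝ) ≤ D then (-1 : ℝ) ^ S.card else 0) +
        (if ((∏ q ∈ insert r S, q : ℕ) : ℝ) ≤ D then (-1 : ℝ) ^ (insert r S).card else 0) =
        if ((∏ q ∈ S, q : ℕ) : ℝ) ≤ D ∧ D < ((∏ q ∈ insert r S, q : ℕ) : ℝ)
          then (-1 : ℝ) ^ S.card else 0 := by
      intro S hS
      have hrS : r ∉ S := fun h => hB' (mem_powerset.1 hS h)
      rw [prod_insert hrS, card_insert_of_notMem hrS]
      have hle : ((∏ q ∈ S, q : ℕ) : ℝ) ≤ ((r * ∏ q ∈ S, q : ℕ) : ℝ) := by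
        exact_mod_cast Nat.le_mul_of_pos_left _ hr1.1
      by_cases h1 : ((r * ∏ q ∈ S, q : ℕ) : ℝ) ≤ D
      · rw [if_pos (hle.trans h1), if_pos h1, if_neg (fun h => absurd h1 (not_le.2 h.2)), pow_succ]
        ring
      · by_cases h2 : ((∏ q ∈ S, q : ℕ) : ℝ) ≤ D
        · rw [if_pos h2, if_neg h1, if_pos ⟨h2, not_le.1 h1⟩, add_zero]
        · rw [if_neg h2, if_neg h1, if_neg (fun h => h2 h.1), add_zero]
    rw [sum_congr rfl e, ← sum_filter]
    refine (abs_sum_le_sum_abs _ _).trans ?_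
    have e2 : ∀ S ∈ (B'.powerset.filter (fun S => ((∏ q ∈ S, q : ℕ) : ℝ) ≤ D ∧
        D < ((∏ q ∈ insert r S, q : ℕ) : ℝ))), |(-1 : ℝ) ^ S.card| = 1 := by
      intro S _
      rw [abs_pow, abs_neg, abs_one, one_pow]
    rw [sum_congr rfl e2, sum_const, nsmul_eq_mul, mul_one]
    have hcard : (B'.powerset.filter (fun S => ((∏ q ∈ S, q : ℕ) : ℝ) ≤ D ∧
        D < ((∏ q ∈ insert r S, q : ℕ) : ℝ))).card ≤
        ((insert r B').powerset.filter (fun S => D < ((∏ q ∈ S, q : ℕ) : ℝ) ∧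
          ((∏ q ∈ S, q : ℕ) : ℝ) ≤ D * D)).card := by
      refine card_le_card_of_injOn (fun S => insert r S) ?_ ?_
      · intro S hS
        rw [mem_coe, mem_filter, mem_powerset] at hS
        obtain ⟨h1, h2, h3⟩ := hS
        have hrS : r ∉ S := fun h => hB' (h1 h)
        rw [mem_coe, mem_filter, mem_powerset]
        refine ⟨insert_subset_insert r h1, h3, ?_⟩
        rw [prod_insert hrS]
        push_cast
        push_cast at h2
        exact mul_le_mul hr1.2 h2 (by positivity) (by linarith)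
      · intro S hS S' hS' h
        rw [mem_coe, mem_filter, mem_powerset] at hS hS'
        have hrS : r ∉ S := fun h => hB' (hS.1 h)
        have hrS' : r ∉ S' := fun h => hB' (hS'.1 h)
        simp only at h
        rw [← erase_insert hrS, ← erase_insert hrS', h]
    exact_mod_cast hcard

lemma Qw_le {w : ℕ} (hw : 0 < w) : ∏ q ∈ w.primeFactors, q ^ (w.factorization q + 2) ≤ w ^ 3 := by
  have h1 : ∏ q ∈ w.primeFactors, q ^ (w.factorization q + 2) ≤
      ∏ q ∈ w.primeFactors, (q ^ w.factorization q) ^ 3 := by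
    refine Finset.prod_le_prod' fun q hq => ?_
    rw [← pow_mul]
    refine Nat.pow_le_pow_right (Nat.prime_of_mem_primeFactors hq).pos ?_
    have := (Nat.prime_of_mem_primeFactors hq).factorization_pos_of_dvd hw.ne'
      (Nat.dvd_of_mem_primeFactors hq)
    omega
  rw [prod_pow] at h1
  have h2 := Nat.prod_factorization_pow_eq_self hw.ne'
  have h3 : ∏ q ∈ w.primeFactors, q ^ w.factorization q = w := by
    conv_rhs => rw [← h2]
    rw [Finsupp.prod, Nat.support_factorization]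
  rw [h3] at h1
  exact h1

/-- the joint local conditions -/
def Tw {m : ℕ} (w : ℕ) (S : Finset ℕ) (y : Fin m → ℤ) : Prop :=
  (∀ q ∈ w.primeFactors, Lc q (w.factorization q) y) ∧ ∀ q ∈ S, Bd q y

/-- the count with the joint local conditions -/
theorem Tw_count {m k : ℕ} (hm : 1 ≤ m) {w : ℕ} (hw : 0 < w) {N : ℕ} {S : Finset ℕ}
    (hS : S ⊆ PPw w N) {T x : ℝ} (hT : 0 ≤ T) (hx : 0 < x) {R : Set (Fin m → ℝ)}
    (hR : MeasurableSet R) (hRT : ∀ y ∈ R, ∀ i, |y i| ≤ T)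
    (hsec : ∀ (i : Fin m) (y : Fin m → ℝ), Nice k {t | Function.update y i t ∈ R}) :
    {z : Fin m → ℤ | Tw w S z ∧ (fun i => (z i : ℝ) / x) ∈ R}.Finite ∧
    |({z : Fin m → ℤ | Tw w S z ∧ (fun i => (z i : ℝ) / x) ∈ R}.ncard : ℝ) -
      (Aw m w * ∏ q ∈ S, bet m q) * (x ^ m * (volume R).toReal)| ≤
      m * (k * ((w : ℝ) ^ 3 * (((∏ q ∈ S, q : ℕ) : ℝ)) ^ 2)) *
        (2 * (T * x) + ((w : ℝ) ^ 3 * (((∏ q ∈ S, q : ℕ) : ℝ)) ^ 2)) ^ (m - 1) := by
  classical
  obtain ⟨P, hPd⟩ : ∃ P : Finset ℕ, P = w.primeFactors ∪ S := ⟨_, rfl⟩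
  have hdisj : Disjoint w.primeFactors S := by
    rw [disjoint_left]
    intro q hq hq'
    exact (mem_PPw.1 (hS hq')).2 (Nat.dvd_of_mem_primeFactors hq)
  have hP : ∀ q ∈ P, q.Prime := by
    intro q hq
    rw [hPd, mem_union] at hq
    rcases hq with h | h
    · exact Nat.prime_of_mem_primeFactors h
    · exact (mem_PPw.1 (hS h)).1.2
  have hnot : ∀ q ∈ w.primeFactors, q ∉ S := fun q hq => disjoint_left.1 hdisj hq
  let kk : ℕ → ℕ := fun q => if q ∈ S then 2 else w.factorization q + 2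
  let Sq : ℕ → (Fin m → ℤ) → Prop :=
    fun q => if q ∈ S then Bd q else Lc q (w.factorization q)
  let δ : ℕ → ℝ := fun q => if q ∈ S then bet m q else dd m q (w.factorization q)
  have h1 : ∀ q ∈ P, Per m (q ^ kk q) (Sq q) := by
    intro q hq
    by_cases h : q ∈ S
    · have e1 : kk q = 2 := by simp only [kk]; rw [if_pos h]
      have e2 : Sq q = Bd q := by simp only [Sq]; rw [if_pos h]
      rw [e1, e2]
      exact Per_Bd m q
    · have e1 : kk q = w.factorization q + 2 := by simp only [kk]; rw [if_neg h]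
      have e2 : Sq q = Lc q (w.factorization q) := by simp only [Sq]; rw [if_neg h]
      rw [e1, e2]
      exact Per_Lc m q _
  have h2 : ∀ q ∈ P, (cnt m (q ^ kk q) (Sq q) : ℝ) = δ q * ((q ^ kk q : ℕ) : ℝ) ^ m := by
    intro q hq
    by_cases h : q ∈ S
    · have e1 : kk q = 2 := by simp only [kk]; rw [if_pos h]
      have e2 : Sq q = Bd q := by simp only [Sq]; rw [if_pos h]
      have e3 : δ q = bet m q := by simp only [δ]; rw [if_pos h]
      rw [e2, e3, e1]
      exact cnt_Bd hm (hP q hq).pos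
    · have e1 : kk q = w.factorization q + 2 := by simp only [kk]; rw [if_neg h]
      have e2 : Sq q = Lc q (w.factorization q) := by simp only [Sq]; rw [if_neg h]
      have e3 : δ q = dd m q (w.factorization q) := by simp only [δ]; rw [if_neg h]
      rw [e2, e3, e1]
      exact card_Lc hm (hP q hq).pos _
  obtain ⟨g1, g2⟩ := cnt_prod hP kk Sq δ h1 h2
  obtain ⟨Q, hQ⟩ : ∃ Q : ℕ, Q = ∏ q ∈ P, q ^ kk q := ⟨_, rfl⟩
  have hQ0 : 0 < Q := by
    rw [hQ]
    exact Finset.prod_pos fun q hq => pow_pos (hP q hq).pos _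
  have hQr : (0 : ℝ) < Q := by exact_mod_cast hQ0
  rw [← hQ] at g1 g2
  have g3 := per_count hQ0 g1 hT hx hR hRT hsec
  have hprod : ∏ q ∈ P, δ q = Aw m w * ∏ q ∈ S, bet m q := by
    rw [hPd, prod_union hdisj]
    unfold Aw
    congr 1
    · refine prod_congr rfl fun q hq => ?_
      simp only [δ]
      rw [if_neg (hnot q hq)]
    · refine prod_congr rfl fun q hq => ?_
      simp only [δ]
      rw [if_pos hq]
  rw [g2, hprod, mul_div_assoc, div_self (by positivity), mul_one] at g3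
  have hset : {z : Fin m → ℤ | Tw w S z ∧ (fun i => (z i : ℝ) / x) ∈ R} =
      {z : Fin m → ℤ | (∀ q ∈ P, Sq q z) ∧ (fun i => (z i : ℝ) / x) ∈ R} := by
    ext p
    rw [Set.mem_ofPred_eq, Set.mem_ofPred_eq]
    refine and_congr_left fun _ => ?_
    unfold Tw
    rw [hPd]
    constructor
    · rintro ⟨k1, k2⟩ q hq
      rcases mem_union.1 hq with h | h
      · simp only [Sq]
        rw [if_neg (hnot q h)]
        exact k1 q h
      · simp only [Sq]
        rw [if_pos h]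
        exact k2 q h
    · intro h
      refine ⟨fun q hq => ?_, fun q hq => ?_⟩
      · have := h q (mem_union_left _ hq)
        simp only [Sq] at this
        rwa [if_neg (hnot q hq)] at this
      · have := h q (mem_union_right _ hq)
        simp only [Sq] at this
        rwa [if_pos hq] at this
  rw [hset]
  refine ⟨g3.1, g3.2.trans ?_⟩
  have hQle : Q ≤ w ^ 3 * (∏ q ∈ S, q) ^ 2 := by
    rw [hQ, hPd, prod_union hdisj]
    refine Nat.mul_le_mul ?_ ?_
    · refine le_trans (le_of_eq ?_) (Qw_le hw)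
      refine prod_congr rfl fun q hq => ?_
      simp only [kk]
      rw [if_neg (hnot q hq)]
    · rw [← prod_pow]
      refine le_of_eq (prod_congr rfl fun q hq => ?_)
      simp only [kk]
      rw [if_pos hq]
  have hQle' : (Q : ℝ) ≤ (w : ℝ) ^ 3 * (((∏ q ∈ S, q : ℕ) : ℝ)) ^ 2 := by exact_mod_cast hQle
  have hTx : 0 ≤ T * x := by positivity
  gcongr

end Pool.Agent.V7H9.SN
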