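import Pool.Agent.V7H9.SN.Eff

set_option autoImplicit false

/-!
# The effective count of the tuples with a given repeated part
-/

namespace Pool.Agent.V7H9.SN

open Finset Filter Topology MeasureTheory

/-- the interchange of the sums -/
lemma swap_sum {α : Type*} (WF : Finset α) (P : Finset ℕ) (B : α → Finset ℕ) (hB : ∀ p, B p ⊆ P)
    (c : Finset ℕ → Prop) [DecidablePred c] (f : Finset ℕ → ℝ) :
    ∑ p ∈ WF, ∑ S ∈ (B p).powerset with c S, f S =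
      ∑ S ∈ P.powerset with c S, f S * ((WF.filter (fun p => S ⊆ B p)).card : ℝ) := by
  classical
  have h1 : ∀ p ∈ WF, ∑ S ∈ (B p).powerset with c S, f S =
      ∑ S ∈ P.powerset with c S, if S ⊆ B p then f S else 0 := by
    intro p _
    rw [← sum_filter]
    refine sum_congr ?_ fun _ _ => rfl
    ext S
    rw [mem_filter, mem_powerset, mem_filter, mem_filter, mem_powerset]
    constructor
    · rintro ⟨h1, h2⟩
      exact ⟨⟨h1.trans (hB p), h2⟩, h1⟩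
    · rintro ⟨⟨-, h2⟩, h3⟩
      exact ⟨h3, h2⟩
  rw [sum_congr rfl h1, sum_comm]
  refine sum_congr rfl fun S _ => ?_
  rw [← sum_filter, sum_const, nsmul_eq_mul, mul_comm]

lemma card_Nz (N : ℕ) : (Nz N).card = 2 * N := by
  unfold Nz
  rw [card_erase_of_mem (mem_Icc.2 ⟨by omega, by omega⟩), card_IcN]
  omega

/-- nonzero multiples of `d` -/
lemma card_mult {N d : ℕ} (hd : 0 < d) :
    (((Nz N).filter (fun z => (d : ℤ) ∣ z)).card : ℝ) ≤ 2 * N / d := by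
  classical
  have hsub : (Nz N).filter (fun z => (d : ℤ) ∣ z) ⊆ (Nz (N / d)).image (fun z => (d : ℤ) * z) := by
    intro z hz
    rw [mem_filter, mem_Nz] at hz
    obtain ⟨⟨h1, h2⟩, u, rfl⟩ := hz
    rw [mem_image]
    refine ⟨u, mem_Nz.2 ⟨fun h => h1 (by rw [h, mul_zero]), ?_⟩, rfl⟩
    rw [abs_mul, Nat.abs_cast, Int.abs_eq_natAbs] at h2
    have h3 : d * u.natAbs ≤ N := by exact_mod_cast h2
    have h4 : u.natAbs ≤ N / d := by
      rw [Nat.le_div_iff_mul_le hd]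
      linarith
    rw [Int.abs_eq_natAbs]
    exact_mod_cast h4
  have h1 := (card_le_card hsub).trans card_image_le
  rw [card_Nz] at h1
  have hdr : (0 : ℝ) < d := by exact_mod_cast hd
  have h2 : (((Nz N).filter (fun z => (d : ℤ) ∣ z)).card : ℝ) ≤ 2 * ((N / d : ℕ) : ℝ) := by
    exact_mod_cast h1
  refine h2.trans ?_
  have h3 : ((N / d : ℕ) : ℝ) ≤ N / d := Nat.cast_div_le
  rw [mul_div_assoc]
  linarith

/-- tuples with a bad prime larger than `D` -/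
theorem bad_count {m : ℕ} (hm : 2 ≤ m) {N D : ℕ} (hD : 1 ≤ D) (F : Finset (Fin (m + 1) → ℤ))
    (hF : ∀ x ∈ F, ∑ i, x i = 0 ∧ (∀ i, |x i| ≤ (N : ℤ)) ∧ (∀ i, x i ≠ 0) ∧ ∃ q : ℕ, D < q ∧
      ((∃ i j, i ≠ j ∧ (q : ℤ) ∣ x i ∧ (q : ℤ) ∣ x j) ∨ ∃ i, (q : ℤ) ^ 2 ∣ x i)) :
    (F.card : ℝ) ≤ 2 * ((m : ℝ) + 1) ^ 2 * (2 * N + 1) ^ m / D := by
  classical
  have hDr : (0 : ℝ) < D := by exact_mod_cast hD
  have hmem : ∀ x ∈ F, ∀ i, x i ∈ Nz N := fun x hx i =>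
    mem_Nz.2 ⟨(hF x hx).2.2.1 i, (hF x hx).2.1 i⟩
  let F1 : ℕ → Fin (m + 1) → Finset (Fin (m + 1) → ℤ) := fun q i => F.filter fun x => (q : ℤ) ^ 2 ∣ x i
  let F2 : ℕ → Fin (m + 1) → Fin (m + 1) → Finset (Fin (m + 1) → ℤ) := fun q i j =>
    F.filter fun x => i ≠ j ∧ (q : ℤ) ∣ x i ∧ (q : ℤ) ∣ x j
  have hcov : F ⊆ (Finset.Ioc D N).biUnion fun q =>
      (univ.biUnion fun i => F1 q i) ∪ (univ.biUnion fun i => univ.biUnion fun j => F2 q i j) := by
    intro x hx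
    obtain ⟨h1, h2, h3, q, h4, h5⟩ := hF x hx
    have hqN : q ≤ N := by
      have key : ∀ i, (q : ℤ) ∣ x i → q ≤ N := by
        intro i hi
        have h6 := Int.le_of_dvd (abs_pos.2 (h3 i)) ((dvd_abs _ _).2 hi)
        exact_mod_cast h6.trans (h2 i)
      rcases h5 with ⟨i, j, -, h6, -⟩ | ⟨i, h6⟩
      · exact key i h6
      · exact key i ((dvd_pow_self _ (by norm_num)).trans h6)
    rw [mem_biUnion]
    refine ⟨q, mem_Ioc.2 ⟨h4, hqN⟩, ?_⟩
    rw [mem_union]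
    rcases h5 with ⟨i, j, h6⟩ | ⟨i, h6⟩
    · right
      simp only [mem_biUnion, mem_univ, true_and]
      exact ⟨i, j, mem_filter.2 ⟨hx, h6⟩⟩
    · left
      simp only [mem_biUnion, mem_univ, true_and]
      exact ⟨i, mem_filter.2 ⟨hx, h6⟩⟩
  have hq0 : ∀ q ∈ Finset.Ioc D N, 0 < q := fun q hq => lt_of_le_of_lt (Nat.zero_le _) (mem_Ioc.1 hq).1
  have hpow : (0 : ℝ) < (2 * N + 1) ^ m := by positivity
  have b1 : ∀ q ∈ Finset.Ioc D N, ∀ i, ((F1 q i).card : ℝ) ≤ (2 * N + 1) ^ m * ((q : ℝ) ^ 2)⁻¹ := by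
    intro q hq i
    have hq1 := hq0 q hq
    have hqr : (0 : ℝ) < q := by exact_mod_cast hq1
    have h1 := one_index (N := N) (by omega : 1 ≤ m) i (F1 q i)
      ((Nz N).filter fun z => ((q ^ 2 : ℕ) : ℤ) ∣ z) (fun x hx => by
        obtain ⟨a1, a2⟩ := mem_filter.1 hx
        refine ⟨(hF x a1).1, (hF x a1).2.1, mem_filter.2 ⟨hmem x a1 i, ?_⟩⟩
        push_cast
        exact a2)
    have h2 := card_mult (N := N) (d := q ^ 2) (pow_pos hq1 2)
    have h3 : ((F1 q i).card : ℝ) ≤ (((Nz N).filter fun z => ((q ^ 2 : ℕ) : ℤ) ∣ z).card : ℝ) *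
        (2 * N + 1) ^ (m - 1) := by exact_mod_cast h1
    refine h3.trans ?_
    push_cast at h2
    have e : (2 * (N : ℝ) + 1) ^ m = (2 * N + 1) ^ (m - 1) * (2 * N + 1) := by
      rw [← pow_succ]
      congr 1
      omega
    rw [e]
    calc (((Nz N).filter fun z => ((q ^ 2 : ℕ) : ℤ) ∣ z).card : ℝ) * (2 * N + 1) ^ (m - 1) ≤
          (2 * N / (q : ℝ) ^ 2) * (2 * N + 1) ^ (m - 1) := by
          refine mul_le_mul_of_nonneg_right ?_ (by positivity)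
          push_cast
          exact h2
      _ ≤ ((2 * N + 1) / (q : ℝ) ^ 2) * (2 * N + 1) ^ (m - 1) := by
          refine mul_le_mul_of_nonneg_right ?_ (by positivity)
          exact div_le_div_of_nonneg_right (by linarith) (by positivity)
      _ = _ := by
          rw [div_eq_mul_inv]
          ring
  have b2 : ∀ q ∈ Finset.Ioc D N, ∀ i j, ((F2 q i j).card : ℝ) ≤
      (2 * N + 1) ^ m * ((q : ℝ) ^ 2)⁻¹ := by
    intro q hq i j
    have hq1 := hq0 q hq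
    have hqr : (0 : ℝ) < q := by exact_mod_cast hq1
    by_cases hij : i = j
    · have : F2 q i j = ∅ := by
        rw [Finset.eq_empty_iff_forall_notMem]
        intro x hx
        exact (mem_filter.1 hx).2.1 hij
      rw [this, card_empty, Nat.cast_zero]
      positivity
    have h1 := two_index (N := N) hm hij (F2 q i j)
      ((Nz N).filter fun z => (q : ℤ) ∣ z) ((Nz N).filter fun z => (q : ℤ) ∣ z) (fun x hx => by
        obtain ⟨a1, a2, a3, a4⟩ := mem_filter.1 hx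
        exact ⟨(hF x a1).1, (hF x a1).2.1, mem_filter.2 ⟨hmem x a1 i, a3⟩,
          mem_filter.2 ⟨hmem x a1 j, a4⟩⟩)
    have h2 := card_mult (N := N) hq1
    obtain ⟨c, hc⟩ : ∃ c : ℕ, c = ((Nz N).filter fun z => (q : ℤ) ∣ z).card := ⟨_, rfl⟩
    rw [← hc] at h1 h2
    have h3 : ((F2 q i j).card : ℝ) ≤ (c : ℝ) * c * (2 * N + 1) ^ (m - 2) := by exact_mod_cast h1
    refine h3.trans ?_
    have e : (2 * (N : ℝ) + 1) ^ m = (2 * N + 1) ^ (m - 2) * (2 * N + 1) ^ 2 := by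
      rw [← pow_add]
      congr 1
      omega
    rw [e]
    have h4 : (c : ℝ) ≤ (2 * N + 1) / q := h2.trans (div_le_div_of_nonneg_right (by linarith) hqr.le)
    calc (c : ℝ) * c * (2 * N + 1) ^ (m - 2) ≤
          ((2 * N + 1) / q) * ((2 * N + 1) / q) * (2 * N + 1) ^ (m - 2) := by
          refine mul_le_mul_of_nonneg_right ?_ (by positivity)
          exact mul_le_mul h4 h4 (Nat.cast_nonneg _) (by positivity)
      _ = _ := by
          rw [div_eq_mul_inv]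
          field_simp
  have hsum : ∑ q ∈ Finset.Ioc D N, ((q : ℝ) ^ 2)⁻¹ ≤ (D : ℝ)⁻¹ := by
    rcases le_or_gt D N with h | h
    · have h1 := sum_Ioc_inv_sq_le_sub (α := ℝ) (show D ≠ 0 by omega) h
      have h2 : (0 : ℝ) ≤ (N : ℝ)⁻¹ := by positivity
      linarith
    · rw [Finset.Ioc_eq_empty_of_le h.le, sum_empty]
      positivity
  have h1 : (F.card : ℝ) ≤ ∑ q ∈ Finset.Ioc D N, (∑ i, ((F1 q i).card : ℝ) +
      ∑ i, ∑ j, ((F2 q i j).card : ℝ)) := by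
    have h2 : F.card ≤ ∑ q ∈ Finset.Ioc D N, (∑ i, (F1 q i).card + ∑ i, ∑ j, (F2 q i j).card) := by
      refine (card_le_card hcov).trans (card_biUnion_le.trans (sum_le_sum fun q _ => ?_))
      refine (card_union_le _ _).trans (Nat.add_le_add card_biUnion_le ?_)
      exact card_biUnion_le.trans (sum_le_sum fun i _ => card_biUnion_le)
    exact_mod_cast h2
  refine h1.trans ?_
  have hm0 : (0 : ℝ) ≤ m := Nat.cast_nonneg m
  have h3 : ∀ q ∈ Finset.Ioc D N, (∑ i, ((F1 q i).card : ℝ) + ∑ i, ∑ j, ((F2 q i j).card : ℝ)) ≤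
      2 * ((m : ℝ) + 1) ^ 2 * (2 * N + 1) ^ m * ((q : ℝ) ^ 2)⁻¹ := by
    intro q hq
    have hqr : (0 : ℝ) < q := by exact_mod_cast hq0 q hq
    have k1 : ∑ i, ((F1 q i).card : ℝ) ≤ (m + 1) * ((2 * N + 1) ^ m * ((q : ℝ) ^ 2)⁻¹) := by
      refine (sum_le_sum fun i _ => b1 q hq i).trans (le_of_eq ?_)
      rw [sum_const, card_univ, Fintype.card_fin, nsmul_eq_mul]
      push_cast
      rfl
    have k2 : ∑ i, ∑ j, ((F2 q i j).card : ℝ) ≤
        (m + 1) * ((m + 1) * ((2 * N + 1) ^ m * ((q : ℝ) ^ 2)⁻¹)) := by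
      refine (sum_le_sum fun i _ => sum_le_sum fun j _ => b2 q hq i j).trans (le_of_eq ?_)
      rw [sum_const, sum_const, card_univ, Fintype.card_fin, nsmul_eq_mul, nsmul_eq_mul]
      push_cast
      rfl
    have k3 : 0 ≤ (2 * (N : ℝ) + 1) ^ m * ((q : ℝ) ^ 2)⁻¹ := by positivity
    have k4 : 2 * ((m : ℝ) + 1) ^ 2 * (2 * N + 1) ^ m * ((q : ℝ) ^ 2)⁻¹ =
        2 * ((m : ℝ) + 1) ^ 2 * ((2 * N + 1) ^ m * ((q : ℝ) ^ 2)⁻¹) := by ring
    rw [k4]
    obtain ⟨K, hK⟩ : ∃ K : ℝ, K = (2 * (N : ℝ) + 1) ^ m * ((q : ℝ) ^ 2)⁻¹ := ⟨_, rfl⟩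
    rw [← hK] at k1 k2 k3 ⊢
    have k5 := mul_nonneg hm0 k3
    have k6 := mul_nonneg hm0 k5
    linarith
  refine (sum_le_sum h3).trans ?_
  rw [← mul_sum, div_eq_mul_inv]
  exact mul_le_mul_of_nonneg_left hsum (by positivity)

/-- all the local conditions -/
def Loc {m : ℕ} (w : ℕ) (z : Fin m → ℤ) : Prop :=
  ∀ q : ℕ, q.Prime → Lc q (w.factorization q) z

/-- **The effective count.** -/
theorem eff_count {m : ℕ} (hm : 2 ≤ m) : ∃ C1 : ℝ, 0 < C1 ∧ ∀ (k w D : ℕ) (T x V : ℝ)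
    (R : Set (Fin m → ℝ)), 0 < w → w + 1 ≤ D → 0 ≤ T → 0 < x → MeasurableSet R →
    (∀ y ∈ R, ∀ i, |y i| ≤ T) →
    (∀ (i : Fin m) (y : Fin m → ℝ), Nice k {t | Function.update y i t ∈ R}) →
    (volume R).toReal ≤ V →
    {z : Fin m → ℤ | Loc w z ∧ (fun i => (z i : ℝ) / x) ∈ R}.Finite ∧
    |({z : Fin m → ℤ | Loc w z ∧ (fun i => (z i : ℝ) / x) ∈ R}.ncard : ℝ) -
      C0 m * wt m w * (x ^ m * (volume R).toReal)| ≤
      C1 * ((2 * (m * (T * x)) + 1) ^ m / D) + C1 * (x ^ m * V) * (D : ℝ) ^ (-(1 / 2) : ℝ) +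
        2 * ((D : ℝ) ^ 9 * (m * k * (2 * (T * x) + (D : ℝ) ^ 7) ^ (m - 1))) := by
  classical
  obtain ⟨C1, hC1, hR, hTS⟩ := TS0_approx hm
  refine ⟨2 * ((m : ℝ) + 1) ^ 2 + 2 * C1, by positivity,
    fun k w D T x V R hw hwD hT hx hRm hRT hsec hV => ?_⟩
  have hm1 : 1 ≤ m := by omega
  have hD1 : 1 ≤ D := by omega
  have hD2 : 2 ≤ D := by omega
  have hDr : (1 : ℝ) ≤ D := by exact_mod_cast hD1
  have hDr0 : (0 : ℝ) < D := by linarith
  have hwr0 : (0 : ℝ) < w := by exact_mod_cast hw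
  have hwDr : (w : ℝ) ≤ D := by exact_mod_cast (by omega : w ≤ D)
  have hvol0 : 0 ≤ (volume R).toReal := ENNReal.toReal_nonneg
  obtain ⟨U, hU⟩ : ∃ U : ℝ, U = x ^ m * (volume R).toReal := ⟨_, rfl⟩
  have hU0 : 0 ≤ U := by rw [hU]; positivity
  have hUV : U ≤ x ^ m * V := by
    rw [hU]
    exact mul_le_mul_of_nonneg_left hV (by positivity)
  obtain ⟨E, hE⟩ : ∃ E : ℝ, E = m * k * (2 * (T * x) + (D : ℝ) ^ 7) ^ (m - 1) := ⟨_, rfl⟩
  have hE0 : 0 ≤ E := by rw [hE]; positivity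
  have hfin : {z : Fin m → ℤ | (fun i => (z i : ℝ) / x) ∈ R}.Finite := by
    have h := (lattice_scaled (q := 1) one_pos (fun _ => 0) hT hx hRm hRT hsec).1
    refine h.subset fun z hz => ⟨fun i => ?_, hz⟩
    simp
  obtain ⟨Rf, hRf⟩ : ∃ Rf : Finset (Fin m → ℤ), ∀ p, p ∈ Rf ↔ (fun i => (p i : ℝ) / x) ∈ R :=
    ⟨hfin.toFinset, fun p => Set.Finite.mem_toFinset _⟩
  set NF : Finset (Fin m → ℤ) := Rf.filter (fun p => Loc w p) with hNF
  set UF : Finset (Fin m → ℤ) :=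
    Rf.filter (fun p => ∀ q ∈ PP D, Lc q (w.factorization q) p) with hUF
  set WF : Finset (Fin m → ℤ) :=
    Rf.filter (fun p => ∀ q ∈ w.primeFactors, Lc q (w.factorization q) p) with hWF
  have hNset : {z : Fin m → ℤ | Loc w z ∧ (fun i => (z i : ℝ) / x) ∈ R} = (NF : Set (Fin m → ℤ)) := by
    ext z
    rw [mem_coe, hNF, mem_filter, hRf, Set.mem_ofPred_eq]
    exact and_comm
  have hNc : ({z : Fin m → ℤ | Loc w z ∧ (fun i => (z i : ℝ) / x) ∈ R}.ncard : ℝ) = (NF.card : ℝ) := by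
    rw [hNset, Set.ncard_coe_finset]
  -- the large primes
  have hsubNU : NF ⊆ UF := by
    intro z hz
    rw [hNF, mem_filter] at hz
    rw [hUF, mem_filter]
    exact ⟨hz.1, fun q hq => hz.2 q (PP_prime D q hq)⟩
  obtain ⟨N, hN⟩ : ∃ N : ℕ, N = ⌊(m : ℝ) * (T * x)⌋₊ := ⟨_, rfl⟩
  have hNr : (N : ℝ) ≤ m * (T * x) := by
    rw [hN]
    exact Nat.floor_le (by positivity)
  have hd : ((UF \ NF).card : ℝ) ≤ 2 * ((m : ℝ) + 1) ^ 2 * ((2 * (m * (T * x)) + 1) ^ m / D) := by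
    have h1 := bad_count (N := N) hm hD1 ((UF \ NF).image full) (fun y hy => by
      obtain ⟨z, hz, rfl⟩ := mem_image.1 hy
      obtain ⟨hz1, hz2⟩ := Finset.mem_sdiff.1 hz
      rw [hUF, mem_filter, hRf] at hz1
      obtain ⟨a1, a2⟩ := hz1
      have hL : ¬ Loc w z := by
        intro h
        apply hz2
        rw [hNF, mem_filter, hRf]
        exact ⟨a1, h⟩
      unfold Loc at hL
      push Not at hL
      obtain ⟨q, hq, hqL⟩ := hL
      have hqD : D < q := by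
        by_contra hcon
        exact hqL (a2 q (mem_PP.2 ⟨not_lt.1 hcon, hq⟩))
      have hqw : w.factorization q = 0 := by
        refine Nat.factorization_eq_zero_of_not_dvd fun h => ?_
        have := Nat.le_of_dvd hw h
        omega
      rw [hqw] at hqL
      refine ⟨sum_full z, fun i => ?_, fun i hi => ?_, q, hqD, ?_⟩
      · rw [hN]
        refine full_abs_le hm1 (fun i => ?_) i
        have h2 : |(z i : ℝ) / x| ≤ T := hRT _ a1 i
        rw [abs_div, abs_of_pos hx, div_le_iff₀ hx] at h2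
        exact h2
      · have h2 := (a2 2 (mem_PP.2 ⟨hD2, Nat.prime_two⟩)).2.2 i
        rw [hi] at h2
        exact h2 (dvd_zero _)
      · by_contra hcon
        push Not at hcon
        apply hqL
        exact ⟨fun i j hij h => hcon.1 i j hij h.1 h.2, fun h => absurd h (lt_irrefl 0), hcon.2⟩)
    rw [card_image_of_injective _ (fun _ _ h => full_inj h)] at h1
    refine h1.trans ?_
    rw [mul_div_assoc]
    refine mul_le_mul_of_nonneg_left ?_ (by positivity)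
    refine div_le_div_of_nonneg_right ?_ hDr0.le
    exact pow_le_pow_left₀ (by positivity) (by linarith) m
  have hd3 : |(NF.card : ℝ) - UF.card| ≤ (UF \ NF).card := by
    have e1 : UF.card = NF.card + (UF \ NF).card := by
      have := card_sdiff_add_card_eq_card hsubNU
      omega
    rw [e1]
    push_cast
    rw [sub_add_cancel_left, abs_neg, abs_of_nonneg (Nat.cast_nonneg _)]
  -- the sieve
  let B : (Fin m → ℤ) → Finset ℕ := fun p => (PPw w D).filter (fun q => Bd q p)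
  have hB : ∀ p, B p ⊆ PPw w D := fun p => filter_subset _ _
  have hUc : (UF.card : ℝ) = ∑ p ∈ WF, (if B p = ∅ then (1 : ℝ) else 0) := by
    rw [← sum_filter, sum_const, nsmul_eq_mul, mul_one]
    congr 2
    ext p
    rw [hUF, hWF, mem_filter, mem_filter, mem_filter, and_assoc]
    refine and_congr_right fun _ => ?_
    constructor
    · intro h
      refine ⟨fun q hq => h q ?_, ?_⟩
      · obtain ⟨h1, h2⟩ := PP_split hw (show w ≤ D by omega)
        rw [h2]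
        exact mem_union_left _ hq
      · rw [Finset.eq_empty_iff_forall_notMem]
        intro q hq
        obtain ⟨h1, h2⟩ := mem_filter.1 hq
        have h3 := h q (PPw_sub w D h1)
        rw [Nat.factorization_eq_zero_of_not_dvd (mem_PPw.1 h1).2] at h3
        exact h2 h3
    · rintro ⟨h1, h2⟩ q hq
      obtain ⟨h3, h4⟩ := PP_split hw (show w ≤ D by omega)
      rw [h4, mem_union] at hq
      rcases hq with hq | hq
      · exact h1 q hq
      · rw [Nat.factorization_eq_zero_of_not_dvd (mem_PPw.1 hq).2]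
        by_contra hcon
        have : q ∈ B p := mem_filter.2 ⟨hq, hcon⟩
        rw [h2] at this
        exact absurd this (Finset.notMem_empty q)
  have hTset : ∀ S ⊆ PPw w D, ((WF.filter (fun p => S ⊆ B p)).card : ℝ) =
      ({z : Fin m → ℤ | Tw w S z ∧ (fun i => (z i : ℝ) / x) ∈ R}.ncard : ℝ) := by
    intro S hS
    have : {z : Fin m → ℤ | Tw w S z ∧ (fun i => (z i : ℝ) / x) ∈ R} =
        ((WF.filter (fun p => S ⊆ B p) : Finset (Fin m → ℤ)) : Set (Fin m → ℤ)) := by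
      ext p
      rw [mem_coe, mem_filter, hWF, mem_filter, hRf, Set.mem_ofPred_eq]
      unfold Tw
      constructor
      · rintro ⟨⟨h2, h3⟩, h1⟩
        exact ⟨⟨h1, h2⟩, fun q hq => mem_filter.2 ⟨hS hq, h3 q hq⟩⟩
      · rintro ⟨⟨h1, h2⟩, h3⟩
        exact ⟨⟨h2, fun q hq => (mem_filter.1 (h3 hq)).2⟩, h1⟩
    rw [this, Set.ncard_coe_finset]
  have hTc : ∀ S ⊆ PPw w D, ((∏ q ∈ S, q : ℕ) : ℝ) ≤ (D : ℝ) * D →
      |((WF.filter (fun p => S ⊆ B p)).card : ℝ) - (Aw m w * ∏ q ∈ S, bet m q) * U| ≤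
      (D : ℝ) ^ 7 * E := by
    intro S hS hSD
    rw [hTset S hS, hU]
    have h1 := (Tw_count hm1 hw hS hT hx hRm hRT hsec).2
    refine h1.trans ?_
    have h2 : (w : ℝ) ^ 3 * (((∏ q ∈ S, q : ℕ) : ℝ)) ^ 2 ≤ (D : ℝ) ^ 7 := by
      calc (w : ℝ) ^ 3 * (((∏ q ∈ S, q : ℕ) : ℝ)) ^ 2 ≤ (D : ℝ) ^ 3 * ((D : ℝ) * D) ^ 2 :=
            mul_le_mul (pow_le_pow_left₀ hwr0.le hwDr 3)
              (pow_le_pow_left₀ (Nat.cast_nonneg _) hSD 2) (by positivity) (by positivity)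
        _ = (D : ℝ) ^ 7 := by ring
    have hTx : 0 ≤ T * x := by positivity
    rw [hE]
    calc (m : ℝ) * (k * ((w : ℝ) ^ 3 * (((∏ q ∈ S, q : ℕ) : ℝ)) ^ 2)) *
        (2 * (T * x) + ((w : ℝ) ^ 3 * (((∏ q ∈ S, q : ℕ) : ℝ)) ^ 2)) ^ (m - 1) ≤
        (m : ℝ) * (k * (D : ℝ) ^ 7) * (2 * (T * x) + (D : ℝ) ^ 7) ^ (m - 1) := by gcongr
      _ = _ := by ring
  obtain ⟨M1, hM1⟩ : ∃ M1 : ℝ, M1 = ∑ S ∈ (PPw w D).powerset with
      ((∏ q ∈ S, q : ℕ) : ℝ) ≤ D, (-1 : ℝ) ^ S.card *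
        ((WF.filter (fun p => S ⊆ B p)).card : ℝ) := ⟨_, rfl⟩
  obtain ⟨M2, hM2⟩ : ∃ M2 : ℝ, M2 = ∑ S ∈ (PPw w D).powerset with
      (D : ℝ) < ((∏ q ∈ S, q : ℕ) : ℝ) ∧ ((∏ q ∈ S, q : ℕ) : ℝ) ≤ (D : ℝ) * D,
        1 * ((WF.filter (fun p => S ⊆ B p)).card : ℝ) := ⟨_, rfl⟩
  have hUM : |(UF.card : ℝ) - M1| ≤ M2 := by
    rw [hM1, hM2, hUc, ← swap_sum WF (PPw w D) B hB, ← swap_sum WF (PPw w D) B hB,
      ← sum_sub_distrib]
    refine (abs_sum_le_sum_abs _ _).trans (sum_le_sum fun p _ => ?_)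
    rw [sum_const, nsmul_eq_mul, mul_one]
    refine trunc hDr (B p) fun q hq => ?_
    obtain ⟨⟨h1, h2⟩, -⟩ := mem_PPw.1 (hB p hq)
    exact ⟨h2.one_le, by exact_mod_cast h1⟩
  have hM1' : |M1 - Aw m w * TS0 m w D * U| ≤ (D : ℝ) ^ 9 * E := by
    have e : Aw m w * TS0 m w D * U = ∑ S ∈ (PPw w D).powerset with
        ((∏ q ∈ S, q : ℕ) : ℝ) ≤ D, (-1 : ℝ) ^ S.card * ((Aw m w * ∏ q ∈ S, bet m q) * U) := by
      unfold TS0
      rw [mul_sum, sum_mul]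
      refine sum_congr rfl fun S _ => by ring
    rw [e, hM1, ← sum_sub_distrib]
    refine (abs_sum_le_sum_abs _ _).trans ?_
    have h1 : ∀ S ∈ (PPw w D).powerset.filter (fun S => ((∏ q ∈ S, q : ℕ) : ℝ) ≤ D),
        |(-1 : ℝ) ^ S.card * ((WF.filter (fun p => S ⊆ B p)).card : ℝ) -
          (-1 : ℝ) ^ S.card * ((Aw m w * ∏ q ∈ S, bet m q) * U)| ≤ (D : ℝ) ^ 7 * E := by
      intro S hS
      obtain ⟨hS1, hS2⟩ := mem_filter.1 hS
      rw [← mul_sub, abs_mul, abs_pow, abs_neg, abs_one, one_pow, one_mul]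
      refine hTc S (mem_powerset.1 hS1) (hS2.trans ?_)
      exact le_mul_of_one_le_right hDr0.le hDr
    refine (sum_le_sum h1).trans ?_
    rw [sum_const, nsmul_eq_mul]
    have h2 := card_sets (w := w) (N := D) (M := D)
    calc (((PPw w D).powerset.filter (fun S => ((∏ q ∈ S, q : ℕ) : ℝ) ≤ D)).card : ℝ) *
          ((D : ℝ) ^ 7 * E) ≤ D * ((D : ℝ) ^ 7 * E) :=
          mul_le_mul_of_nonneg_right h2 (by positivity)
      _ = (D : ℝ) ^ 8 * E := by ring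
      _ ≤ (D : ℝ) ^ 9 * E :=
          mul_le_mul_of_nonneg_right (pow_le_pow_right₀ hDr (by norm_num)) hE0
  have hM2' : M2 ≤ C1 * U * (D : ℝ) ^ (-(1 / 2) : ℝ) + (D : ℝ) ^ 9 * E := by
    have h1 : ∀ S ∈ (PPw w D).powerset.filter (fun S => (D : ℝ) < ((∏ q ∈ S, q : ℕ) : ℝ) ∧
        ((∏ q ∈ S, q : ℕ) : ℝ) ≤ (D : ℝ) * D),
        1 * ((WF.filter (fun p => S ⊆ B p)).card : ℝ) ≤
          U * (∏ q ∈ S, bet m q) + (D : ℝ) ^ 7 * E := by
      intro S hS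
      obtain ⟨hS1, hS2, hS3⟩ := mem_filter.1 hS
      rw [mem_powerset] at hS1
      have h2 := (abs_le.1 (hTc S hS1 hS3)).2
      have h4 : 0 ≤ ∏ q ∈ S, bet m q := prod_nonneg fun q hq => bet_nonneg hm (mem_PPw.1 (hS1 hq)).1.2
      have h5 : (Aw m w * ∏ q ∈ S, bet m q) * U ≤ U * (∏ q ∈ S, bet m q) := by
        have k1 : Aw m w * ∏ q ∈ S, bet m q ≤ 1 * ∏ q ∈ S, bet m q :=
          mul_le_mul_of_nonneg_right (Aw_le_one hm w) h4
        have k2 := mul_le_mul_of_nonneg_right k1 hU0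
        refine k2.trans (le_of_eq (by ring))
      linarith
    rw [hM2]
    refine (sum_le_sum h1).trans ?_
    rw [sum_add_distrib, ← mul_sum, sum_const, nsmul_eq_mul]
    have h2 : ∑ S ∈ (PPw w D).powerset with (D : ℝ) < ((∏ q ∈ S, q : ℕ) : ℝ) ∧
        ((∏ q ∈ S, q : ℕ) : ℝ) ≤ (D : ℝ) * D, ∏ q ∈ S, bet m q ≤
        C1 * (D : ℝ) ^ (-(1 / 2) : ℝ) := by
      refine le_trans ?_ (hR D D hDr)
      refine sum_le_sum_of_subset_of_nonneg ?_ fun S hS _ => ?_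
      · intro S hS
        obtain ⟨h3, h4, -⟩ := mem_filter.1 hS
        exact mem_filter.2 ⟨mem_powerset.2 ((mem_powerset.1 h3).trans (PPw_sub w D)), h4⟩
      · have h3 := mem_powerset.1 (mem_filter.1 hS).1
        exact prod_nonneg fun q hq => bet_nonneg hm (PP_prime D q (h3 hq))
    have h3 : (((PPw w D).powerset.filter (fun S => (D : ℝ) < ((∏ q ∈ S, q : ℕ) : ℝ) ∧
        ((∏ q ∈ S, q : ℕ) : ℝ) ≤ (D : ℝ) * D)).card : ℝ) ≤ (D : ℝ) * D := by
      have h4 := card_sets (w := w) (N := D) (M := D * D)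
      have h5 : ((D * D : ℕ) : ℝ) = (D : ℝ) * D := by push_cast; ring
      rw [← h5]
      refine le_trans ?_ h4
      have : ((PPw w D).powerset.filter (fun S => (D : ℝ) < ((∏ q ∈ S, q : ℕ) : ℝ) ∧
        ((∏ q ∈ S, q : ℕ) : ℝ) ≤ ((D * D : ℕ) : ℝ))).card ≤
        ((PPw w D).powerset.filter
          (fun S => ((∏ q ∈ S, q : ℕ) : ℝ) ≤ ((D * D : ℕ) : ℝ))).card := by
        refine card_le_card fun S hS => ?_
        rw [mem_filter] at hS ⊢
        exact ⟨hS.1, hS.2.2⟩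
      exact_mod_cast this
    have h4 := mul_le_mul_of_nonneg_left h2 hU0
    have h5 : (((PPw w D).powerset.filter (fun S => (D : ℝ) < ((∏ q ∈ S, q : ℕ) : ℝ) ∧
        ((∏ q ∈ S, q : ℕ) : ℝ) ≤ (D : ℝ) * D)).card : ℝ) * ((D : ℝ) ^ 7 * E) ≤
        (D : ℝ) ^ 9 * E := by
      refine (mul_le_mul_of_nonneg_right h3 (by positivity)).trans (le_of_eq (by ring))
    linarith
  have hM3 : |Aw m w * TS0 m w D * U - C0 m * wt m w * U| ≤ C1 * U * (D : ℝ) ^ (-(1 / 2) : ℝ) := by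
    rw [← sub_mul, abs_mul, abs_of_nonneg hU0]
    have h1 := mul_le_mul_of_nonneg_right (hTS w D hw hD1) hU0
    refine h1.trans (le_of_eq (by ring))
  refine ⟨by rw [hNset]; exact finite_toSet _, ?_⟩
  rw [hNc, ← hU]
  have e : (NF.card : ℝ) - C0 m * wt m w * U =
      (NF.card - UF.card) + (UF.card - M1) + (M1 - Aw m w * TS0 m w D * U) +
        (Aw m w * TS0 m w D * U - C0 m * wt m w * U) := by ring
  rw [e]
  refine (abs_add_le _ _).trans ?_
  have t1 := abs_add_le ((NF.card : ℝ) - UF.card + (UF.card - M1))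
    (M1 - Aw m w * TS0 m w D * U)
  have t2 := abs_add_le ((NF.card : ℝ) - UF.card) (UF.card - M1)
  have t3 : C1 * U * (D : ℝ) ^ (-(1 / 2) : ℝ) ≤ C1 * (x ^ m * V) * (D : ℝ) ^ (-(1 / 2) : ℝ) := by
    gcongr
  have t4 : 0 ≤ (x ^ m * V) * (D : ℝ) ^ (-(1 / 2) : ℝ) := by
    have : 0 ≤ x ^ m * V := hU0.trans hUV
    positivity
  have t5 : 0 ≤ (2 * (m * (T * x)) + 1) ^ m / (D : ℝ) := by positivity
  rw [← hE]
  have t6 : (0 : ℝ) ≤ ((m : ℝ) + 1) ^ 2 * ((x ^ m * V) * (D : ℝ) ^ (-(1 / 2) : ℝ)) := by positivity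
  have t7 := mul_nonneg hC1.le t5
  nlinarith

end Pool.Agent.V7H9.SN
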