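import Pool.Agent.V7H9.SN.GBd

set_option autoImplicit false

/-!
# The final forms
-/

namespace Pool.Agent.V7H9.SN

open Finset Filter Topology MeasureTheory Pool.Agent.H785R2.ABC

/-- the main term for a power is small -/
theorem main_le {m : ℕ} (hm : 2 ≤ m) {ε : ℝ} (hε : 0 < ε) (hε1 : ε < 1) : ∃ C : ℝ, 0 < C ∧
    ∀ δ : ℝ, 0 < δ → δ ≤ 1 / 3 → ∀ X : ℝ, 1 ≤ X →
    ∫ u in (1 : ℝ)..(X ^ ((m : ℝ) / (m + 1))), Gn m ((u ^ (((m : ℝ) + 1) / m)) ^ δ) ≤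
      C * X ^ ((m : ℝ) / (m + 1) - δ + ε) := by
  obtain ⟨C, hC, hg⟩ := Gn_upper hm hε hε1
  have hmr : (2 : ℝ) ≤ m := by exact_mod_cast hm
  obtain ⟨e0, he0⟩ : ∃ e0 : ℝ, e0 = (m : ℝ) / (m + 1) := ⟨_, rfl⟩
  obtain ⟨e1, he1⟩ : ∃ e1 : ℝ, e1 = ((m : ℝ) + 1) / m := ⟨_, rfl⟩
  have he0' : 2 / 3 ≤ e0 := by
    rw [he0, div_le_div_iff₀ (by norm_num) (by positivity)]
    linarith
  have he1' : e1 ≤ 3 / 2 := by
    rw [he1, div_le_div_iff₀ (by positivity) (by norm_num)]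
    linarith
  have he00 : 0 < e0 := by linarith
  have he10 : 0 < e1 := by rw [he1]; positivity
  have he01 : e0 * e1 = 1 := by
    rw [he0, he1]
    field_simp
  refine ⟨2 * C, by positivity, fun δ hδ hδ1 X hX => ?_⟩
  rw [← he0, ← he1]
  have hX0 : 0 < X := by linarith
  obtain ⟨U, hU⟩ : ∃ U : ℝ, U = X ^ e0 := ⟨_, rfl⟩
  have hU1 : 1 ≤ U := by rw [hU]; exact Real.one_le_rpow hX he00.le
  have hU0 : 0 < U := by linarith
  rw [← hU]
  obtain ⟨a, ha⟩ : ∃ a : ℝ, a = e1 * δ * (1 - ε) := ⟨_, rfl⟩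
  have ha0 : 0 ≤ a := by
    rw [ha]
    exact mul_nonneg (by positivity) (by linarith)
  have ha1 : a ≤ 1 / 2 := by
    have h1 : e1 * δ ≤ 1 / 2 := by nlinarith
    have h2 : 0 < e1 * δ := by positivity
    rw [ha]
    nlinarith
  have hanti : AntitoneOn (fun u : ℝ => Gn m ((u ^ e1) ^ δ)) (Set.uIcc 1 U) := by
    intro u hu v hv huv
    rw [Set.uIcc_of_le hU1] at hu hv
    have hu0 : 0 < u := by linarith [hu.1]
    refine Gn_anti hm (by positivity) ?_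
    exact Real.rpow_le_rpow (by positivity) (Real.rpow_le_rpow hu0.le huv he10.le) hδ.le
  have hcont : IntervalIntegrable (fun u : ℝ => C * u ^ (-a)) volume 1 U := by
    refine ContinuousOn.intervalIntegrable ?_
    refine ContinuousOn.mul continuousOn_const ?_
    refine ContinuousOn.rpow_const continuousOn_id fun u hu => ?_
    rw [Set.uIcc_of_le hU1] at hu
    left
    have := hu.1
    linarith
  have h1 : ∫ u in (1 : ℝ)..U, Gn m ((u ^ e1) ^ δ) ≤ ∫ u in (1 : ℝ)..U, C * u ^ (-a) := by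
    refine intervalIntegral.integral_mono_on hU1 hanti.intervalIntegrable hcont fun u hu => ?_
    have hu0 : 0 < u := by linarith [hu.1]
    refine (hg _ (by positivity)).trans (le_of_eq ?_)
    rw [← Real.rpow_mul hu0.le, ← Real.rpow_mul hu0.le, ha]
    congr 2
    ring
  refine h1.trans ?_
  rw [intervalIntegral.integral_const_mul, integral_rpow (Or.inl (by linarith)), Real.one_rpow]
  have h2 : (U ^ (-a + 1) - 1) / (-a + 1) ≤ 2 * U ^ (1 - a) := by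
    rw [div_le_iff₀ (by linarith)]
    have e : -a + 1 = 1 - a := by ring
    rw [e]
    have h3 : 0 < U ^ (1 - a) := by positivity
    nlinarith
  have h3 : U ^ (1 - a) ≤ X ^ (e0 - δ + ε) := by
    rw [hU, ← Real.rpow_mul hX0.le]
    refine Real.rpow_le_rpow_of_exponent_le hX ?_
    have h4 : e0 * (1 - a) = e0 - (e0 * e1) * δ * (1 - ε) := by rw [ha]; ring
    rw [h4, he01]
    nlinarith
  calc C * ((U ^ (-a + 1) - 1) / (-a + 1)) ≤ C * (2 * U ^ (1 - a)) :=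
        mul_le_mul_of_nonneg_left h2 hC.le
    _ ≤ C * (2 * X ^ (e0 - δ + ε)) := by gcongr
    _ = _ := by ring

/-- **The asymptotic number of the exceptions.** -/
theorem ratio {m : ℕ} (hm : 2 ≤ m) {C ν : ℝ} (hC : 0 < C) {δ : ℝ} (hδ : 0 < δ) (hδν : δ < ν)
    {f : ℝ → ℝ} (h : ∀ X : ℝ, 1 ≤ X → |f X -
      ∫ u in (1 : ℝ)..(X ^ ((m : ℝ) / (m + 1))), Gn m ((u ^ (((m : ℝ) + 1) / m)) ^ δ)| ≤
        C * X ^ ((m : ℝ) / (m + 1) - ν)) :
    Tendsto (fun X : ℝ => f X /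
      ∫ u in (1 : ℝ)..(X ^ ((m : ℝ) / (m + 1))), Gn m ((u ^ (((m : ℝ) + 1) / m)) ^ δ))
        atTop (𝓝 1) := by
  obtain ⟨c, hc, hmain⟩ := main_ge hm
  have h1 : Tendsto (fun X : ℝ => C / c * X ^ (-(ν - δ))) atTop (𝓝 0) := by
    have := (tendsto_rpow_neg_atTop (by linarith : 0 < ν - δ)).const_mul (C / c)
    rwa [mul_zero] at this
  rw [tendsto_iff_dist_tendsto_zero]
  refine squeeze_zero' (Eventually.of_forall fun X => dist_nonneg) ?_ h1
  filter_upwards [eventually_ge_atTop 2] with X hX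
  have hX0 : 0 < X := by linarith
  have h2 := h X (by linarith)
  have h3 := hmain δ hδ X hX
  obtain ⟨e0, he0⟩ : ∃ e0 : ℝ, e0 = (m : ℝ) / (m + 1) := ⟨_, rfl⟩
  rw [← he0] at h2 h3 ⊢
  obtain ⟨I, hI⟩ : ∃ I : ℝ,
    I = ∫ u in (1 : ℝ)..(X ^ e0), Gn m ((u ^ (((m : ℝ) + 1) / m)) ^ δ) := ⟨_, rfl⟩
  rw [← hI] at h2 h3 ⊢
  have h4 : 0 < c * X ^ (e0 - δ) := by positivity
  have hI0 : 0 < I := lt_of_lt_of_le h4 h3
  have h5 : f X / I - 1 = (f X - I) / I := by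
    field_simp
  rw [Real.dist_eq, h5, abs_div, abs_of_pos hI0, div_le_iff₀ hI0]
  refine h2.trans ?_
  have h6 : C / c * X ^ (-(ν - δ)) * (c * X ^ (e0 - δ)) ≤ C / c * X ^ (-(ν - δ)) * I :=
    mul_le_mul_of_nonneg_left h3 (by positivity)
  refine le_trans (le_of_eq ?_) h6
  have h7 : X ^ (e0 - ν) = X ^ (-(ν - δ)) * X ^ (e0 - δ) := by
    rw [← Real.rpow_add hX0]
    congr 1
    ring
  rw [h7]
  field_simp

end Pool.Agent.V7H9.SN
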