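import Pool.Agent.V7H9.SN.Thr

set_option autoImplicit false

/-!
# Bounds for the limit function
-/

namespace Pool.Agent.V7H9.SN

open Finset Filter Topology MeasureTheory Pool.Agent.H785R2.ABC
open scoped Pointwise

/-- the box in the region of large height -/
lemma box_low (p : ℕ) {z : ℝ} (hz : 1 ≤ z) :
    (Set.pi Set.univ (Fin.cons (Set.Icc z (2 * z)) (Fin.cons (Set.Icc 0 (1 / (8 * z ^ 2)))
      (fun _ : Fin p => Set.Icc 0 (1 / ((p : ℝ) + 1)))) : Fin (p + 2) → Set ℝ)) ⊆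
      Hz (p + 2) z 1 ∩ RI (p + 2) := by
  intro y hy
  have hz0 : 0 < z := by linarith
  have hp : (0 : ℝ) ≤ p := Nat.cast_nonneg p
  have h0 : y 0 ∈ Set.Icc z (2 * z) := hy 0 trivial
  have h1 : y (Fin.succ 0) ∈ Set.Icc 0 (1 / (8 * z ^ 2)) := hy (Fin.succ 0) trivial
  have h2 : ∀ i : Fin p, y i.succ.succ ∈ Set.Icc 0 (1 / ((p : ℝ) + 1)) :=
    fun i => hy i.succ.succ trivial
  have hsq : 1 / (8 * z ^ 2) ≤ 1 := by
    rw [div_le_one (by positivity)]
    nlinarith
  have hs : 0 ≤ ∑ i : Fin p, y i.succ.succ ∧ ∑ i : Fin p, y i.succ.succ ≤ 1 := by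
    refine ⟨sum_nonneg fun i _ => (h2 i).1, ?_⟩
    refine (sum_le_sum fun i _ => (h2 i).2).trans ?_
    rw [sum_const, card_univ, Fintype.card_fin, nsmul_eq_mul, mul_one_div, div_le_one (by positivity)]
    linarith
  have hsum : |full y 0| ≤ 4 * z := by
    rw [full_zero, abs_neg, Fin.sum_univ_succ, Fin.sum_univ_succ, abs_of_nonneg (by
      linarith [h0.1, h1.1, hs.1])]
    linarith [h0.2, h1.2, hs.2]
  have hprod : ∏ l, |full y l| ≤ 1 := by
    rw [Fin.prod_univ_succ, Fin.prod_univ_succ, Fin.prod_univ_succ]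
    have e1 : |full y (Fin.succ 0)| ≤ 2 * z := by
      rw [full_succ, abs_of_nonneg (by linarith [h0.1])]
      exact h0.2
    have e2 : |full y (Fin.succ (Fin.succ 0))| ≤ 1 / (8 * z ^ 2) := by
      rw [full_succ, abs_of_nonneg h1.1]
      exact h1.2
    have e3 : ∏ i : Fin p, |full y i.succ.succ.succ| ≤ 1 := by
      refine prod_le_one (fun i _ => abs_nonneg _) fun i _ => ?_
      rw [full_succ, abs_of_nonneg (h2 i).1]
      refine (h2 i).2.trans ?_
      rw [div_le_one (by positivity)]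
      linarith
    calc |full y 0| * (|full y (Fin.succ 0)| * (|full y (Fin.succ (Fin.succ 0))| *
          ∏ i : Fin p, |full y i.succ.succ.succ|)) ≤
          (4 * z) * ((2 * z) * ((1 / (8 * z ^ 2)) * 1)) := by
          refine mul_le_mul hsum (mul_le_mul e1 (mul_le_mul e2 e3 ?_ ?_) ?_ ?_) ?_ ?_
          · exact prod_nonneg fun i _ => abs_nonneg _
          · positivity
          · exact mul_nonneg (abs_nonneg _) (prod_nonneg fun i _ => abs_nonneg _)
          · positivity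
          · exact mul_nonneg (abs_nonneg _) (mul_nonneg (abs_nonneg _)
              (prod_nonneg fun i _ => abs_nonneg _))
          · positivity
      _ = 1 := by
          field_simp
          norm_num
  refine ⟨⟨Fin.succ 0, ?_⟩, hprod⟩
  rw [full_succ, Nat.cast_one, one_mul, abs_of_nonneg (by linarith [h0.1])]
  calc z ^ (p + 2 + 1) * ∏ l, |full y l| ≤ z ^ (p + 2 + 1) * 1 :=
        mul_le_mul_of_nonneg_left hprod (by positivity)
    _ = z ^ (p + 2 + 1) := mul_one _
    _ ≤ _ := pow_le_pow_left₀ hz0.le h0.1 _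

lemma Gn_term {m : ℕ} (hm : 2 ≤ m) (z : ℝ) :
    C0 m * (volume (Hz m z 1 ∩ RI m)).toReal ≤ Gn m z := by
  have h := (LM_summable hm (Hz m z)).sum_le_tsum {1} (fun w _ =>
    mul_nonneg (mul_nonneg (C0_pos hm).le (wgt_nonneg hm w)) ENNReal.toReal_nonneg)
  rw [sum_singleton, wgt_one, mul_one] at h
  exact h

/-- the lower bound -/
theorem Gn_ge {m : ℕ} (hm : 2 ≤ m) : ∃ c : ℝ, 0 < c ∧ ∀ z : ℝ, 1 ≤ z → c / z ≤ Gn m z := by
  obtain ⟨p, rfl⟩ : ∃ p, m = p + 2 := ⟨m - 2, by omega⟩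
  have hC0 := C0_pos hm
  refine ⟨C0 (p + 2) * (1 / 8 * (1 / ((p : ℝ) + 1)) ^ p), by positivity, fun z hz => ?_⟩
  have hz0 : 0 < z := by linarith
  refine le_trans ?_ (Gn_term hm z)
  rw [mul_div_assoc]
  refine mul_le_mul_of_nonneg_left ?_ hC0.le
  have hfin : volume (Hz (p + 2) z 1 ∩ RI (p + 2)) ≠ ⊤ :=
    ((measure_mono Set.inter_subset_right).trans_lt
      (lt_top_iff_ne_top.2 (RI_fin (by omega)))).ne
  have h1 := measure_mono (μ := volume) (box_low p hz)
  rw [volume_pi, Measure.pi_pi, Fin.prod_univ_succ, Fin.prod_univ_succ] at h1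
  simp only [Fin.cons_zero, Fin.cons_succ, Real.volume_Icc, prod_const, card_univ,
    Fintype.card_fin, sub_zero] at h1
  rw [← ENNReal.ofReal_pow (by positivity), ← ENNReal.ofReal_mul (by positivity),
    ← ENNReal.ofReal_mul (by linarith)] at h1
  have h2 := (ENNReal.ofReal_le_iff_le_toReal hfin).1 h1
  refine le_trans (le_of_eq ?_) h2
  field_simp
  ring

/-- the cone, at a smaller scale -/
lemma Hz_vol {m : ℕ} (hm : 2 ≤ m) {κ : ℝ} (hκ : 0 < κ) (hκ1 : κ < 1) : ∃ C : ℝ, 0 < C ∧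
    ∀ (z : ℝ) (w : ℕ), 0 < z → 0 < w → (volume (Hz m z w ∩ RI m)).toReal ≤
      C * (z / (w : ℝ) ^ (1 / ((m : ℝ) + 1))) ^ (-κ) := by
  have hm1 : 1 ≤ m := by omega
  have hmr : (2 : ℝ) ≤ m := by exact_mod_cast hm
  obtain ⟨C, hC, hv⟩ := vol_tail2 hm1 hκ hκ1
  have hVI := VI_pos hm1
  refine ⟨(2 * C + VI m) * (4 * m) ^ κ, by positivity, fun z w hz hw => ?_⟩
  have hwr : (0 : ℝ) < w := by exact_mod_cast hw
  obtain ⟨t, ht⟩ : ∃ t : ℝ, t = z / (w : ℝ) ^ (1 / ((m : ℝ) + 1)) := ⟨_, rfl⟩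
  have ht0 : 0 < t := by rw [ht]; positivity
  have htm : t ^ (m + 1) * w = z ^ (m + 1) := by
    have h1 : ((w : ℝ) ^ (1 / ((m : ℝ) + 1))) ^ (m + 1) = w := by
      rw [← Real.rpow_natCast, ← Real.rpow_mul hwr.le]
      push_cast
      rw [one_div, inv_mul_cancel₀ (by positivity), Real.rpow_one]
    rw [ht, div_pow, h1]
    field_simp
  rw [← ht]
  obtain ⟨S, hS⟩ : ∃ S, S = Hz m z w ∩ RI m := ⟨_, rfl⟩
  have hSm : MeasurableSet S := by rw [hS]; exact (Hz_meas m z w).inter (RI_meas m)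
  have hSfin : volume S ≠ ⊤ := by
    rw [hS]
    exact ((measure_mono Set.inter_subset_right).trans_lt (lt_top_iff_ne_top.2 (RI_fin hm1))).ne
  rw [← hS]
  obtain ⟨V, hV⟩ : ∃ V : ℝ, V = (volume S).toReal := ⟨_, rfl⟩
  rw [← hV]
  have hV0 : 0 ≤ V := by rw [hV]; exact ENNReal.toReal_nonneg
  -- the small `t`
  rcases lt_or_ge t (4 * m) with hsm | hbig
  · have h1 : V ≤ VI m := by
      rw [hV, hS]
      exact vol_le_VI hm1 Set.inter_subset_right
    have h2 : 1 ≤ (4 * (m : ℝ)) ^ κ * t ^ (-κ) := by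
      rw [Real.rpow_neg ht0.le, ← div_eq_mul_inv, one_le_div (by positivity)]
      exact Real.rpow_le_rpow ht0.le hsm.le hκ.le
    calc V ≤ VI m * 1 := by rw [mul_one]; exact h1
      _ ≤ (2 * C + VI m) * ((4 * (m : ℝ)) ^ κ * t ^ (-κ)) :=
          mul_le_mul (by linarith) h2 zero_le_one (by positivity)
      _ = _ := by ring
  · -- the scaled copy
    have hscale : ((2 : ℝ)⁻¹ • S) ⊆ S := by
      intro y hy
      rw [Set.mem_smul_set_iff_inv_smul_mem₀ (by norm_num), inv_inv] at hy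
      rw [hS] at hy ⊢
      obtain ⟨⟨j, hj⟩, h2⟩ := hy
      have hf : ∀ i, full ((2 : ℝ) • y) i = 2 * full y i := by
        intro i
        refine Fin.cases ?_ (fun k => ?_) i
        · rw [full_zero, full_zero]
          simp only [Pi.smul_apply, smul_eq_mul]
          rw [← mul_sum]
          ring
        · rw [full_succ, full_succ]
          simp only [Pi.smul_apply, smul_eq_mul]
      have hpr : ∏ l, |full ((2 : ℝ) • y) l| = 2 ^ (m + 1) * ∏ l, |full y l| := by
        simp only [hf, abs_mul]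
        rw [prod_mul_distrib, prod_const, card_univ, Fintype.card_fin]
        norm_num
      have hpos : 0 ≤ ∏ l, |full y l| := prod_nonneg fun l _ => abs_nonneg _
      refine ⟨⟨j, ?_⟩, ?_⟩
      · rw [hpr, hf, abs_mul, mul_pow] at hj
        have e1 : |(2 : ℝ)| = 2 := by norm_num
        rw [e1] at hj
        have e2 : z ^ (m + 1) * (2 ^ (m + 1) * ∏ l, |full y l|) =
            2 ^ (m + 1) * (z ^ (m + 1) * ∏ l, |full y l|) := by ring
        have e3 : (w : ℝ) * (2 ^ (m + 1) * |full y j| ^ (m + 1)) =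
            2 ^ (m + 1) * ((w : ℝ) * |full y j| ^ (m + 1)) := by ring
        rw [e2, e3] at hj
        exact le_of_mul_le_mul_left hj (by positivity)
      · have h3 : ∏ l, |full ((2 : ℝ) • y) l| ≤ 1 := h2
        rw [hpr] at h3
        have h4 : (1 : ℝ) ≤ 2 ^ (m + 1) := one_le_pow₀ (by norm_num)
        have h5 : ∏ l, |full y l| ≤ 1 := by nlinarith
        exact h5
    have hsub : S \ ((2 : ℝ)⁻¹ • S) ⊆ RI m \ RT m (t / (4 * m)) := by
      rintro y ⟨hy, hy2⟩
      have hy' := hy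
      rw [hS] at hy'
      obtain ⟨⟨j, hj⟩, h2⟩ := hy'
      refine ⟨h2, fun hcon => ?_⟩
      have h2' : ∏ l, |full y l| ≤ 1 := h2
      -- the product is not small
      have h3 : 1 < 2 ^ (m + 1) * ∏ l, |full y l| := by
        by_contra hc
        push Not at hc
        apply hy2
        rw [Set.mem_smul_set_iff_inv_smul_mem₀ (by norm_num), inv_inv, hS]
        have hf : ∀ i, full ((2 : ℝ) • y) i = 2 * full y i := by
          intro i
          refine Fin.cases ?_ (fun k => ?_) i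
          · rw [full_zero, full_zero]
            simp only [Pi.smul_apply, smul_eq_mul]
            rw [← mul_sum]
            ring
          · rw [full_succ, full_succ]
            simp only [Pi.smul_apply, smul_eq_mul]
        have hpr : ∏ l, |full ((2 : ℝ) • y) l| = 2 ^ (m + 1) * ∏ l, |full y l| := by
          simp only [hf, abs_mul]
          rw [prod_mul_distrib, prod_const, card_univ, Fintype.card_fin]
          norm_num
        refine ⟨⟨j, ?_⟩, ?_⟩
        · rw [hpr, hf, abs_mul, mul_pow]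
          have e1 : |(2 : ℝ)| = 2 := by norm_num
          rw [e1]
          have e2 : z ^ (m + 1) * (2 ^ (m + 1) * ∏ l, |full y l|) =
              2 ^ (m + 1) * (z ^ (m + 1) * ∏ l, |full y l|) := by ring
          have e3 : (w : ℝ) * (2 ^ (m + 1) * |full y j| ^ (m + 1)) =
              2 ^ (m + 1) * ((w : ℝ) * |full y j| ^ (m + 1)) := by ring
          rw [e2, e3]
          exact mul_le_mul_of_nonneg_left hj (by positivity)
        · have : ∏ l, |full ((2 : ℝ) • y) l| ≤ 1 := by rw [hpr]; exact hc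
          exact this
      -- the height is large
      have h4 : t ^ (m + 1) * ∏ l, |full y l| ≤ |full y j| ^ (m + 1) := by
        have h5 : w * (t ^ (m + 1) * ∏ l, |full y l|) ≤ w * |full y j| ^ (m + 1) := by
          calc w * (t ^ (m + 1) * ∏ l, |full y l|) = (t ^ (m + 1) * w) * ∏ l, |full y l| := by ring
            _ = z ^ (m + 1) * ∏ l, |full y l| := by rw [htm]
            _ ≤ _ := hj
        exact le_of_mul_le_mul_left h5 hwr
      have h5 : t ^ (m + 1) < (2 * |full y j|) ^ (m + 1) := by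
        rw [mul_pow]
        have h6 : 0 < t ^ (m + 1) := by positivity
        have h7 : (0 : ℝ) < 2 ^ (m + 1) := by positivity
        calc t ^ (m + 1) = t ^ (m + 1) * 1 := (mul_one _).symm
          _ < t ^ (m + 1) * (2 ^ (m + 1) * ∏ l, |full y l|) := mul_lt_mul_of_pos_left h3 h6
          _ = 2 ^ (m + 1) * (t ^ (m + 1) * ∏ l, |full y l|) := by ring
          _ ≤ _ := mul_le_mul_of_nonneg_left h4 h7.le
      have h6 : t < 2 * |full y j| := lt_of_pow_lt_pow_left₀ (m + 1) (by positivity) h5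
      -- some coordinate is large
      have h7 : |full y j| ≤ m * (t / (4 * m)) := by
        have h8 := hcon.2
        refine Fin.cases ?_ (fun k => ?_) j
        · rw [full_zero, abs_neg]
          refine (abs_sum_le_sum_abs _ _).trans ((sum_le_sum fun i _ => h8 i).trans (le_of_eq ?_))
          rw [sum_const, card_univ, Fintype.card_fin, nsmul_eq_mul]
        · rw [full_succ]
          refine (h8 k).trans ?_
          have : 0 < t / (4 * m) := by positivity
          nlinarith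
      have h9 : (m : ℝ) * (t / (4 * m)) = t / 4 := by field_simp
      rw [h9] at h7
      linarith
    have hT1 : 1 ≤ t / (4 * m) := by
      rw [one_le_div (by positivity)]
      exact hbig
    have h1 := (measure_mono hsub).trans (hv _ hT1)
    have hsc : volume ((2 : ℝ)⁻¹ • S) = ENNReal.ofReal ((2 : ℝ)⁻¹ ^ m) * volume S := by
      rw [Measure.addHaar_smul, Module.finrank_fin_fun, abs_of_nonneg (by positivity)]
    have hsfin : volume ((2 : ℝ)⁻¹ • S) ≠ ⊤ := ((measure_mono hscale).trans_lt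
      (lt_top_iff_ne_top.2 hSfin)).ne
    have hsS : volume (S \ ((2 : ℝ)⁻¹ • S)) ≠ ⊤ := ((measure_mono Set.sdiff_subset).trans_lt
      (lt_top_iff_ne_top.2 hSfin)).ne
    have h2 : volume S ≤ volume (S \ ((2 : ℝ)⁻¹ • S)) + volume ((2 : ℝ)⁻¹ • S) := by
      refine (measure_mono (t := (S \ ((2 : ℝ)⁻¹ • S)) ∪ ((2 : ℝ)⁻¹ • S)) ?_).trans
        (measure_union_le _ _)
      intro y hy
      by_cases h : y ∈ (2 : ℝ)⁻¹ • S
      · exact Or.inr h
      · exact Or.inl ⟨hy, h⟩
    have h3 := ENNReal.toReal_mono (ENNReal.add_ne_top.2 ⟨hsS, hsfin⟩) h2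
    rw [ENNReal.toReal_add hsS hsfin, hsc, ENNReal.toReal_mul,
      ENNReal.toReal_ofReal (by positivity), ← hV] at h3
    have h4 := ENNReal.toReal_mono ENNReal.ofReal_ne_top h1
    rw [ENNReal.toReal_ofReal (by positivity)] at h4
    have h5 : ((2 : ℝ)⁻¹) ^ m ≤ 1 / 2 := by
      calc ((2 : ℝ)⁻¹) ^ m ≤ ((2 : ℝ)⁻¹) ^ 1 :=
            pow_le_pow_of_le_one (by norm_num) (by norm_num) hm1
        _ = 1 / 2 := by norm_num
    have h6 : ((2 : ℝ)⁻¹) ^ m * V ≤ 1 / 2 * V := mul_le_mul_of_nonneg_right h5 hV0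
    have h7 : V ≤ 2 * (C * (t / (4 * m)) ^ (-κ)) := by linarith
    have h8 : (t / (4 * m)) ^ (-κ) = (4 * (m : ℝ)) ^ κ * t ^ (-κ) := by
      rw [Real.div_rpow ht0.le (by positivity), Real.rpow_neg (by positivity : (0 : ℝ) ≤ 4 * m),
        div_inv_eq_mul, mul_comm]
    rw [h8] at h7
    have h9 : 0 < (4 * (m : ℝ)) ^ κ * t ^ (-κ) := by positivity
    nlinarith

/-- the upper bound -/
theorem Gn_upper {m : ℕ} (hm : 2 ≤ m) {ε : ℝ} (hε : 0 < ε) (hε1 : ε < 1) : ∃ C : ℝ, 0 < C ∧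
    ∀ z : ℝ, 0 < z → Gn m z ≤ C * z ^ (ε - 1) := by
  obtain ⟨C, hC, h⟩ := Hz_vol hm (κ := 1 - ε) (by linarith) (by linarith)
  have hC0 := C0_pos hm
  have hn : (0 : ℝ) < (m : ℝ) + 1 := by positivity
  have hs := fr_summable hm (τ := ε / ((m : ℝ) + 1)) (by positivity)
  have hs0 : 0 ≤ ∑' w, fr m (ε / ((m : ℝ) + 1)) w := tsum_nonneg fun w => fr_nonneg hm _ w
  refine ⟨C0 m * C * ∑' w, fr m (ε / ((m : ℝ) + 1)) w + 1, by positivity, fun z hz => ?_⟩
  have hzp : 0 < z ^ (ε - 1) := by positivity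
  have key : ∀ w : ℕ, C0 m * wgt m w * (volume (Hz m z w ∩ RI m)).toReal ≤
      C0 m * C * z ^ (ε - 1) * fr m (ε / ((m : ℝ) + 1)) w := by
    intro w
    rcases Nat.eq_zero_or_pos w with h0 | h0
    · subst h0
      rw [wgt_zero, fr_zero (by positivity)]
      simp
    · have hw : (0 : ℝ) < w := by exact_mod_cast h0
      have h1 := h z w hz h0
      have h2 : wgt m w * (z / (w : ℝ) ^ (1 / ((m : ℝ) + 1))) ^ (-(1 - ε)) =
          z ^ (ε - 1) * fr m (ε / ((m : ℝ) + 1)) w := by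
        unfold wgt fr
        rw [Real.div_rpow hz.le (by positivity), ← Real.rpow_mul hw.le, neg_sub]
        have e1 : (w : ℝ) ^ (-(1 / ((m : ℝ) + 1))) / (w : ℝ) ^ (1 / ((m : ℝ) + 1) * (ε - 1)) =
            (w : ℝ) ^ (-(ε / ((m : ℝ) + 1))) := by
          rw [← Real.rpow_sub hw]
          congr 1
          field_simp
          ring
        rw [← e1]
        ring
      calc C0 m * wgt m w * (volume (Hz m z w ∩ RI m)).toReal ≤
            C0 m * wgt m w * (C * (z / (w : ℝ) ^ (1 / ((m : ℝ) + 1))) ^ (-(1 - ε))) :=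
            mul_le_mul_of_nonneg_left h1 (mul_nonneg hC0.le (wgt_nonneg hm w))
        _ = C0 m * C * (wgt m w * (z / (w : ℝ) ^ (1 / ((m : ℝ) + 1))) ^ (-(1 - ε))) := by ring
        _ = _ := by
            rw [h2]
            ring
  have h1 : Gn m z ≤ ∑' w, C0 m * C * z ^ (ε - 1) * fr m (ε / ((m : ℝ) + 1)) w :=
    (LM_summable hm (Hz m z)).tsum_le_tsum key (hs.mul_left _)
  rw [tsum_mul_left] at h1
  refine h1.trans ?_
  rw [add_mul]
  have : 0 ≤ 1 * z ^ (ε - 1) := by positivity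
  nlinarith

/-- the main term for a power is large -/
theorem main_ge {m : ℕ} (hm : 2 ≤ m) : ∃ c : ℝ, 0 < c ∧ ∀ δ : ℝ, 0 < δ → ∀ X : ℝ, 2 ≤ X →
    c * X ^ ((m : ℝ) / (m + 1) - δ) ≤
      ∫ u in (1 : ℝ)..(X ^ ((m : ℝ) / (m + 1))), Gn m ((u ^ (((m : ℝ) + 1) / m)) ^ δ) := by
  obtain ⟨c, hc, hg⟩ := Gn_ge hm
  have hmr : (2 : ℝ) ≤ m := by exact_mod_cast hm
  obtain ⟨e0, he0⟩ : ∃ e0 : ℝ, e0 = (m : ℝ) / (m + 1) := ⟨_, rfl⟩
  obtain ⟨e1, he1⟩ : ∃ e1 : ℝ, e1 = ((m : ℝ) + 1) / m := ⟨_, rfl⟩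
  have he0' : 2 / 3 ≤ e0 := by
    rw [he0, div_le_div_iff₀ (by norm_num) (by positivity)]
    linarith
  have he00 : 0 < e0 := by linarith
  have he10 : 0 < e1 := by rw [he1]; positivity
  have he01 : e0 * e1 = 1 := by
    rw [he0, he1]
    field_simp
  refine ⟨1 / 3 * c, by positivity, fun δ hδ X hX => ?_⟩
  rw [← he0, ← he1]
  have hX0 : 0 < X := by linarith
  have hX1 : 1 ≤ X := by linarith
  obtain ⟨U, hU⟩ : ∃ U : ℝ, U = X ^ e0 := ⟨_, rfl⟩
  have hU0 : 0 < U := by rw [hU]; positivity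
  have hU1 : 3 / 2 ≤ U := by
    have h0 : X ^ ((2 : ℝ) / 3) ≤ U := by
      rw [hU]
      exact Real.rpow_le_rpow_of_exponent_le hX1 he0'
    refine le_trans ?_ h0
    have h1 : (3 / 2 : ℝ) ^ 3 ≤ (X ^ ((2 : ℝ) / 3)) ^ 3 := by
      have : (X ^ ((2 : ℝ) / 3)) ^ 3 = X ^ 2 := by
        rw [← Real.rpow_natCast, ← Real.rpow_mul hX0.le]
        norm_num
      rw [this]
      nlinarith
    exact le_of_pow_le_pow_left₀ (by norm_num) (by positivity) h1
  have hUX : U ^ e1 = X := by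
    rw [hU, ← Real.rpow_mul hX0.le, he01, Real.rpow_one]
  rw [← hU]
  have h1 : c * X ^ (-δ) ≤ Gn m (X ^ δ) := by
    have h2 := hg (X ^ δ) (Real.one_le_rpow hX1 hδ.le)
    rwa [div_eq_mul_inv, ← Real.rpow_neg hX0.le] at h2
  have hanti : AntitoneOn (fun u : ℝ => Gn m ((u ^ e1) ^ δ)) (Set.uIcc 1 U) := by
    intro u hu v hv huv
    rw [Set.uIcc_of_le (by linarith)] at hu hv
    have hu0 : 0 < u := by linarith [hu.1]
    refine Gn_anti hm (by positivity) ?_
    exact Real.rpow_le_rpow (by positivity) (Real.rpow_le_rpow hu0.le huv he10.le) hδ.le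
  have h2 : ∫ _u in (1 : ℝ)..U, Gn m (X ^ δ) ≤
      ∫ u in (1 : ℝ)..U, Gn m ((u ^ e1) ^ δ) := by
    refine intervalIntegral.integral_mono_on (by linarith) intervalIntegrable_const
      hanti.intervalIntegrable fun u hu => ?_
    have hu0 : 0 < u := by linarith [hu.1]
    refine Gn_anti hm (by positivity) ?_
    rw [← hUX]
    exact Real.rpow_le_rpow (by positivity) (Real.rpow_le_rpow hu0.le hu.2 he10.le) hδ.le
  rw [intervalIntegral.integral_const, smul_eq_mul] at h2
  refine le_trans ?_ h2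
  have h0 : 0 ≤ c * X ^ (-δ) := by positivity
  have h3 : 1 / 3 * U * (c * X ^ (-δ)) ≤ (U - 1) * Gn m (X ^ δ) :=
    mul_le_mul (by linarith) h1 h0 (by linarith)
  refine le_trans (le_of_eq ?_) h3
  rw [hU]
  have : X ^ (e0 - δ) = X ^ e0 * X ^ (-δ) := by
    rw [← Real.rpow_add hX0]
    congr 1
  rw [this]
  ring

end Pool.Agent.V7H9.SN
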