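import Pool.Agent.V7H9.SN.Pos
import Pool.Agent.V7H9.SN.Bt

set_option autoImplicit false

/-!
# The volume of the region in closed form
-/

namespace Pool.Agent.V7H9.SN

open Finset MeasureTheory
open scoped Pointwise

/-- Tonelli for the first coordinate -/
lemma lint_cons {m : ℕ} {f : (Fin (m + 1) → ℝ) → ENNReal} (hf : Measurable f) :
    ∫⁻ z, f z = ∫⁻ t : ℝ, ∫⁻ z : Fin m → ℝ, f (Fin.cons t z) := by
  have h := (volume_preserving_piFinSuccAbove (fun _ : Fin (m + 1) => ℝ) 0).symm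
  rw [← h.lintegral_comp hf, Measure.volume_eq_prod, lintegral_prod _ (by
    exact (hf.comp (MeasurableEquiv.measurable _)).aemeasurable)]
  refine lintegral_congr fun t => lintegral_congr fun z => ?_
  congr 1
  simp [MeasurableEquiv.piFinSuccAbove_symm_apply, Fin.insertNthEquiv]

/-- the iterated integral -/
noncomputable def FF (a : ℝ) (k : ℕ) (u : ℝ) : ENNReal :=
  ∫⁻ z : Fin k → ℝ, (∏ i, pw (a - 1) (z i)) * pw (a - 1) (u + ∑ i, z i)

lemma FF_meas (a : ℝ) (k : ℕ) (u : ℝ) :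
    Measurable fun z : Fin k → ℝ => (∏ i, pw (a - 1) (z i)) * pw (a - 1) (u + ∑ i, z i) := by
  refine Measurable.mul ?_ ?_
  · exact Finset.measurable_prod _ fun i _ => (pw_meas _).comp (measurable_pi_apply i)
  · exact (pw_meas _).comp (measurable_const.add
      (Finset.measurable_sum _ fun i _ => measurable_pi_apply i))

lemma FF_zero (a u : ℝ) : FF a 0 u = pw (a - 1) u := by
  unfold FF
  rw [volume_pi, Measure.pi_of_empty _ (fun i : Fin 0 => i.elim0), lintegral_dirac]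
  simp

lemma FF_succ (a : ℝ) (k : ℕ) (u : ℝ) :
    FF a (k + 1) u = ∫⁻ t : ℝ, pw (a - 1) t * FF a k (u + t) := by
  unfold FF
  rw [lint_cons (FF_meas a (k + 1) u)]
  refine lintegral_congr fun t => ?_
  rw [← lintegral_const_mul _ (FF_meas a k (u + t))]
  refine lintegral_congr fun z => ?_
  rw [Fin.prod_univ_succ, Fin.sum_univ_succ]
  simp only [Fin.cons_zero, Fin.cons_succ]
  rw [mul_assoc, add_assoc]

/-- the constants -/
noncomputable def cc (a : ℝ) (k : ℕ) : ℝ := ∏ j ∈ range k, Bl a (((j : ℝ) + 1) * a)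

lemma Bl_pos {α β : ℝ} (hα : 0 < α) (hβ : 0 < β) (h : α + β < 1) : 0 < Bl α β := by
  unfold Bl
  have h1 := gf_pos hα (by linarith)
  have h2 := gf_pos hβ (by linarith)
  have h3 := gf_pos (s := 1 - α - β) (by linarith) (by linarith)
  have := Real.pi_pos
  positivity

lemma cc_pos {a : ℝ} (ha : 0 < a) (k : ℕ) (hk : ((k : ℝ) + 1) * a < 1) : 0 < cc a k := by
  unfold cc
  refine Finset.prod_pos fun j hj => ?_
  rw [mem_range] at hj
  have hj' : (j : ℝ) + 1 ≤ k := by exact_mod_cast hj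
  refine Bl_pos ha (by positivity) ?_
  nlinarith

theorem FF_eq {a : ℝ} (ha : 0 < a) (k : ℕ) (hk : ((k : ℝ) + 1) * a < 1) {u : ℝ} (hu : u ≠ 0) :
    FF a k u = ENNReal.ofReal (cc a k) * pw (((k : ℝ) + 1) * a - 1) u := by
  induction k generalizing u with
  | zero =>
    rw [FF_zero]
    unfold cc
    simp
  | succ k ih =>
    push_cast at hk
    have hk' : ((k : ℝ) + 1) * a < 1 := by nlinarith
    rw [FF_succ]
    have h1 : ∀ᵐ t : ℝ, pw (a - 1) t * FF a k (u + t) =
        ENNReal.ofReal (cc a k) * (pw (a - 1) t * pw (((k : ℝ) + 1) * a - 1) (u + t)) := by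
      have h2 : ∀ᵐ t : ℝ, t ≠ -u := by
        rw [ae_iff]
        simp
      filter_upwards [h2] with t ht
      have h3 : u + t ≠ 0 := fun h => ht (by linarith)
      rw [ih hk' h3]
      ring
    rw [lintegral_congr_ae h1, lintegral_const_mul' _ _ ENNReal.ofReal_ne_top,
      conv ha (by positivity) (by nlinarith) hu, ← mul_assoc,
      ← ENNReal.ofReal_mul (cc_pos ha k hk').le]
    congr 1
    · congr 1
      unfold cc
      rw [prod_range_succ]
    · congr 1
      push_cast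
      ring

/-- the closed form of the constants -/
lemma cc_eq {a : ℝ} (ha : 0 < a) (k : ℕ) (hk : ((k : ℝ) + 1) * a < 1) :
    cc a k = (2 * gf a) ^ k * gf a / gf (((k : ℝ) + 1) * a) := by
  induction k with
  | zero =>
    have h : 0 < gf a := gf_pos ha (by simpa using hk)
    unfold cc
    simp only [range_zero, prod_empty, pow_zero, one_mul, Nat.cast_zero, zero_add]
    rw [div_self h.ne']
  | succ k ih =>
    push_cast at hk
    have hk' : ((k : ℝ) + 1) * a < 1 := by nlinarith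
    have h1 := ih hk'
    have hpi := Real.pi_pos
    have hg0 : 0 < gf a := gf_pos ha (by nlinarith)
    have hg1 : 0 < gf (((k : ℝ) + 1) * a) := gf_pos (by positivity) hk'
    have hg2 : 0 < gf (((k : ℝ) + 1 + 1) * a) := gf_pos (by positivity) hk
    have e : cc a (k + 1) = cc a k * Bl a (((k : ℝ) + 1) * a) := by
      unfold cc
      rw [prod_range_succ]
    have hr := gf_refl (s := ((k : ℝ) + 1 + 1) * a) (by positivity) hk
    have e2 : 1 - a - ((k : ℝ) + 1) * a = 1 - ((k : ℝ) + 1 + 1) * a := by ring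
    rw [e, h1]
    unfold Bl
    rw [e2]
    have hg3 : gf (1 - ((k : ℝ) + 1 + 1) * a) = Real.pi / 2 / gf (((k : ℝ) + 1 + 1) * a) := by
      rw [eq_div_iff hg2.ne', ← hr]
      ring
    rw [hg3]
    push_cast
    field_simp
    ring

/-- the volume as a one-sided integral -/
lemma inner_int (p : ℕ) {P : ℝ} (hP : 0 < P) :
    ∫⁻ t : ℝ, ENNReal.ofReal (|t| ^ p) * ({t : ℝ | |t| ^ (p + 2) * P ≤ 1}.indicator 1 t) =
      ENNReal.ofReal (2 / (p + 1)) * ENNReal.ofReal (P ^ (1 / ((p : ℝ) + 2) - 1)) := by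
  obtain ⟨R, hR⟩ : ∃ R : ℝ, R = P ^ (-(1 / ((p : ℝ) + 2))) := ⟨_, rfl⟩
  have hR0 : 0 < R := by rw [hR]; positivity
  have hRp : R ^ (p + 2) * P = 1 := by
    rw [hR, ← Real.rpow_natCast, ← Real.rpow_mul hP.le]
    push_cast
    have : -(1 / ((p : ℝ) + 2)) * ((p : ℝ) + 2) = -1 := by field_simp
    rw [this, Real.rpow_neg_one, inv_mul_cancel₀ hP.ne']
  have hset : {t : ℝ | |t| ^ (p + 2) * P ≤ 1} = Set.Icc (-R) R := by
    ext t
    rw [Set.mem_ofPred_eq, Set.mem_Icc, ← abs_le, ← hRp]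
    constructor
    · intro h
      have h2 := le_of_mul_le_mul_right h hP
      exact le_of_pow_le_pow_left₀ (by omega) hR0.le h2
    · intro h
      exact mul_le_mul_of_nonneg_right (pow_le_pow_left₀ (abs_nonneg _) h _) hP.le
  have h1 : ∀ t : ℝ, ENNReal.ofReal (|t| ^ p) * ({t : ℝ | |t| ^ (p + 2) * P ≤ 1}.indicator 1 t) =
      (Set.Icc (-R) R).indicator (fun t => ENNReal.ofReal (|t| ^ p)) t := by
    intro t
    rw [hset]
    by_cases ht : t ∈ Set.Icc (-R) R
    · rw [Set.indicator_of_mem ht, Set.indicator_of_mem ht]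
      simp
    · rw [Set.indicator_of_notMem ht, Set.indicator_of_notMem ht, mul_zero]
  simp only [h1]
  rw [lintegral_indicator measurableSet_Icc]
  have hcont : Continuous fun t : ℝ => |t| ^ p := by fun_prop
  rw [← ofReal_integral_eq_lintegral_ofReal (hcont.integrableOn_Icc)
    (Filter.Eventually.of_forall fun t => by positivity)]
  rw [integral_Icc_eq_integral_Ioc, ← intervalIntegral.integral_of_le (by linarith)]
  have hint : ∫ t in (-R)..R, |t| ^ p = 2 * (R ^ (p + 1) / (p + 1)) := by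
    have h2 : ∫ t in (0 : ℝ)..R, |t| ^ p = R ^ (p + 1) / (p + 1) := by
      have h3 : ∫ t in (0 : ℝ)..R, |t| ^ p = ∫ t in (0 : ℝ)..R, t ^ p := by
        refine intervalIntegral.integral_congr fun t ht => ?_
        rw [Set.uIcc_of_le hR0.le] at ht
        rw [abs_of_nonneg ht.1]
      rw [h3, integral_pow]
      simp
    have h4 : ∫ t in (-R)..0, |t| ^ p = ∫ t in (0 : ℝ)..R, |t| ^ p := by
      have h5 := intervalIntegral.integral_comp_neg (a := (0 : ℝ)) (b := R) (fun t : ℝ => |t| ^ p)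
      simp only [abs_neg, neg_zero] at h5
      exact h5.symm
    rw [← intervalIntegral.integral_add_adjacent_intervals (b := 0)
      (hcont.intervalIntegrable _ _) (hcont.intervalIntegrable _ _), h4, h2]
    ring
  rw [hint, ← ENNReal.ofReal_mul (by positivity)]
  congr 1
  have e1 : R ^ (p + 1) = P ^ (1 / ((p : ℝ) + 2) - 1) := by
    rw [hR, ← Real.rpow_natCast, ← Real.rpow_mul hP.le]
    congr 1
    push_cast
    field_simp
    ring
  rw [e1]
  ring

/-- the product on the projective space -/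
def PP1 {p : ℕ} (z : Fin p → ℝ) : ℝ := |1 + ∑ i, z i| * ∏ i, |z i|

lemma PP1_meas (p : ℕ) : Measurable (PP1 (p := p)) := by
  unfold PP1
  fun_prop

lemma cons_mem {p : ℕ} {t : ℝ} (z : Fin p → ℝ) :
    (Fin.cons t (t • z) : Fin (p + 1) → ℝ) ∈ RI (p + 1) ↔ |t| ^ (p + 2) * PP1 z ≤ 1 := by
  unfold RI PP1
  rw [Set.mem_ofPred_eq, Fin.prod_univ_succ, Fin.prod_univ_succ]
  have e0 : full (Fin.cons t (t • z) : Fin (p + 1) → ℝ) 0 = -(t * (1 + ∑ i, z i)) := by
    rw [full_zero, Fin.sum_univ_succ]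
    simp only [Fin.cons_zero, Fin.cons_succ, Pi.smul_apply, smul_eq_mul]
    rw [← mul_sum]
    ring
  have e1 : full (Fin.cons t (t • z) : Fin (p + 1) → ℝ) (Fin.succ 0) = t := by
    rw [full_succ, Fin.cons_zero]
  have e2 : ∀ i : Fin p, full (Fin.cons t (t • z) : Fin (p + 1) → ℝ) i.succ.succ = t * z i := by
    intro i
    rw [full_succ, Fin.cons_succ, Pi.smul_apply, smul_eq_mul]
  simp only [e0, e1, e2, abs_neg, abs_mul]
  rw [prod_mul_distrib, prod_const, card_univ, Fintype.card_fin]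
  have e3 : |t| * |1 + ∑ i, z i| * (|t| * (|t| ^ p * ∏ i, |z i|)) =
      |t| ^ (p + 2) * (|1 + ∑ i, z i| * ∏ i, |z i|) := by ring
  rw [e3]

theorem vol_eq (p : ℕ) : volume (RI (p + 1)) =
    ENNReal.ofReal (2 / (p + 1)) * FF (1 / ((p : ℝ) + 2)) p 1 := by
  have hm := RI_meas (p + 1)
  have h1 : volume (RI (p + 1)) = ∫⁻ t : ℝ, volume {z : Fin p → ℝ |
      (Fin.cons t z : Fin (p + 1) → ℝ) ∈ RI (p + 1)} := by
    obtain ⟨S, hS⟩ : ∃ S : Set (ℝ × (Fin p → ℝ)),
      S = {q | (Fin.cons q.1 q.2 : Fin (p + 1) → ℝ) ∈ RI (p + 1)} := ⟨_, rfl⟩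
    have hSm : MeasurableSet S := by
      rw [hS]
      exact meas_cons hm
    rw [volume_pi, pi_cons _ hm, ← hS, Measure.prod_apply hSm, hS]
    rfl
  have h2 : ∀ t : ℝ, t ≠ 0 → volume {z : Fin p → ℝ | (Fin.cons t z : Fin (p + 1) → ℝ) ∈ RI (p + 1)} =
      ENNReal.ofReal (|t| ^ p) * volume {z : Fin p → ℝ | |t| ^ (p + 2) * PP1 z ≤ 1} := by
    intro t ht
    have h3 : {z : Fin p → ℝ | (Fin.cons t z : Fin (p + 1) → ℝ) ∈ RI (p + 1)} =
        t • {z : Fin p → ℝ | |t| ^ (p + 2) * PP1 z ≤ 1} := by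
      ext z
      rw [Set.mem_smul_set_iff_inv_smul_mem₀ ht, Set.mem_ofPred_eq, Set.mem_ofPred_eq, ← cons_mem,
        smul_inv_smul₀ ht]
    rw [h3, Measure.addHaar_smul]
    congr 1
    rw [Module.finrank_fin_fun, abs_pow]
  have h4 : ∀ t : ℝ, ENNReal.ofReal (|t| ^ p) * volume {z : Fin p → ℝ | |t| ^ (p + 2) * PP1 z ≤ 1} =
      ∫⁻ z : Fin p → ℝ, ENNReal.ofReal (|t| ^ p) *
        ({t : ℝ | |t| ^ (p + 2) * PP1 z ≤ 1}.indicator 1 t) := by
    intro t
    have hms : MeasurableSet {z : Fin p → ℝ | |t| ^ (p + 2) * PP1 z ≤ 1} :=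
      measurableSet_le ((PP1_meas p).const_mul _) measurable_const
    rw [lintegral_const_mul' _ _ ENNReal.ofReal_ne_top, ← lintegral_indicator_one hms]
    congr 1
  have hmeas : Measurable (Function.uncurry fun (t : ℝ) (z : Fin p → ℝ) => ENNReal.ofReal (|t| ^ p) *
        ({t : ℝ | |t| ^ (p + 2) * PP1 z ≤ 1}.indicator (1 : ℝ → ENNReal) t)) := by
    have hset : MeasurableSet {q : ℝ × (Fin p → ℝ) | |q.1| ^ (p + 2) * PP1 q.2 ≤ 1} := by
      refine measurableSet_le (Measurable.mul ?_ ?_) measurable_const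
      · fun_prop
      · exact (PP1_meas p).comp measurable_snd
    have e : (Function.uncurry fun (t : ℝ) (z : Fin p → ℝ) => ENNReal.ofReal (|t| ^ p) *
        ({t : ℝ | |t| ^ (p + 2) * PP1 z ≤ 1}.indicator (1 : ℝ → ENNReal) t)) =
        fun q : ℝ × (Fin p → ℝ) => ENNReal.ofReal (|q.1| ^ p) *
          ({q : ℝ × (Fin p → ℝ) | |q.1| ^ (p + 2) * PP1 q.2 ≤ 1}.indicator 1 q) := by
      funext q
      rfl
    rw [e]
    refine Measurable.mul (by fun_prop) ?_
    exact (measurable_const.indicator hset)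
  have h5 : volume (RI (p + 1)) = ∫⁻ z : Fin p → ℝ, ∫⁻ t : ℝ, ENNReal.ofReal (|t| ^ p) *
        ({t : ℝ | |t| ^ (p + 2) * PP1 z ≤ 1}.indicator 1 t) := by
    rw [h1, ← lintegral_lintegral_swap hmeas.aemeasurable]
    refine lintegral_congr_ae ?_
    have h6 : ∀ᵐ t : ℝ, t ≠ 0 := by
      rw [ae_iff]
      simp
    filter_upwards [h6] with t ht
    rw [h2 t ht, h4]
  -- the product is nonzero almost everywhere
  have hae : ∀ᵐ z : Fin p → ℝ, 0 < PP1 z := by
    have hfin : ∫⁻ z : Fin p → ℝ, ∫⁻ t : ℝ, ENNReal.ofReal (|t| ^ p) *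
        ({t : ℝ | |t| ^ (p + 2) * PP1 z ≤ 1}.indicator 1 t) ≠ ⊤ := by
      rw [← h5]
      exact RI_fin (by omega)
    have hm2 : Measurable fun z : Fin p → ℝ => ∫⁻ t : ℝ, ENNReal.ofReal (|t| ^ p) *
        ({t : ℝ | |t| ^ (p + 2) * PP1 z ≤ 1}.indicator (1 : ℝ → ENNReal) t) :=
      (hmeas.comp measurable_swap).lintegral_prod_right'
    filter_upwards [ae_lt_top hm2 hfin] with z hz
    by_contra hcon
    have h0 : PP1 z = 0 := by
      have : 0 ≤ PP1 z := by unfold PP1; positivity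
      exact le_antisymm (not_lt.1 hcon) this
    apply hz.ne
    rw [eq_top_iff]
    have h7 : ∀ t : ℝ, ({t : ℝ | |t| ^ (p + 2) * PP1 z ≤ 1}.indicator (1 : ℝ → ENNReal) t) = 1 := by
      intro t
      rw [Set.indicator_of_mem]
      · rfl
      · rw [Set.mem_ofPred_eq, h0, mul_zero]
        exact zero_le_one
    simp only [h7, mul_one]
    calc (⊤ : ENNReal) = ∫⁻ _t in Set.Ici (1 : ℝ), 1 := by simp
      _ ≤ ∫⁻ t in Set.Ici (1 : ℝ), ENNReal.ofReal (|t| ^ p) := by
          refine setLIntegral_mono (by fun_prop) fun t ht => ?_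
          rw [Set.mem_Ici] at ht
          rw [← ENNReal.ofReal_one]
          refine ENNReal.ofReal_le_ofReal ?_
          rw [abs_of_nonneg (by linarith)]
          exact one_le_pow₀ ht
      _ ≤ _ := setLIntegral_le_lintegral _ _
  rw [h5]
  unfold FF
  rw [← lintegral_const_mul' _ _ ENNReal.ofReal_ne_top]
  refine lintegral_congr_ae ?_
  filter_upwards [hae] with z hz
  rw [inner_int p hz]
  congr 1
  unfold pw
  rw [← ENNReal.ofReal_prod_of_nonneg (fun i _ => by positivity),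
    ← ENNReal.ofReal_mul (prod_nonneg fun i _ => by positivity)]
  congr 1
  rw [Real.finsetProd_rpow _ _ (fun i _ => abs_nonneg _),
    ← Real.mul_rpow (prod_nonneg fun i _ => abs_nonneg _) (abs_nonneg _)]
  congr 1
  unfold PP1
  ring

/-- **The volume of the region.** -/
theorem VI_eq {m : ℕ} (hm : 1 ≤ m) : VI m =
    (2 * (Real.Gamma (1 / ((m : ℝ) + 1)) * Real.cos (Real.pi / (2 * ((m : ℝ) + 1))))) ^ (m + 1) /
      (Real.pi * m) := by
  obtain ⟨p, rfl⟩ : ∃ p, m = p + 1 := ⟨m - 1, by omega⟩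
  obtain ⟨a, ha⟩ : ∃ a : ℝ, a = 1 / ((p : ℝ) + 2) := ⟨_, rfl⟩
  have ha0 : 0 < a := by rw [ha]; positivity
  have hpi := Real.pi_pos
  have hpa : ((p : ℝ) + 1) * a = 1 - a := by
    rw [ha]
    field_simp
    ring
  have hp1 : ((p : ℝ) + 1) * a < 1 := by linarith
  have ha1 : a < 1 := by
    rw [ha, div_lt_one (by positivity)]
    have : (0 : ℝ) ≤ p := Nat.cast_nonneg p
    linarith
  have hg := gf_pos ha0 ha1
  have hr := gf_refl ha0 ha1
  have hgg : gf (1 - a) = Real.pi / 2 / gf a := by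
    rw [eq_div_iff hg.ne', ← hr]
    ring
  have hcc : cc a p = (2 * gf a) ^ (p + 2) / (2 * Real.pi) := by
    rw [cc_eq ha0 p hp1, hpa, hgg]
    field_simp
    ring
  have hc0 := cc_pos ha0 p hp1
  unfold VI
  rw [vol_eq p, ← ha, FF_eq ha0 p hp1 one_ne_zero]
  have h1 : pw (((p : ℝ) + 1) * a - 1) 1 = 1 := by
    unfold pw
    simp
  rw [h1, mul_one, ← ENNReal.ofReal_mul (by positivity), ENNReal.toReal_ofReal (by positivity), hcc]
  have e1 : (1 : ℝ) / (((p + 1 : ℕ) : ℝ) + 1) = a := by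
    rw [ha]
    push_cast
    congr 1
    ring
  have e2 : Real.pi / (2 * (((p + 1 : ℕ) : ℝ) + 1)) = Real.pi * a / 2 := by
    rw [← e1]
    field_simp
  rw [e1, e2]
  have e3 : Real.Gamma a * Real.cos (Real.pi * a / 2) = gf a := rfl
  rw [e3]
  push_cast
  field_simp

end Pool.Agent.V7H9.SN
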