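import Pool.Agent.V7H9.SN.Uni

set_option autoImplicit false

/-!
# The tuples of large height
-/

namespace Pool.Agent.V7H9.SN

open Finset MeasureTheory Pool.Agent.H785R2.ABC

/-- the directions of small height -/
def Lz (m : ℕ) (z : ℝ) (w : ℕ) : Set (Fin m → ℝ) :=
  {y | ∀ j, (w : ℝ) * |full y j| ^ (m + 1) < z ^ (m + 1) * ∏ l, |full y l|}

/-- the directions of large height -/
def Hz (m : ℕ) (z : ℝ) (w : ℕ) : Set (Fin m → ℝ) :=
  {y | ∃ j, z ^ (m + 1) * ∏ l, |full y l| ≤ (w : ℝ) * |full y j| ^ (m + 1)}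

lemma Hz_compl (m : ℕ) (z : ℝ) (w : ℕ) : Hz m z w = (Lz m z w)ᶜ := by
  ext y
  unfold Hz Lz
  rw [Set.mem_compl_iff, Set.mem_ofPred_eq, Set.mem_ofPred_eq, not_forall]
  simp only [not_lt]

lemma Lz_meas (m : ℕ) (z : ℝ) (w : ℕ) : MeasurableSet (Lz m z w) := by
  have e : Lz m z w = ⋂ j, {y | (w : ℝ) * |full y j| ^ (m + 1) < z ^ (m + 1) * ∏ l, |full y l|} := by
    ext y
    unfold Lz
    simp only [Set.mem_ofPred_eq, Set.mem_iInter]
  rw [e]
  refine MeasurableSet.iInter fun j => ?_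
  refine measurableSet_lt (Continuous.measurable ?_) (Continuous.measurable ?_)
  · exact continuous_const.mul ((continuous_full m j).abs.pow _)
  · exact continuous_const.mul (continuous_finsetProd _ fun i _ => (continuous_full m i).abs)

lemma Hz_meas (m : ℕ) (z : ℝ) (w : ℕ) : MeasurableSet (Hz m z w) := by
  rw [Hz_compl]
  exact (Lz_meas m z w).compl

lemma nice_ne (p : ℝ) : Nice 2 {t : ℝ | t + p ≠ 0} := by
  have h := nice_compl (S := {-p}) Set.ordConnected_singleton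
  have e : ({t : ℝ | t + p ≠ 0} : Set ℝ) = {-p}ᶜ := by
    ext t
    rw [Set.mem_ofPred_eq, Set.mem_compl_iff, Set.mem_singleton_iff]
    constructor
    · intro h1 h2
      exact h1 (by rw [h2]; ring)
    · intro h1 h2
      exact h1 (by linarith)
  rw [e]
  exact h

lemma nice_pow2 {m : ℕ} {w b p q : ℝ} (hw : 0 ≤ w) (hb : 0 ≤ b) :
    Nice 4 {t : ℝ | w * |t + p| ^ (m + 1) < b * (|t + p| * |t + q|)} := by
  have h := nice_inter (nice_ne p) (nice_pow (m := m) (p := p) (q := q) hw hb)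
  have e : ({t : ℝ | w * |t + p| ^ (m + 1) < b * (|t + p| * |t + q|)} : Set ℝ) =
      {t : ℝ | t + p ≠ 0} ∩ {t : ℝ | w * |t + p| ^ m < b * |t + q|} := by
    ext t
    rw [Set.mem_inter_iff, Set.mem_ofPred_eq, Set.mem_ofPred_eq, Set.mem_ofPred_eq]
    have e1 : w * |t + p| ^ (m + 1) = |t + p| * (w * |t + p| ^ m) := by ring
    have e2 : b * (|t + p| * |t + q|) = |t + p| * (b * |t + q|) := by ring
    rw [e1, e2]
    constructor
    · intro h1
      have h2 : t + p ≠ 0 := by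
        intro h3
        rw [h3] at h1
        simp at h1
      exact ⟨h2, lt_of_mul_lt_mul_left h1 (abs_nonneg _)⟩
    · rintro ⟨h1, h2⟩
      exact mul_lt_mul_of_pos_left h2 (abs_pos.2 h1)
  rw [e]
  exact h

lemma Lz_sec {m : ℕ} {z : ℝ} (hz : 0 ≤ z) (w : ℕ) (i : Fin m) (y : Fin m → ℝ) :
    Nice (4 ^ (m + 1)) {t | Function.update y i t ∈ Lz m z w} := by
  obtain ⟨c, hc⟩ : ∃ c, c = ∏ j ∈ univ.erase i, |y j| := ⟨_, rfl⟩
  have hc0 : 0 ≤ c := by rw [hc]; exact prod_nonneg fun j _ => abs_nonneg _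
  obtain ⟨s, hs⟩ : ∃ s, s = ∑ j ∈ univ.erase i, y j := ⟨_, rfl⟩
  have hprod : ∀ t : ℝ, z ^ (m + 1) * ∏ l, |full (Function.update y i t) l| =
      z ^ (m + 1) * c * (|t| * |s + t|) := by
    intro t
    rw [prod_update, ← hc, ← hs, abs_mul, abs_mul, abs_of_nonneg hc0]
    ring
  have hb : 0 ≤ z ^ (m + 1) * c := by positivity
  have hw : (0 : ℝ) ≤ w := Nat.cast_nonneg w
  have e : {t | Function.update y i t ∈ Lz m z w} =
      ⋂ j : Fin (m + 1), {t : ℝ | (w : ℝ) * |full (Function.update y i t) j| ^ (m + 1) <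
        z ^ (m + 1) * c * (|t| * |s + t|)} := by
    ext t
    unfold Lz
    simp only [Set.mem_ofPred_eq, Set.mem_iInter, hprod]
  rw [e]
  refine nice_iInter fun j => ?_
  refine Fin.cases ?_ (fun k => ?_) j
  · have h := nice_pow2 (m := m) (w := w) (b := z ^ (m + 1) * c) (p := s) (q := 0) hw hb
    have e1 : {t : ℝ | (w : ℝ) * |full (Function.update y i t) 0| ^ (m + 1) <
        z ^ (m + 1) * c * (|t| * |s + t|)} =
        {t : ℝ | (w : ℝ) * |t + s| ^ (m + 1) < z ^ (m + 1) * c * (|t + s| * |t + 0|)} := by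
      ext t
      rw [Set.mem_ofPred_eq, Set.mem_ofPred_eq, full_zero, abs_neg,
        ← add_sum_erase univ (fun j => Function.update y i t j) (mem_univ i), Function.update_self]
      have h2 : ∑ j ∈ univ.erase i, Function.update y i t j = s := by
        rw [hs]
        exact sum_congr rfl fun j hj => by rw [Function.update_of_ne (ne_of_mem_erase hj)]
      rw [h2, add_zero, add_comm s t, mul_comm |t|]
    rw [e1]
    exact h
  · by_cases hk : k = i
    · subst hk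
      have h := nice_pow2 (m := m) (w := w) (b := z ^ (m + 1) * c) (p := 0) (q := s) hw hb
      have e1 : {t : ℝ | (w : ℝ) * |full (Function.update y k t) k.succ| ^ (m + 1) <
          z ^ (m + 1) * c * (|t| * |s + t|)} =
          {t : ℝ | (w : ℝ) * |t + 0| ^ (m + 1) < z ^ (m + 1) * c * (|t + 0| * |t + s|)} := by
        ext t
        rw [Set.mem_ofPred_eq, Set.mem_ofPred_eq, full_succ, Function.update_self, add_zero,
          add_comm s t]
      rw [e1]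
      exact h
    · have h := nice_quad (c := (w : ℝ) * |y k| ^ (m + 1)) (b := z ^ (m + 1) * c) (s := s)
        (by positivity) hb
      have e1 : {t : ℝ | (w : ℝ) * |full (Function.update y i t) k.succ| ^ (m + 1) <
          z ^ (m + 1) * c * (|t| * |s + t|)} =
          {t : ℝ | (w : ℝ) * |y k| ^ (m + 1) < z ^ (m + 1) * c * (|t| * |s + t|)} := by
        ext t
        rw [Set.mem_ofPred_eq, Set.mem_ofPred_eq, full_succ, Function.update_of_ne hk]
      rw [e1]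
      exact nice_mono (by norm_num) h

/-- the scaled point is in `Lz` if and only if the height is small -/
lemma sp_Lz {m : ℕ} {Y z : ℝ} (hY : 0 < Y) (hz : 0 < z) {x : Fin (m + 1) → ℤ} (h0 : ∀ i, x i ≠ 0)
    (hs : ∑ i, x i = 0) : sp Y x ∈ Lz m z (rp x) ↔
      ∀ j, |(x j : ℝ)| < z * (rad (pr x) : ℝ) ^ (1 / ((m : ℝ) + 1)) := by
  have hr : (0 : ℝ) < rp x := by exact_mod_cast rp_pos h0
  have hrad : (0 : ℝ) < rad (pr x) := by exact_mod_cast rad_pos _
  obtain ⟨c, hc⟩ : ∃ c : ℝ, c = ((rp x : ℝ) * Y) ^ (1 / ((m : ℝ) + 1)) := ⟨_, rfl⟩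
  have hc0 : 0 < c := by rw [hc]; positivity
  have hz' : full (fun j => x j.succ) = x := full_tail hs
  have hf : ∀ j, full (sp Y x) j = (x j : ℝ) / c := by
    intro j
    unfold sp
    rw [← hc, full_div (fun i : Fin m => (x i.succ : ℝ)) c, ← full_cast (fun j => x j.succ) j, hz']
  unfold Lz
  rw [Set.mem_ofPred_eq]
  simp only [hf, abs_div, abs_of_pos hc0]
  rw [prod_div_distrib, prod_const, card_univ, Fintype.card_fin, ← rad_mul_rp]
  obtain ⟨r, hrr⟩ : ∃ r : ℝ, r = (rad (pr x) : ℝ) ^ (1 / ((m : ℝ) + 1)) := ⟨_, rfl⟩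
  have hr0 : 0 < r := by rw [hrr]; positivity
  have hrm : r ^ (m + 1) = rad (pr x) := by
    rw [hrr, ← Real.rpow_natCast, ← Real.rpow_mul hrad.le]
    push_cast
    rw [one_div, inv_mul_cancel₀ (by positivity), Real.rpow_one]
  rw [← hrr, ← hrm]
  refine forall_congr' fun j => ?_
  have e1 : (rp x : ℝ) * (|(x j : ℝ)| / c) ^ (m + 1) = (rp x / c ^ (m + 1)) * |(x j : ℝ)| ^ (m + 1) := by
    rw [div_pow]
    ring
  have e2 : z ^ (m + 1) * (r ^ (m + 1) * (rp x : ℝ) / c ^ (m + 1)) =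
      (rp x / c ^ (m + 1)) * (z * r) ^ (m + 1) := by
    rw [mul_pow]
    ring
  rw [e1, e2, mul_lt_mul_iff_right₀ (by positivity)]
  constructor
  · intro h
    exact lt_of_pow_lt_pow_left₀ (m + 1) (by positivity) h
  · intro h
    exact pow_lt_pow_left₀ h (abs_nonneg _) (by omega)

/-- the limit function -/
noncomputable def Gn (m : ℕ) (z : ℝ) : ℝ := LM m (Hz m z)

lemma LM_mono {m : ℕ} (hm : 2 ≤ m) {A B : ℕ → Set (Fin m → ℝ)} (h : ∀ w, A w ⊆ B w) :
    LM m A ≤ LM m B := by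
  unfold LM
  refine (LM_summable hm A).tsum_le_tsum (fun w => ?_) (LM_summable hm B)
  refine mul_le_mul_of_nonneg_left ?_ (mul_nonneg (C0_pos hm).le (wgt_nonneg hm w))
  refine ENNReal.toReal_mono ?_ (measure_mono (Set.inter_subset_inter_left _ (h w)))
  exact ((measure_mono Set.inter_subset_right).trans_lt
    (lt_top_iff_ne_top.2 (RI_fin (by omega)))).ne

lemma LM_add {m : ℕ} (hm : 2 ≤ m) (z : ℝ) :
    LM m (Lz m z) + LM m (Hz m z) = LM m (fun _ => Set.univ) := by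
  unfold LM
  rw [← (LM_summable hm _).tsum_add (LM_summable hm _)]
  refine tsum_congr fun w => ?_
  have hfin : volume (RI m) ≠ ⊤ := RI_fin (by omega)
  have h1 : volume (Lz m z w ∩ RI m) + volume (Hz m z w ∩ RI m) = volume (RI m) := by
    rw [Hz_compl, Set.inter_comm _ (RI m), Set.inter_comm _ (RI m)]
    exact measure_inter_add_sdiff _ (Lz_meas m z w)
  have hf1 : volume (Lz m z w ∩ RI m) ≠ ⊤ :=
    ((measure_mono Set.inter_subset_right).trans_lt (lt_top_iff_ne_top.2 hfin)).ne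
  have hf2 : volume (Hz m z w ∩ RI m) ≠ ⊤ :=
    ((measure_mono Set.inter_subset_right).trans_lt (lt_top_iff_ne_top.2 hfin)).ne
  rw [← mul_add, ← ENNReal.toReal_add hf1 hf2, h1, Set.univ_inter]

lemma Gn_nonneg {m : ℕ} (hm : 2 ≤ m) (z : ℝ) : 0 ≤ Gn m z := LM_nonneg hm _

lemma Gn_anti {m : ℕ} (hm : 2 ≤ m) {z z' : ℝ} (hz : 0 ≤ z) (h : z ≤ z') : Gn m z' ≤ Gn m z := by
  refine LM_mono hm fun w y hy => ?_
  obtain ⟨j, hj⟩ := hy
  refine ⟨j, le_trans (mul_le_mul_of_nonneg_right (pow_le_pow_left₀ hz h _)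
    (prod_nonneg fun l _ => abs_nonneg _)) hj⟩

/-- the total mass -/
noncomputable def kk (m : ℕ) : ℝ := VI m * (C0 m * ∑' w, wgt m w)

lemma kk_pos {m : ℕ} (hm : 2 ≤ m) : 0 < kk m := by
  have h1 := VI_pos (m := m) (by omega)
  have h2 := C0_pos hm
  have h3 := S_pos hm
  unfold kk
  positivity

lemma Gn_le {m : ℕ} (hm : 2 ≤ m) (z : ℝ) : Gn m z ≤ kk m := by
  have h := LM_mono hm (A := Hz m z) (B := fun _ => Set.univ) fun w => Set.subset_univ _
  rw [LM_univ] at h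
  exact h

/-- the tuples with `max |x_i| ≥ z rad ^ (1/n)` -/
def Ez (m : ℕ) (K X z Y : ℝ) : Set (Fin (m + 1) → ℤ) :=
  {x | ((∀ i, x i ≠ 0) ∧ (∀ i j, i ≠ j → IsCoprime (x i) (x j)) ∧ ∑ i, x i = 0) ∧
    (rad (pr x) : ℝ) ≤ Y ∧ (∀ i, |(x i : ℝ)| ≤ X ^ K) ∧
    ∃ j, z * (rad (pr x) : ℝ) ^ (1 / ((m : ℝ) + 1)) ≤ |(x j : ℝ)|}

lemma Ez_finite (m : ℕ) (K X z Y : ℝ) : (Ez m K X z Y).Finite :=
  (box_finite (m + 1) (X ^ K)).1.subset fun _ hx => hx.2.2.1

theorem Ez_law {m : ℕ} (hm : 2 ≤ m) {K : ℝ} (hK : 1 / ((m : ℝ) + 1) < K) :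
    ∃ C ν : ℝ, 0 < C ∧ 0 < ν ∧ ν ≤ 1 / 3 ∧ ∀ X Y z : ℝ, 1 ≤ X → 0 ≤ Y → Y ≤ X → 0 < z →
      |((Ez m K X z Y).ncard : ℝ) - Y ^ ((m : ℝ) / (m + 1)) * Gn m z| ≤
        C * X ^ ((m : ℝ) / (m + 1) - ν) := by
  have hmr : (2 : ℝ) ≤ m := by exact_mod_cast hm
  obtain ⟨C1, ν1, hC1, hν1, hν1', h1⟩ := uni hm 1 hK
  obtain ⟨C2, ν2, hC2, hν2, hν2', h2⟩ := uni hm (4 ^ (m + 1)) hK
  refine ⟨C1 + C2, min ν1 ν2, by positivity, lt_min hν1 hν2, (min_le_left _ _).trans hν1',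
    fun X Y z hX hY0 hYX hz => ?_⟩
  have hX0 : 0 < X := by linarith
  obtain ⟨e0, he0⟩ : ∃ e0 : ℝ, e0 = (m : ℝ) / (m + 1) := ⟨_, rfl⟩
  have k1 := h1 X Y (fun _ => Set.univ) hX hY0 hYX (fun _ => MeasurableSet.univ)
    (fun _ _ _ => nice_univ)
  have k2 := h2 X Y (Lz m z) hX hY0 hYX (fun w => Lz_meas m z w)
    (fun w i y => Lz_sec hz.le w i y)
  rw [← he0] at k1 k2 ⊢
  have q1 : X ^ (e0 - ν1) ≤ X ^ (e0 - min ν1 ν2) :=
    Real.rpow_le_rpow_of_exponent_le hX (by linarith [min_le_left ν1 ν2])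
  have q2 : X ^ (e0 - ν2) ≤ X ^ (e0 - min ν1 ν2) :=
    Real.rpow_le_rpow_of_exponent_le hX (by linarith [min_le_right ν1 ν2])
  have q3 := mul_le_mul_of_nonneg_left q1 hC1.le
  have q4 := mul_le_mul_of_nonneg_left q2 hC2.le
  -- the sets
  have hsub : TY m K X Y (Lz m z) ⊆ TY m K X Y (fun _ => Set.univ) :=
    fun x hx => ⟨hx.1, hx.2.1, hx.2.2.1, Set.mem_univ _⟩
  have hE : Ez m K X z Y = TY m K X Y (fun _ => Set.univ) \ TY m K X Y (Lz m z) := by
    ext x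
    constructor
    · rintro ⟨a1, a2, a3, j, hj⟩
      refine ⟨⟨a1, a2, a3, Set.mem_univ _⟩, fun h => ?_⟩
      have hY : 0 < Y := lt_of_lt_of_le (by exact_mod_cast rad_pos _) a2
      have h5 := (sp_Lz hY hz a1.1 a1.2.2).1 h.2.2.2 j
      exact absurd hj (not_le.2 h5)
    · rintro ⟨⟨a1, a2, a3, -⟩, h⟩
      have hY : 0 < Y := lt_of_lt_of_le (by exact_mod_cast rad_pos _) a2
      refine ⟨a1, a2, a3, ?_⟩
      by_contra hcon
      push Not at hcon
      exact h ⟨a1, a2, a3, (sp_Lz hY hz a1.1 a1.2.2).2 hcon⟩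
  have hc : ((Ez m K X z Y).ncard : ℝ) =
      (TY m K X Y (fun _ => Set.univ)).ncard - (TY m K X Y (Lz m z)).ncard := by
    rw [hE]
    have h7 := Set.ncard_sdiff_add_ncard_of_subset hsub (TY_finite m K X Y _)
    have : ((TY m K X Y (fun _ => Set.univ)).ncard : ℝ) =
      (TY m K X Y (fun _ => Set.univ) \ TY m K X Y (Lz m z)).ncard + (TY m K X Y (Lz m z)).ncard := by
      exact_mod_cast h7.symm
    linarith
  have hG := LM_add hm z
  have hYG : Y ^ e0 * Gn m z = Y ^ e0 * LM m (fun _ => Set.univ) - Y ^ e0 * LM m (Lz m z) := by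
    unfold Gn
    rw [← hG]
    ring
  rw [hc, hYG, add_mul]
  obtain ⟨a1, a2⟩ := abs_le.1 k1
  obtain ⟨a3, a4⟩ := abs_le.1 k2
  rw [abs_le]
  constructor <;> linarith

end Pool.Agent.V7H9.SN
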