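import Pool.Agent.V7H9.SN.Meas

set_option autoImplicit false

/-!
# Lattice points in regions whose line sections are unions of few intervals
-/

namespace Pool.Agent.V7H9.SN

open Finset MeasureTheory

/-- the point `a + q k` -/
def pt (q : ℕ) (a k : ℤ) : ℝ := ((a + q * k : ℤ) : ℝ)

/-- the lattice `a + q ℤ`, each point with mass `q` -/
noncomputable def lam (q : ℕ) (a : ℤ) : Measure ℝ :=
  (q : NNReal) • Measure.map (pt q a) Measure.count

lemma pt_inj {q : ℕ} (hq : 0 < q) (a : ℤ) : Function.Injective (pt q a) := by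
  intro x y h
  unfold pt at h
  have h1 : a + q * x = a + q * y := by exact_mod_cast h
  have h2 : (q : ℤ) * x = q * y := by linarith
  exact mul_left_cancel₀ (by exact_mod_cast hq.ne') h2

lemma pt_emb {q : ℕ} (hq : 0 < q) (a : ℤ) : MeasurableEmbedding (pt q a) where
  injective := pt_inj hq a
  measurable := measurable_of_countable _
  measurableSet_image' := fun s _ => ((Set.to_countable s).image _).measurableSet

lemma lam_sf {q : ℕ} (hq : 0 < q) (a : ℤ) : SigmaFinite (lam q a) := by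
  have h1 : SigmaFinite (Measure.map (pt q a) Measure.count) := (pt_emb hq a).sigmaFinite_map
  unfold lam
  infer_instance

lemma lam_apply (q : ℕ) (a : ℤ) {S : Set ℝ} (hS : MeasurableSet S) :
    lam q a S = q * Measure.count {k : ℤ | pt q a k ∈ S} := by
  unfold lam
  rw [Measure.smul_apply, Measure.map_apply (measurable_of_countable _) hS]
  rfl

lemma count_pi {m : ℕ} (t : Fin m → Set ℤ) :
    (Measure.count (Set.pi Set.univ t) : ENNReal) = ∏ i, Measure.count (t i) := by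
  have h : (Measure.pi fun _ : Fin m => (Measure.count : Measure ℤ)) = Measure.count := by
    refine Measure.ext_of_singleton fun x => ?_
    rw [Measure.pi_singleton]
    simp
  rw [← h, Measure.pi_pi]

lemma pi_lam {m : ℕ} {q : ℕ} (hq : 0 < q) (a : Fin m → ℤ) {R : Set (Fin m → ℝ)}
    (hR : MeasurableSet R) : Measure.pi (fun i => lam q (a i)) R =
      (q : ENNReal) ^ m * Measure.count {k : Fin m → ℤ | (fun i => pt q (a i) (k i)) ∈ R} := by
  have hsf : ∀ i, SigmaFinite (lam q (a i)) := fun i => lam_sf hq _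
  have h : Measure.pi (fun i => lam q (a i)) =
      ((q : NNReal) ^ m) • Measure.map (fun (k : Fin m → ℤ) i => pt q (a i) (k i))
        Measure.count := by
    refine Measure.pi_eq fun s hs => ?_
    rw [Measure.smul_apply, Measure.map_apply (measurable_of_countable _)
      (MeasurableSet.univ_pi hs)]
    have e : (fun (k : Fin m → ℤ) i => pt q (a i) (k i)) ⁻¹' (Set.pi Set.univ s) =
        Set.pi Set.univ fun i => {k : ℤ | pt q (a i) k ∈ s i} := by
      ext k
      simp
    rw [e, count_pi]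
    simp_rw [lam_apply q _ (hs _)]
    rw [prod_mul_distrib, prod_const, card_univ, Fintype.card_fin]
    rfl
  rw [h, Measure.smul_apply, Measure.map_apply (measurable_of_countable _) hR]
  have : ((q : NNReal) ^ m) • (Measure.count ((fun (k : Fin m → ℤ) i => pt q (a i) (k i)) ⁻¹' R) :
      ENNReal) = (((q : NNReal) ^ m : NNReal) : ENNReal) *
        Measure.count ((fun (k : Fin m → ℤ) i => pt q (a i) (k i)) ⁻¹' R) := rfl
  rw [this]
  push_cast
  rfl

/-! ### One variable -/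

lemma lam_Icc_le {q : ℕ} (hq : 0 < q) (a : ℤ) {s t : ℝ} (hst : s ≤ t) :
    lam q a (Set.Icc s t) ≤ ENNReal.ofReal (t - s) + q := by
  have hqr : (0 : ℝ) < q := by exact_mod_cast hq
  rw [lam_apply q a measurableSet_Icc]
  have hsub : {k : ℤ | pt q a k ∈ Set.Icc s t} ⊆
      ((Finset.Icc ⌈(s - a) / q⌉ ⌊(t - a) / q⌋ : Finset ℤ) : Set ℤ) := by
    intro k hk
    rw [Set.mem_ofPred_eq, Set.mem_Icc] at hk
    unfold pt at hk
    push_cast at hk
    rw [coe_Icc, Set.mem_Icc]
    constructor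
    · rw [Int.ceil_le, div_le_iff₀ hqr]
      linarith
    · rw [Int.le_floor, le_div_iff₀ hqr]
      linarith
  refine (mul_le_mul_right (measure_mono hsub) _).trans ?_
  rw [Measure.count_apply_finset, Int.card_Icc]
  have h1 : (q : ENNReal) = ENNReal.ofReal q := by simp
  have h2 : (((⌊(t - a) / q⌋ + 1 - ⌈(s - a) / q⌉).toNat : ℕ) : ENNReal) =
      ENNReal.ofReal (((⌊(t - a) / q⌋ + 1 - ⌈(s - a) / q⌉).toNat : ℕ) : ℝ) := by simp
  rw [h1, h2, ← ENNReal.ofReal_mul hqr.le, ← ENNReal.ofReal_add (by linarith) hqr.le]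
  refine ENNReal.ofReal_le_ofReal ?_
  have h3 : (((⌊(t - a) / q⌋ + 1 - ⌈(s - a) / q⌉).toNat : ℕ) : ℝ) ≤ (t - s) / q + 1 := by
    rcases le_or_gt 0 (⌊(t - a) / q⌋ + 1 - ⌈(s - a) / q⌉) with h | h
    · have e : (((⌊(t - a) / q⌋ + 1 - ⌈(s - a) / q⌉).toNat : ℕ) : ℝ) =
          ((⌊(t - a) / q⌋ + 1 - ⌈(s - a) / q⌉ : ℤ) : ℝ) := by
        have := Int.toNat_of_nonneg h
        exact_mod_cast congrArg (fun z : ℤ => (z : ℝ)) this
      rw [e]
      push_cast
      have h4 := Int.floor_le ((t - a) / q)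
      have h5 := Int.le_ceil ((s - a) / q)
      have h6 : (t - a) / q - (s - a) / q = (t - s) / q := by ring
      linarith
    · rw [Int.toNat_of_nonpos h.le]
      have : 0 ≤ (t - s) / q := div_nonneg (by linarith) hqr.le
      push_cast
      linarith
  have h4 := mul_le_mul_of_nonneg_left h3 hqr.le
  have h5 : (q : ℝ) * ((t - s) / q + 1) = t - s + q := by field_simp
  linarith

lemma lam_Ioo_ge {q : ℕ} (hq : 0 < q) (a : ℤ) {s t : ℝ} :
    ENNReal.ofReal (t - s) ≤ lam q a (Set.Ioo s t) + q := by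
  have hqr : (0 : ℝ) < q := by exact_mod_cast hq
  rw [lam_apply q a measurableSet_Ioo]
  have hsub : ((Finset.Ioo ⌊(s - a) / q⌋ ⌈(t - a) / q⌉ : Finset ℤ) : Set ℤ) ⊆
      {k : ℤ | pt q a k ∈ Set.Ioo s t} := by
    intro k hk
    rw [coe_Ioo, Set.mem_Ioo, Int.floor_lt, Int.lt_ceil, div_lt_iff₀ hqr, lt_div_iff₀ hqr] at hk
    rw [Set.mem_ofPred_eq, Set.mem_Ioo]
    unfold pt
    push_cast
    constructor <;> linarith
  refine le_trans ?_ (add_le_add_left (mul_le_mul_right (measure_mono hsub) _) _)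
  rw [Measure.count_apply_finset, Int.card_Ioo]
  have h1 : (q : ENNReal) = ENNReal.ofReal q := by simp
  have h2 : (((⌈(t - a) / q⌉ - ⌊(s - a) / q⌋ - 1).toNat : ℕ) : ENNReal) =
      ENNReal.ofReal (((⌈(t - a) / q⌉ - ⌊(s - a) / q⌋ - 1).toNat : ℕ) : ℝ) := by simp
  rw [h1, h2, ← ENNReal.ofReal_mul hqr.le, ← ENNReal.ofReal_add (by positivity) hqr.le]
  refine ENNReal.ofReal_le_ofReal ?_
  have h3 : (t - s) / q ≤ (((⌈(t - a) / q⌉ - ⌊(s - a) / q⌋ - 1).toNat : ℕ) : ℝ) + 1 := by
    have e : ((⌈(t - a) / q⌉ - ⌊(s - a) / q⌋ - 1 : ℤ) : ℝ) ≤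
        (((⌈(t - a) / q⌉ - ⌊(s - a) / q⌋ - 1).toNat : ℕ) : ℝ) := by
      have := Int.self_le_toNat (⌈(t - a) / q⌉ - ⌊(s - a) / q⌋ - 1)
      exact_mod_cast this
    push_cast at e
    have h4 := Int.floor_le ((s - a) / q)
    have h5 := Int.le_ceil ((t - a) / q)
    have h6 : (t - a) / q - (s - a) / q = (t - s) / q := by ring
    linarith
  have h4 := mul_le_mul_of_nonneg_left h3 hqr.le
  have h5 : (q : ℝ) * ((t - s) / q) = t - s := by field_simp
  linarith

/-- a bounded ord-connected set -/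
lemma lam_ord {q : ℕ} (hq : 0 < q) (a : ℤ) {S : Set ℝ} (hS : S.OrdConnected) {B : ℝ}
    (hB : ∀ t ∈ S, |t| ≤ B) :
    lam q a S ≤ volume S + q ∧ volume S ≤ lam q a S + q := by
  rcases S.eq_empty_or_nonempty with h | hne
  · subst h
    simp
  · have hbb : BddBelow S := ⟨-B, fun t ht => (abs_le.1 (hB t ht)).1⟩
    have hba : BddAbove S := ⟨B, fun t ht => (abs_le.1 (hB t ht)).2⟩
    obtain ⟨s, hs⟩ : ∃ s, s = sInf S := ⟨_, rfl⟩
    obtain ⟨t, ht⟩ : ∃ t, t = sSup S := ⟨_, rfl⟩
    have hst : s ≤ t := by rw [hs, ht]; exact csInf_le_csSup hne hbb hba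
    have h1 : S ⊆ Set.Icc s t := fun x hx => by
      rw [Set.mem_Icc, hs, ht]
      exact ⟨csInf_le hbb hx, le_csSup hba hx⟩
    have h2 : Set.Ioo s t ⊆ S := by
      intro x hx
      rw [Set.mem_Ioo, hs, ht] at hx
      obtain ⟨y, hy, hyx⟩ := (csInf_lt_iff hbb hne).1 hx.1
      obtain ⟨z, hz, hxz⟩ := (lt_csSup_iff hba hne).1 hx.2
      exact hS.out hy hz ⟨hyx.le, hxz.le⟩
    have v1 : volume S ≤ ENNReal.ofReal (t - s) := by
      refine (measure_mono h1).trans ?_
      rw [Real.volume_Icc]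
    have v2 : ENNReal.ofReal (t - s) ≤ volume S := by
      refine le_trans ?_ (measure_mono h2)
      rw [Real.volume_Ioo]
    constructor
    · refine (measure_mono h1).trans ((lam_Icc_le hq a hst).trans ?_)
      gcongr
    · refine v1.trans ((lam_Ioo_ge hq a).trans ?_)
      gcongr

/-- a disjoint union of at most `k` ord-connected sets -/
def Nice (k : ℕ) (S : Set ℝ) : Prop :=
  ∃ f : Fin k → Set ℝ, (∀ j, (f j).OrdConnected) ∧ Pairwise (Function.onFun Disjoint f) ∧
    S = ⋃ j, f j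

lemma lam_nice {q : ℕ} (hq : 0 < q) (a : ℤ) {k : ℕ} {S : Set ℝ} (hS : Nice k S) {B : ℝ}
    (hB : ∀ t ∈ S, |t| ≤ B) :
    lam q a S ≤ volume S + ((k * q : ℕ) : ENNReal) ∧
      volume S ≤ lam q a S + ((k * q : ℕ) : ENNReal) := by
  obtain ⟨f, h1, h2, h3⟩ := hS
  have hf : ∀ j, ∀ t ∈ f j, |t| ≤ B := fun j t ht => hB t (by
    rw [h3]
    exact Set.mem_iUnion.2 ⟨j, ht⟩)
  have e : ∀ μ : Measure ℝ, μ S = ∑ j, μ (f j) := by
    intro μ
    rw [h3, measure_iUnion h2 (fun j => (h1 j).measurableSet), tsum_fintype]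
  have hk : ((k * q : ℕ) : ENNReal) = ∑ _j : Fin k, (q : ENNReal) := by
    rw [sum_const, card_univ, Fintype.card_fin, nsmul_eq_mul]
    push_cast
    rfl
  rw [e, e, hk, ← sum_add_distrib, ← sum_add_distrib]
  exact ⟨sum_le_sum fun j _ => (lam_ord hq a (h1 j) (hf j)).1,
    sum_le_sum fun j _ => (lam_ord hq a (h1 j) (hf j)).2⟩

/-- **Lattice points in a region whose line sections are unions of at most `k` intervals.** -/
theorem lattice_count {m k q : ℕ} (hq : 0 < q) (a : Fin m → ℤ) {B : ℝ} (hB : 0 ≤ B)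
    {R : Set (Fin m → ℝ)} (hR : MeasurableSet R) (hRB : ∀ y ∈ R, ∀ i, |y i| ≤ B)
    (hsec : ∀ (i : Fin m) (y : Fin m → ℝ), Nice k {t | Function.update y i t ∈ R}) :
    {z : Fin m → ℤ | (∀ i, (q : ℤ) ∣ z i - a i) ∧ (fun i => (z i : ℝ)) ∈ R}.Finite ∧
    |(q : ℝ) ^ m * ({z : Fin m → ℤ | (∀ i, (q : ℤ) ∣ z i - a i) ∧
      (fun i => (z i : ℝ)) ∈ R}.ncard : ℝ) - (volume R).toReal| ≤
      m * (k * q) * (2 * B + q) ^ (m - 1) := by
  have hqr : (0 : ℝ) < q := by exact_mod_cast hq
  have hsf : ∀ i, SigmaFinite (lam q (a i)) := fun i => lam_sf hq _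
  -- the bijection
  obtain ⟨Z, hZ⟩ : ∃ Z : Set (Fin m → ℤ), Z = {z : Fin m → ℤ | (∀ i, (q : ℤ) ∣ z i - a i) ∧
      (fun i => (z i : ℝ)) ∈ R} := ⟨_, rfl⟩
  obtain ⟨T, hT⟩ : ∃ T : Set (Fin m → ℤ), T = {k : Fin m → ℤ | (fun i => pt q (a i) (k i)) ∈ R} :=
    ⟨_, rfl⟩
  have hZfin : Z.Finite := by
    refine (Set.Finite.pi' fun _ : Fin m => Set.finite_Icc (-⌈B⌉) ⌈B⌉).subset fun z hz i => ?_
    rw [hZ] at hz
    have h1 := abs_le.1 (hRB _ hz.2 i)
    have h2 := Int.le_ceil B
    rw [Set.mem_Icc]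
    constructor
    · have : ((-⌈B⌉ : ℤ) : ℝ) ≤ z i := by push_cast; linarith
      exact_mod_cast this
    · have : (z i : ℝ) ≤ (⌈B⌉ : ℤ) := by linarith
      exact_mod_cast this
  have himg : Z = (fun (k : Fin m → ℤ) i => a i + q * k i) '' T := by
    ext z
    rw [hZ, hT, Set.mem_ofPred_eq, Set.mem_image]
    constructor
    · rintro ⟨h1, h2⟩
      choose u hu using h1
      have hz : (fun i => a i + q * u i) = z := funext fun i => by rw [← hu i]; ring
      refine ⟨u, ?_, hz⟩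
      rw [Set.mem_ofPred_eq]
      have : (fun i => pt q (a i) (u i)) = fun i => (z i : ℝ) := by
        funext i
        unfold pt
        rw [← hz]
      rw [this]
      exact h2
    · rintro ⟨u, h1, rfl⟩
      exact ⟨fun i => ⟨u i, by ring⟩, h1⟩
  have hinj : Function.Injective (fun (k : Fin m → ℤ) i => a i + q * k i) := by
    intro x y h
    funext i
    have h1 := congrFun h i
    simp only at h1
    have h2 : (q : ℤ) * x i = q * y i := by linarith
    exact mul_left_cancel₀ (by exact_mod_cast hq.ne') h2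
  have hcount : (Measure.count T : ENNReal) = Z.ncard := by
    have h1 : T.Finite := by
      rw [himg] at hZfin
      exact Set.Finite.of_finite_image hZfin hinj.injOn
    rw [himg, Set.ncard_image_of_injective _ hinj, Set.ncard_eq_toFinset_card _ h1,
      Measure.count_apply_finite _ h1]
  rw [← hZ]
  refine ⟨hZfin, ?_⟩
  -- the measures
  have hv : volume R = Measure.pi (fun _ : Fin m => (volume : Measure ℝ)) R := by
    rw [volume_pi]
  have hp := pi_lam hq a hR
  rw [← hT, hcount] at hp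
  obtain ⟨M, hM⟩ : ∃ M : ENNReal, M = ENNReal.ofReal (2 * B + q) := ⟨_, rfl⟩
  have hMv : volume (Set.Icc (-B) B) ≤ M := by
    rw [Real.volume_Icc, hM]
    exact ENNReal.ofReal_le_ofReal (by linarith)
  have hMl : ∀ i, lam q (a i) (Set.Icc (-B) B) ≤ M := by
    intro i
    refine (lam_Icc_le hq (a i) (by linarith)).trans ?_
    have h1 : (q : ENNReal) = ENNReal.ofReal q := by simp
    rw [h1, ← ENNReal.ofReal_add (by linarith) hqr.le, hM]
    exact ENNReal.ofReal_le_ofReal (by linarith)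
  have hRI : ∀ y ∈ R, ∀ i, y i ∈ Set.Icc (-B) B := fun y hy i => abs_le.1 (hRB y hy i)
  have hsb : ∀ (i : Fin m) (y : Fin m → ℝ), ∀ t ∈ {t | Function.update y i t ∈ R}, |t| ≤ B := by
    intro i y t ht
    have := hRB _ ht i
    rwa [Function.update_self] at this
  have c1 := pi_compare ((k * q : ℕ) : ENNReal) M (Set.Icc (-B) B) measurableSet_Icc
    (fun i => lam q (a i)) (fun _ => volume) hMl (fun _ => hMv) R hR hRI
    (fun i y => (lam_nice hq (a i) (hsec i y) (hsb i y)).1)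
  have c2 := pi_compare ((k * q : ℕ) : ENNReal) M (Set.Icc (-B) B) measurableSet_Icc
    (fun _ => volume) (fun i => lam q (a i)) (fun _ => hMv) hMl R hR hRI
    (fun i y => (lam_nice hq (a i) (hsec i y) (hsb i y)).2)
  rw [← hv, hp] at c1 c2
  have hvfin : volume R ≠ ⊤ := by
    refine ((measure_mono (t := Set.pi Set.univ fun _ : Fin m => Set.Icc (-B) B) ?_).trans_lt
      ?_).ne
    · intro y hy i _
      exact hRI y hy i
    · rw [volume_pi, Measure.pi_pi]
      exact ENNReal.prod_lt_top fun i _ => by rw [Real.volume_Icc]; exact ENNReal.ofReal_lt_top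
  have hE : (m : ENNReal) * ((k * q : ℕ) : ENNReal) * M ^ (m - 1) =
      ENNReal.ofReal (m * (k * q) * (2 * B + q) ^ (m - 1)) := by
    rw [hM, ENNReal.ofReal_mul (by positivity), ENNReal.ofReal_mul (by positivity),
      ENNReal.ofReal_pow (by positivity), ENNReal.ofReal_natCast]
    congr 2
    rw [← ENNReal.ofReal_natCast]
    push_cast
    rfl
  have hE0 : 0 ≤ (m : ℝ) * (k * q) * (2 * B + q) ^ (m - 1) := by positivity
  have hN : (q : ENNReal) ^ m * (Z.ncard : ENNReal) = ENNReal.ofReal ((q : ℝ) ^ m * Z.ncard) := by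
    rw [ENNReal.ofReal_mul (by positivity), ENNReal.ofReal_pow (by positivity),
      ENNReal.ofReal_natCast, ENNReal.ofReal_natCast]
  have hV : volume R = ENNReal.ofReal (volume R).toReal := (ENNReal.ofReal_toReal hvfin).symm
  rw [hE, hN] at c1 c2
  rw [hV, ← ENNReal.ofReal_add ENNReal.toReal_nonneg hE0,
    ENNReal.ofReal_le_ofReal_iff (by positivity)] at c1
  rw [hV, ← ENNReal.ofReal_add (by positivity) hE0,
    ENNReal.ofReal_le_ofReal_iff (by positivity)] at c2
  rw [abs_le]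
  constructor <;> linarith

end Pool.Agent.V7H9.SN
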