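import Pool.Agent.V7H9.SN.Asm

set_option autoImplicit false

/-!
# The joint law of the repeated part and the scaled tuple
-/

namespace Pool.Agent.V7H9.SN

open Finset MeasureTheory Pool.Agent.H785R2.ABC

/-- the scaled tuple -/
noncomputable def sp {m : ℕ} (X : ℝ) (x : Fin (m + 1) → ℤ) : Fin m → ℝ :=
  fun i => (x i.succ : ℝ) / ((rp x : ℝ) * X) ^ (1 / ((m : ℝ) + 1))

/-- the tuples -/
def TS (m : ℕ) (K X : ℝ) (A : ℕ → Set (Fin m → ℝ)) : Set (Fin (m + 1) → ℤ) :=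
  {x | ((∀ i, x i ≠ 0) ∧ (∀ i j, i ≠ j → IsCoprime (x i) (x j)) ∧ ∑ i, x i = 0) ∧
    (rad (pr x) : ℝ) ≤ X ∧ (∀ i, |(x i : ℝ)| ≤ X ^ K) ∧ sp X x ∈ A (rp x)}

lemma prod_rad_le {n : ℕ} {x : Fin n → ℤ} (h0 : ∀ i, x i ≠ 0)
    (hc : ∀ i j, i ≠ j → IsCoprime (x i) (x j)) : ∏ i, rad (x i).natAbs ≤ rad (pr x) := by
  refine Nat.le_of_dvd (rad_pos _) ?_
  refine Finset.prod_dvd_of_isRelPrime (fun i _ j _ hij => ?_) fun i _ => ?_
  · unfold Function.onFun
    rw [← Nat.coprime_iff_isRelPrime]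
    have h1 : Nat.Coprime (x i).natAbs (x j).natAbs := Int.isCoprime_iff_gcd_eq_one.1 (hc i j hij)
    exact (h1.coprime_dvd_left (rad_dvd _)).coprime_dvd_right (rad_dvd _)
  · unfold rad
    refine Finset.prod_dvd_prod_of_subset _ _ _ ?_
    refine Nat.primeFactors_mono ?_ (pr_pos h0).ne'
    exact Finset.dvd_prod_of_mem _ (mem_univ i)

lemma pr_cast {n : ℕ} (x : Fin n → ℤ) : (pr x : ℝ) = ∏ i, |(x i : ℝ)| := by
  unfold pr
  push_cast
  exact prod_congr rfl fun i _ => by rw [Nat.cast_natAbs, Int.cast_abs]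

lemma rad_mul_rp {n : ℕ} (x : Fin n → ℤ) : (rad (pr x) : ℝ) * rp x = ∏ i, |(x i : ℝ)| := by
  rw [← pr_cast]
  exact_mod_cast pr_eq x

/-- the scaled point is in the region if and only if the radical is at most `X` -/
lemma sp_mem {m : ℕ} {X : ℝ} (hX : 0 < X) {x : Fin (m + 1) → ℤ} (h0 : ∀ i, x i ≠ 0)
    (hs : ∑ i, x i = 0) : sp X x ∈ RI m ↔ (rad (pr x) : ℝ) ≤ X := by
  have hr : (0 : ℝ) < rp x := by exact_mod_cast rp_pos h0
  obtain ⟨c, hc⟩ : ∃ c : ℝ, c = ((rp x : ℝ) * X) ^ (1 / ((m : ℝ) + 1)) := ⟨_, rfl⟩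
  have hc0 : 0 < c := by rw [hc]; positivity
  have hcm : c ^ (m + 1) = (rp x : ℝ) * X := by
    rw [hc, ← Real.rpow_natCast, ← Real.rpow_mul (by positivity)]
    push_cast
    rw [one_div, inv_mul_cancel₀ (by positivity), Real.rpow_one]
  have hz : full (fun j => x j.succ) = x := full_tail hs
  have e1 : ∏ i, |full (sp X x) i| = (∏ i, |(x i : ℝ)|) / c ^ (m + 1) := by
    unfold sp
    rw [← hc]
    simp only [full_div (fun i : Fin m => (x i.succ : ℝ)) c, abs_div, abs_of_pos hc0]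
    rw [prod_div_distrib, prod_const, card_univ, Fintype.card_fin]
    congr 1
    refine prod_congr rfl fun i _ => ?_
    rw [← full_cast (fun j => x j.succ) i, hz]
  unfold RI
  rw [Set.mem_ofPred_eq, e1, div_le_one (by positivity), hcm, ← rad_mul_rp, mul_comm (rp x : ℝ)]
  exact ⟨fun h => le_of_mul_le_mul_right h hr, fun h => mul_le_mul_of_nonneg_right h hr.le⟩

lemma box_finite (n : ℕ) (H : ℝ) : {x : Fin n → ℤ | ∀ i, |(x i : ℝ)| ≤ H}.Finite ∧
    {x : Fin n → ℤ | ∀ i, |(x i : ℝ)| ≤ H}.ncard ≤ (2 * ⌊H⌋₊ + 1) ^ n := by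
  have h1 : {x : Fin n → ℤ | ∀ i, |(x i : ℝ)| ≤ H} ⊆
      (Fintype.piFinset fun _ : Fin n => Finset.Icc (-(⌊H⌋₊ : ℤ)) ⌊H⌋₊ : Finset (Fin n → ℤ)) := by
    intro x hx
    rw [mem_coe, Fintype.mem_piFinset]
    intro i
    have h2 := hx i
    have e : |(x i : ℝ)| = ((x i).natAbs : ℝ) := by rw [Nat.cast_natAbs, Int.cast_abs]
    rw [e] at h2
    have h3 := Nat.le_floor h2
    rw [mem_Icc]
    omega
  refine ⟨(finite_toSet _).subset h1, ?_⟩
  refine (Set.ncard_le_ncard h1 (finite_toSet _)).trans (le_of_eq ?_)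
  rw [Set.ncard_coe_finset, Fintype.card_piFinset, prod_const, card_univ, Fintype.card_fin,
    card_IcN]

lemma TS_finite (m : ℕ) (K X : ℝ) (A : ℕ → Set (Fin m → ℝ)) : (TS m K X A).Finite :=
  (box_finite (m + 1) (X ^ K)).1.subset fun _ hx => hx.2.2.1

/-- the limit -/
noncomputable def LM (m : ℕ) (A : ℕ → Set (Fin m → ℝ)) : ℝ :=
  ∑' w : ℕ, C0 m * wgt m w * (volume (A w ∩ RI m)).toReal

lemma LM_summable {m : ℕ} (hm : 2 ≤ m) (A : ℕ → Set (Fin m → ℝ)) :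
    Summable fun w => C0 m * wgt m w * (volume (A w ∩ RI m)).toReal := by
  have h1 : Summable fun w => C0 m * VI m * wgt m w := (wgt_summable hm).mul_left _
  refine Summable.of_nonneg_of_le (fun w => ?_) (fun w => ?_) h1
  · exact mul_nonneg (mul_nonneg (C0_pos hm).le (wgt_nonneg hm w)) ENNReal.toReal_nonneg
  · have h2 := vol_le_VI (m := m) (by omega) (B := A w ∩ RI m) Set.inter_subset_right
    have h3 := mul_le_mul_of_nonneg_left h2 (mul_nonneg (C0_pos hm).le (wgt_nonneg hm w))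
    linarith

lemma LM_nonneg {m : ℕ} (hm : 2 ≤ m) (A : ℕ → Set (Fin m → ℝ)) : 0 ≤ LM m A :=
  tsum_nonneg fun w => mul_nonneg (mul_nonneg (C0_pos hm).le (wgt_nonneg hm w)) ENNReal.toReal_nonneg

lemma LM_le {m : ℕ} (hm : 2 ≤ m) (A : ℕ → Set (Fin m → ℝ)) :
    LM m A ≤ C0 m * VI m * ∑' w, wgt m w := by
  unfold LM
  rw [← tsum_mul_left]
  refine (LM_summable hm A).tsum_le_tsum (fun w => ?_) ((wgt_summable hm).mul_left _)
  have h2 := vol_le_VI (m := m) (by omega) (B := A w ∩ RI m) Set.inter_subset_right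
  have h3 := mul_le_mul_of_nonneg_left h2 (mul_nonneg (C0_pos hm).le (wgt_nonneg hm w))
  linarith

/-- the sum over the small repeated parts, with the truncated volumes -/
lemma main_sum {m : ℕ} (hm : 2 ≤ m) : ∃ C : ℝ, 0 < C ∧ ∀ (A : ℕ → Set (Fin m → ℝ)) (T Y : ℝ),
    (∀ w, MeasurableSet (A w)) → 1 ≤ T → 1 ≤ Y →
    |∑ w ∈ Finset.Icc 1 ⌊Y⌋₊, C0 m * wgt m w * (volume (A w ∩ RT m T)).toReal - LM m A| ≤
      C * (T ^ (-(1 / 2) : ℝ) + Y ^ (-(1 / (2 * ((m : ℝ) + 1))))) := by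
  have hm1 : 1 ≤ m := by omega
  obtain ⟨Cv, hCv, hv⟩ := vol_tail hm1
  obtain ⟨Cs, hCs, hs⟩ := wgt_tail hm
  have hC0 := C0_pos hm
  have hVI : 0 ≤ VI m := ENNReal.toReal_nonneg
  obtain ⟨S, hS⟩ : ∃ S, S = ∑' w, wgt m w := ⟨_, rfl⟩
  have hS0 : 0 ≤ S := by rw [hS]; exact tsum_nonneg fun w => wgt_nonneg hm w
  refine ⟨C0 m * S * Cv + C0 m * VI m * Cs + 1, by positivity, fun A T Y hA hT hY => ?_⟩
  have hT0 : 0 < T := by linarith
  have hY0 : 0 < Y := by linarith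
  obtain ⟨v, hvd⟩ : ∃ v : ℕ → ℝ, v = fun w => (volume (A w ∩ RI m)).toReal := ⟨_, rfl⟩
  obtain ⟨u, hud⟩ : ∃ u : ℕ → ℝ, u = fun w => (volume (A w ∩ RT m T)).toReal := ⟨_, rfl⟩
  obtain ⟨t1, ht1⟩ : ∃ t1 : ℝ, t1 = T ^ (-(1 / 2) : ℝ) := ⟨_, rfl⟩
  obtain ⟨t2, ht2⟩ : ∃ t2 : ℝ, t2 = Y ^ (-(1 / (2 * ((m : ℝ) + 1)))) := ⟨_, rfl⟩
  have ht10 : 0 < t1 := by rw [ht1]; positivity
  have ht20 : 0 < t2 := by rw [ht2]; positivity
  rw [← ht1, ← ht2]
  have huv : ∀ w, u w ≤ v w ∧ v w ≤ u w + Cv * t1 := by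
    intro w
    have hfin : volume (A w ∩ RI m) ≠ ⊤ :=
      ((measure_mono Set.inter_subset_right).trans_lt (lt_top_iff_ne_top.2 (RI_fin hm1))).ne
    have hfin2 : volume (A w ∩ RT m T) ≠ ⊤ :=
      ((measure_mono Set.inter_subset_right).trans_lt (lt_top_iff_ne_top.2 (RT_fin m T))).ne
    rw [hud, hvd]
    constructor
    · exact ENNReal.toReal_mono hfin (measure_mono (Set.inter_subset_inter_right _ (RT_sub m T)))
    · have h1 : A w ∩ RI m ⊆ (A w ∩ RT m T) ∪ (RI m \ RT m T) := by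
        intro y hy
        by_cases h : y ∈ RT m T
        · exact Or.inl ⟨hy.1, h⟩
        · exact Or.inr ⟨hy.2, h⟩
      have h2 : volume (A w ∩ RI m) ≤ volume (A w ∩ RT m T) + ENNReal.ofReal (Cv * t1) := by
        refine (measure_mono h1).trans ((measure_union_le _ _).trans ?_)
        rw [ht1]
        exact add_le_add_right (hv T hT) _
      have h3 := ENNReal.toReal_mono (ENNReal.add_ne_top.2 ⟨hfin2, ENNReal.ofReal_ne_top⟩) h2
      rwa [ENNReal.toReal_add hfin2 ENNReal.ofReal_ne_top,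
        ENNReal.toReal_ofReal (by positivity)] at h3
  have hvI : ∀ w, v w ≤ VI m := fun w => by
    rw [hvd]
    exact vol_le_VI hm1 Set.inter_subset_right
  have hv0 : ∀ w, 0 ≤ v w := fun w => by rw [hvd]; exact ENNReal.toReal_nonneg
  have hL : LM m A = ∑' w, C0 m * wgt m w * v w := by rw [hvd]; rfl
  have hsum : Summable fun w => C0 m * wgt m w * v w := by rw [hvd]; exact LM_summable hm A
  have hc : ∀ w, 0 ≤ C0 m * wgt m w := fun w => mul_nonneg hC0.le (wgt_nonneg hm w)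
  have hu : ∑ w ∈ Finset.Icc 1 ⌊Y⌋₊, C0 m * wgt m w * (volume (A w ∩ RT m T)).toReal =
      ∑ w ∈ Finset.Icc 1 ⌊Y⌋₊, C0 m * wgt m w * u w := by rw [hud]
  rw [hu, hL]
  -- the two differences
  have a1 : |∑ w ∈ Finset.Icc 1 ⌊Y⌋₊, C0 m * wgt m w * u w -
      ∑ w ∈ Finset.Icc 1 ⌊Y⌋₊, C0 m * wgt m w * v w| ≤ C0 m * S * Cv * t1 := by
    rw [← sum_sub_distrib]
    refine (abs_sum_le_sum_abs _ _).trans ?_
    have h1 : ∀ w ∈ Finset.Icc 1 ⌊Y⌋₊, |C0 m * wgt m w * u w - C0 m * wgt m w * v w| ≤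
        C0 m * Cv * t1 * wgt m w := by
      intro w _
      rw [← mul_sub, abs_mul, abs_of_nonneg (hc w)]
      have h2 : |u w - v w| ≤ Cv * t1 := by
        rw [abs_le]
        obtain ⟨h3, h4⟩ := huv w
        have : 0 < Cv * t1 := by positivity
        constructor <;> linarith
      have h5 := mul_le_mul_of_nonneg_left h2 (hc w)
      linarith
    refine (sum_le_sum h1).trans ?_
    rw [← mul_sum]
    have h6 : ∑ w ∈ Finset.Icc 1 ⌊Y⌋₊, wgt m w ≤ S := by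
      rw [hS]
      exact (wgt_summable hm).sum_le_tsum _ fun w _ => wgt_nonneg hm w
    have h7 := mul_le_mul_of_nonneg_left h6 (by positivity : 0 ≤ C0 m * Cv * t1)
    linarith
  have a2 : ∑ w ∈ Finset.Icc 1 ⌊Y⌋₊, C0 m * wgt m w * v w ≤ ∑' w, C0 m * wgt m w * v w :=
    hsum.sum_le_tsum _ fun w _ => mul_nonneg (hc w) (hv0 w)
  have a3 : ∑' w, C0 m * wgt m w * v w ≤
      ∑ w ∈ Finset.Icc 1 ⌊Y⌋₊, C0 m * wgt m w * v w + C0 m * VI m * Cs * t2 := by
    refine hsum.tsum_le_of_sum_le fun F => ?_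
    rw [← sum_filter_add_sum_filter_not F (fun w => w ≤ ⌊Y⌋₊)]
    refine add_le_add ?_ ?_
    · have h1 : ∑ w ∈ F.filter (fun w => w ≤ ⌊Y⌋₊), C0 m * wgt m w * v w ≤
          ∑ w ∈ insert 0 (Finset.Icc 1 ⌊Y⌋₊), C0 m * wgt m w * v w := by
        refine sum_le_sum_of_subset_of_nonneg ?_ fun w _ _ => mul_nonneg (hc w) (hv0 w)
        intro w hw
        have := (mem_filter.1 hw).2
        rw [mem_insert, mem_Icc]
        omega
      rw [Finset.sum_insert (by simp), wgt_zero, mul_zero, zero_mul, zero_add] at h1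
      exact h1
    · have h1 : ∀ w ∈ F.filter (fun w => ¬ w ≤ ⌊Y⌋₊), C0 m * wgt m w * v w ≤
          C0 m * VI m * wgt m w := by
        intro w _
        have := mul_le_mul_of_nonneg_left (hvI w) (hc w)
        linarith
      refine (sum_le_sum h1).trans ?_
      rw [← mul_sum]
      have h2 := hs Y hY (F.filter (fun w => ¬ w ≤ ⌊Y⌋₊)) (fun w hw => by
        have := (mem_filter.1 hw).2
        rw [not_le] at this
        exact (Nat.floor_lt hY0.le).1 this)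
      rw [← ht2] at h2
      have h3 := mul_le_mul_of_nonneg_left h2 (by positivity : 0 ≤ C0 m * VI m)
      linarith
  obtain ⟨b1, b2⟩ := abs_le.1 a1
  have c1 : 0 ≤ C0 m * S * Cv * t1 := by positivity
  have c2 : 0 ≤ C0 m * VI m * Cs * t2 := by positivity
  have c3 : 0 ≤ C0 m * S * Cv * t2 := by positivity
  have c4 : 0 ≤ C0 m * VI m * Cs * t1 := by positivity
  rw [abs_le]
  constructor <;> nlinarith

end Pool.Agent.V7H9.SN
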