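import Pool.Agent.V7H9.SN.Law

set_option autoImplicit false

/-!
# The joint law of the repeated part and the scaled tuple: the main theorem
-/

namespace Pool.Agent.V7H9.SN

open Finset MeasureTheory Pool.Agent.H785R2.ABC

/-- the tuples that are not counted in the main term -/
lemma bad_tuples {m : ℕ} (hm : 2 ≤ m) {K η δ : ℝ} (hK : 0 < K) (hη : 0 < η) (hη1 : η ≤ 1 / (m + 1))
    (hδη : δ = 8 * η) : ∃ C ν : ℝ, 0 < C ∧ 0 < ν ∧ ∀ X : ℝ, 1 ≤ X →
    ∀ F : Finset (Fin (m + 1) → ℤ), (∀ x ∈ F, ((∀ i, x i ≠ 0) ∧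
      (∀ i j, i ≠ j → IsCoprime (x i) (x j)) ∧ ∑ i, x i = 0) ∧ (rad (pr x) : ℝ) ≤ X ∧
      (∀ i, |(x i : ℝ)| ≤ X ^ K) ∧ (X ^ η < rp x ∨ (∃ i, X ^ (1 / ((m : ℝ) + 1) + δ) ≤ |(x i : ℝ)|))) →
    (F.card : ℝ) ≤ C * X ^ ((m : ℝ) / (m + 1) - ν) := by
  classical
  obtain ⟨Ct, νt, hCt, hνt, htail⟩ := tail hm hK hη
  obtain ⟨Cc, hCc, hcusp⟩ := cusp m hη
  refine ⟨Ct + Cc, min νt η, by positivity, lt_min hνt hη, fun X hX F hF => ?_⟩
  have hX0 : 0 < X := by linarith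
  have hmr : (2 : ℝ) ≤ m := by exact_mod_cast hm
  obtain ⟨n, hn⟩ : ∃ n : ℝ, n = (m : ℝ) + 1 := ⟨_, rfl⟩
  have hn0 : 0 < n := by rw [hn]; positivity
  rw [← hn] at hη1 hF ⊢
  obtain ⟨e0, he0⟩ : ∃ e0 : ℝ, e0 = (m : ℝ) / n := ⟨_, rfl⟩
  rw [← he0]
  have he1 : e0 = 1 - 1 / n := by
    rw [he0, hn]
    field_simp
    ring
  obtain ⟨F1, hF1⟩ : ∃ F1, F1 = F.filter fun x => X ^ η < rp x := ⟨_, rfl⟩
  obtain ⟨F2, hF2⟩ : ∃ F2, F2 = F.filter fun x => ¬ X ^ η < rp x := ⟨_, rfl⟩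
  have b1 : (F1.card : ℝ) ≤ Ct * X ^ (e0 - νt) := by
    have h := htail X hX F1 (fun x hx => by
      rw [hF1, mem_filter] at hx
      obtain ⟨⟨h1, h2, h3⟩, h4, h5, -⟩ := hF x hx.1
      have h6 := prod_rad_le h1 h2
      have h7 : ((∏ i, rad (x i).natAbs : ℕ) : ℝ) ≤ rad (pr x) := by exact_mod_cast h6
      refine ⟨h1, h2, h3, h5, h7.trans h4, ?_⟩
      rw [← rad_mul_rp, mul_comm]
      exact mul_le_mul h7 hx.2.le (by positivity) (Nat.cast_nonneg _))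
    rw [he0, hn]
    exact h
  have b2 : (F2.card : ℝ) ≤ Cc * X ^ (e0 - η) := by
    have h := hcusp (X ^ (1 + η)) (X ^ (1 / n + δ)) (by positivity) (by positivity) F2
      (fun x hx => by
        rw [hF2, mem_filter] at hx
        obtain ⟨⟨h1, h2, h3⟩, h4, h5, h6⟩ := hF x hx.1
        refine ⟨h1, h3, ?_, h6.resolve_left hx.2⟩
        rw [← rad_mul_rp, Real.rpow_add hX0, Real.rpow_one]
        exact mul_le_mul h4 (not_lt.1 hx.2) (Nat.cast_nonneg _) hX0.le)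
    refine h.trans (mul_le_mul_of_nonneg_left ?_ hCc.le)
    rw [← Real.rpow_sub hX0, ← Real.rpow_mul hX0.le]
    refine Real.rpow_le_rpow_of_exponent_le hX ?_
    rw [hδη]
    have e1 : 1 + η - (1 / n + 8 * η) = e0 - 7 * η := by rw [he1]; ring
    rw [e1]
    have : (e0 - 7 * η) * η ≤ 1 * η := by
      refine mul_le_mul_of_nonneg_right ?_ hη.le
      have : 0 < 1 / n := by positivity
      linarith
    nlinarith
  have h1 : (F.card : ℝ) = F1.card + F2.card := by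
    rw [hF1, hF2]
    exact_mod_cast (card_filter_add_card_filter_not (s := F) (fun x => X ^ η < rp x)).symm
  have h2 : X ^ (e0 - νt) ≤ X ^ (e0 - min νt η) :=
    Real.rpow_le_rpow_of_exponent_le hX (by linarith [min_le_left νt η])
  have h3 : X ^ (e0 - η) ≤ X ^ (e0 - min νt η) :=
    Real.rpow_le_rpow_of_exponent_le hX (by linarith [min_le_right νt η])
  have h4 := mul_le_mul_of_nonneg_left h2 hCt.le
  have h5 := mul_le_mul_of_nonneg_left h3 hCc.le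
  rw [h1, add_mul]
  linarith

/-- the main theorem for large `X` -/
theorem law0 {m : ℕ} (hm : 2 ≤ m) (k : ℕ) {K : ℝ} (hK : 1 / ((m : ℝ) + 1) < K) :
    ∃ C ν X0 : ℝ, 0 < C ∧ 0 < ν ∧ ν ≤ 1 / 3 ∧ 1 ≤ X0 ∧ ∀ (X : ℝ) (A : ℕ → Set (Fin m → ℝ)), X0 ≤ X →
      (∀ w, MeasurableSet (A w)) →
      (∀ w (i : Fin m) (y : Fin m → ℝ), Nice k {t | Function.update y i t ∈ A w}) →
      |((TS m K X A).ncard : ℝ) - X ^ ((m : ℝ) / (m + 1)) * LM m A| ≤
        C * X ^ ((m : ℝ) / (m + 1) - ν) := by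
  classical
  have hm1 : 1 ≤ m := by omega
  have hmr : (2 : ℝ) ≤ m := by exact_mod_cast hm
  obtain ⟨n, hn⟩ : ∃ n : ℝ, n = (m : ℝ) + 1 := ⟨_, rfl⟩
  have hn0 : 0 < n := by rw [hn]; positivity
  have hn3 : 3 ≤ n := by rw [hn]; linarith
  obtain ⟨θ, hθ⟩ : ∃ θ : ℝ, θ = min (1 / (20 * n)) (K - 1 / n) := ⟨_, rfl⟩
  have hK' : 1 / n < K := by rw [hn]; exact hK
  have hθ0 : 0 < θ := by rw [hθ]; exact lt_min (by positivity) (by linarith)
  have hθ1 : θ ≤ 1 / (20 * n) := by rw [hθ]; exact min_le_left _ _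
  have hθ2 : θ ≤ K - 1 / n := by rw [hθ]; exact min_le_right _ _
  obtain ⟨δ, hδ⟩ : ∃ δ : ℝ, δ = θ / (4 * m) := ⟨_, rfl⟩
  obtain ⟨η, hη⟩ : ∃ η : ℝ, η = δ / 8 := ⟨_, rfl⟩
  have hδ0 : 0 < δ := by rw [hδ]; positivity
  have hη0 : 0 < η := by rw [hη]; positivity
  have hmδ : m * δ = θ / 4 := by rw [hδ]; field_simp
  have hδ8 : δ ≤ θ / 8 := by nlinarith
  have hη64 : η ≤ θ / 64 := by rw [hη]; linarith
  have h1n : 1 / (20 * n) ≤ 1 / n := by
    rw [div_le_div_iff₀ (by positivity) hn0]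
    linarith
  have h1n3 : 1 / n ≤ 1 / 3 := by
    rw [div_le_div_iff₀ hn0 (by norm_num)]
    linarith
  obtain ⟨Ce, hCe, heff⟩ := eff_w hm k hθ0 (by rw [← hn]; exact hθ1) hδ hη
  obtain ⟨Cb, νb, hCb, hνb, hbad⟩ := bad_tuples (K := K) (η := η) (δ := δ) hm
    (lt_trans (by positivity) hK') hη0 (by rw [← hn]; linarith) (by rw [hη]; ring)
  obtain ⟨Cs, hCs, hsum⟩ := main_sum hm
  obtain ⟨ν, hν⟩ : ∃ ν : ℝ, ν = min νb (η / (2 * n)) := ⟨_, rfl⟩
  have hν0 : 0 < ν := by rw [hν]; exact lt_min hνb (by positivity)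
  have hν1 : ν ≤ νb := by rw [hν]; exact min_le_left _ _
  have hν2 : ν ≤ η / (2 * n) := by rw [hν]; exact min_le_right _ _
  have hν3 : ν ≤ η := hν2.trans (by rw [div_le_iff₀ (by positivity)]; nlinarith)
  refine ⟨Ce + Cb + 2 * Cs, ν, max 1 ((m : ℝ) ^ (2 / θ)), by positivity, hν0, by linarith,
    le_max_left _ _, ?_⟩
  intro X A hXX hA hsec
  have hX : 1 ≤ X := (le_max_left _ _).trans hXX
  have hX0 : 0 < X := by linarith
  have hXm : (m : ℝ) ≤ X ^ (θ / 2) := by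
    have h1 : (m : ℝ) ^ (2 / θ) ≤ X := (le_max_right _ _).trans hXX
    calc (m : ℝ) = ((m : ℝ) ^ (2 / θ)) ^ (θ / 2) := by
          rw [← Real.rpow_mul (by positivity)]
          have : 2 / θ * (θ / 2) = 1 := by field_simp
          rw [this, Real.rpow_one]
      _ ≤ X ^ (θ / 2) := Real.rpow_le_rpow (by positivity) h1 (by positivity)
  obtain ⟨e0, he0⟩ : ∃ e0 : ℝ, e0 = (m : ℝ) / (m + 1) := ⟨_, rfl⟩
  rw [← he0]
  obtain ⟨T, hT⟩ : ∃ T : ℝ, T = X ^ δ := ⟨_, rfl⟩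
  have hT0 : 0 < T := by rw [hT]; positivity
  have hT1 : 1 ≤ T := by rw [hT]; exact Real.one_le_rpow hX hδ0.le
  obtain ⟨Y, hY⟩ : ∃ Y : ℝ, Y = X ^ η := ⟨_, rfl⟩
  have hY1 : 1 ≤ Y := by rw [hY]; exact Real.one_le_rpow hX hη0.le
  have hTfin := TS_finite m K X A
  obtain ⟨TF, hTF⟩ : ∃ TF : Finset (Fin (m + 1) → ℤ), TF = hTfin.toFinset := ⟨_, rfl⟩
  have hTFm : ∀ x, x ∈ TF ↔ x ∈ TS m K X A := fun x => by rw [hTF, Set.Finite.mem_toFinset]
  have hTc : ((TS m K X A).ncard : ℝ) = TF.card := by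
    rw [hTF, Set.ncard_eq_toFinset_card _ hTfin]
  obtain ⟨Gd, hGd⟩ : ∃ Gd, Gd = TF.filter fun x => rp x ≤ ⌊Y⌋₊ ∧ sp X x ∈ RT m T := ⟨_, rfl⟩
  obtain ⟨Bad, hBad⟩ : ∃ Bad, Bad = TF.filter fun x => ¬ (rp x ≤ ⌊Y⌋₊ ∧ sp X x ∈ RT m T) := ⟨_, rfl⟩
  have hsplit : (TF.card : ℝ) = Gd.card + Bad.card := by
    rw [hGd, hBad]
    exact_mod_cast (card_filter_add_card_filter_not (s := TF)
      (fun x => rp x ≤ ⌊Y⌋₊ ∧ sp X x ∈ RT m T)).symm
  -- the scale
  have hcw : ∀ w : ℕ, 1 ≤ w → X ^ (1 / n) ≤ ((w : ℝ) * X) ^ (1 / ((m : ℝ) + 1)) := by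
    intro w hw
    have hw1 : (1 : ℝ) ≤ w := by exact_mod_cast hw
    rw [hn]
    refine Real.rpow_le_rpow hX0.le ?_ (by positivity)
    nlinarith
  -- the bad tuples
  have hB : (Bad.card : ℝ) ≤ Cb * X ^ (e0 - νb) := by
    rw [he0]
    refine hbad X hX Bad fun x hx => ?_
    rw [hBad, mem_filter, hTFm] at hx
    obtain ⟨⟨h1, h2, h3, h4⟩, h5⟩ := hx
    refine ⟨h1, h2, h3, ?_⟩
    by_cases h6 : X ^ η < rp x
    · exact Or.inl h6
    · right
      have h7 : rp x ≤ ⌊Y⌋₊ := by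
        rw [hY]
        exact Nat.le_floor (not_lt.1 h6)
      have h8 : sp X x ∉ RT m T := fun h => h5 ⟨h7, h⟩
      have h9 : sp X x ∈ RI m := (sp_mem hX0 h1.1 h1.2.2).2 h2
      have h10 : ∃ j : Fin m, T < |sp X x j| := by
        by_contra hcon
        push Not at hcon
        exact h8 ⟨h9, hcon⟩
      obtain ⟨j, hj⟩ := h10
      refine ⟨j.succ, ?_⟩
      unfold sp at hj
      have h11 := hcw (rp x) (rp_pos h1.1)
      have h12 : 0 < X ^ (1 / n) := by positivity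
      rw [abs_div, abs_of_pos (lt_of_lt_of_le h12 h11), lt_div_iff₀ (lt_of_lt_of_le h12 h11)] at hj
      rw [← hn, add_comm, Real.rpow_add hX0, ← hT]
      exact (mul_le_mul_of_nonneg_left h11 hT0.le).trans hj.le
  -- the good tuples
  let Sw : ℕ → Set (Fin m → ℤ) := fun w => {z : Fin m → ℤ | Loc w z ∧
    (fun i => (z i : ℝ) / ((w : ℝ) * X) ^ (1 / ((m : ℝ) + 1))) ∈ A w ∩ RT m T}
  have heff' : ∀ w ∈ Finset.Icc 1 ⌊Y⌋₊, (Sw w).Finite ∧
      |((Sw w).ncard : ℝ) - C0 m * wgt m w * (X ^ e0 * (volume (A w ∩ RT m T)).toReal)| ≤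
      Ce * X ^ (e0 - θ / 4) := by
    intro w hw
    obtain ⟨h1, h2⟩ := mem_Icc.1 hw
    have h3 : (w : ℝ) ≤ X ^ η := by
      rw [← hY]
      exact (Nat.le_floor_iff (by linarith)).1 h2
    have h4 := heff X w (A w) hX h1 h3 (hA w) (hsec w)
    rw [← hT, ← he0] at h4
    exact h4
  have hG : (Gd.card : ℝ) = ∑ w ∈ Finset.Icc 1 ⌊Y⌋₊, ((Sw w).ncard : ℝ) := by
    have h1 : Gd.card = ∑ w ∈ Finset.Icc 1 ⌊Y⌋₊, (Gd.filter fun x => rp x = w).card := by
      refine card_eq_sum_card_fiberwise fun x hx => ?_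
      rw [mem_coe, hGd, mem_filter, hTFm] at hx
      rw [mem_coe, mem_Icc]
      exact ⟨rp_pos hx.1.1.1, hx.2.1⟩
    rw [h1]
    push_cast
    refine sum_congr rfl fun w hw => ?_
    obtain ⟨hw1, hw2⟩ := mem_Icc.1 hw
    have hfin := (heff' w hw).1
    rw [Set.ncard_eq_toFinset_card _ hfin,
      ← card_image_of_injective hfin.toFinset (fun _ _ h => full_inj h : Function.Injective
        (full : (Fin m → ℤ) → Fin (m + 1) → ℤ))]
    congr 2
    ext x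
    rw [mem_filter, hGd, mem_filter, hTFm, mem_image]
    constructor
    · rintro ⟨⟨⟨h1, h2, h3, h4⟩, h5, h6⟩, h7⟩
      have hz : full (fun j => x j.succ) = x := full_tail h1.2.2
      refine ⟨fun j => x j.succ, ?_, hz⟩
      rw [Set.Finite.mem_toFinset]
      rw [h7] at h4
      have h8 : sp X x = fun i => ((x i.succ : ℤ) : ℝ) / ((w : ℝ) * X) ^ (1 / ((m : ℝ) + 1)) := by
        unfold sp
        rw [h7]
      rw [h8] at h4 h6
      refine ⟨(Loc_iff hw1 _).2 ?_, h4, h6⟩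
      rw [hz]
      exact ⟨h1.1, h1.2.1, h7⟩
    · rintro ⟨z, hz, rfl⟩
      rw [Set.Finite.mem_toFinset] at hz
      obtain ⟨h1, h2, h3⟩ := hz
      obtain ⟨h4, h5, h6⟩ := (Loc_iff hw1 z).1 h1
      have h8 : sp X (full z) = fun i => (z i : ℝ) / ((w : ℝ) * X) ^ (1 / ((m : ℝ) + 1)) := by
        unfold sp
        rw [h6]
        rfl
      have h9 : (rad (pr (full z)) : ℝ) ≤ X := by
        rw [← sp_mem hX0 h4 (sum_full z), h8]
        exact RT_sub m T h3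
      refine ⟨⟨⟨⟨h4, h5, sum_full z⟩, h9, fun i => ?_, ?_⟩, ?_, ?_⟩, h6⟩
      · -- the height
        have hw0 : (0 : ℝ) < w := by exact_mod_cast hw1
        have hwY : (w : ℝ) ≤ X ^ η := by
          rw [← hY]
          exact (Nat.le_floor_iff (by linarith)).1 hw2
        obtain ⟨c, hc⟩ : ∃ c : ℝ, c = ((w : ℝ) * X) ^ (1 / ((m : ℝ) + 1)) := ⟨_, rfl⟩
        have hc0 : 0 < c := by rw [hc]; positivity
        have hc2 : c ≤ X ^ ((1 + η) / n) := by
          rw [hc, hn]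
          calc ((w : ℝ) * X) ^ (1 / ((m : ℝ) + 1)) ≤ (X ^ (1 + η)) ^ (1 / ((m : ℝ) + 1)) := by
                refine Real.rpow_le_rpow (by positivity) ?_ (by positivity)
                rw [Real.rpow_add hX0, Real.rpow_one, mul_comm]
                exact mul_le_mul_of_nonneg_left hwY hX0.le
            _ = _ := by
                rw [← Real.rpow_mul hX0.le]
                congr 1
                ring
        have h10 : ∀ j, |(z j : ℝ)| ≤ T * c := by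
          intro j
          have := h3.2 j
          simp only at this
          rw [← hc, abs_div, abs_of_pos hc0, div_le_iff₀ hc0] at this
          exact this
        have h11 : |((full z i : ℤ) : ℝ)| ≤ m * (T * c) := by
          have h12 := full_abs_le hm1 h10 i
          have h13 : |((full z i : ℤ) : ℝ)| ≤ (⌊(m : ℝ) * (T * c)⌋₊ : ℝ) := by
            have : ((|full z i| : ℤ) : ℝ) ≤ ((⌊(m : ℝ) * (T * c)⌋₊ : ℤ) : ℝ) := by
              exact_mod_cast h12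
            rw [Int.cast_abs] at this
            exact_mod_cast this
          exact h13.trans (Nat.floor_le (by positivity))
        refine h11.trans ?_
        calc (m : ℝ) * (T * c) ≤ X ^ (θ / 2) * (X ^ δ * X ^ ((1 + η) / n)) := by
              rw [hT]
              gcongr
          _ = X ^ (θ / 2 + (δ + (1 + η) / n)) := by
              rw [← Real.rpow_add hX0, ← Real.rpow_add hX0]
          _ ≤ X ^ K := by
              refine Real.rpow_le_rpow_of_exponent_le hX ?_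
              have h14 : (1 + η) / n ≤ 1 / n + η := by
                rw [add_div]
                have : η / n ≤ η := div_le_self hη0.le (by linarith)
                linarith
              linarith
      · rw [h6, h8]
        exact h2
      · rw [h6]
        exact hw2
      · rw [h8]
        exact h3
  -- the main term
  have hM := hsum A T Y hA hT1 hY1
  have hXe : 0 < X ^ e0 := by positivity
  have s1 : |(Gd.card : ℝ) - X ^ e0 * ∑ w ∈ Finset.Icc 1 ⌊Y⌋₊,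
      C0 m * wgt m w * (volume (A w ∩ RT m T)).toReal| ≤ Ce * X ^ (e0 - ν) := by
    rw [hG, mul_sum, ← sum_sub_distrib]
    refine (abs_sum_le_sum_abs _ _).trans ?_
    have h1 : ∀ w ∈ Finset.Icc 1 ⌊Y⌋₊, |((Sw w).ncard : ℝ) -
        X ^ e0 * (C0 m * wgt m w * (volume (A w ∩ RT m T)).toReal)| ≤ Ce * X ^ (e0 - θ / 4) := by
      intro w hw
      have h2 := (heff' w hw).2
      have h3 : X ^ e0 * (C0 m * wgt m w * (volume (A w ∩ RT m T)).toReal) =
          C0 m * wgt m w * (X ^ e0 * (volume (A w ∩ RT m T)).toReal) := by ring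
      rw [h3]
      exact h2
    refine (sum_le_sum h1).trans ?_
    rw [sum_const, nsmul_eq_mul, Nat.card_Icc, Nat.add_sub_cancel]
    have h2 : ((⌊Y⌋₊ : ℕ) : ℝ) ≤ X ^ η := by
      rw [hY]
      exact Nat.floor_le (by positivity)
    calc ((⌊Y⌋₊ : ℕ) : ℝ) * (Ce * X ^ (e0 - θ / 4)) ≤ X ^ η * (Ce * X ^ (e0 - θ / 4)) :=
          mul_le_mul_of_nonneg_right h2 (by positivity)
      _ = Ce * (X ^ η * X ^ (e0 - θ / 4)) := by ring
      _ ≤ Ce * X ^ (e0 - ν) := by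
          refine mul_le_mul_of_nonneg_left ?_ hCe.le
          rw [← Real.rpow_add hX0]
          exact Real.rpow_le_rpow_of_exponent_le hX (by linarith)
  have s2 : |X ^ e0 * (∑ w ∈ Finset.Icc 1 ⌊Y⌋₊,
      C0 m * wgt m w * (volume (A w ∩ RT m T)).toReal) - X ^ e0 * LM m A| ≤
      2 * Cs * X ^ (e0 - ν) := by
    rw [← mul_sub, abs_mul, abs_of_pos hXe]
    refine (mul_le_mul_of_nonneg_left hM hXe.le).trans ?_
    have h1 : T ^ (-(1 / 2) : ℝ) ≤ X ^ (-ν) := by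
      rw [hT, ← Real.rpow_mul hX0.le]
      exact Real.rpow_le_rpow_of_exponent_le hX (by linarith)
    have h2 : Y ^ (-(1 / (2 * ((m : ℝ) + 1)))) ≤ X ^ (-ν) := by
      rw [hY, ← Real.rpow_mul hX0.le, ← hn]
      refine Real.rpow_le_rpow_of_exponent_le hX ?_
      have : η * -(1 / (2 * n)) = -(η / (2 * n)) := by ring
      rw [this]
      linarith
    calc X ^ e0 * (Cs * (T ^ (-(1 / 2) : ℝ) + Y ^ (-(1 / (2 * ((m : ℝ) + 1)))))) ≤
          X ^ e0 * (Cs * (X ^ (-ν) + X ^ (-ν))) := by gcongr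
      _ = 2 * Cs * (X ^ e0 * X ^ (-ν)) := by ring
      _ = 2 * Cs * X ^ (e0 - ν) := by rw [← Real.rpow_add hX0]; rfl
  have s3 : (Bad.card : ℝ) ≤ Cb * X ^ (e0 - ν) := by
    refine hB.trans (mul_le_mul_of_nonneg_left ?_ hCb.le)
    exact Real.rpow_le_rpow_of_exponent_le hX (by linarith)
  rw [hTc, hsplit]
  have hb0 : (0 : ℝ) ≤ Bad.card := Nat.cast_nonneg _
  obtain ⟨p1, p2⟩ := abs_le.1 s1
  obtain ⟨p3, p4⟩ := abs_le.1 s2
  have hpos : 0 < X ^ (e0 - ν) := by positivity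
  have q1 : 0 < Cb * X ^ (e0 - ν) := by positivity
  have hfin : (Ce + Cb + 2 * Cs) * X ^ (e0 - ν) =
      Ce * X ^ (e0 - ν) + Cb * X ^ (e0 - ν) + 2 * Cs * X ^ (e0 - ν) := by ring
  rw [hfin, abs_le]
  constructor <;> linarith

/-- **The joint law.** -/
theorem law {m : ℕ} (hm : 2 ≤ m) (k : ℕ) {K : ℝ} (hK : 1 / ((m : ℝ) + 1) < K) :
    ∃ C ν : ℝ, 0 < C ∧ 0 < ν ∧ ∀ (X : ℝ) (A : ℕ → Set (Fin m → ℝ)), 1 ≤ X →
      (∀ w, MeasurableSet (A w)) →
      (∀ w (i : Fin m) (y : Fin m → ℝ), Nice k {t | Function.update y i t ∈ A w}) →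
      |((TS m K X A).ncard : ℝ) - X ^ ((m : ℝ) / (m + 1)) * LM m A| ≤
        C * X ^ ((m : ℝ) / (m + 1) - ν) := by
  obtain ⟨C, ν, X0, hC, hν, hν3, hX0, h⟩ := law0 hm k hK
  have hmr : (2 : ℝ) ≤ m := by exact_mod_cast hm
  have hK0 : 0 < K := lt_trans (by positivity) hK
  obtain ⟨e0, he0⟩ : ∃ e0 : ℝ, e0 = (m : ℝ) / (m + 1) := ⟨_, rfl⟩
  have he1 : 2 / 3 ≤ e0 := by
    rw [he0, div_le_div_iff₀ (by norm_num) (by positivity)]
    linarith
  rw [← he0] at h ⊢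
  obtain ⟨B, hB⟩ : ∃ B : ℝ, B = ((2 * ⌊X0 ^ K⌋₊ + 1) ^ (m + 1) : ℕ) +
      X0 ^ e0 * (C0 m * VI m * ∑' w, wgt m w) := ⟨_, rfl⟩
  have hS0 : 0 ≤ ∑' w, wgt m w := tsum_nonneg fun w => wgt_nonneg hm w
  have hVI : 0 ≤ VI m := ENNReal.toReal_nonneg
  have hC0 := C0_pos hm
  have hB0 : 0 ≤ B := by rw [hB]; positivity
  refine ⟨C + B, ν, by positivity, hν, fun X A hX hA hsec => ?_⟩
  have hXp : 0 < X := by linarith
  rcases le_or_gt X0 X with hXX | hXX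
  · refine (h X A hXX hA hsec).trans ?_
    have : 0 < X ^ (e0 - ν) := by positivity
    nlinarith
  · have h1 : ((TS m K X A).ncard : ℝ) ≤ ((2 * ⌊X0 ^ K⌋₊ + 1) ^ (m + 1) : ℕ) := by
      obtain ⟨b1, b2⟩ := box_finite (m + 1) (X0 ^ K)
      have h2 : TS m K X A ⊆ {x : Fin (m + 1) → ℤ | ∀ i, |(x i : ℝ)| ≤ X0 ^ K} := by
        intro x hx i
        exact (hx.2.2.1 i).trans (Real.rpow_le_rpow hXp.le hXX.le hK0.le)
      exact_mod_cast (Set.ncard_le_ncard h2 b1).trans b2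
    have h2 : X ^ e0 * LM m A ≤ X0 ^ e0 * (C0 m * VI m * ∑' w, wgt m w) :=
      mul_le_mul (Real.rpow_le_rpow hXp.le hXX.le (by linarith)) (LM_le hm A) (LM_nonneg hm A)
        (by positivity)
    have h3 : 0 ≤ X ^ e0 * LM m A := mul_nonneg (by positivity) (LM_nonneg hm A)
    have h4 : (1 : ℝ) ≤ X ^ (e0 - ν) := Real.one_le_rpow hX (by linarith)
    have h5 : (0 : ℝ) ≤ (TS m K X A).ncard := Nat.cast_nonneg _
    have h6 : |((TS m K X A).ncard : ℝ) - X ^ e0 * LM m A| ≤ B := by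
      rw [hB, abs_le]
      have h7 : (0 : ℝ) ≤ ((2 * ⌊X0 ^ K⌋₊ + 1) ^ (m + 1) : ℕ) := Nat.cast_nonneg _
      constructor <;> linarith
    refine h6.trans ?_
    nlinarith

end Pool.Agent.V7H9.SN
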