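import Pool.Agent.V7H9.SN.Reg

set_option autoImplicit false

/-!
# Local densities
-/

namespace Pool.Agent.V7H9.SN

open Finset

/-- the local condition at the prime `q`: no two entries are divisible by `q`, some entry is
divisible by `q ^ (e + 1)` if `e > 0`, and no entry is divisible by `q ^ (e + 2)` -/
def Lc {m : ℕ} (q e : ℕ) (y : Fin m → ℤ) : Prop :=
  (∀ i j, i ≠ j → ¬ ((q : ℤ) ∣ full y i ∧ (q : ℤ) ∣ full y j)) ∧
    (0 < e → ∃ i, (q : ℤ) ^ (e + 1) ∣ full y i) ∧ ∀ i, ¬ (q : ℤ) ^ (e + 2) ∣ full y i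

lemma full_dvd {m : ℕ} {Q : ℤ} {y y' : Fin m → ℤ} (h : ∀ i, Q ∣ y i - y' i) (i : Fin (m + 1)) :
    Q ∣ full y i - full y' i := by
  refine Fin.cases ?_ (fun j => ?_) i
  · rw [full_zero, full_zero]
    have e : -∑ j, y j - -∑ j, y' j = -∑ j, (y j - y' j) := by rw [sum_sub_distrib]; ring
    rw [e]
    exact (dvd_neg).2 (dvd_sum fun j _ => h j)
  · rw [full_succ, full_succ]
    exact h j

lemma Per_Lc (m q e : ℕ) : Per m (q ^ (e + 2)) (Lc q e) := by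
  intro y y' h hL
  obtain ⟨a1, a2, a3⟩ := hL
  have key : ∀ {d : ℤ}, d ∣ ((q ^ (e + 2) : ℕ) : ℤ) → ∀ i, d ∣ full y i ↔ d ∣ full y' i := by
    intro d hd i
    exact (dvd_iff_dvd_of_dvd_sub (hd.trans (full_dvd h i)))
  have hq1 : (q : ℤ) ∣ ((q ^ (e + 2) : ℕ) : ℤ) := by
    push_cast
    exact dvd_pow_self _ (by omega)
  have hq2 : (q : ℤ) ^ (e + 1) ∣ ((q ^ (e + 2) : ℕ) : ℤ) := by
    push_cast
    exact pow_dvd_pow _ (by omega)
  have hq3 : (q : ℤ) ^ (e + 2) ∣ ((q ^ (e + 2) : ℕ) : ℤ) := by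
    push_cast
    exact dvd_rfl
  refine ⟨fun i j hij hc => a1 i j hij ⟨(key hq1 i).2 hc.1, (key hq1 j).2 hc.2⟩, fun he => ?_,
    fun i hi => a3 i ((key hq3 i).2 hi)⟩
  obtain ⟨i, hi⟩ := a2 he
  exact ⟨i, (key hq2 i).1 hi⟩

/-! ### Counting in one variable -/

lemma card_mod {N d : ℕ} (hd : 0 < d) (hN : d ∣ N) (v : ℤ) :
    ((Finset.Ico (0 : ℤ) N).filter (fun t => (d : ℤ) ∣ t + v)).card = N / d := by
  obtain ⟨M, rfl⟩ := hN
  have hdz : (0 : ℤ) < d := by exact_mod_cast hd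
  have h1 := Int.Ico_filter_modEq_card 0 ((d * M : ℕ) : ℤ) hdz (-v)
  have e : (Finset.Ico (0 : ℤ) ((d * M : ℕ) : ℤ)).filter (fun t => (d : ℤ) ∣ t + v) =
      (Finset.Ico (0 : ℤ) ((d * M : ℕ) : ℤ)).filter (fun t => t ≡ -v [ZMOD d]) := by
    refine filter_congr fun t _ => ?_
    rw [Int.modEq_iff_dvd]
    have : -v - t = -(t + v) := by ring
    rw [this, dvd_neg]
  rw [e]
  have hdq : (0 : ℚ) < d := by exact_mod_cast hd
  have h2 : ⌈((((d * M : ℕ) : ℤ) : ℚ) - ((-v : ℤ) : ℚ)) / ((d : ℤ) : ℚ)⌉ -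
      ⌈(((0 : ℤ) : ℚ) - ((-v : ℤ) : ℚ)) / ((d : ℤ) : ℚ)⌉ = M := by
    have e2 : ((((d * M : ℕ) : ℤ) : ℚ) - ((-v : ℤ) : ℚ)) / ((d : ℤ) : ℚ) =
        (((0 : ℤ) : ℚ) - ((-v : ℤ) : ℚ)) / ((d : ℤ) : ℚ) + (M : ℤ) := by
      push_cast
      field_simp
      ring
    rw [e2, Int.ceil_add_intCast]
    ring
  rw [h2] at h1
  rw [Nat.mul_div_cancel_left M hd]
  have h3 : max (M : ℤ) 0 = M := max_eq_left (by omega)
  rw [h3] at h1
  exact_mod_cast h1

lemma card_real {N d : ℕ} (hd : 0 < d) (hN : d ∣ N) (v : ℤ) :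
    (((Finset.Ico (0 : ℤ) N).filter (fun t => (d : ℤ) ∣ t + v)).card : ℝ) = N / d := by
  rw [card_mod hd hN v, Nat.cast_div hN (by exact_mod_cast hd.ne')]

/-! ### Sums over the box -/

lemma sum_insert {k N : ℕ} (i : Fin (k + 1)) (f : (Fin (k + 1) → ℤ) → ℝ) :
    ∑ z ∈ Bx (k + 1) N, f z =
      ∑ y ∈ Bx k N, ∑ t ∈ Finset.Ico (0 : ℤ) N, f (Fin.insertNth i t y) := by
  rw [← sum_product' (Bx k N) (Finset.Ico (0 : ℤ) N) fun y t => f (Fin.insertNth i t y)]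
  refine sum_nbij' (fun z => (i.removeNth z, z i)) (fun p => Fin.insertNth i p.2 p.1) ?_ ?_ ?_ ?_ ?_
  · intro z hz
    rw [mem_Bx] at hz
    rw [mem_product, mem_Bx, mem_Ico]
    exact ⟨fun j => hz _, hz i⟩
  · intro p hp
    rw [mem_product, mem_Bx, mem_Ico] at hp
    rw [mem_Bx]
    intro j
    rcases Fin.eq_self_or_eq_succAbove i j with h | ⟨l, h⟩
    · rw [h, Fin.insertNth_apply_same]
      exact hp.2
    · rw [h, Fin.insertNth_apply_succAbove]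
      exact hp.1 l
  · intro z _
    simp
  · intro p _
    simp
  · intro z _
    simp

open scoped Classical in
lemma cnt_eq_sum (m N : ℕ) (S : (Fin m → ℤ) → Prop) :
    (cnt m N S : ℝ) = ∑ y ∈ Bx m N, if S y then (1 : ℝ) else 0 := by
  unfold cnt
  rw [← sum_filter, sum_const, nsmul_eq_mul, mul_one]

/-- all entries and their sum are prime to `q` -/
def Un {k : ℕ} (q : ℕ) (y : Fin k → ℤ) : Prop := (∀ i, ¬ (q : ℤ) ∣ y i) ∧ ¬ (q : ℤ) ∣ ∑ i, y i

/-- the density of `Un` -/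
noncomputable def gu (q k : ℕ) : ℝ :=
  (((q : ℝ) - 1) ^ (k + 1) + (-1) ^ (k + 1) * ((q : ℝ) - 1)) / (q : ℝ) ^ (k + 1)

lemma gu_zero (q : ℕ) : gu q 0 = 0 := by
  unfold gu
  simp

lemma gu_succ {q : ℕ} (hq : 0 < q) (k : ℕ) :
    gu q (k + 1) = (1 - 1 / (q : ℝ)) ^ (k + 1) - gu q k / q := by
  have h0 : (q : ℝ) ≠ 0 := by exact_mod_cast hq.ne'
  unfold gu
  have h1 : (1 - 1 / (q : ℝ)) ^ (k + 1) = ((q : ℝ) - 1) ^ (k + 1) / (q : ℝ) ^ (k + 1) := by
    rw [← div_pow]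
    congr 1
    field_simp
  rw [h1]
  field_simp
  ring

open scoped Classical in
/-- the number of the tuples with entries prime to `q` -/
lemma units_sum {q N : ℕ} (hq : 0 < q) (hN : q ∣ N) (k : ℕ) :
    (∑ y ∈ Bx k N, if ∀ i, ¬ (q : ℤ) ∣ y i then (1 : ℝ) else 0) = ((N : ℝ) - N / q) ^ k := by
  induction k with
  | zero =>
    have : Bx 0 N = {fun i => i.elim0} := by
      ext y
      rw [mem_Bx, mem_singleton]
      constructor
      · intro _
        exact Subsingleton.elim _ _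
      · intro _ i
        exact i.elim0
    rw [this]
    simp
  | succ k ih =>
    rw [sum_insert 0]
    have h1 : ∀ y : Fin k → ℤ, (∑ t ∈ Finset.Ico (0 : ℤ) N,
        if ∀ i, ¬ (q : ℤ) ∣ (Fin.insertNth 0 t y : Fin (k + 1) → ℤ) i then (1 : ℝ) else 0) =
        (if ∀ i, ¬ (q : ℤ) ∣ y i then (1 : ℝ) else 0) * ((N : ℝ) - N / q) := by
      intro y
      have h2 : ∀ t : ℤ, (∀ i, ¬ (q : ℤ) ∣ (Fin.insertNth 0 t y : Fin (k + 1) → ℤ) i) ↔
          (¬ (q : ℤ) ∣ t ∧ ∀ i, ¬ (q : ℤ) ∣ y i) := by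
        intro t
        rw [Fin.forall_iff_succAbove 0]
        simp only [Fin.insertNth_apply_same, Fin.insertNth_apply_succAbove]
      simp only [h2]
      by_cases hy : ∀ i, ¬ (q : ℤ) ∣ y i
      · rw [if_pos hy, one_mul]
        have h3 : ∀ t : ℤ, (¬ (q : ℤ) ∣ t ∧ ∀ i, ¬ (q : ℤ) ∣ y i) ↔ ¬ (q : ℤ) ∣ t :=
          fun t => ⟨fun h => h.1, fun h => ⟨h, hy⟩⟩
        simp only [h3]
        rw [← sum_filter, sum_const, nsmul_eq_mul, mul_one]
        have h4 := card_filter_add_card_filter_not (s := Finset.Ico (0 : ℤ) N)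
          (fun t => (q : ℤ) ∣ t)
        have h5 := card_real hq hN 0
        simp only [add_zero] at h5
        rw [Int.card_Ico, sub_zero, Int.toNat_natCast] at h4
        have h6 : (((Finset.Ico (0 : ℤ) N).filter (fun t => (q : ℤ) ∣ t)).card : ℝ) +
            ((Finset.Ico (0 : ℤ) N).filter (fun t => ¬ (q : ℤ) ∣ t)).card = N := by
          exact_mod_cast h4
        linarith
      · rw [if_neg hy, zero_mul]
        refine sum_eq_zero fun t _ => ?_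
        rw [if_neg fun h => hy h.2]
    rw [sum_congr rfl fun y _ => h1 y, ← sum_mul, ih, pow_succ]

lemma sum_insertNth {k : ℕ} (i : Fin (k + 1)) (t : ℤ) (y : Fin k → ℤ) :
    ∑ j, (Fin.insertNth i t y : Fin (k + 1) → ℤ) j = t + ∑ j, y j := by
  rw [Fin.sum_univ_succAbove _ i]
  simp

/-- the numbers `t` with `t`, `t + v` prime to `q` -/
lemma card_two {q N : ℕ} (hq : 0 < q) (hN : q ∣ N) {v : ℤ} (hv : ¬ (q : ℤ) ∣ v) :
    (((Finset.Ico (0 : ℤ) N).filter (fun t => ¬ (q : ℤ) ∣ t ∧ ¬ (q : ℤ) ∣ t + v)).card : ℝ) =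
      N - N / q - N / q := by
  have h4 := card_filter_add_card_filter_not (s := Finset.Ico (0 : ℤ) N)
    (fun t => (q : ℤ) ∣ t)
  have h4' := card_filter_add_card_filter_not
    (s := (Finset.Ico (0 : ℤ) N).filter (fun t => ¬ (q : ℤ) ∣ t)) (fun t => (q : ℤ) ∣ t + v)
  rw [Int.card_Ico, sub_zero, Int.toNat_natCast] at h4
  rw [filter_filter, filter_filter] at h4'
  have h5 := card_real hq hN 0
  simp only [add_zero] at h5
  have h6 := card_real hq hN v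
  have h7 : (Finset.Ico (0 : ℤ) N).filter (fun t => ¬ (q : ℤ) ∣ t ∧ (q : ℤ) ∣ t + v) =
      (Finset.Ico (0 : ℤ) N).filter (fun t => (q : ℤ) ∣ t + v) := by
    refine filter_congr fun t _ => ⟨fun h => h.2, fun h => ⟨fun h8 => hv ?_, h⟩⟩
    exact (dvd_add_right h8).1 h
  rw [h7] at h4'
  have h8 : (((Finset.Ico (0 : ℤ) N).filter (fun t => (q : ℤ) ∣ t)).card : ℝ) +
      ((Finset.Ico (0 : ℤ) N).filter (fun t => ¬ (q : ℤ) ∣ t)).card = N := by
    exact_mod_cast h4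
  have h9 : (((Finset.Ico (0 : ℤ) N).filter (fun t => (q : ℤ) ∣ t + v)).card : ℝ) +
      ((Finset.Ico (0 : ℤ) N).filter (fun t => ¬ (q : ℤ) ∣ t ∧ ¬ (q : ℤ) ∣ t + v)).card =
      ((Finset.Ico (0 : ℤ) N).filter (fun t => ¬ (q : ℤ) ∣ t)).card := by
    exact_mod_cast h4'
  linarith

lemma card_one {q N : ℕ} (hq : 0 < q) (hN : q ∣ N) :
    (((Finset.Ico (0 : ℤ) N).filter (fun t => ¬ (q : ℤ) ∣ t)).card : ℝ) = N - N / q := by
  have h4 := card_filter_add_card_filter_not (s := Finset.Ico (0 : ℤ) N)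
    (fun t => (q : ℤ) ∣ t)
  rw [Int.card_Ico, sub_zero, Int.toNat_natCast] at h4
  have h5 := card_real hq hN 0
  simp only [add_zero] at h5
  have h8 : (((Finset.Ico (0 : ℤ) N).filter (fun t => (q : ℤ) ∣ t)).card : ℝ) +
      ((Finset.Ico (0 : ℤ) N).filter (fun t => ¬ (q : ℤ) ∣ t)).card = N := by
    exact_mod_cast h4
  linarith

lemma cnt_Un {q N : ℕ} (hq : 0 < q) (hN : q ∣ N) (k : ℕ) :
    (cnt k N (Un q) : ℝ) = gu q k * (N : ℝ) ^ k := by
  classical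
  have hq0 : (q : ℝ) ≠ 0 := by exact_mod_cast hq.ne'
  induction k with
  | zero =>
    rw [gu_zero, zero_mul, cnt_eq_sum]
    refine sum_eq_zero fun y _ => if_neg ?_
    unfold Un
    simp
  | succ k ih =>
    rw [cnt_eq_sum, sum_insert 0]
    have h1 : ∀ y : Fin k → ℤ, (∑ t ∈ Finset.Ico (0 : ℤ) N,
        if Un q (Fin.insertNth 0 t y : Fin (k + 1) → ℤ) then (1 : ℝ) else 0) =
        (if ∀ i, ¬ (q : ℤ) ∣ y i then (1 : ℝ) else 0) * ((N : ℝ) - N / q) -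
          (if Un q y then (1 : ℝ) else 0) * (N / q) := by
      intro y
      have h2 : ∀ t : ℤ, Un q (Fin.insertNth 0 t y : Fin (k + 1) → ℤ) ↔
          ((∀ i, ¬ (q : ℤ) ∣ y i) ∧ ¬ (q : ℤ) ∣ t ∧ ¬ (q : ℤ) ∣ t + ∑ i, y i) := by
        intro t
        unfold Un
        rw [Fin.forall_iff_succAbove 0, sum_insertNth]
        simp only [Fin.insertNth_apply_same, Fin.insertNth_apply_succAbove]
        tauto
      simp only [h2]
      by_cases hy : ∀ i, ¬ (q : ℤ) ∣ y i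
      · rw [if_pos hy, one_mul]
        have h3 : ∀ t : ℤ, ((∀ i, ¬ (q : ℤ) ∣ y i) ∧ ¬ (q : ℤ) ∣ t ∧ ¬ (q : ℤ) ∣ t + ∑ i, y i) ↔
            (¬ (q : ℤ) ∣ t ∧ ¬ (q : ℤ) ∣ t + ∑ i, y i) :=
          fun t => ⟨fun h => h.2, fun h => ⟨hy, h⟩⟩
        simp only [h3]
        rw [← sum_filter, sum_const, nsmul_eq_mul, mul_one]
        by_cases hs : (q : ℤ) ∣ ∑ i, y i
        · have h4 : ¬ Un q y := fun h => h.2 hs
          rw [if_neg h4, zero_mul, sub_zero]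
          have h5 : (Finset.Ico (0 : ℤ) N).filter (fun t => ¬ (q : ℤ) ∣ t ∧
              ¬ (q : ℤ) ∣ t + ∑ i, y i) = (Finset.Ico (0 : ℤ) N).filter (fun t => ¬ (q : ℤ) ∣ t) := by
            refine filter_congr fun t _ => ⟨fun h => h.1, fun h => ⟨h, fun h6 => h ?_⟩⟩
            exact (dvd_add_left hs).1 h6
          rw [h5, card_one hq hN]
        · have h4 : Un q y := ⟨hy, hs⟩
          rw [if_pos h4, one_mul, card_two hq hN hs]
      · rw [if_neg hy, if_neg (fun h : Un q y => hy h.1), zero_mul, zero_mul, sub_zero]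
        refine sum_eq_zero fun t _ => ?_
        rw [if_neg fun h => hy h.1]
    rw [sum_congr rfl fun y _ => h1 y, sum_sub_distrib, ← sum_mul, ← sum_mul, units_sum hq hN,
      ← cnt_eq_sum, ih, gu_succ hq]
    have h2 : ((N : ℝ) - N / q) = (1 - 1 / (q : ℝ)) * N := by ring
    rw [h2, mul_pow]
    ring

/-- the local density -/
noncomputable def dd (m q e : ℕ) : ℝ :=
  (if e = 0 then gu q m else 0) + (m + 1) * (((q : ℝ) - 1) / (q : ℝ) ^ (e + 2)) * gu q (m - 1)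

/-- exactly the entry `i` is divisible by `q`, with exponent `e + 1` -/
def Ei {m : ℕ} (q e : ℕ) (i : Fin (m + 1)) (y : Fin m → ℤ) : Prop :=
  (q : ℤ) ^ (e + 1) ∣ full y i ∧ ¬ (q : ℤ) ^ (e + 2) ∣ full y i ∧ ∀ j, j ≠ i → ¬ (q : ℤ) ∣ full y j

lemma Un_iff {m q : ℕ} (y : Fin m → ℤ) : Un q y ↔ ∀ i, ¬ (q : ℤ) ∣ full y i := by
  unfold Un
  rw [Fin.forall_fin_succ]
  simp only [full_zero, full_succ, dvd_neg]
  exact and_comm

open scoped Classical in
lemma Lc_ind {m q e : ℕ} (y : Fin m → ℤ) : (if Lc q e y then (1 : ℝ) else 0) =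
    (if e = 0 then (if Un q y then (1 : ℝ) else 0) else 0) +
      ∑ i, (if Ei q e i y then (1 : ℝ) else 0) := by
  by_cases hU : Un q y
  · have h1 : ∀ i, ¬ Ei q e i y := by
      intro i hi
      exact (Un_iff y).1 hU i ((dvd_pow_self _ (by omega)).trans hi.1)
    rw [sum_eq_zero fun i _ => if_neg (h1 i), add_zero, if_pos hU]
    have h2 := (Un_iff y).1 hU
    by_cases he : e = 0
    · rw [if_pos he, if_pos]
      refine ⟨fun i j _ h => h2 i h.1, fun h => by omega, fun i h => h2 i ?_⟩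
      exact (dvd_pow_self _ (by omega)).trans h
    · rw [if_neg he, if_neg]
      rintro ⟨-, h3, -⟩
      obtain ⟨i, hi⟩ := h3 (by omega)
      exact h2 i ((dvd_pow_self _ (by omega)).trans hi)
  · rw [if_neg hU]
    have h0 : (if e = 0 then (0 : ℝ) else 0) = 0 := by split_ifs <;> rfl
    rw [h0, zero_add]
    have h1 : ∃ i, (q : ℤ) ∣ full y i := by
      by_contra hcon
      push Not at hcon
      exact hU ((Un_iff y).2 hcon)
    obtain ⟨i, hi⟩ := h1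
    have hE : ∀ j, j ≠ i → ¬ Ei q e j y := fun j hj h => h.2.2 i hj.symm hi
    rw [sum_eq_single i (fun j _ hj => if_neg (hE j hj)) (fun h => absurd (mem_univ i) h)]
    have h2 : Lc q e y ↔ Ei q e i y := by
      constructor
      · rintro ⟨a1, a2, a3⟩
        refine ⟨?_, a3 i, fun j hj h => a1 j i hj ⟨h, hi⟩⟩
        rcases Nat.eq_zero_or_pos e with he | he
        · rw [he, zero_add, pow_one]
          exact hi
        · obtain ⟨j, hj⟩ := a2 he
          by_cases hij : j = i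
          · rwa [hij] at hj
          · exact absurd ⟨(dvd_pow_self _ (by omega)).trans hj, hi⟩ (a1 j i hij)
      · rintro ⟨a1, a2, a3⟩
        refine ⟨fun j k hjk h => ?_, fun _ => ⟨i, a1⟩, fun j hj => ?_⟩
        · by_cases hji : j = i
          · exact a3 k (fun h' => hjk (hji.trans h'.symm)) h.2
          · exact a3 j hji h.1
        · by_cases hji : j = i
          · rw [hji] at hj
            exact a2 hj
          · exact a3 j hji ((dvd_pow_self _ (by omega)).trans hj)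
    by_cases hL : Lc q e y
    · rw [if_pos hL, if_pos (h2.1 hL)]
    · rw [if_neg hL, if_neg fun h => hL (h2.2 h)]

lemma card_ex {q e : ℕ} (hq : 0 < q) (v : ℤ) :
    (((Finset.Ico (0 : ℤ) ((q ^ (e + 2) : ℕ) : ℤ)).filter
      (fun t => (q : ℤ) ^ (e + 1) ∣ t + v ∧ ¬ (q : ℤ) ^ (e + 2) ∣ t + v)).card : ℝ) =
      (q : ℝ) - 1 := by
  have hq0 : (q : ℝ) ≠ 0 := by exact_mod_cast hq.ne'
  have h1 := card_real (N := q ^ (e + 2)) (d := q ^ (e + 1)) (pow_pos hq _)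
    (pow_dvd_pow q (by omega)) v
  have h2 := card_real (N := q ^ (e + 2)) (d := q ^ (e + 2)) (pow_pos hq _) dvd_rfl v
  have h3 := card_filter_add_card_filter_not
    (s := (Finset.Ico (0 : ℤ) ((q ^ (e + 2) : ℕ) : ℤ)).filter
      (fun t => ((q ^ (e + 1) : ℕ) : ℤ) ∣ t + v)) (fun t => ((q ^ (e + 2) : ℕ) : ℤ) ∣ t + v)
  rw [filter_filter, filter_filter] at h3
  have h4 : (Finset.Ico (0 : ℤ) ((q ^ (e + 2) : ℕ) : ℤ)).filter
      (fun t => ((q ^ (e + 1) : ℕ) : ℤ) ∣ t + v ∧ ((q ^ (e + 2) : ℕ) : ℤ) ∣ t + v) =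
      (Finset.Ico (0 : ℤ) ((q ^ (e + 2) : ℕ) : ℤ)).filter
      (fun t => ((q ^ (e + 2) : ℕ) : ℤ) ∣ t + v) := by
    refine filter_congr fun t _ => ⟨fun h => h.2, fun h => ⟨?_, h⟩⟩
    refine dvd_trans ?_ h
    push_cast
    exact pow_dvd_pow _ (by omega)
  rw [h4] at h3
  have h5 : (((Finset.Ico (0 : ℤ) ((q ^ (e + 2) : ℕ) : ℤ)).filter
      (fun t => ((q ^ (e + 2) : ℕ) : ℤ) ∣ t + v)).card : ℝ) +
      ((Finset.Ico (0 : ℤ) ((q ^ (e + 2) : ℕ) : ℤ)).filter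
      (fun t => ((q ^ (e + 1) : ℕ) : ℤ) ∣ t + v ∧ ¬ ((q ^ (e + 2) : ℕ) : ℤ) ∣ t + v)).card =
      ((Finset.Ico (0 : ℤ) ((q ^ (e + 2) : ℕ) : ℤ)).filter
      (fun t => ((q ^ (e + 1) : ℕ) : ℤ) ∣ t + v)).card := by exact_mod_cast h3
  rw [h1, h2] at h5
  have e1 : ((q ^ (e + 2) : ℕ) : ℝ) / ((q ^ (e + 1) : ℕ) : ℝ) = q := by
    push_cast
    rw [div_eq_iff (by positivity)]
    ring
  have e2 : ((q ^ (e + 2) : ℕ) : ℝ) / ((q ^ (e + 2) : ℕ) : ℝ) = 1 := by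
    push_cast
    field_simp
  rw [e1, e2] at h5
  have e3 : (((Finset.Ico (0 : ℤ) ((q ^ (e + 2) : ℕ) : ℤ)).filter
      (fun t => (q : ℤ) ^ (e + 1) ∣ t + v ∧ ¬ (q : ℤ) ^ (e + 2) ∣ t + v)).card : ℝ) =
      (((Finset.Ico (0 : ℤ) ((q ^ (e + 2) : ℕ) : ℤ)).filter
      (fun t => ((q ^ (e + 1) : ℕ) : ℤ) ∣ t + v ∧ ¬ ((q ^ (e + 2) : ℕ) : ℤ) ∣ t + v)).card : ℝ) := by
    push_cast
    rfl
  rw [e3]
  linarith

open scoped Classical in
/-- the tuples where exactly the entry `i` is divisible by `q` -/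
lemma sum_Ei {k q e : ℕ} (hq : 0 < q) (i : Fin (k + 2)) :
    (∑ y ∈ Bx (k + 1) (q ^ (e + 2)), if Ei q e i y then (1 : ℝ) else 0) =
      ((q : ℝ) - 1) * (gu q k * ((q ^ (e + 2) : ℕ) : ℝ) ^ k) := by
  have hqN : q ∣ q ^ (e + 2) := dvd_pow_self q (by omega)
  have key : ∀ (i : Fin (k + 2)) (j : Fin (k + 1)), (∀ (y : Fin k → ℤ),
      (∑ t ∈ Finset.Ico (0 : ℤ) ((q ^ (e + 2) : ℕ) : ℤ),
      if Ei q e i (Fin.insertNth j t y : Fin (k + 1) → ℤ) then (1 : ℝ) else 0) =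
      ((q : ℝ) - 1) * (if Un q y then 1 else 0)) →
      (∑ y ∈ Bx (k + 1) (q ^ (e + 2)), if Ei q e i y then (1 : ℝ) else 0) =
      ((q : ℝ) - 1) * (gu q k * ((q ^ (e + 2) : ℕ) : ℝ) ^ k) := by
    intro i j hj
    rw [sum_insert j, sum_congr rfl fun y _ => hj y, ← mul_sum, ← cnt_eq_sum, cnt_Un hq hqN]
  rcases Fin.eq_zero_or_eq_succ i with hi | ⟨j, hi⟩
  · rw [hi]
    refine key 0 0 fun y => ?_
    have h1 : ∀ t : ℤ, Ei q e 0 (Fin.insertNth 0 t y : Fin (k + 1) → ℤ) ↔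
        ((q : ℤ) ^ (e + 1) ∣ t + ∑ l, y l ∧ ¬ (q : ℤ) ^ (e + 2) ∣ t + ∑ l, y l) ∧
          ¬ (q : ℤ) ∣ t ∧ ∀ l, ¬ (q : ℤ) ∣ y l := by
      intro t
      unfold Ei
      rw [full_zero, sum_insertNth, dvd_neg, dvd_neg, Fin.forall_fin_succ]
      simp only [ne_eq, not_true_eq_false, IsEmpty.forall_iff, true_and, Fin.succ_ne_zero,
        not_false_eq_true, forall_true_left, full_succ]
      rw [Fin.forall_iff_succAbove 0]
      simp only [Fin.insertNth_apply_same, Fin.insertNth_apply_succAbove]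
      rw [and_assoc]
    simp only [h1]
    by_cases hU : Un q y
    · rw [if_pos hU, mul_one, ← sum_filter, sum_const, nsmul_eq_mul, mul_one,
        ← card_ex (e := e) hq (∑ l, y l)]
      congr 2
      refine filter_congr fun t _ => ⟨fun h => h.1, fun h => ⟨h, fun h2 => hU.2 ?_, hU.1⟩⟩
      exact (dvd_add_right h2).1 ((dvd_pow_self _ (by omega)).trans h.1)
    · rw [if_neg hU, mul_zero]
      refine sum_eq_zero fun t _ => if_neg ?_
      rintro ⟨⟨h2, -⟩, h3, h4⟩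
      refine hU ⟨h4, fun h5 => h3 ?_⟩
      exact (dvd_add_left h5).1 ((dvd_pow_self _ (by omega)).trans h2)
  · rw [hi]
    refine key j.succ j fun y => ?_
    have h1 : ∀ t : ℤ, Ei q e j.succ (Fin.insertNth j t y : Fin (k + 1) → ℤ) ↔
        ((q : ℤ) ^ (e + 1) ∣ t + 0 ∧ ¬ (q : ℤ) ^ (e + 2) ∣ t + 0) ∧
          ¬ (q : ℤ) ∣ t + ∑ l, y l ∧ ∀ l, ¬ (q : ℤ) ∣ y l := by
      intro t
      unfold Ei
      rw [full_succ, Fin.insertNth_apply_same, add_zero, Fin.forall_fin_succ]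
      simp only [full_zero, full_succ, dvd_neg, sum_insertNth]
      rw [Fin.forall_iff_succAbove j]
      simp only [ne_eq, not_true_eq_false, IsEmpty.forall_iff, true_and,
        not_false_eq_true, forall_true_left, Fin.insertNth_apply_succAbove,
        (Fin.succ_ne_zero j).symm, Fin.succ_inj, Fin.succAbove_ne]
      rw [and_assoc]
    simp only [h1]
    by_cases hU : Un q y
    · rw [if_pos hU, mul_one, ← sum_filter, sum_const, nsmul_eq_mul, mul_one,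
        ← card_ex (e := e) hq 0]
      congr 2
      refine filter_congr fun t _ => ⟨fun h => h.1, fun h => ⟨h, fun h2 => hU.2 ?_, hU.1⟩⟩
      have h3 := h.1
      rw [add_zero] at h3
      exact (dvd_add_right ((dvd_pow_self _ (by omega)).trans h3)).1 h2
    · rw [if_neg hU, mul_zero]
      refine sum_eq_zero fun t _ => if_neg ?_
      rintro ⟨⟨h2, -⟩, h3, h4⟩
      rw [add_zero] at h2
      refine hU ⟨h4, fun h5 => h3 ?_⟩
      exact dvd_add ((dvd_pow_self _ (by omega)).trans h2) h5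

/-- **The local count.** -/
theorem card_Lc {m : ℕ} (hm : 1 ≤ m) {q : ℕ} (hq : 0 < q) (e : ℕ) :
    (cnt m (q ^ (e + 2)) (Lc q e) : ℝ) = dd m q e * ((q ^ (e + 2) : ℕ) : ℝ) ^ m := by
  classical
  obtain ⟨k, rfl⟩ : ∃ k, m = k + 1 := ⟨m - 1, by omega⟩
  have hqN : q ∣ q ^ (e + 2) := dvd_pow_self q (by omega)
  have hq0 : (q : ℝ) ≠ 0 := by exact_mod_cast hq.ne'
  rw [cnt_eq_sum, sum_congr rfl fun y _ => Lc_ind y, sum_add_distrib, sum_comm,
    sum_congr rfl fun i _ => sum_Ei hq i, sum_const, card_univ, Fintype.card_fin, nsmul_eq_mul]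
  have h1 : (∑ y ∈ Bx (k + 1) (q ^ (e + 2)),
      if e = 0 then (if Un q y then (1 : ℝ) else 0) else 0) =
      (if e = 0 then gu q (k + 1) else 0) * ((q ^ (e + 2) : ℕ) : ℝ) ^ (k + 1) := by
    by_cases he : e = 0
    · simp only [if_pos he]
      rw [← cnt_eq_sum, cnt_Un hq hqN]
    · simp only [if_neg he]
      rw [sum_const_zero, zero_mul]
  rw [h1]
  unfold dd
  rw [add_mul, Nat.add_sub_cancel]
  congr 1
  push_cast
  rw [pow_succ _ k]
  field_simp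
  ring

end Pool.Agent.V7H9.SN
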