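import Mathlib

set_option autoImplicit false

/-!
# Lattice points in regions whose line sections are unions of few intervals
-/

namespace Pool.Agent.V7H9.SN

open Finset MeasureTheory

lemma pi_cons {m : ℕ} (μ : Fin (m + 1) → Measure ℝ) [∀ i, SigmaFinite (μ i)]
    {R : Set (Fin (m + 1) → ℝ)} (hR : MeasurableSet R) :
    Measure.pi μ R = ((μ 0).prod (Measure.pi fun j : Fin m => μ j.succ))
      {p | (Fin.cons p.1 p.2 : Fin (m + 1) → ℝ) ∈ R} := by
  have h := (measurePreserving_piFinSuccAbove μ 0).symm
  have h1 := h.measure_preimage hR.nullMeasurableSet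
  rw [← h1]
  congr 1
  ext p
  simp [MeasurableEquiv.piFinSuccAbove_symm_apply, Fin.insertNthEquiv]

lemma meas_cons {m : ℕ} : Measurable fun p : ℝ × (Fin m → ℝ) =>
    (Fin.cons p.1 p.2 : Fin (m + 1) → ℝ) := by
  refine measurable_pi_iff.2 fun i => ?_
  refine Fin.cases ?_ (fun j => ?_) i
  · simpa using measurable_fst
  · simp only [Fin.cons_succ]
    exact (measurable_pi_apply j).comp measurable_snd

/-- one-sided comparison of product measures -/
theorem pi_compare (E M : ENNReal) (I : Set ℝ) (hI : MeasurableSet I) {m : ℕ}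
    (μ ν : Fin m → Measure ℝ) [∀ i, SigmaFinite (μ i)] [∀ i, SigmaFinite (ν i)]
    (hμ : ∀ i, μ i I ≤ M) (hν : ∀ i, ν i I ≤ M)
    (R : Set (Fin m → ℝ)) (hR : MeasurableSet R) (hRI : ∀ y ∈ R, ∀ i, y i ∈ I)
    (hsec : ∀ (i : Fin m) (y : Fin m → ℝ), μ i {t | Function.update y i t ∈ R} ≤
       ν i {t | Function.update y i t ∈ R} + E) :
    Measure.pi μ R ≤ Measure.pi ν R + m * E * M ^ (m - 1) := by
  induction m with
  | zero =>
    rw [Measure.pi_of_empty μ, Measure.pi_of_empty ν]
    exact le_add_right le_rfl
  | succ m ih =>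
    obtain ⟨S, hS⟩ : ∃ S : Set (ℝ × (Fin m → ℝ)),
      S = {p | (Fin.cons p.1 p.2 : Fin (m + 1) → ℝ) ∈ R} := ⟨_, rfl⟩
    have hSm : MeasurableSet S := by
      rw [hS]
      exact meas_cons hR
    rw [pi_cons μ hR, pi_cons ν hR, ← hS]
    obtain ⟨Pμ, hPμ⟩ : ∃ P, P = Measure.pi fun j : Fin m => μ j.succ := ⟨_, rfl⟩
    obtain ⟨Pν, hPν⟩ : ∃ P, P = Measure.pi fun j : Fin m => ν j.succ := ⟨_, rfl⟩
    have : SigmaFinite Pμ := by rw [hPμ]; infer_instance
    have : SigmaFinite Pν := by rw [hPν]; infer_instance
    rw [← hPμ, ← hPν]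
    have hmem : ∀ (t : ℝ) (y : Fin m → ℝ), (t, y) ∈ S ↔ (Fin.cons t y : Fin (m + 1) → ℝ) ∈ R := by
      intro t y
      rw [hS]
      rfl
    -- step 1
    have h1 : (μ 0).prod Pμ S ≤ (μ 0).prod Pν S + m * E * M ^ (m - 1) * M := by
      rw [Measure.prod_apply hSm, Measure.prod_apply hSm]
      calc ∫⁻ x, Pμ (Prod.mk x ⁻¹' S) ∂(μ 0) ≤
            ∫⁻ x, (Pν (Prod.mk x ⁻¹' S) + I.indicator (fun _ => m * E * M ^ (m - 1)) x) ∂(μ 0) := by
            refine lintegral_mono fun x => ?_
            by_cases hx : x ∈ I
            · rw [Set.indicator_of_mem hx, hPμ, hPν]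
              refine ih (fun j => μ j.succ) (fun j => ν j.succ) (fun i => hμ _) (fun i => hν _)
                (Prod.mk x ⁻¹' S) (measurable_prodMk_left hSm) ?_ ?_
              · intro y hy i
                have h2 := hRI _ ((hmem x y).1 hy) i.succ
                rwa [Fin.cons_succ] at h2
              · intro i y
                have h2 := hsec i.succ (Fin.cons x y)
                have e : {t | Function.update (Fin.cons x y : Fin (m + 1) → ℝ) i.succ t ∈ R} =
                    {t | Function.update y i t ∈ Prod.mk x ⁻¹' S} := by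
                  ext t
                  rw [Set.mem_ofPred_eq, Set.mem_ofPred_eq, Set.mem_preimage, hmem, Fin.cons_update]
                rwa [e] at h2
            · have h2 : Prod.mk x ⁻¹' S = ∅ := by
                rw [Set.eq_empty_iff_forall_notMem]
                intro y hy
                apply hx
                have h2 := hRI _ ((hmem x y).1 hy) 0
                rwa [Fin.cons_zero] at h2
              rw [h2]
              simp
        _ = ∫⁻ x, Pν (Prod.mk x ⁻¹' S) ∂(μ 0) + m * E * M ^ (m - 1) * (μ 0) I := by
            rw [lintegral_add_right _ (measurable_const.indicator hI), lintegral_indicator_const hI]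
        _ ≤ _ := by
            gcongr
            exact hμ 0
    have h2 : (μ 0).prod Pν S ≤ (ν 0).prod Pν S + E * M ^ m := by
      rw [Measure.prod_apply_symm hSm, Measure.prod_apply_symm hSm]
      have hbox : MeasurableSet (Set.pi Set.univ fun _ : Fin m => I) :=
        MeasurableSet.univ_pi fun _ => hI
      calc ∫⁻ y, μ 0 ((fun x => (x, y)) ⁻¹' S) ∂Pν ≤
            ∫⁻ y, (ν 0 ((fun x => (x, y)) ⁻¹' S) +
              (Set.pi Set.univ fun _ : Fin m => I).indicator (fun _ => E) y) ∂Pν := by
            refine lintegral_mono fun y => ?_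
            by_cases hy : y ∈ (Set.pi Set.univ fun _ : Fin m => I)
            · rw [Set.indicator_of_mem hy]
              have h2 := hsec 0 (Fin.cons 0 y)
              have e : {t | Function.update (Fin.cons 0 y : Fin (m + 1) → ℝ) 0 t ∈ R} =
                  (fun x => (x, y)) ⁻¹' S := by
                ext t
                rw [Set.mem_ofPred_eq, Set.mem_preimage, hmem, Fin.update_cons_zero]
              rwa [e] at h2
            · have h2 : (fun x => (x, y)) ⁻¹' S = ∅ := by
                rw [Set.eq_empty_iff_forall_notMem]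
                intro x hx
                apply hy
                intro i _
                have h2 := hRI _ ((hmem x y).1 hx) i.succ
                rwa [Fin.cons_succ] at h2
              rw [h2]
              simp
        _ = ∫⁻ y, ν 0 ((fun x => (x, y)) ⁻¹' S) ∂Pν +
              E * Pν (Set.pi Set.univ fun _ : Fin m => I) := by
            rw [lintegral_add_right _ (measurable_const.indicator hbox),
              lintegral_indicator_const hbox]
        _ ≤ _ := by
            gcongr
            rw [hPν, Measure.pi_pi]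
            refine (Finset.prod_le_pow_card _ _ M fun i _ => hν _).trans ?_
            rw [card_univ, Fintype.card_fin]
    refine h1.trans ?_
    refine (add_le_add_left h2 _).trans ?_
    rw [add_assoc]
    gcongr
    have h3 : (m : ENNReal) * E * M ^ (m - 1) * M ≤ m * E * M ^ m := by
      rcases Nat.eq_zero_or_pos m with h | h
      · subst h
        simp
      · rw [mul_assoc _ _ M, ← pow_succ, Nat.sub_add_cancel h]
    calc E * M ^ m + m * E * M ^ (m - 1) * M ≤ E * M ^ m + m * E * M ^ m := by gcongr
      _ = ((m + 1 : ℕ) : ENNReal) * E * M ^ (m + 1 - 1) := by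
        rw [Nat.add_sub_cancel]
        push_cast
        ring

end Pool.Agent.V7H9.SN
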