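import Pool.Agent.V7H9.SN.Law2

set_option autoImplicit false

/-!
# The constant is positive
-/

namespace Pool.Agent.V7H9.SN

open Finset MeasureTheory Pool.Agent.H785R2.ABC

lemma box_sub {m : ℕ} (hm : 1 ≤ m) : (Set.pi Set.univ fun _ : Fin m => Set.Icc (0 : ℝ) (1 / m)) ⊆ RI m := by
  intro y hy
  have hmr : (1 : ℝ) ≤ m := by exact_mod_cast hm
  have h1 : ∀ i, |y i| ≤ 1 / m := by
    intro i
    have := hy i trivial
    rw [abs_of_nonneg this.1]
    exact this.2
  unfold RI
  rw [Set.mem_ofPred_eq]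
  refine prod_le_one (fun i _ => abs_nonneg _) fun i _ => ?_
  refine Fin.cases ?_ (fun j => ?_) i
  · rw [full_zero, abs_neg]
    refine (abs_sum_le_sum_abs _ _).trans ((sum_le_sum fun i _ => h1 i).trans (le_of_eq ?_))
    rw [sum_const, card_univ, Fintype.card_fin, nsmul_eq_mul]
    field_simp
  · rw [full_succ]
    refine (h1 j).trans ?_
    rw [div_le_one (by linarith)]
    exact hmr

lemma VI_pos {m : ℕ} (hm : 1 ≤ m) : 0 < VI m := by
  unfold VI
  refine ENNReal.toReal_pos ?_ (RI_fin hm)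
  have h1 := measure_mono (μ := volume) (box_sub hm)
  have h2 : volume (Set.pi Set.univ fun _ : Fin m => Set.Icc (0 : ℝ) (1 / m)) ≠ 0 := by
    rw [volume_pi, Measure.pi_pi]
    refine Finset.prod_ne_zero_iff.2 fun i _ => ?_
    rw [Real.volume_Icc, sub_zero]
    have : (0 : ℝ) < m := by exact_mod_cast hm
    exact (ENNReal.ofReal_pos.2 (by positivity)).ne'
  exact fun h => h2 (le_antisymm (h ▸ h1) bot_le)

lemma S_pos {m : ℕ} (hm : 2 ≤ m) : 0 < ∑' w, wgt m w := by
  have h1 := (wgt_summable hm).sum_le_tsum {1} (fun w _ => wgt_nonneg hm w)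
  rw [sum_singleton, wgt_one] at h1
  linarith

/-- all tuples -/
lemma LM_univ {m : ℕ} : LM m (fun _ => Set.univ) = VI m * (C0 m * ∑' w, wgt m w) := by
  unfold LM VI
  simp only [Set.univ_inter]
  rw [tsum_mul_right, tsum_mul_left]
  ring

end Pool.Agent.V7H9.SN
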