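import Pool.Agent.V7H9.SN.Lat

set_option autoImplicit false

/-!
# The full tuple, the regions, and the counts in unions of residue classes
-/

namespace Pool.Agent.V7H9.SN

open Finset MeasureTheory

/-- the full tuple: the entry `0` is minus the sum of the others -/
def full {α : Type*} [AddCommGroup α] {m : ℕ} (y : Fin m → α) : Fin (m + 1) → α :=
  Fin.cons (-∑ j, y j) y

section full
variable {α : Type*} [AddCommGroup α] {m : ℕ}

@[simp] lemma full_zero (y : Fin m → α) : full y 0 = -∑ j, y j := rfl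

@[simp] lemma full_succ (y : Fin m → α) (j : Fin m) : full y j.succ = y j := rfl

lemma sum_full (y : Fin m → α) : ∑ i, full y i = 0 := by
  rw [Fin.sum_univ_succ]
  simp

lemma full_inj {y y' : Fin m → α} (h : full y = full y') : y = y' := by
  funext j
  have := congrFun h j.succ
  simpa using this

/-- a tuple with sum zero is the full tuple of its last entries -/
lemma full_tail {x : Fin (m + 1) → α} (hx : ∑ i, x i = 0) : full (fun j => x j.succ) = x := by
  funext i
  refine Fin.cases ?_ (fun j => ?_) i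
  · rw [full_zero]
    rw [Fin.sum_univ_succ] at hx
    rw [← eq_neg_iff_add_eq_zero.2 hx]
  · rw [full_succ]

/-- any `m` of the entries determine the tuple -/
lemma sum_inj {x x' : Fin (m + 1) → α} (hx : ∑ i, x i = 0) (hx' : ∑ i, x' i = 0) (j : Fin (m + 1))
    (h : ∀ i : Fin m, x (j.succAbove i) = x' (j.succAbove i)) : x = x' := by
  rw [Fin.sum_univ_succAbove _ j] at hx hx'
  have h2 : x j = x' j := by
    rw [sum_congr rfl fun i _ => h i] at hx
    rw [eq_neg_iff_add_eq_zero.2 hx, eq_neg_iff_add_eq_zero.2 hx']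
  funext i
  rcases Fin.eq_self_or_eq_succAbove j i with h3 | ⟨k, h3⟩
  · rw [h3]; exact h2
  · rw [h3]; exact h k

end full

lemma full_cast {m : ℕ} (z : Fin m → ℤ) (i : Fin (m + 1)) :
    ((full z i : ℤ) : ℝ) = full (fun j => (z j : ℝ)) i := by
  refine Fin.cases ?_ (fun j => ?_) i
  · simp
  · simp

lemma full_div {m : ℕ} (y : Fin m → ℝ) (x : ℝ) (i : Fin (m + 1)) :
    full (fun j => y j / x) i = full y i / x := by
  refine Fin.cases ?_ (fun j => ?_) i
  · simp only [full_zero]
    rw [← sum_div, neg_div]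
  · simp

/-! ### Disjoint unions of intervals -/

lemma nice_ord {S : Set ℝ} (hS : S.OrdConnected) : Nice 1 S :=
  ⟨fun _ => S, fun _ => hS, fun i j h => absurd (Subsingleton.elim i j) h,
    (Set.iUnion_const S).symm⟩

lemma nice_mono {k l : ℕ} (h : k ≤ l) {S : Set ℝ} (hS : Nice k S) : Nice l S := by
  obtain ⟨f, h1, h2, h3⟩ := hS
  refine ⟨fun j => if hj : (j : ℕ) < k then f ⟨j, hj⟩ else ∅, fun j => ?_, fun i j hij => ?_, ?_⟩
  · dsimp only
    split_ifs
    · exact h1 _
    · exact Set.ordConnected_empty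
  · unfold Function.onFun
    dsimp only
    split_ifs with a1 a2
    · refine h2 fun h => hij ?_
      have := congrArg Fin.val h
      exact Fin.ext this
    all_goals simp
  · rw [h3]
    ext x
    simp only [Set.mem_iUnion]
    constructor
    · rintro ⟨j, hj⟩
      refine ⟨⟨j, j.2.trans_le h⟩, ?_⟩
      rw [dif_pos j.2]
      exact hj
    · rintro ⟨j, hj⟩
      split_ifs at hj with h4
      · exact ⟨_, hj⟩
      · exact absurd hj (Set.notMem_empty x)

lemma nice_inter {k l : ℕ} {S T : Set ℝ} (hS : Nice k S) (hT : Nice l T) : Nice (k * l) (S ∩ T) := by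
  obtain ⟨f, h1, h2, h3⟩ := hS
  obtain ⟨g, g1, g2, g3⟩ := hT
  let e := finProdFinEquiv (m := k) (n := l)
  refine ⟨fun j => f (e.symm j).1 ∩ g (e.symm j).2, fun j => (h1 _).inter (g1 _),
    fun i j hij => ?_, ?_⟩
  · unfold Function.onFun
    dsimp only
    have h4 : e.symm i ≠ e.symm j := fun h => hij (e.symm.injective h)
    by_cases h5 : (e.symm i).1 = (e.symm j).1
    · have h6 : (e.symm i).2 ≠ (e.symm j).2 := fun h => h4 (Prod.ext h5 h)
      exact (g2 h6).mono Set.inter_subset_right Set.inter_subset_right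
    · exact (h2 h5).mono Set.inter_subset_left Set.inter_subset_left
  · rw [h3, g3]
    ext x
    simp only [Set.mem_inter_iff, Set.mem_iUnion]
    constructor
    · rintro ⟨⟨a, ha⟩, ⟨b, hb⟩⟩
      refine ⟨e (a, b), ?_⟩
      rw [Equiv.symm_apply_apply]
      exact ⟨ha, hb⟩
    · rintro ⟨j, ha, hb⟩
      exact ⟨⟨_, ha⟩, ⟨_, hb⟩⟩

lemma nice_compl {S : Set ℝ} (hS : S.OrdConnected) : Nice 2 Sᶜ := by
  rcases S.eq_empty_or_nonempty with h | ⟨s, hs⟩
  · rw [h, Set.compl_empty]
    exact nice_mono (by norm_num) (nice_ord Set.ordConnected_univ)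
  · refine ⟨![{x | ∀ s ∈ S, x < s}, {x | ∀ s ∈ S, s < x}], fun j => ?_, ?_, ?_⟩
    · fin_cases j
      · refine ⟨fun x _ y hy z hz t ht => ?_⟩
        exact lt_of_le_of_lt hz.2 (hy t ht)
      · refine ⟨fun x hx y _ z hz t ht => ?_⟩
        exact lt_of_lt_of_le (hx t ht) hz.1
    · have h1 : Disjoint ({x | ∀ s ∈ S, x < s} : Set ℝ) {x | ∀ s ∈ S, s < x} := by
        rw [Set.disjoint_left]
        intro x hx hx'
        exact absurd (hx s hs) (not_lt.2 (hx' s hs).le)
      intro i j hij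
      fin_cases i <;> fin_cases j
      · exact absurd rfl hij
      · exact h1
      · exact h1.symm
      · exact absurd rfl hij
    · ext x
      rw [Set.mem_iUnion, Fin.exists_fin_two]
      simp only [Matrix.cons_val_zero, Matrix.cons_val_one, Set.mem_ofPred_eq, Set.mem_compl_iff]
      constructor
      · intro hx
        rcases lt_trichotomy x s with h | h | h
        · left
          intro t ht
          by_contra hcon
          exact hx (hS.out ht hs ⟨not_lt.1 hcon, h.le⟩)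
        · exact absurd (h ▸ hs) hx
        · right
          intro t ht
          by_contra hcon
          exact hx (hS.out hs ht ⟨h.le, not_lt.1 hcon⟩)
      · rintro (h | h) hx
        · exact lt_irrefl _ (h x hx)
        · exact lt_irrefl _ (h x hx)

lemma nice_preimage {k : ℕ} {S : Set ℝ} (hS : Nice k S) {g : ℝ → ℝ} (hg : Monotone g) :
    Nice k (g ⁻¹' S) := by
  obtain ⟨f, h1, h2, h3⟩ := hS
  refine ⟨fun j => g ⁻¹' (f j), fun j => (h1 j).preimage_mono hg, fun i j hij => ?_, ?_⟩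
  · exact Disjoint.preimage g (h2 hij)
  · rw [h3, Set.preimage_iUnion]

/-! ### The region -/

/-- the region `∏ |yᵢ| ≤ 1`, `|yᵢ| ≤ T` -/
def RT (m : ℕ) (T : ℝ) : Set (Fin m → ℝ) :=
  {y | ∏ i, |full y i| ≤ 1 ∧ ∀ j, |y j| ≤ T}

/-- the region `∏ |yᵢ| ≤ 1` -/
def RI (m : ℕ) : Set (Fin m → ℝ) := {y | ∏ i, |full y i| ≤ 1}

lemma continuous_full (m : ℕ) (i : Fin (m + 1)) : Continuous fun y : Fin m → ℝ => full y i := by
  refine Fin.cases ?_ (fun j => ?_) i
  · simp only [full_zero]
    fun_prop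
  · simp only [full_succ]
    fun_prop

lemma RI_meas (m : ℕ) : MeasurableSet (RI m) := by
  refine (isClosed_le (continuous_finsetProd _ fun i _ => (continuous_full m i).abs)
    continuous_const).measurableSet

lemma RT_meas (m : ℕ) (T : ℝ) : MeasurableSet (RT m T) := by
  refine (RI_meas m).inter ?_
  have : {y : Fin m → ℝ | ∀ j, |y j| ≤ T} = ⋂ j, {y : Fin m → ℝ | |y j| ≤ T} := by
    ext y
    simp
  change MeasurableSet {y : Fin m → ℝ | ∀ j, |y j| ≤ T}
  rw [this]
  exact MeasurableSet.iInter fun j =>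
    (isClosed_le (continuous_apply j).abs continuous_const).measurableSet

lemma RT_sub (m : ℕ) (T : ℝ) : RT m T ⊆ RI m := fun _ hy => hy.1

lemma quad_ord {c s C : ℝ} (hc : 0 ≤ c) : ({t : ℝ | c * (t * (s + t)) ≤ C} : Set ℝ).OrdConnected := by
  refine ⟨fun x hx z hz t ht => ?_⟩
  rw [Set.mem_ofPred_eq] at hx hz ⊢
  obtain ⟨h1, h2⟩ := ht
  have h3 : 0 ≤ (t - x) * (z - t) := mul_nonneg (by linarith) (by linarith)
  rcases le_or_gt 0 (x + z + s) with h | h
  · have h4 : t * (s + t) ≤ z * (s + z) := by nlinarith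
    exact (mul_le_mul_of_nonneg_left h4 hc).trans hz
  · have h4 : t * (s + t) ≤ x * (s + x) := by nlinarith
    exact (mul_le_mul_of_nonneg_left h4 hc).trans hx

lemma quad_ord' {c s C : ℝ} (hc : 0 ≤ c) : ({t : ℝ | c * (t * (s + t)) < C} : Set ℝ).OrdConnected := by
  refine ⟨fun x hx z hz t ht => ?_⟩
  rw [Set.mem_ofPred_eq] at hx hz ⊢
  obtain ⟨h1, h2⟩ := ht
  have h3 : 0 ≤ (t - x) * (z - t) := mul_nonneg (by linarith) (by linarith)
  rcases le_or_gt 0 (x + z + s) with h | h
  · have h4 : t * (s + t) ≤ z * (s + z) := by nlinarith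
    exact (mul_le_mul_of_nonneg_left h4 hc).trans_lt hz
  · have h4 : t * (s + t) ≤ x * (s + x) := by nlinarith
    exact (mul_le_mul_of_nonneg_left h4 hc).trans_lt hx

/-- the product along a line -/
lemma prod_update {m : ℕ} (y : Fin m → ℝ) (i : Fin m) (t : ℝ) :
    ∏ j, |full (Function.update y i t) j| =
      |(∏ j ∈ univ.erase i, |y j|) * (t * (∑ j ∈ univ.erase i, y j + t))| := by
  rw [Fin.prod_univ_succ]
  simp only [full_zero, full_succ]
  rw [← mul_prod_erase univ (fun j => |Function.update y i t j|) (mem_univ i),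
    Function.update_self, ← add_sum_erase univ (fun j => Function.update y i t j) (mem_univ i),
    Function.update_self]
  have h1 : ∏ j ∈ univ.erase i, |Function.update y i t j| = ∏ j ∈ univ.erase i, |y j| :=
    prod_congr rfl fun j hj => by rw [Function.update_of_ne (ne_of_mem_erase hj)]
  have h2 : ∑ j ∈ univ.erase i, Function.update y i t j = ∑ j ∈ univ.erase i, y j :=
    sum_congr rfl fun j hj => by rw [Function.update_of_ne (ne_of_mem_erase hj)]
  rw [h1, h2, abs_neg, abs_mul, abs_mul, abs_prod]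
  simp only [abs_abs]
  rw [add_comm t]
  ring

lemma RI_sec {m : ℕ} (i : Fin m) (y : Fin m → ℝ) : Nice 2 {t | Function.update y i t ∈ RI m} := by
  obtain ⟨c, hc⟩ : ∃ c, c = ∏ j ∈ univ.erase i, |y j| := ⟨_, rfl⟩
  have hc0 : 0 ≤ c := by rw [hc]; exact prod_nonneg fun j _ => abs_nonneg _
  obtain ⟨s, hs⟩ : ∃ s, s = ∑ j ∈ univ.erase i, y j := ⟨_, rfl⟩
  have e : {t | Function.update y i t ∈ RI m} =
      {t : ℝ | c * (t * (s + t)) ≤ 1} ∩ {t : ℝ | c * (t * (s + t)) < -1}ᶜ := by
    ext t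
    unfold RI
    rw [Set.mem_ofPred_eq, Set.mem_ofPred_eq, prod_update, ← hc, ← hs, abs_le, Set.mem_inter_iff,
      Set.mem_compl_iff, Set.mem_ofPred_eq, Set.mem_ofPred_eq, not_lt]
    exact and_comm
  rw [e]
  exact nice_inter (nice_ord (quad_ord hc0)) (nice_compl (quad_ord' hc0))

lemma box_sec {m : ℕ} (T : ℝ) (i : Fin m) (y : Fin m → ℝ) :
    ({t : ℝ | ∀ j, |Function.update y i t j| ≤ T} : Set ℝ).OrdConnected := by
  refine ⟨fun a ha b hb t ht j => ?_⟩
  have h1 := ha j
  have h2 := hb j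
  by_cases hj : j = i
  · subst hj
    rw [Function.update_self] at h1 h2 ⊢
    rw [abs_le] at h1 h2 ⊢
    constructor
    · linarith [ht.1]
    · linarith [ht.2]
  · rw [Function.update_of_ne hj] at h1 ⊢
    exact h1

lemma RT_sec {m : ℕ} (T : ℝ) {k : ℕ} {A : Set (Fin m → ℝ)}
    (hA : ∀ (i : Fin m) (y : Fin m → ℝ), Nice k {t | Function.update y i t ∈ A})
    (i : Fin m) (y : Fin m → ℝ) : Nice (k * 2) {t | Function.update y i t ∈ A ∩ RT m T} := by
  have e : {t | Function.update y i t ∈ A ∩ RT m T} = {t | Function.update y i t ∈ A} ∩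
      ({t | Function.update y i t ∈ RI m} ∩ {t : ℝ | ∀ j, |Function.update y i t j| ≤ T}) := rfl
  rw [e]
  have h := nice_inter (RI_sec i y) (nice_ord (box_sec T i y))
  exact nice_inter (hA i y) h

/-! ### Scaled regions -/

theorem lattice_scaled {m k q : ℕ} (hq : 0 < q) (a : Fin m → ℤ) {T x : ℝ} (hT : 0 ≤ T) (hx : 0 < x)
    {R : Set (Fin m → ℝ)} (hR : MeasurableSet R) (hRT : ∀ y ∈ R, ∀ i, |y i| ≤ T)
    (hsec : ∀ (i : Fin m) (y : Fin m → ℝ), Nice k {t | Function.update y i t ∈ R}) :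
    {z : Fin m → ℤ | (∀ i, (q : ℤ) ∣ z i - a i) ∧ (fun i => (z i : ℝ) / x) ∈ R}.Finite ∧
    |(q : ℝ) ^ m * ({z : Fin m → ℤ | (∀ i, (q : ℤ) ∣ z i - a i) ∧
      (fun i => (z i : ℝ) / x) ∈ R}.ncard : ℝ) - x ^ m * (volume R).toReal| ≤
      m * (k * q) * (2 * (T * x) + q) ^ (m - 1) := by
  obtain ⟨R', hR'⟩ : ∃ R' : Set (Fin m → ℝ), R' = {y | (fun i => y i / x) ∈ R} := ⟨_, rfl⟩
  have hsm : (fun y : Fin m → ℝ => (fun i => y i / x)) = fun y => x⁻¹ • y := by
    funext y i
    simp [div_eq_inv_mul]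
  have hmeas : MeasurableSet R' := by
    rw [hR']
    have : Measurable fun y : Fin m → ℝ => (fun i => y i / x) :=
      by fun_prop
    exact this hR
  have hvol : (volume R').toReal = x ^ m * (volume R).toReal := by
    have e : R' = (fun y : Fin m → ℝ => x⁻¹ • y) ⁻¹' R := by
      rw [hR', ← hsm]
      rfl
    rw [e, Measure.addHaar_preimage_smul volume (by positivity) R, ENNReal.toReal_mul,
      ENNReal.toReal_ofReal (abs_nonneg _)]
    congr 1
    rw [Module.finrank_fin_fun, inv_pow, inv_inv, abs_of_pos (by positivity)]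
  have h := lattice_count hq a (B := T * x) (by positivity) hmeas (k := k) (fun y hy i => by
      rw [hR'] at hy
      have h1 : |y i / x| ≤ T := hRT _ hy i
      rw [abs_div, abs_of_pos hx, div_le_iff₀ hx] at h1
      exact h1) (fun i y => by
      have e : {t | Function.update y i t ∈ R'} = (fun t => t / x) ⁻¹'
          {t | Function.update (fun j => y j / x) i t ∈ R} := by
        ext t
        rw [hR', Set.mem_ofPred_eq, Set.mem_ofPred_eq, Set.mem_preimage, Set.mem_ofPred_eq]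
        have e2 : (fun j => Function.update y i t j / x) =
            Function.update (fun j => y j / x) i (t / x) := by
          funext j
          by_cases hj : j = i
          · subst hj
            rw [Function.update_self, Function.update_self]
          · rw [Function.update_of_ne hj, Function.update_of_ne hj]
        rw [e2]
      rw [e]
      exact nice_preimage (hsec i _) fun a b hab => div_le_div_of_nonneg_right hab hx.le)
  rw [hvol] at h
  have hset : {z : Fin m → ℤ | (∀ i, (q : ℤ) ∣ z i - a i) ∧ (fun i => (z i : ℝ)) ∈ R'} =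
      {z : Fin m → ℤ | (∀ i, (q : ℤ) ∣ z i - a i) ∧ (fun i => (z i : ℝ) / x) ∈ R} := by
    rw [hR']
    rfl
  rw [hset] at h
  exact h

/-- a property of the residues modulo `Q` -/
def Per (m Q : ℕ) (S : (Fin m → ℤ) → Prop) : Prop :=
  ∀ y y' : Fin m → ℤ, (∀ i, (Q : ℤ) ∣ y i - y' i) → S y → S y'

/-- the box of the residues -/
noncomputable def Bx (m Q : ℕ) : Finset (Fin m → ℤ) := Fintype.piFinset fun _ => Finset.Ico (0 : ℤ) Q

lemma mem_Bx {m Q : ℕ} {y : Fin m → ℤ} : y ∈ Bx m Q ↔ ∀ i, 0 ≤ y i ∧ y i < Q := by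
  unfold Bx
  simp

lemma card_Bx (m Q : ℕ) : (Bx m Q).card = Q ^ m := by
  unfold Bx
  simp

open scoped Classical in
/-- the number of the classes with a property -/
noncomputable def cnt (m Q : ℕ) (S : (Fin m → ℤ) → Prop) : ℕ := ((Bx m Q).filter S).card

lemma cnt_le (m Q : ℕ) (S : (Fin m → ℤ) → Prop) : cnt m Q S ≤ Q ^ m := by
  classical
  unfold cnt
  rw [← card_Bx m Q]
  exact card_le_card (filter_subset _ _)

/-- **Points with a periodic property in a scaled region.** -/
theorem per_count {m k q : ℕ} (hq : 0 < q) {S : (Fin m → ℤ) → Prop} (hS : Per m q S) {T x : ℝ}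
    (hT : 0 ≤ T) (hx : 0 < x) {R : Set (Fin m → ℝ)} (hR : MeasurableSet R)
    (hRT : ∀ y ∈ R, ∀ i, |y i| ≤ T)
    (hsec : ∀ (i : Fin m) (y : Fin m → ℝ), Nice k {t | Function.update y i t ∈ R}) :
    {z : Fin m → ℤ | S z ∧ (fun i => (z i : ℝ) / x) ∈ R}.Finite ∧
    |({z : Fin m → ℤ | S z ∧ (fun i => (z i : ℝ) / x) ∈ R}.ncard : ℝ) -
      (cnt m q S : ℝ) / (q : ℝ) ^ m * (x ^ m * (volume R).toReal)| ≤
      m * (k * q) * (2 * (T * x) + q) ^ (m - 1) := by
  classical
  have hqr : (0 : ℝ) < q := by exact_mod_cast hq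
  have hqz : (0 : ℤ) < q := by exact_mod_cast hq
  obtain ⟨E, hE⟩ : ∃ E : ℝ, E = m * (k * q) * (2 * (T * x) + q) ^ (m - 1) := ⟨_, rfl⟩
  have hE0 : 0 ≤ E := by rw [hE]; positivity
  have hC : ∀ a : Fin m → ℤ, _ := fun a => lattice_scaled hq a hT hx hR hRT hsec
  obtain ⟨C, hCd⟩ : ∃ C : (Fin m → ℤ) → Set (Fin m → ℤ), C = fun a =>
    {z : Fin m → ℤ | (∀ i, (q : ℤ) ∣ z i - a i) ∧ (fun i => (z i : ℝ) / x) ∈ R} := ⟨_, rfl⟩
  have hCa : ∀ a, C a = {z : Fin m → ℤ | (∀ i, (q : ℤ) ∣ z i - a i) ∧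
      (fun i => (z i : ℝ) / x) ∈ R} := fun a => by rw [hCd]
  simp_rw [← hCa, ← hE] at hC
  rw [← hE]
  have hU : {z : Fin m → ℤ | S z ∧ (fun i => (z i : ℝ) / x) ∈ R} =
      ⋃ a ∈ ((Bx m q).filter S : Finset (Fin m → ℤ)), C a := by
    ext z
    simp only [Set.mem_iUnion, hCa, Set.mem_ofPred_eq, mem_filter, mem_Bx, exists_prop]
    constructor
    · rintro ⟨h1, h2⟩
      refine ⟨fun i => z i % q, ⟨fun i => ⟨Int.emod_nonneg _ hqz.ne', Int.emod_lt_of_pos _ hqz⟩,
        hS z _ (fun i => ?_) h1⟩, fun i => ?_, h2⟩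
      · exact Int.dvd_self_sub_emod
      · exact Int.dvd_self_sub_emod
    · rintro ⟨a, ⟨-, h2⟩, h3, h4⟩
      refine ⟨hS a z (fun i => ?_) h2, h4⟩
      rw [← dvd_neg]
      have := h3 i
      rwa [neg_sub]
  have hdisj : ((((Bx m q).filter S : Finset (Fin m → ℤ)) : Set (Fin m → ℤ))).PairwiseDisjoint
      C := by
    intro a ha b hb hab
    rw [mem_coe, mem_filter, mem_Bx] at ha hb
    unfold Function.onFun
    rw [Set.disjoint_left]
    intro z hz hz'
    rw [hCa, Set.mem_ofPred_eq] at hz hz'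
    apply hab
    funext i
    have h1 : (q : ℤ) ∣ a i - b i := by
      have := dvd_sub (hz'.1 i) (hz.1 i)
      have e : z i - b i - (z i - a i) = a i - b i := by ring
      rwa [e] at this
    obtain ⟨u, hu⟩ := h1
    have h2 := ha.1 i
    have h3 := hb.1 i
    have h4 : u = 0 := by
      rcases lt_trichotomy u 0 with h | h | h
      · nlinarith
      · exact h
      · nlinarith
    rw [h4, mul_zero] at hu
    linarith
  have hfin : {z : Fin m → ℤ | S z ∧ (fun i => (z i : ℝ) / x) ∈ R}.Finite := by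
    rw [hU]
    exact Set.Finite.biUnion (finite_toSet _) fun a _ => (hC a).1
  refine ⟨hfin, ?_⟩
  have hcard : ({z : Fin m → ℤ | S z ∧ (fun i => (z i : ℝ) / x) ∈ R}.ncard : ℝ) =
      ∑ a ∈ (Bx m q).filter S, ((C a).ncard : ℝ) := by
    rw [hU]
    have h1 : (⋃ a ∈ ((Bx m q).filter S : Finset (Fin m → ℤ)), C a) =
        (((Bx m q).filter S).biUnion fun a => (hC a).1.toFinset : Finset (Fin m → ℤ)) := by
      ext z
      simp
    rw [h1, Set.ncard_coe_finset, card_biUnion]
    · push_cast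
      refine sum_congr rfl fun a _ => ?_
      exact_mod_cast (Set.ncard_eq_toFinset_card _ (hC a).1).symm
    · intro a ha b hb hab
      have := hdisj (mem_coe.2 ha) (mem_coe.2 hb) hab
      unfold Function.onFun
      rw [disjoint_left]
      intro z hz hz'
      rw [Set.Finite.mem_toFinset] at hz hz'
      exact Set.disjoint_left.1 this hz hz'
  rw [hcard]
  obtain ⟨V, hV⟩ : ∃ V : ℝ, V = x ^ m * (volume R).toReal := ⟨_, rfl⟩
  rw [← hV]
  have h2 : (cnt m q S : ℝ) / (q : ℝ) ^ m * V = ∑ a ∈ (Bx m q).filter S, V / (q : ℝ) ^ m := by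
    rw [sum_const, nsmul_eq_mul]
    unfold cnt
    ring
  rw [h2, ← sum_sub_distrib]
  refine (abs_sum_le_sum_abs _ _).trans ?_
  have h3 : ∀ a ∈ (Bx m q).filter S, |((C a).ncard : ℝ) - V / (q : ℝ) ^ m| ≤ E / (q : ℝ) ^ m := by
    intro a _
    have h4 := (hC a).2
    rw [← hV] at h4
    rw [le_div_iff₀ (by positivity)]
    calc |((C a).ncard : ℝ) - V / (q : ℝ) ^ m| * (q : ℝ) ^ m =
          |(q : ℝ) ^ m * ((C a).ncard : ℝ) - V| := by
          rw [← abs_of_pos (show (0 : ℝ) < (q : ℝ) ^ m by positivity), ← abs_mul]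
          rw [abs_of_pos (show (0 : ℝ) < (q : ℝ) ^ m by positivity)]
          congr 1
          field_simp
      _ ≤ E := h4
  refine (sum_le_sum h3).trans ?_
  rw [sum_const, nsmul_eq_mul]
  have h5 : (((Bx m q).filter S).card : ℝ) ≤ (q : ℝ) ^ m := by
    have := cnt_le m q S
    unfold cnt at this
    exact_mod_cast this
  calc (((Bx m q).filter S).card : ℝ) * (E / (q : ℝ) ^ m) ≤ (q : ℝ) ^ m * (E / (q : ℝ) ^ m) :=
        mul_le_mul_of_nonneg_right h5 (by positivity)
    _ = E := by field_simp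

end Pool.Agent.V7H9.SN
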