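import Pool.Agent.V7H9.SN.High

set_option autoImplicit false

/-!
# Moving thresholds
-/

namespace Pool.Agent.V7H9.SN

open Finset Filter Topology MeasureTheory Pool.Agent.H785R2.ABC

/-- the tuples with `max |x_i| ≥ φ (rad) rad ^ (1/n)` -/
def Hi (m : ℕ) (K X : ℝ) (φ : ℝ → ℝ) (Y : ℝ) : Set (Fin (m + 1) → ℤ) :=
  {x | ((∀ i, x i ≠ 0) ∧ (∀ i j, i ≠ j → IsCoprime (x i) (x j)) ∧ ∑ i, x i = 0) ∧
    (rad (pr x) : ℝ) ≤ Y ∧ (∀ i, |(x i : ℝ)| ≤ X ^ K) ∧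
    ∃ j, φ (rad (pr x) : ℝ) * (rad (pr x) : ℝ) ^ (1 / ((m : ℝ) + 1)) ≤ |(x j : ℝ)|}

lemma radr_pos (n : ℕ) : (0 : ℝ) < rad n := by exact_mod_cast rad_pos n

lemma radr_one (n : ℕ) : (1 : ℝ) ≤ rad n := by exact_mod_cast rad_pos n

lemma Hi_finite (m : ℕ) (K X : ℝ) (φ : ℝ → ℝ) (Y : ℝ) : (Hi m K X φ Y).Finite :=
  (box_finite (m + 1) (X ^ K)).1.subset fun _ hx => hx.2.2.1

lemma diff_card {α : Type*} {A B : Set α} (h : B ⊆ A) (hA : A.Finite) :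
    ((A \ B).ncard : ℝ) = A.ncard - B.ncard := by
  have h7 := Set.ncard_sdiff_add_ncard_of_subset h hA
  have : (A.ncard : ℝ) = (A \ B).ncard + B.ncard := by exact_mod_cast h7.symm
  linarith

/-- the blocks, above and below -/
lemma block {m : ℕ} {K X : ℝ} {φ : ℝ → ℝ} (hφ : Monotone φ) {Y Z : ℝ} (hYZ : Y ≤ Z) :
    ((Hi m K X φ Z).ncard : ℝ) - (Hi m K X φ Y).ncard ≤
      ((Ez m K X (φ Y) Z).ncard : ℝ) - (Ez m K X (φ Y) Y).ncard ∧
    ((Ez m K X (φ Z) Z).ncard : ℝ) - (Ez m K X (φ Z) Y).ncard ≤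
      ((Hi m K X φ Z).ncard : ℝ) - (Hi m K X φ Y).ncard := by
  have hHi : Hi m K X φ Y ⊆ Hi m K X φ Z := fun x hx => ⟨hx.1, hx.2.1.trans hYZ, hx.2.2⟩
  have hEz : ∀ z, Ez m K X z Y ⊆ Ez m K X z Z := fun z x hx => ⟨hx.1, hx.2.1.trans hYZ, hx.2.2⟩
  constructor
  · rw [← diff_card hHi (Hi_finite _ _ _ _ _), ← diff_card (hEz _) (Ez_finite _ _ _ _ _)]
    have : Hi m K X φ Z \ Hi m K X φ Y ⊆ Ez m K X (φ Y) Z \ Ez m K X (φ Y) Y := by
      rintro x ⟨⟨h1, h2, h3, j, hj⟩, h4⟩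
      have h5 : Y < rad (pr x) := by
        by_contra hcon
        push Not at hcon
        exact h4 ⟨h1, hcon, h3, j, hj⟩
      refine ⟨⟨h1, h2, h3, j, ?_⟩, fun h6 => absurd h6.2.1 (not_le.2 h5)⟩
      have h7 := radr_pos (pr x)
      exact (mul_le_mul_of_nonneg_right (hφ h5.le) (by positivity)).trans hj
    exact_mod_cast Set.ncard_le_ncard this ((Ez_finite _ _ _ _ _).subset Set.sdiff_subset)
  · rw [← diff_card hHi (Hi_finite _ _ _ _ _), ← diff_card (hEz _) (Ez_finite _ _ _ _ _)]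
    have : Ez m K X (φ Z) Z \ Ez m K X (φ Z) Y ⊆ Hi m K X φ Z \ Hi m K X φ Y := by
      rintro x ⟨⟨h1, h2, h3, j, hj⟩, h4⟩
      have h5 : Y < rad (pr x) := by
        by_contra hcon
        push Not at hcon
        exact h4 ⟨h1, hcon, h3, j, hj⟩
      refine ⟨⟨h1, h2, h3, j, ?_⟩, fun h6 => absurd h6.2.1 (not_le.2 h5)⟩
      have h7 := radr_pos (pr x)
      exact (mul_le_mul_of_nonneg_right (hφ h2) (by positivity)).trans hj
    exact_mod_cast Set.ncard_le_ncard this ((Hi_finite _ _ _ _ _).subset Set.sdiff_subset)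

/-- the density -/
noncomputable def Phi (m : ℕ) (φ : ℝ → ℝ) (u : ℝ) : ℝ :=
  Gn m (φ ((max u 0) ^ (((m : ℝ) + 1) / m)))

lemma Phi_anti {m : ℕ} (hm : 2 ≤ m) {φ : ℝ → ℝ} (hφ : Monotone φ) (hφ0 : ∀ t, 0 < φ t) :
    Antitone (Phi m φ) := by
  intro u v h
  refine Gn_anti hm (hφ0 _).le (hφ ?_)
  exact Real.rpow_le_rpow (le_max_right _ _) (max_le_max h le_rfl) (by positivity)

lemma Phi_nonneg {m : ℕ} (hm : 2 ≤ m) (φ : ℝ → ℝ) (u : ℝ) : 0 ≤ Phi m φ u := Gn_nonneg hm _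

lemma Phi_le {m : ℕ} (hm : 2 ≤ m) (φ : ℝ → ℝ) (u : ℝ) : Phi m φ u ≤ kk m := Gn_le hm _

/-- **The number of the tuples with large height.** -/
theorem Hi_formula {m : ℕ} (hm : 2 ≤ m) {K : ℝ} (hK : 1 / ((m : ℝ) + 1) < K) :
    ∃ C ν : ℝ, 0 < C ∧ 0 < ν ∧ ν ≤ 1 / 3 ∧ ∀ φ : ℝ → ℝ, Monotone φ →
    (∀ t, 0 < φ t) → ∀ X : ℝ, 1 ≤ X →
    |((Hi m K X φ X).ncard : ℝ) - ∫ u in (0 : ℝ)..(X ^ ((m : ℝ) / (m + 1))), Phi m φ u| ≤
      C * X ^ ((m : ℝ) / (m + 1) - ν) := by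
  obtain ⟨C, ν, hC, hν, hν1, h⟩ := Ez_law hm hK
  have hk := kk_pos hm
  have hmr : (2 : ℝ) ≤ m := by exact_mod_cast hm
  obtain ⟨e0, he0⟩ : ∃ e0 : ℝ, e0 = (m : ℝ) / (m + 1) := ⟨_, rfl⟩
  obtain ⟨e1, he1⟩ : ∃ e1 : ℝ, e1 = ((m : ℝ) + 1) / m := ⟨_, rfl⟩
  have he00 : 0 < e0 := by rw [he0]; positivity
  have he10 : 0 < e1 := by rw [he1]; positivity
  have he01 : e0 * e1 = 1 := by
    rw [he0, he1]
    field_simp
  have he10' : e1 * e0 = 1 := by rw [mul_comm]; exact he01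
  refine ⟨kk m + 4 * C, ν / 2, by positivity, by positivity, by linarith,
    fun φ hφ hφ0 X hX => ?_⟩
  rw [← he0] at h ⊢
  have hX0 : 0 < X := by linarith
  obtain ⟨J, hJ⟩ : ∃ J : ℕ, J = ⌈X ^ (ν / 2)⌉₊ := ⟨_, rfl⟩
  have hJ1 : X ^ (ν / 2) ≤ J := by rw [hJ]; exact Nat.le_ceil _
  have h1X : 1 ≤ X ^ (ν / 2) := Real.one_le_rpow hX (by positivity)
  have hJ2 : (J : ℝ) ≤ 2 * X ^ (ν / 2) := by
    rw [hJ]
    have := Nat.ceil_lt_add_one (by positivity : 0 ≤ X ^ (ν / 2))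
    linarith
  have hJ0 : (0 : ℝ) < J := by linarith
  obtain ⟨U, hU⟩ : ∃ U : ℝ, U = X ^ e0 := ⟨_, rfl⟩
  have hU0 : 0 < U := by rw [hU]; positivity
  have hUX : U ^ e1 = X := by
    rw [hU, ← Real.rpow_mul hX0.le, he01, Real.rpow_one]
  rw [← hU]
  obtain ⟨d, hd⟩ : ∃ d : ℝ, d = U / J := ⟨_, rfl⟩
  have hd0 : 0 < d := by rw [hd]; positivity
  have hJd : (J : ℝ) * d = U := by rw [hd]; field_simp
  obtain ⟨E, hE⟩ : ∃ E : ℝ, E = C * X ^ (e0 - ν) := ⟨_, rfl⟩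
  -- the blocks
  have hblock : ∀ j ∈ range J,
      ((Hi m K X φ ((((j + 1 : ℕ) : ℝ) * d) ^ e1)).ncard : ℝ) -
        (Hi m K X φ (((j : ℝ) * d) ^ e1)).ncard ≤ d * Phi m φ ((j : ℝ) * d) + 2 * E ∧
      d * Phi m φ (((j + 1 : ℕ) : ℝ) * d) - 2 * E ≤
        ((Hi m K X φ ((((j + 1 : ℕ) : ℝ) * d) ^ e1)).ncard : ℝ) -
          (Hi m K X φ (((j : ℝ) * d) ^ e1)).ncard := by
    intro j hj
    rw [mem_range] at hj
    obtain ⟨u, hu⟩ : ∃ u : ℝ, u = (j : ℝ) * d := ⟨_, rfl⟩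
    obtain ⟨v, hv⟩ : ∃ v : ℝ, v = ((j + 1 : ℕ) : ℝ) * d := ⟨_, rfl⟩
    rw [← hu, ← hv]
    have hu0 : 0 ≤ u := by rw [hu]; positivity
    have hvu : v - u = d := by rw [hu, hv]; push_cast; ring
    have huv : u ≤ v := by linarith
    have hv0 : 0 ≤ v := by linarith
    have hvU : v ≤ U := by
      rw [hv, ← hJd]
      refine mul_le_mul_of_nonneg_right ?_ hd0.le
      exact_mod_cast hj
    have hvX : v ^ e1 ≤ X := by
      rw [← hUX]
      exact Real.rpow_le_rpow hv0 hvU he10.le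
    have hle : u ^ e1 ≤ v ^ e1 := Real.rpow_le_rpow hu0 huv he10.le
    have huX : u ^ e1 ≤ X := hle.trans hvX
    have e23 : ∀ t : ℝ, 0 ≤ t → (t ^ e1) ^ e0 = t := by
      intro t ht
      rw [← Real.rpow_mul ht, he10', Real.rpow_one]
    have hP : ∀ t : ℝ, 0 ≤ t → Phi m φ t = Gn m (φ (t ^ e1)) := by
      intro t ht
      unfold Phi
      rw [max_eq_left ht, ← he1]
    obtain ⟨g1, g2⟩ := block (m := m) (K := K) (X := X) hφ hle
    have k1 := h X (u ^ e1) (φ (u ^ e1)) hX (by positivity) huX (hφ0 _)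
    have k2 := h X (v ^ e1) (φ (u ^ e1)) hX (by positivity) hvX (hφ0 _)
    have k3 := h X (u ^ e1) (φ (v ^ e1)) hX (by positivity) huX (hφ0 _)
    have k4 := h X (v ^ e1) (φ (v ^ e1)) hX (by positivity) hvX (hφ0 _)
    rw [e23 u hu0, ← hP u hu0, ← hE] at k1
    rw [e23 v hv0, ← hP u hu0, ← hE] at k2
    rw [e23 u hu0, ← hP v hv0, ← hE] at k3
    rw [e23 v hv0, ← hP v hv0, ← hE] at k4
    have e1 : d * Phi m φ u = v * Phi m φ u - u * Phi m φ u := by rw [← hvu]; ring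
    have e2 : d * Phi m φ v = v * Phi m φ v - u * Phi m φ v := by rw [← hvu]; ring
    rw [e1, e2]
    obtain ⟨a1, a2⟩ := abs_le.1 k1
    obtain ⟨a3, a4⟩ := abs_le.1 k2
    obtain ⟨a5, a6⟩ := abs_le.1 k3
    obtain ⟨a7, a8⟩ := abs_le.1 k4
    constructor <;> linarith
  -- the telescoping
  have htel := sum_range_sub (fun j : ℕ =>
    ((Hi m K X φ (((j : ℝ) * d) ^ e1)).ncard : ℝ)) J
  have hzero : ((Hi m K X φ ((((0 : ℕ) : ℝ) * d) ^ e1)).ncard : ℝ) = 0 := by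
    rw [Nat.cast_zero, zero_mul, Real.zero_rpow he10.ne']
    have : Hi m K X φ 0 = ∅ := by
      rw [Set.eq_empty_iff_forall_notMem]
      rintro x ⟨-, h2, -⟩
      exact absurd (radr_pos (pr x)) (not_lt.2 h2)
    rw [this, Set.ncard_empty, Nat.cast_zero]
  rw [hzero, sub_zero, hJd, hUX] at htel
  have hup := sum_le_sum fun j hj => (hblock j hj).1
  have hlo := sum_le_sum fun j hj => (hblock j hj).2
  rw [htel, sum_add_distrib, sum_const, card_range, nsmul_eq_mul, ← mul_sum] at hup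
  rw [htel, sum_sub_distrib, sum_const, card_range, nsmul_eq_mul, ← mul_sum] at hlo
  -- the integral
  have hganti : Antitone (fun t : ℝ => Phi m φ (t * d)) := by
    intro t t' ht
    exact Phi_anti hm hφ hφ0 (mul_le_mul_of_nonneg_right ht hd0.le)
  have i1 := AntitoneOn.integral_le_sum (x₀ := 0) (a := J) (f := fun t : ℝ => Phi m φ (t * d))
    (hganti.antitoneOn _)
  have i2 := AntitoneOn.sum_le_integral (x₀ := 0) (a := J) (f := fun t : ℝ => Phi m φ (t * d))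
    (hganti.antitoneOn _)
  simp only [zero_add] at i1 i2
  have hint : ∫ t in (0 : ℝ)..J, Phi m φ (t * d) = d⁻¹ * ∫ u in (0 : ℝ)..U, Phi m φ u := by
    rw [intervalIntegral.integral_comp_mul_right (Phi m φ) hd0.ne', zero_mul, hJd, smul_eq_mul]
  rw [hint] at i1 i2
  have e := Finset.sum_range_succ' (fun i : ℕ => Phi m φ ((i : ℝ) * d)) J
  have e' := Finset.sum_range_succ (fun i : ℕ => Phi m φ ((i : ℝ) * d)) J
  have n1 : 0 ≤ Phi m φ ((J : ℝ) * d) := Gn_nonneg hm _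
  have n2 : Phi m φ (((0 : ℕ) : ℝ) * d) ≤ kk m := Gn_le hm _
  have hS : ∑ i ∈ range J, Phi m φ ((i : ℝ) * d) ≤
      kk m + ∑ i ∈ range J, Phi m φ (((i + 1 : ℕ) : ℝ) * d) := by linarith
  have hI : ∫ u in (0 : ℝ)..U, Phi m φ u = d * (d⁻¹ * ∫ u in (0 : ℝ)..U, Phi m φ u) := by
    rw [← mul_assoc, mul_inv_cancel₀ hd0.ne', one_mul]
  have j1 := mul_le_mul_of_nonneg_left i1 hd0.le
  have j2 := mul_le_mul_of_nonneg_left i2 hd0.le
  have j3 := mul_le_mul_of_nonneg_left hS hd0.le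
  rw [← hI] at j1 j2
  rw [mul_add] at j3
  -- the errors
  have hdle : d * kk m ≤ kk m * X ^ (e0 - ν / 2) := by
    rw [mul_comm]
    refine mul_le_mul_of_nonneg_left ?_ hk.le
    rw [hd, div_le_iff₀ hJ0, hU]
    calc X ^ e0 = X ^ (e0 - ν / 2) * X ^ (ν / 2) := by
          rw [← Real.rpow_add hX0]
          congr 1
          ring
      _ ≤ X ^ (e0 - ν / 2) * J := mul_le_mul_of_nonneg_left hJ1 (by positivity)
  have hJE : (J : ℝ) * (2 * E) ≤ 4 * C * X ^ (e0 - ν / 2) := by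
    calc (J : ℝ) * (2 * E) ≤ (2 * X ^ (ν / 2)) * (2 * E) :=
          mul_le_mul_of_nonneg_right hJ2 (by rw [hE]; positivity)
      _ = 4 * C * (X ^ (e0 - ν) * X ^ (ν / 2)) := by rw [hE]; ring
      _ = 4 * C * X ^ (e0 - ν / 2) := by
          rw [← Real.rpow_add hX0]
          congr 2
          ring
  rw [add_mul, abs_le]
  constructor <;> linarith

/-- **The number of the tuples with large height**, for functions on `[1, ∞)`. -/
theorem Hi_final {m : ℕ} (hm : 2 ≤ m) {K : ℝ} (hK : 1 / ((m : ℝ) + 1) < K) :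
    ∃ C ν : ℝ, 0 < C ∧ 0 < ν ∧ ν ≤ 1 / 3 ∧ ∀ φ : ℝ → ℝ,
    MonotoneOn φ (Set.Ici 1) → (∀ t : ℝ, 1 ≤ t → 0 < φ t) → ∀ X : ℝ, 1 ≤ X →
    |((Hi m K X φ X).ncard : ℝ) -
      ∫ u in (1 : ℝ)..(X ^ ((m : ℝ) / (m + 1))), Gn m (φ (u ^ (((m : ℝ) + 1) / m)))| ≤
        C * X ^ ((m : ℝ) / (m + 1) - ν) := by
  obtain ⟨C, ν, hC, hν, hν1, h⟩ := Hi_formula hm hK
  have hk := kk_pos hm
  have hmr : (2 : ℝ) ≤ m := by exact_mod_cast hm
  obtain ⟨e0, he0⟩ : ∃ e0 : ℝ, e0 = (m : ℝ) / (m + 1) := ⟨_, rfl⟩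
  obtain ⟨e1, he1⟩ : ∃ e1 : ℝ, e1 = ((m : ℝ) + 1) / m := ⟨_, rfl⟩
  have he0' : 2 / 3 ≤ e0 := by
    rw [he0, div_le_div_iff₀ (by norm_num) (by positivity)]
    linarith
  have he10 : 0 < e1 := by rw [he1]; positivity
  refine ⟨C + kk m, ν, by positivity, hν, hν1, fun φ hφ hφ0 X hX => ?_⟩
  rw [← he0] at h ⊢
  rw [← he1]
  have hX0 : 0 < X := by linarith
  obtain ⟨ψ, hψ⟩ : ∃ ψ : ℝ → ℝ, ∀ t, ψ t = φ (max t 1) := ⟨fun t => φ (max t 1), fun _ => rfl⟩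
  have hψm : Monotone ψ := by
    intro t t' ht
    rw [hψ, hψ]
    exact hφ (Set.mem_Ici.2 (le_max_right t 1)) (Set.mem_Ici.2 (le_max_right t' 1))
      (max_le_max ht le_rfl)
  have hψ0 : ∀ t, 0 < ψ t := fun t => by rw [hψ]; exact hφ0 _ (le_max_right _ _)
  have h1 := h ψ hψm hψ0 X hX
  have hHi : Hi m K X ψ X = Hi m K X φ X := by
    ext x
    unfold Hi
    rw [Set.mem_ofPred_eq, Set.mem_ofPred_eq, hψ, max_eq_left (radr_one (pr x))]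
  rw [hHi] at h1
  have hU1 : 1 ≤ X ^ e0 := Real.one_le_rpow hX (by linarith)
  have hi : ∀ a b : ℝ, IntervalIntegrable (Phi m ψ) volume a b :=
    fun a b => (Phi_anti hm hψm hψ0).intervalIntegrable
  have hsplit := intervalIntegral.integral_add_adjacent_intervals (hi 0 1) (hi 1 (X ^ e0))
  have hcongr : ∫ u in (1 : ℝ)..(X ^ e0), Phi m ψ u =
      ∫ u in (1 : ℝ)..(X ^ e0), Gn m (φ (u ^ e1)) := by
    refine intervalIntegral.integral_congr fun u hu => ?_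
    rw [Set.uIcc_of_le hU1] at hu
    have hu1 : 1 ≤ u := hu.1
    simp only [Phi]
    rw [max_eq_left (by linarith : (0 : ℝ) ≤ u), hψ, ← he1,
      max_eq_left (Real.one_le_rpow hu1 he10.le)]
  have hsmall : |∫ u in (0 : ℝ)..1, Phi m ψ u| ≤ kk m := by
    rw [abs_of_nonneg (intervalIntegral.integral_nonneg zero_le_one fun u _ => Phi_nonneg hm ψ u)]
    have h3 : ∫ u in (0 : ℝ)..1, Phi m ψ u ≤ ∫ _u in (0 : ℝ)..1, kk m :=
      intervalIntegral.integral_mono_on zero_le_one (hi 0 1) intervalIntegrable_const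
        fun u _ => Phi_le hm ψ u
    rw [intervalIntegral.integral_const, sub_zero, one_smul] at h3
    exact h3
  rw [← hcongr]
  rw [← hsplit] at h1
  have h1X : 1 ≤ X ^ (e0 - ν) := Real.one_le_rpow hX (by linarith)
  have h4 : kk m * 1 ≤ kk m * X ^ (e0 - ν) := mul_le_mul_of_nonneg_left h1X hk.le
  obtain ⟨a1, a2⟩ := abs_le.1 h1
  obtain ⟨a3, a4⟩ := abs_le.1 hsmall
  rw [add_mul, abs_le]
  constructor <;> linarith

end Pool.Agent.V7H9.SN
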