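import Pool.Agent.V7H9.SN.Vol2

set_option autoImplicit false

/-!
# The law, uniformly for the radicals up to `Y ≤ X`
-/

namespace Pool.Agent.V7H9.SN

open Finset MeasureTheory Pool.Agent.H785R2.ABC

/-- radical at most `Y`, height at most `X ^ K` -/
def TY (m : ℕ) (K X Y : ℝ) (A : ℕ → Set (Fin m → ℝ)) : Set (Fin (m + 1) → ℤ) :=
  {x | ((∀ i, x i ≠ 0) ∧ (∀ i j, i ≠ j → IsCoprime (x i) (x j)) ∧ ∑ i, x i = 0) ∧
    (rad (pr x) : ℝ) ≤ Y ∧ (∀ i, |(x i : ℝ)| ≤ X ^ K) ∧ sp Y x ∈ A (rp x)}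

lemma TY_finite (m : ℕ) (K X Y : ℝ) (A : ℕ → Set (Fin m → ℝ)) : (TY m K X Y A).Finite :=
  (box_finite (m + 1) (X ^ K)).1.subset fun _ hx => hx.2.2.1

theorem uni {m : ℕ} (hm : 2 ≤ m) (k : ℕ) {K : ℝ} (hK : 1 / ((m : ℝ) + 1) < K) :
    ∃ C ν : ℝ, 0 < C ∧ 0 < ν ∧ ν ≤ 1 / 3 ∧ ∀ (X Y : ℝ) (A : ℕ → Set (Fin m → ℝ)), 1 ≤ X → 0 ≤ Y →
      Y ≤ X → (∀ w, MeasurableSet (A w)) →
      (∀ w (i : Fin m) (y : Fin m → ℝ), Nice k {t | Function.update y i t ∈ A w}) →
      |((TY m K X Y A).ncard : ℝ) - Y ^ ((m : ℝ) / (m + 1)) * LM m A| ≤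
        C * X ^ ((m : ℝ) / (m + 1) - ν) := by
  have hmr : (2 : ℝ) ≤ m := by exact_mod_cast hm
  have hK0 : 0 < K := lt_trans (by positivity) hK
  have hK2 : 1 / ((m : ℝ) + 1) < 2 * K := by linarith
  obtain ⟨C1, ν1, hC1, hν1, h1⟩ := law hm k hK
  obtain ⟨C2, ν2, hC2, hν2, h2⟩ := law hm k hK2
  obtain ⟨C3, ν3, hC3, hν3, h3⟩ := law hm 1 hK2
  obtain ⟨e0, he0⟩ : ∃ e0 : ℝ, e0 = (m : ℝ) / (m + 1) := ⟨_, rfl⟩
  have he1 : 2 / 3 ≤ e0 := by
    rw [he0, div_le_div_iff₀ (by norm_num) (by positivity)]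
    linarith
  obtain ⟨ν, hν⟩ : ∃ ν : ℝ, ν = min (min ν1 ν2) (1 / 3) := ⟨_, rfl⟩
  have hνp : 0 < ν := by rw [hν]; exact lt_min (lt_min hν1 hν2) (by norm_num)
  have hνa : ν ≤ ν1 := by rw [hν]; exact (min_le_left _ _).trans (min_le_left _ _)
  have hνb : ν ≤ ν2 := by rw [hν]; exact (min_le_left _ _).trans (min_le_right _ _)
  have hνc : ν ≤ 1 / 3 := by rw [hν]; exact min_le_right _ _
  have hVI := VI_pos (m := m) (by omega)
  have hC0 := C0_pos hm
  have hS := S_pos hm
  obtain ⟨M, hM⟩ : ∃ M : ℝ, M = C0 m * VI m * ∑' w, wgt m w := ⟨_, rfl⟩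
  have hM0 : 0 < M := by rw [hM]; positivity
  refine ⟨C1 + C2 + C3 + 2 * M, ν, by positivity, hνp, hνc, fun X Y A hX hY0 hYX hA hsec => ?_⟩
  rw [← he0] at h1 h2 h3 ⊢
  have hX0 : 0 < X := by linarith
  have hXp : 0 < X ^ (e0 - ν) := by positivity
  have hcard : (0 : ℝ) ≤ (TY m K X Y A).ncard := Nat.cast_nonneg _
  rcases le_or_gt (X ^ ((1 : ℝ) / 2)) Y with hY | hY
  · have hY1 : 1 ≤ Y := (Real.one_le_rpow hX (by norm_num)).trans hY
    have s1 : TS m K Y A ⊆ TY m K X Y A := by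
      rintro x ⟨a1, a2, a3, a4⟩
      exact ⟨a1, a2, fun i => (a3 i).trans (Real.rpow_le_rpow hY0 hYX hK0.le), a4⟩
    have s2 : TY m K X Y A ⊆ TS m (2 * K) Y A := by
      rintro x ⟨a1, a2, a3, a4⟩
      refine ⟨a1, a2, fun i => (a3 i).trans ?_, a4⟩
      have h4 : X ≤ Y ^ (2 : ℝ) := by
        have h5 := Real.rpow_le_rpow (by positivity) hY (by norm_num : (0 : ℝ) ≤ 2)
        rw [← Real.rpow_mul hX0.le] at h5
        norm_num at h5
        simpa using h5
      calc X ^ K ≤ (Y ^ (2 : ℝ)) ^ K := Real.rpow_le_rpow hX0.le h4 hK0.le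
        _ = Y ^ (2 * K) := by rw [← Real.rpow_mul hY0]
    have c1 : ((TS m K Y A).ncard : ℝ) ≤ (TY m K X Y A).ncard := by
      exact_mod_cast Set.ncard_le_ncard s1 (TY_finite _ _ _ _ _)
    have c2 : ((TY m K X Y A).ncard : ℝ) ≤ (TS m (2 * K) Y A).ncard := by
      exact_mod_cast Set.ncard_le_ncard s2 (TS_finite _ _ _ _)
    have k1 := h1 Y A hY1 hA hsec
    have k2 := h2 Y A hY1 hA hsec
    have q1 : Y ^ (e0 - ν1) ≤ X ^ (e0 - ν) :=
      (Real.rpow_le_rpow_of_exponent_le hY1 (by linarith)).trans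
        (Real.rpow_le_rpow hY0 hYX (by linarith))
    have q2 : Y ^ (e0 - ν2) ≤ X ^ (e0 - ν) :=
      (Real.rpow_le_rpow_of_exponent_le hY1 (by linarith)).trans
        (Real.rpow_le_rpow hY0 hYX (by linarith))
    have q3 := mul_le_mul_of_nonneg_left q1 hC1.le
    have q4 := mul_le_mul_of_nonneg_left q2 hC2.le
    obtain ⟨a1, a2⟩ := abs_le.1 k1
    obtain ⟨a3, a4⟩ := abs_le.1 k2
    have p1 : 0 < C1 * X ^ (e0 - ν) := by positivity
    have p2 : 0 < C2 * X ^ (e0 - ν) := by positivity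
    have p3 : 0 < (C3 + 2 * M) * X ^ (e0 - ν) := by positivity
    have hf : (C1 + C2 + C3 + 2 * M) * X ^ (e0 - ν) =
      C1 * X ^ (e0 - ν) + C2 * X ^ (e0 - ν) + (C3 + 2 * M) * X ^ (e0 - ν) := by ring
    rw [hf, abs_le]
    constructor <;> linarith
  · obtain ⟨Z, hZ⟩ : ∃ Z : ℝ, Z = X ^ ((1 : ℝ) / 2) := ⟨_, rfl⟩
    rw [← hZ] at hY
    have hZ1 : 1 ≤ Z := by rw [hZ]; exact Real.one_le_rpow hX (by norm_num)
    have hZ0 : 0 < Z := by linarith
    have hZK : Z ^ (2 * K) = X ^ K := by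
      rw [hZ, ← Real.rpow_mul hX0.le]
      congr 1
      ring
    have s1 : TY m K X Y A ⊆ TS m (2 * K) Z (fun _ => Set.univ) := by
      rintro x ⟨a1, a2, a3, a4⟩
      exact ⟨a1, a2.trans hY.le, fun i => (a3 i).trans hZK.ge, Set.mem_univ _⟩
    have c1 : ((TY m K X Y A).ncard : ℝ) ≤ (TS m (2 * K) Z (fun _ => Set.univ)).ncard := by
      exact_mod_cast Set.ncard_le_ncard s1 (TS_finite _ _ _ _)
    have k1 := h3 Z (fun _ => Set.univ) hZ1 (fun _ => MeasurableSet.univ)
      (fun _ _ _ => nice_ord Set.ordConnected_univ)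
    have hLM : LM m (fun _ => Set.univ) ≤ M := by rw [hM]; exact LM_le hm _
    have hLA : LM m A ≤ M := by rw [hM]; exact LM_le hm _
    have hLA0 := LM_nonneg hm A
    have hZe : Z ^ e0 ≤ X ^ (e0 - ν) := by
      rw [hZ, ← Real.rpow_mul hX0.le]
      exact Real.rpow_le_rpow_of_exponent_le hX (by linarith)
    have hZe3 : Z ^ (e0 - ν3) ≤ X ^ (e0 - ν) :=
      (Real.rpow_le_rpow_of_exponent_le hZ1 (by linarith)).trans hZe
    have hYe : Y ^ e0 ≤ X ^ (e0 - ν) := (Real.rpow_le_rpow hY0 hY.le (by linarith)).trans hZe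
    have b1 : Z ^ e0 * LM m (fun _ => Set.univ) ≤ X ^ (e0 - ν) * M :=
      mul_le_mul hZe hLM (LM_nonneg hm _) hXp.le
    have b2 : Y ^ e0 * LM m A ≤ X ^ (e0 - ν) * M := mul_le_mul hYe hLA hLA0 hXp.le
    have b3 : 0 ≤ Y ^ e0 * LM m A := by positivity
    have b4 := mul_le_mul_of_nonneg_left hZe3 hC3.le
    obtain ⟨a1, a2⟩ := abs_le.1 k1
    have p1 : 0 < C1 * X ^ (e0 - ν) := by positivity
    have p2 : 0 < C2 * X ^ (e0 - ν) := by positivity
    have p3 : 0 < C3 * X ^ (e0 - ν) := by positivity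
    have p4 : 0 < M * X ^ (e0 - ν) := by positivity
    have hf : (C1 + C2 + C3 + 2 * M) * X ^ (e0 - ν) =
      C1 * X ^ (e0 - ν) + C2 * X ^ (e0 - ν) + C3 * X ^ (e0 - ν) + 2 * (M * X ^ (e0 - ν)) := by ring
    rw [hf, abs_le]
    constructor <;> linarith

/-! ### The region of the tuples with small height -/

lemma nice_univ : Nice 1 (Set.univ : Set ℝ) := nice_ord Set.ordConnected_univ

lemma nice_iInter {k n : ℕ} {S : Fin n → Set ℝ} (h : ∀ j, Nice k (S j)) :
    Nice (k ^ n) (⋂ j, S j) := by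
  induction n with
  | zero =>
    rw [Set.iInter_of_empty, pow_zero]
    exact nice_univ
  | succ n ih =>
    have e : (⋂ j, S j) = (⋂ j : Fin n, S j.succ) ∩ S 0 := by
      ext t
      simp only [Set.mem_iInter, Set.mem_inter_iff]
      constructor
      · intro h
        exact ⟨fun j => h _, h 0⟩
      · rintro ⟨h1, h2⟩ j
        refine Fin.cases h2 (fun i => h1 i) j
    rw [e, pow_succ]
    exact nice_inter (ih fun j => h _) (h 0)

lemma nice_union {k l : ℕ} {S T : Set ℝ} (hS : Nice k S) (hT : Nice l T) (hd : Disjoint S T) :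
    Nice (k + l) (S ∪ T) := by
  obtain ⟨f, f1, f2, f3⟩ := hS
  obtain ⟨g, g1, g2, g3⟩ := hT
  refine ⟨Fin.append f g, ?_, ?_, ?_⟩
  · intro j
    refine Fin.addCases (fun i => ?_) (fun i => ?_) j
    · rw [Fin.append_left]; exact f1 i
    · rw [Fin.append_right]; exact g1 i
  · have hfg : ∀ i j, Disjoint (f i) (g j) := fun i j => by
      refine hd.mono ?_ ?_
      · rw [f3]; exact Set.subset_iUnion f i
      · rw [g3]; exact Set.subset_iUnion g j
    intro i j
    refine Fin.addCases (fun i => ?_) (fun i => ?_) i <;>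
      refine Fin.addCases (fun j => ?_) (fun j => ?_) j
    · intro hij
      simp only [Function.onFun, Fin.append_left]
      exact f2 fun h => hij (by rw [h])
    · intro _
      simp only [Function.onFun, Fin.append_left, Fin.append_right]
      exact hfg i j
    · intro _
      simp only [Function.onFun, Fin.append_left, Fin.append_right]
      exact (hfg j i).symm
    · intro hij
      simp only [Function.onFun, Fin.append_right]
      exact g2 fun h => hij (by rw [h])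
  · rw [f3, g3]
    ext t
    simp only [Set.mem_union, Set.mem_iUnion]
    constructor
    · rintro (⟨i, hi⟩ | ⟨i, hi⟩)
      · exact ⟨Fin.castAdd l i, by rwa [Fin.append_left]⟩
      · exact ⟨Fin.natAdd k i, by rwa [Fin.append_right]⟩
    · rintro ⟨i, hi⟩
      revert hi
      refine Fin.addCases (fun i => ?_) (fun i => ?_) i
      · rw [Fin.append_left]; exact fun hi => Or.inl ⟨i, hi⟩
      · rw [Fin.append_right]; exact fun hi => Or.inr ⟨i, hi⟩

/-- a power against a linear form -/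
lemma nice_pow {m : ℕ} {w b p q : ℝ} (hw : 0 ≤ w) (hb : 0 ≤ b) :
    Nice 2 {t : ℝ | w * |t + p| ^ m < b * |t + q|} := by
  have hconv : ConvexOn ℝ Set.univ fun t : ℝ => w * |t + p| ^ m := by
    have h1 : ConvexOn ℝ Set.univ fun t : ℝ => |t + p| := by
      refine ⟨convex_univ, fun x _ y _ a c ha hc hac => ?_⟩
      simp only [smul_eq_mul]
      have e : a * x + c * y + p = a * (x + p) + c * (y + p) := by
        have : p = (a + c) * p := by rw [hac, one_mul]
        nlinarith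
      rw [e]
      refine (abs_add_le _ _).trans ?_
      rw [abs_mul, abs_mul, abs_of_nonneg ha, abs_of_nonneg hc]
    have h2 := h1.pow (fun t _ => abs_nonneg _) m
    have h3 := h2.smul hw
    exact h3
  have hlin : ∀ c d : ℝ, ConvexOn ℝ Set.univ fun t : ℝ => c * t + d := by
    intro c d
    refine ⟨convex_univ, fun x _ y _ a e _ _ hac => ?_⟩
    simp only [smul_eq_mul]
    have : d = (a + e) * d := by rw [hac, one_mul]
    nlinarith
  have o1 : ({t : ℝ | w * |t + p| ^ m < b * (t + q)} : Set ℝ).OrdConnected := by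
    have h1 := ((hconv.add (hlin (-b) (-(b * q)))).convex_lt 0).ordConnected
    have e : ({t : ℝ | w * |t + p| ^ m < b * (t + q)} : Set ℝ) =
        {t | t ∈ Set.univ ∧ ((fun t : ℝ => w * |t + p| ^ m) + fun t : ℝ => -b * t + -(b * q)) t < 0} := by
      ext t
      simp only [Set.mem_ofPred_eq, Set.mem_univ, true_and, Pi.add_apply]
      constructor <;> intro h <;> linarith
    rw [e]
    exact h1
  have o2 : ({t : ℝ | w * |t + p| ^ m < -(b * (t + q))} : Set ℝ).OrdConnected := by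
    have h1 := ((hconv.add (hlin b (b * q))).convex_lt 0).ordConnected
    have e : ({t : ℝ | w * |t + p| ^ m < -(b * (t + q))} : Set ℝ) =
        {t | t ∈ Set.univ ∧ ((fun t : ℝ => w * |t + p| ^ m) + fun t : ℝ => b * t + (b * q)) t < 0} := by
      ext t
      simp only [Set.mem_ofPred_eq, Set.mem_univ, true_and, Pi.add_apply]
      constructor <;> intro h <;> linarith
    rw [e]
    exact h1
  have hpos : ∀ t : ℝ, 0 ≤ w * |t + p| ^ m := fun t => by positivity
  have hd : Disjoint ({t : ℝ | w * |t + p| ^ m < b * (t + q)} : Set ℝ)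
      {t : ℝ | w * |t + p| ^ m < -(b * (t + q))} := by
    rw [Set.disjoint_left]
    intro t h1 h2
    rw [Set.mem_ofPred_eq] at h1 h2
    have := hpos t
    linarith
  have h := nice_union (nice_ord o1) (nice_ord o2) hd
  have e : ({t : ℝ | w * |t + p| ^ m < b * |t + q|} : Set ℝ) =
      {t : ℝ | w * |t + p| ^ m < b * (t + q)} ∪ {t : ℝ | w * |t + p| ^ m < -(b * (t + q))} := by
    ext t
    simp only [Set.mem_union, Set.mem_ofPred_eq]
    rcases le_or_gt 0 (t + q) with h0 | h0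
    · rw [abs_of_nonneg h0]
      constructor
      · exact Or.inl
      · rintro (h1 | h1)
        · exact h1
        · have h2 := hpos t
          have h3 : 0 ≤ b * (t + q) := mul_nonneg hb h0
          linarith
    · rw [abs_of_neg h0, mul_neg]
      constructor
      · exact Or.inr
      · rintro (h1 | h1)
        · have h2 := hpos t
          have h3 : b * (t + q) ≤ 0 := mul_nonpos_of_nonneg_of_nonpos hb h0.le
          linarith
        · exact h1
  rw [e]
  exact h

/-- a constant against the product -/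
lemma nice_quad {c b s : ℝ} (hc : 0 ≤ c) (hb : 0 ≤ b) :
    Nice 3 {t : ℝ | c < b * (|t| * |s + t|)} := by
  have o1 := quad_ord (c := b) (s := s) (C := c) hb
  have o2 := quad_ord' (c := b) (s := s) (C := -c) hb
  have hd : Disjoint ({t : ℝ | b * (t * (s + t)) ≤ c}ᶜ) {t : ℝ | b * (t * (s + t)) < -c} := by
    rw [Set.disjoint_left]
    intro t h1 h2
    rw [Set.mem_compl_iff, Set.mem_ofPred_eq, not_le] at h1
    rw [Set.mem_ofPred_eq] at h2
    linarith
  have h := nice_union (nice_compl o1) (nice_ord o2) hd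
  have e : ({t : ℝ | c < b * (|t| * |s + t|)} : Set ℝ) =
      {t : ℝ | b * (t * (s + t)) ≤ c}ᶜ ∪ {t : ℝ | b * (t * (s + t)) < -c} := by
    ext t
    rw [Set.mem_union, Set.mem_compl_iff, Set.mem_ofPred_eq, Set.mem_ofPred_eq, Set.mem_ofPred_eq,
      not_le, ← abs_mul]
    have e1 : b * |t * (s + t)| = |b * (t * (s + t))| := by rw [abs_mul b, abs_of_nonneg hb]
    rw [e1, lt_abs]
    constructor
    · rintro (h1 | h1)
      · exact Or.inl h1
      · right; linarith
    · rintro (h1 | h1)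
      · exact Or.inl h1
      · right; linarith
  rw [e]
  exact h

end Pool.Agent.V7H9.SN
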