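import Pool.Agent.V7H9.SN.Gam

set_option autoImplicit false

/-!
# The volume of the cusps, with the exponent near `1`
-/

namespace Pool.Agent.V7H9.SN

open Finset MeasureTheory

/-- the dyadic step -/
theorem vol_step2 {m : ℕ} (hm : 1 ≤ m) {κ : ℝ} (hκ : 0 < κ) (hκ1 : κ < 1) : ∃ C : ℝ, 0 < C ∧
    ∀ T : ℝ, 1 ≤ T →
    (volume (RT m (2 * T))).toReal - (volume (RT m T)).toReal ≤ C * T ^ (-κ) := by
  classical
  have hmr : (1 : ℝ) ≤ m := by exact_mod_cast hm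
  obtain ⟨ε, hε⟩ : ∃ ε : ℝ, ε = (1 - κ) / (m : ℝ) ^ 2 := ⟨_, rfl⟩
  have hε0 : 0 < ε := by
    rw [hε]
    exact div_pos (by linarith) (by positivity)
  obtain ⟨C, hC, hcusp⟩ := cusp m hε0
  refine ⟨C + (5 * m + 1) * (5 * m) ^ (m - 1), by positivity, fun T hT => ?_⟩
  have hT0 : 0 < T := by linarith
  obtain ⟨x, hx⟩ : ∃ x : ℝ, x = T ^ m := ⟨_, rfl⟩
  have hx1 : 1 ≤ x := by rw [hx]; exact one_le_pow₀ hT
  have hx0 : 0 < x := by linarith
  obtain ⟨f2, c2⟩ := RT_count (m := m) (T := 2 * T) (by positivity) hx0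
  obtain ⟨f1, c1⟩ := RT_count (m := m) (T := T) (by positivity) hx0
  obtain ⟨N2, hN2⟩ : ∃ N2, N2 = {z : Fin m → ℤ | (fun i => (z i : ℝ) / x) ∈ RT m (2 * T)} := ⟨_, rfl⟩
  obtain ⟨N1, hN1⟩ : ∃ N1, N1 = {z : Fin m → ℤ | (fun i => (z i : ℝ) / x) ∈ RT m T} := ⟨_, rfl⟩
  rw [← hN2] at f2 c2
  rw [← hN1] at f1 c1
  have hsub : N1 ⊆ N2 := by
    rw [hN1, hN2]
    exact fun z hz => RT_mono (by linarith) hz
  have hdf : (N2 \ N1).Finite := f2.subset Set.sdiff_subset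
  have hd : (N2.ncard : ℝ) - N1.ncard = ((N2 \ N1).ncard : ℝ) := by
    rw [Set.ncard_sdiff hsub f1, Nat.cast_sub (Set.ncard_le_ncard hsub f2)]
  obtain ⟨G, hG⟩ : ∃ G : Finset (Fin m → ℤ), G = hdf.toFinset := ⟨_, rfl⟩
  have hGc : ((N2 \ N1).ncard : ℝ) = G.card := by
    rw [hG, Set.ncard_eq_toFinset_card _ hdf]
  have hmem : ∀ z ∈ G, (∏ i, |((full z i : ℤ) : ℝ)| ≤ x ^ (m + 1)) ∧ (∀ i, |(z i : ℝ)| ≤ 2 * T * x) ∧
      ∃ i, T * x < |(z i : ℝ)| := by
    intro z hz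
    rw [hG, Set.Finite.mem_toFinset, Set.mem_sdiff, hN1, hN2, Set.mem_ofPred_eq,
      Set.mem_ofPred_eq] at hz
    obtain ⟨⟨a1, a2⟩, a3⟩ := hz
    have b1 : ∏ i, |((full z i : ℤ) : ℝ)| ≤ x ^ (m + 1) := by
      simp only [full_div, abs_div, abs_of_pos hx0] at a1
      rw [prod_div_distrib, prod_const, card_univ, Fintype.card_fin,
        div_le_one (by positivity)] at a1
      simp only [full_cast]
      exact a1
    refine ⟨b1, fun i => ?_, ?_⟩
    · have := a2 i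
      simp only [abs_div, abs_of_pos hx0] at this
      rwa [div_le_iff₀ hx0] at this
    · by_contra hcon
      push Not at hcon
      apply a3
      refine ⟨a1, fun i => ?_⟩
      simp only [abs_div, abs_of_pos hx0]
      rw [div_le_iff₀ hx0]
      exact hcon i
  -- the two parts
  obtain ⟨G0, hG0⟩ : ∃ G0, G0 = G.filter fun z => ∃ i, full z i = 0 := ⟨_, rfl⟩
  obtain ⟨G1, hG1⟩ : ∃ G1, G1 = G.filter fun z => ¬ ∃ i, full z i = 0 := ⟨_, rfl⟩
  have hsplit : (G.card : ℝ) = G0.card + G1.card := by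
    rw [hG0, hG1]
    exact_mod_cast (card_filter_add_card_filter_not (s := G) (fun z => ∃ i, full z i = 0)).symm
  have hfi : Function.Injective (full : (Fin m → ℤ) → (Fin (m + 1) → ℤ)) := fun _ _ h => full_inj h
  obtain ⟨N, hN⟩ : ∃ N : ℕ, N = ⌊(m : ℝ) * (2 * T * x)⌋₊ := ⟨_, rfl⟩
  have hNr : (N : ℝ) ≤ m * (2 * T * x) := by
    rw [hN]
    exact Nat.floor_le (by positivity)
  have hTx : 1 ≤ T * x := by nlinarith
  have k0 : (G0.card : ℝ) ≤ (m + 1) * (5 * m * (T * x)) ^ (m - 1) := by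
    have h1 := zero_count (N := N) hm (G0.image full) (fun w hw => by
      obtain ⟨z, hz, rfl⟩ := mem_image.1 hw
      rw [hG0, mem_filter] at hz
      refine ⟨sum_full z, fun i => ?_, hz.2⟩
      rw [hN]
      exact full_abs_le hm (hmem z hz.1).2.1 i)
    rw [card_image_of_injective _ hfi] at h1
    have h2 : (G0.card : ℝ) ≤ (m + 1) * (2 * N + 1) ^ (m - 1) := by exact_mod_cast h1
    refine h2.trans (mul_le_mul_of_nonneg_left (pow_le_pow_left₀ (by positivity) ?_ _)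
      (by positivity))
    nlinarith
  have k1 : (G1.card : ℝ) ≤ C * (x ^ (m + 1) / (T * x)) ^ (1 + ε) := by
    have h1 := hcusp (x ^ (m + 1)) (T * x) (by positivity) (by positivity) (G1.image full)
      (fun w hw => by
        obtain ⟨z, hz, rfl⟩ := mem_image.1 hw
        rw [hG1, mem_filter] at hz
        obtain ⟨b1, b2, i, b3⟩ := hmem z hz.1
        refine ⟨fun i hi => hz.2 ⟨i, hi⟩, sum_full z, b1, i.succ, ?_⟩
        rw [full_succ]
        exact b3.le)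
    rwa [card_image_of_injective _ hfi] at h1
  -- the powers
  have hxm : (0 : ℝ) < x ^ m := by positivity
  have p1 : (x ^ (m + 1) / (T * x)) ^ (1 + ε) ≤ x ^ m * T ^ (-κ) := by
    have e1 : x ^ (m + 1) / (T * x) = T ^ ((m : ℝ) ^ 2 - 1) := by
      rw [Real.rpow_sub hT0, Real.rpow_one]
      have : T ^ ((m : ℝ) ^ 2) = x ^ m := by
        rw [hx, ← pow_mul, ← sq, ← Real.rpow_natCast T (m ^ 2)]
        push_cast
        rfl
      rw [this, pow_succ]
      field_simp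
    have e2 : x ^ m = T ^ ((m : ℝ) ^ 2) := by
      rw [hx, ← pow_mul, ← sq, ← Real.rpow_natCast T (m ^ 2)]
      push_cast
      rfl
    rw [e1, e2, ← Real.rpow_mul hT0.le, ← Real.rpow_add hT0]
    refine Real.rpow_le_rpow_of_exponent_le hT ?_
    have h3 : (m : ℝ) ^ 2 * ε = 1 - κ := by
      rw [hε]
      field_simp
    nlinarith
  have p2 : (T * x) ^ (m - 1) ≤ x ^ m * T ^ (-κ) := by
    have e1 : T * (T * x) ^ (m - 1) ≤ x ^ m := by
      obtain ⟨m', rfl⟩ : ∃ m', m = m' + 1 := ⟨m - 1, by omega⟩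
      rw [Nat.add_sub_cancel, mul_pow, ← mul_assoc, ← pow_succ', ← hx, pow_succ' x m']
    have e2 : (1 : ℝ) ≤ T * T ^ (-κ) := by
      rw [← Real.rpow_one_add' hT0.le (by linarith)]
      exact Real.one_le_rpow hT (by linarith)
    have e3 : 0 ≤ (T * x) ^ (m - 1) := by positivity
    have e4 : 0 ≤ T ^ (-κ) := by positivity
    calc (T * x) ^ (m - 1) = 1 * (T * x) ^ (m - 1) := (one_mul _).symm
      _ ≤ (T * T ^ (-κ)) * (T * x) ^ (m - 1) := mul_le_mul_of_nonneg_right e2 e3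
      _ = T ^ (-κ) * (T * (T * x) ^ (m - 1)) := by ring
      _ ≤ T ^ (-κ) * x ^ m := mul_le_mul_of_nonneg_left e1 e4
      _ = _ := mul_comm _ _
  have q1 : (m : ℝ) * 2 * (2 * (2 * T * x) + 1) ^ (m - 1) ≤
      m * 2 * (5 * m * (T * x)) ^ (m - 1) := by
    refine mul_le_mul_of_nonneg_left (pow_le_pow_left₀ (by positivity) ?_ _) (by positivity)
    nlinarith
  have q2 : (m : ℝ) * 2 * (2 * (T * x) + 1) ^ (m - 1) ≤
      m * 2 * (5 * m * (T * x)) ^ (m - 1) := by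
    refine mul_le_mul_of_nonneg_left (pow_le_pow_left₀ (by positivity) ?_ _) (by positivity)
    nlinarith
  have r1 := (abs_le.1 c2).1
  have r2 := (abs_le.1 c1).2
  have e5 : (5 * m * (T * x)) ^ (m - 1) = (5 * (m : ℝ)) ^ (m - 1) * (T * x) ^ (m - 1) := mul_pow _ _ _
  have s1 : x ^ m * ((volume (RT m (2 * T))).toReal - (volume (RT m T)).toReal) ≤
      C * (x ^ m * T ^ (-κ)) +
        (5 * m + 1) * (5 * (m : ℝ)) ^ (m - 1) * (x ^ m * T ^ (-κ)) := by
    have t1 := mul_le_mul_of_nonneg_left p1 hC.le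
    have t2 := mul_le_mul_of_nonneg_left p2
      (by positivity : 0 ≤ (5 * (m : ℝ) + 1) * (5 * (m : ℝ)) ^ (m - 1))
    rw [e5] at k0 q1 q2
    rw [hGc, hsplit] at hd
    nlinarith
  have s2 : x ^ m * ((volume (RT m (2 * T))).toReal - (volume (RT m T)).toReal) ≤
      x ^ m * ((C + (5 * m + 1) * (5 * m) ^ (m - 1)) * T ^ (-κ)) := by
    refine s1.trans (le_of_eq (by ring))
  exact le_of_mul_le_mul_left s2 hxm

/-- **The tail of the volume.** -/
theorem vol_tail2 {m : ℕ} (hm : 1 ≤ m) {κ : ℝ} (hκ : 0 < κ) (hκ1 : κ < 1) : ∃ C : ℝ, 0 < C ∧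
    ∀ T : ℝ, 1 ≤ T → volume (RI m \ RT m T) ≤ ENNReal.ofReal (C * T ^ (-κ)) := by
  obtain ⟨C, hC, hstep⟩ := vol_step2 hm hκ hκ1
  obtain ⟨r, hr⟩ : ∃ r : ℝ, r = (2 : ℝ) ^ (-κ) := ⟨_, rfl⟩
  have hr0 : 0 < r := by rw [hr]; positivity
  have hr1 : r < 1 := by
    rw [hr]
    exact Real.rpow_lt_one_of_one_lt_of_neg (by norm_num) (by linarith)
  refine ⟨C * (1 - r)⁻¹, by have : 0 < 1 - r := by linarith
                            positivity, fun T hT => ?_⟩
  have hT0 : 0 < T := by linarith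
  have hcov : RI m \ RT m T ⊆ ⋃ k : ℕ, RT m (2 * (2 ^ k * T)) \ RT m (2 ^ k * T) := by
    rintro y ⟨h1, h2⟩
    classical
    have hex : ∃ k : ℕ, y ∈ RT m (2 ^ k * T) := by
      obtain ⟨M, hM⟩ : ∃ M : ℝ, M = ∑ i, |y i| := ⟨_, rfl⟩
      obtain ⟨k, hk⟩ := pow_unbounded_of_one_lt M (one_lt_two (α := ℝ))
      refine ⟨k, h1, fun i => ?_⟩
      have h3 : |y i| ≤ M := by
        rw [hM]
        exact single_le_sum (f := fun i => |y i|) (fun i _ => abs_nonneg _) (mem_univ i)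
      have h4 : (2 : ℝ) ^ k ≤ 2 ^ k * T := le_mul_of_one_le_right (by positivity) hT
      linarith
    obtain ⟨k, hk⟩ : ∃ k, k = Nat.find hex := ⟨_, rfl⟩
    have hk1 : y ∈ RT m (2 ^ k * T) := by rw [hk]; exact Nat.find_spec hex
    have hk0 : k ≠ 0 := by
      rintro rfl
      rw [pow_zero, one_mul] at hk1
      exact h2 hk1
    obtain ⟨j, rfl⟩ : ∃ j, k = j + 1 := ⟨k - 1, by omega⟩
    rw [Set.mem_iUnion]
    refine ⟨j, ?_, fun hcon => ?_⟩
    · rw [← mul_assoc, ← pow_succ']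
      exact hk1
    · have := Nat.find_min' hex hcon
      omega
  refine (measure_mono hcov).trans ((measure_iUnion_le _).trans ?_)
  have hk : ∀ k : ℕ, volume (RT m (2 * (2 ^ k * T)) \ RT m (2 ^ k * T)) ≤
      ENNReal.ofReal (C * T ^ (-κ) * r ^ k) := by
    intro k
    have hTk : 1 ≤ 2 ^ k * T := by
      have : (1 : ℝ) ≤ 2 ^ k := one_le_pow₀ (by norm_num)
      nlinarith
    have h1 := hstep (2 ^ k * T) hTk
    rw [measure_sdiff (RT_mono (by linarith)) (RT_meas m _).nullMeasurableSet (RT_fin m _)]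
    rw [← ENNReal.ofReal_toReal (RT_fin m (2 * (2 ^ k * T))),
      ← ENNReal.ofReal_toReal (RT_fin m (2 ^ k * T)),
      ← ENNReal.ofReal_sub _ ENNReal.toReal_nonneg]
    refine ENNReal.ofReal_le_ofReal (h1.trans (le_of_eq ?_))
    rw [Real.mul_rpow (by positivity) hT0.le, hr, ← Real.rpow_natCast ((2 : ℝ) ^ (-κ)),
      ← Real.rpow_mul (by norm_num), mul_comm (-κ), Real.rpow_mul (by norm_num),
      Real.rpow_natCast]
    ring
  refine (ENNReal.tsum_le_tsum hk).trans ?_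
  have hsum : Summable fun k : ℕ => C * T ^ (-κ) * r ^ k :=
    (summable_geometric_of_lt_one hr0.le hr1).mul_left _
  rw [← ENNReal.ofReal_tsum_of_nonneg (fun k => by positivity) hsum, tsum_mul_left,
    tsum_geometric_of_lt_one hr0.le hr1]
  refine ENNReal.ofReal_le_ofReal (le_of_eq (by ring))

end Pool.Agent.V7H9.SN
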