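import Pool.Agent.V7H9.SN.Diff

set_option autoImplicit false

/-!
# Tuples with a large repeated part
-/

namespace Pool.Agent.V7H9.SN

open Finset Pool.Agent.H785R2.ABC Pool.Agent.H705R2.ABC Pool.Agent.W625.NC

/-- nonzero integers up to `X` with radical at most `R` -/
noncomputable def Sg (X : ℕ) (R : ℝ) : Finset ℤ := (Nz X).filter fun z => (rad z.natAbs : ℝ) ≤ R

lemma mem_Sg {X : ℕ} {R : ℝ} {z : ℤ} :
    z ∈ Sg X R ↔ (z ≠ 0 ∧ |z| ≤ X) ∧ (rad z.natAbs : ℝ) ≤ R := by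
  unfold Sg
  rw [mem_filter, mem_Nz]

lemma card_Sg {ε : ℝ} (hε : 0 < ε) : ∃ D : ℝ, 0 < D ∧ ∀ (X : ℕ) (R : ℝ), 1 ≤ X → 0 ≤ R →
    ((Sg X R).card : ℝ) ≤ D * (X : ℝ) ^ ε * R := by
  classical
  obtain ⟨D, hD, h⟩ := a4 ε hε
  refine ⟨2 * D, by positivity, fun X R hX hR => ?_⟩
  have h1 := sum_Nz (fun n => if (rad n : ℝ) ≤ R then (1 : ℝ) else 0) X
  rw [← sum_filter, ← sum_filter, sum_const, sum_const, nsmul_eq_mul, nsmul_eq_mul, mul_one,
    mul_one] at h1
  have h2 := h X hX R hR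
  unfold Sg
  rw [h1]
  linarith

/-- nonzero, pairwise coprime, sum zero, bounded -/
structure Ad {m : ℕ} (X : ℕ) (x : Fin (m + 1) → ℤ) : Prop where
  ne : ∀ i, x i ≠ 0
  cop : ∀ i j, i ≠ j → IsCoprime (x i) (x j)
  sum : ∑ i, x i = 0
  le : ∀ i, |x i| ≤ (X : ℤ)

lemma card_pi_ite {m : ℕ} (E : Finset (Fin (m + 1))) (A B : Finset ℤ) :
    (Fintype.piFinset fun l => if l ∈ E then A else B).card =
      A.card ^ E.card * B.card ^ (m + 1 - E.card) := by
  classical
  rw [Fintype.card_piFinset]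
  have h : ∀ l, (if l ∈ E then A else B).card = if l ∈ E then A.card else B.card := by
    intro l
    split_ifs <;> rfl
  simp only [h]
  rw [prod_ite, prod_const, prod_const]
  congr 2
  · simp
  · have h1 := card_filter_add_card_filter_not (s := (univ : Finset (Fin (m + 1)))) (fun l => l ∈ E)
    rw [card_univ, Fintype.card_fin] at h1
    have h2 : (univ.filter fun l => l ∈ E) = E := by simp
    rw [h2] at h1
    omega

lemma fib_card {α β : Type*} [DecidableEq β] (F : Finset α) (f : α → β) (t : Finset β)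
    (hf : ∀ a ∈ F, f a ∈ t) (M : ℝ) (hM : ∀ b ∈ t, ((F.filter fun a => f a = b).card : ℝ) ≤ M) :
    (F.card : ℝ) ≤ t.card * M := by
  rw [card_eq_sum_card_fiberwise (f := f) (t := t) (fun a ha => hf a ha)]
  push_cast
  refine (sum_le_sum hM).trans (le_of_eq ?_)
  rw [sum_const, nsmul_eq_mul]

lemma sign_mul_natAbs' (z : ℤ) : z = z.sign * (z.natAbs : ℤ) := (Int.sign_mul_natAbs z).symm

lemma sign_or {z : ℤ} (hz : z ≠ 0) : z.sign = 1 ∨ z.sign = -1 := by
  rcases lt_or_gt_of_ne hz with h | h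
  · exact Or.inr (Int.sign_eq_neg_one_of_neg h)
  · exact Or.inl (Int.sign_eq_one_of_pos h)

/-- tuples with a large part of exponent `i + 1` in the entry `j` -/
theorem fib_diff {m : ℕ} (hm : 2 ≤ m) (K : ℕ) {ε : ℝ} (hε : 0 < ε) : ∃ C : ℝ, 0 < C ∧
    ∀ (X : ℕ) (R U : ℝ) (j : Fin (m + 1)) (i : Fin (K + 1)), 1 ≤ (i : ℕ) → (i : ℕ) < K → 1 ≤ X →
    0 ≤ R → 1 ≤ U → ∀ F : Finset (Fin (m + 1) → ℤ), (∀ x ∈ F, Ad X x ∧
      (∀ l, (rad (x l).natAbs : ℝ) ≤ R) ∧ U ≤ (rd K (x j).natAbs {i} : ℝ)) →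
    (F.card : ℝ) ≤ C * (X : ℝ) ^ ε * (R ^ m * U ^ (-(1 / 2) : ℝ)) := by
  classical
  have hmr : (2 : ℝ) ≤ m := by exact_mod_cast hm
  obtain ⟨δ, hδ⟩ : ∃ δ : ℝ, δ = ε / m := ⟨_, rfl⟩
  have hδ0 : 0 < δ := by rw [hδ]; positivity
  obtain ⟨D, hD, hS⟩ := card_Sg hδ0
  obtain ⟨C1, hC1, hdc⟩ := diff_count K hδ0
  refine ⟨8 * D ^ (m - 2) * C1, by positivity, ?_⟩
  intro X R U j i hi1 hiK hX hR hU F hF
  obtain ⟨p, hp⟩ : ∃ p : Fin (m + 1), p ≠ j := by
    have : Nontrivial (Fin (m + 1)) := Fin.nontrivial_iff_two_le.2 (by omega)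
    exact exists_ne j
  obtain ⟨q, hq⟩ : ∃ q : Fin (m + 1), q ∉ ({j, p} : Finset (Fin (m + 1))) := by
    by_contra hc
    push Not at hc
    have h1 : (univ : Finset (Fin (m + 1))) ⊆ {j, p} := fun i _ => hc i
    have h2 := card_le_card h1
    rw [card_univ, Fintype.card_fin] at h2
    have h3 := card_le_two (a := j) (b := p)
    omega
  rw [mem_insert, mem_singleton, not_or] at hq
  obtain ⟨E, hE⟩ : ∃ E : Finset (Fin (m + 1)), E = {j, p, q} := ⟨_, rfl⟩
  have hEc : E.card = 3 := by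
    rw [hE]
    exact card_eq_three.2 ⟨j, p, q, hp.symm, Ne.symm hq.1, Ne.symm hq.2, rfl⟩
  have hjE : j ∈ E := by rw [hE]; simp
  have hpE : p ∈ E := by rw [hE]; simp
  have hqE : q ∈ E := by rw [hE]; simp
  have hEsum : ∀ g : Fin (m + 1) → ℤ, ∑ l ∈ E, g l = g j + g p + g q := by
    intro g
    rw [hE, sum_insert (by simp only [mem_insert, mem_singleton, not_or]
                           exact ⟨hp.symm, Ne.symm hq.1⟩), sum_pair (Ne.symm hq.2)]
    ring
  let f : (Fin (m + 1) → ℤ) → (Fin (m + 1) → ℤ) := fun x l => if l ∈ E then (x l).sign else x l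
  obtain ⟨t, ht⟩ : ∃ t : Finset (Fin (m + 1) → ℤ),
    t = Fintype.piFinset fun l => if l ∈ E then ({1, -1} : Finset ℤ) else Sg X R := ⟨_, rfl⟩
  have hft : ∀ x ∈ F, f x ∈ t := by
    intro x hx
    obtain ⟨h1, h2, h3⟩ := hF x hx
    rw [ht, Fintype.mem_piFinset]
    intro l
    simp only [f]
    split_ifs
    · rw [mem_insert, mem_singleton]
      exact sign_or (h1.ne l)
    · exact mem_Sg.2 ⟨⟨h1.ne l, h1.le l⟩, h2 l⟩
  obtain ⟨y, hy⟩ : ∃ y : ℝ, y = (X : ℝ) ^ δ := ⟨_, rfl⟩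
  have hXr : (1 : ℝ) ≤ X := by exact_mod_cast hX
  have hy1 : 1 ≤ y := by rw [hy]; exact Real.one_le_rpow hXr hδ0.le
  have htc : (t.card : ℝ) ≤ 8 * (D * y * R) ^ (m - 2) := by
    rw [ht, card_pi_ite, hEc]
    have h1 : ({1, -1} : Finset ℤ).card = 2 := by decide
    rw [h1]
    push_cast
    have h2 := hS X R hX hR
    rw [← hy] at h2
    have h4 := pow_le_pow_left₀ (Nat.cast_nonneg _) h2 (m - 2)
    linarith
  have hfib : ∀ b ∈ t, ((F.filter fun x => f x = b).card : ℝ) ≤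
      C1 * y * (R ^ 2 * U ^ (-(1 / 2) : ℝ)) := by
    intro b hb
    rw [ht, Fintype.mem_piFinset] at hb
    have hbs : ∀ l ∈ E, b l = 1 ∨ b l = -1 := by
      intro l hl
      have := hb l
      rw [if_pos hl, mem_insert, mem_singleton] at this
      exact this
    let σ : Fin 3 → ℤ := ![b j, b p, b q]
    have hσ : ∀ k, σ k = 1 ∨ σ k = -1 := by
      intro k
      fin_cases k
      · exact hbs j hjE
      · exact hbs p hpE
      · exact hbs q hqE
    let g : (Fin (m + 1) → ℤ) → ℕ × ℕ × ℕ := fun x => ((x j).natAbs, (x p).natAbs, (x q).natAbs)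
    have hn : ∀ x : Fin (m + 1) → ℤ, num (g x) 0 = (x j).natAbs ∧ num (g x) 1 = (x p).natAbs ∧
        num (g x) 2 = (x q).natAbs := by
      intro x
      simp [num, g]
    have hfb : ∀ x ∈ F.filter (fun x => f x = b), x ∈ F ∧ (∀ l ∈ E, (x l).sign = b l) ∧
        ∀ l, l ∉ E → x l = b l := by
      intro x hx
      obtain ⟨h1, h2⟩ := mem_filter.1 hx
      refine ⟨h1, fun l hl => ?_, fun l hl => ?_⟩
      · have := congrFun h2 l
        simp only [f] at this
        rwa [if_pos hl] at this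
      · have := congrFun h2 l
        simp only [f] at this
        rwa [if_neg hl] at this
    have hinj : Set.InjOn g ((F.filter fun x => f x = b : Finset _) : Set (Fin (m + 1) → ℤ)) := by
      intro x hx x' hx' hg
      obtain ⟨a1, a2, a3⟩ := hfb x (mem_coe.1 hx)
      obtain ⟨b1, b2, b3⟩ := hfb x' (mem_coe.1 hx')
      simp only [g, Prod.mk.injEq] at hg
      have key : ∀ l ∈ E, (x l).natAbs = (x' l).natAbs → x l = x' l := by
        intro l hl h
        rw [sign_mul_natAbs' (x l), sign_mul_natAbs' (x' l), a2 l hl, b2 l hl, h]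
      funext l
      by_cases hl : l ∈ E
      · rw [hE, mem_insert, mem_insert, mem_singleton] at hl
        rcases hl with h | h | h
        · rw [h]; exact key j hjE hg.1
        · rw [h]; exact key p hpE hg.2.1
        · rw [h]; exact key q hqE hg.2.2
      · rw [a3 l hl, b3 l hl]
    rw [← card_image_of_injOn hinj]
    have h1 := hdc σ hσ (-∑ l ∈ univ \ E, b l) X R U i hi1 hiK hX hR hU
      ((F.filter fun x => f x = b).image g) (fun s hs => by
        obtain ⟨x, hx, rfl⟩ := mem_image.1 hs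
        obtain ⟨a1, a2, a3⟩ := hfb x hx
        obtain ⟨h1, h2, h3⟩ := hF x a1
        obtain ⟨n0, n1, n2⟩ := hn x
        have hcov : ∀ k : Fin 3, ∃ l ∈ E, num (g x) k = (x l).natAbs := by
          intro k
          fin_cases k
          · exact ⟨j, hjE, n0⟩
          · exact ⟨p, hpE, n1⟩
          · exact ⟨q, hqE, n2⟩
        refine ⟨⟨fun k => ?_, fun k => ?_, fun k k' hkk => ?_, ?_⟩, fun k => ?_, ?_⟩
        · obtain ⟨l, hl, hk⟩ := hcov k
          rw [hk]
          have := h1.ne l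
          omega
        · obtain ⟨l, hl, hk⟩ := hcov k
          rw [hk]
          have := h1.le l
          rw [Int.abs_eq_natAbs] at this
          exact_mod_cast this
        · have hc : ∀ l l', l ≠ l' → Nat.Coprime (x l).natAbs (x l').natAbs := fun l l' hll =>
            Int.isCoprime_iff_gcd_eq_one.1 (h1.cop l l' hll)
          fin_cases k <;> fin_cases k'
          · exact absurd rfl hkk
          · change Nat.Coprime (num (g x) 0) (num (g x) 1)
            rw [n0, n1]; exact hc _ _ hp.symm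
          · change Nat.Coprime (num (g x) 0) (num (g x) 2)
            rw [n0, n2]; exact hc _ _ (Ne.symm hq.1)
          · change Nat.Coprime (num (g x) 1) (num (g x) 0)
            rw [n1, n0]; exact hc _ _ hp
          · exact absurd rfl hkk
          · change Nat.Coprime (num (g x) 1) (num (g x) 2)
            rw [n1, n2]; exact hc _ _ (Ne.symm hq.2)
          · change Nat.Coprime (num (g x) 2) (num (g x) 0)
            rw [n2, n0]; exact hc _ _ hq.1
          · change Nat.Coprime (num (g x) 2) (num (g x) 1)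
            rw [n2, n1]; exact hc _ _ hq.2
          · exact absurd rfl hkk
        · have e0 : σ 0 = b j := rfl
          have e1 : σ 1 = b p := rfl
          have e2 : σ 2 = b q := rfl
          rw [e0, e1, e2, n0, n1, n2, ← a2 j hjE, ← a2 p hpE, ← a2 q hqE,
            ← sign_mul_natAbs', ← sign_mul_natAbs', ← sign_mul_natAbs', ← hEsum x]
          have hs := h1.sum
          rw [← sum_sdiff (subset_univ E)] at hs
          have e3 : ∑ l ∈ univ \ E, b l = ∑ l ∈ univ \ E, x l :=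
            sum_congr rfl fun l hl => (a3 l (Finset.mem_sdiff.1 hl).2).symm
          rw [e3]
          linarith
        · obtain ⟨l, hl, hk⟩ := hcov k
          rw [hk]
          exact h2 l
        · rw [n0]
          exact h3)
    rw [← hy] at h1
    exact h1
  have h1 := fib_card F f t hft _ hfib
  have hB0 : 0 ≤ C1 * y * (R ^ 2 * U ^ (-(1 / 2) : ℝ)) := by
    have : 0 < U := by linarith
    positivity
  refine h1.trans ((mul_le_mul_of_nonneg_right htc hB0).trans ?_)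
  have hU0 : 0 < U := by linarith
  have e1 : 8 * (D * y * R) ^ (m - 2) * (C1 * y * (R ^ 2 * U ^ (-(1 / 2) : ℝ))) =
      8 * D ^ (m - 2) * C1 * (y ^ (m - 2) * y) * (R ^ (m - 2) * R ^ 2 * U ^ (-(1 / 2) : ℝ)) := by
    rw [mul_pow, mul_pow]
    ring
  have e2 : R ^ (m - 2) * R ^ 2 = R ^ m := by
    rw [← pow_add]
    congr 1
    omega
  rw [e1, e2, ← pow_succ]
  refine mul_le_mul_of_nonneg_right (mul_le_mul_of_nonneg_left ?_ (by positivity)) (by positivity)
  have e3 : (X : ℝ) ^ ε = y ^ m := by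
    rw [hy, ← Real.rpow_natCast, ← Real.rpow_mul (by positivity), hδ]
    congr 1
    field_simp
  rw [e3]
  exact pow_le_pow_right₀ hy1 (by omega)

/-- tuples with a large part of some exponent between `2` and `K` -/
theorem wide_diff {m : ℕ} (hm : 2 ≤ m) (K : ℕ) {ε : ℝ} (hε : 0 < ε) : ∃ C : ℝ, 0 < C ∧
    ∀ (X : ℕ) (R U : ℝ), 1 ≤ X → 0 ≤ R → 1 ≤ U → ∀ F : Finset (Fin (m + 1) → ℤ),
    (∀ x ∈ F, Ad X x ∧ (∀ l, (rad (x l).natAbs : ℝ) ≤ R) ∧ ∃ (j : Fin (m + 1)) (i : Fin (K + 1)),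
      1 ≤ (i : ℕ) ∧ (i : ℕ) < K ∧ U ≤ (rd K (x j).natAbs {i} : ℝ)) →
    (F.card : ℝ) ≤ C * (X : ℝ) ^ ε * (R ^ m * U ^ (-(1 / 2) : ℝ)) := by
  classical
  obtain ⟨C, hC, h⟩ := fib_diff hm K hε
  refine ⟨(m + 1) * ((K + 1) * C), by positivity, ?_⟩
  intro X R U hX hR hU F hF
  let F2 : Fin (m + 1) → Fin (K + 1) → Finset (Fin (m + 1) → ℤ) := fun j i =>
    F.filter fun x => 1 ≤ (i : ℕ) ∧ (i : ℕ) < K ∧ U ≤ (rd K (x j).natAbs {i} : ℝ)
  have hcov : F ⊆ univ.biUnion fun j => univ.biUnion fun i => F2 j i := by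
    intro x hx
    obtain ⟨-, -, j, i, hji⟩ := hF x hx
    simp only [mem_biUnion, mem_univ, true_and]
    exact ⟨j, i, mem_filter.2 ⟨hx, hji⟩⟩
  have h1 : F.card ≤ ∑ j, ∑ i, (F2 j i).card :=
    (card_le_card hcov).trans (card_biUnion_le.trans (sum_le_sum fun j _ => card_biUnion_le))
  have hU0 : 0 < U := by linarith
  have hb : ∀ j i, ((F2 j i).card : ℝ) ≤ C * (X : ℝ) ^ ε * (R ^ m * U ^ (-(1 / 2) : ℝ)) := by
    intro j i
    by_cases hi : 1 ≤ (i : ℕ) ∧ (i : ℕ) < K
    · refine h X R U j i hi.1 hi.2 hX hR hU _ fun x hx => ?_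
      obtain ⟨a1, a2⟩ := mem_filter.1 hx
      exact ⟨(hF x a1).1, (hF x a1).2.1, a2.2.2⟩
    · have : F2 j i = ∅ := by
        rw [Finset.eq_empty_iff_forall_notMem]
        intro x hx
        obtain ⟨a1, a2⟩ := mem_filter.1 hx
        exact hi ⟨a2.1, a2.2.1⟩
      rw [this, card_empty, Nat.cast_zero]
      positivity
  calc (F.card : ℝ) ≤ ∑ j, ∑ i, ((F2 j i).card : ℝ) := by exact_mod_cast h1
    _ ≤ ∑ _j : Fin (m + 1), ∑ _i : Fin (K + 1), C * (X : ℝ) ^ ε * (R ^ m * U ^ (-(1 / 2) : ℝ)) :=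
        sum_le_sum fun j _ => sum_le_sum fun i _ => hb j i
    _ = _ := by
        rw [sum_const, sum_const, card_univ, card_univ, Fintype.card_fin, Fintype.card_fin,
          nsmul_eq_mul, nsmul_eq_mul]
        push_cast
        ring

lemma class_card {M : ℕ} (hM : 0 < M) {R : ℝ} (S : Finset ℕ) (h1 : ∀ v ∈ S, (v : ℝ) ≤ R)
    (h2 : ∀ v ∈ S, ∀ v' ∈ S, (M : ℤ) ∣ (v : ℤ) - v') (hR : 0 ≤ R) : (S.card : ℝ) ≤ R / M + 1 := by
  have hMr : (0 : ℝ) < M := by exact_mod_cast hM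
  have h3 : S.card ≤ (range (⌊R / M⌋₊ + 1)).card := by
    refine card_le_card_of_injOn (fun v => v / M) (fun v hv => ?_) ?_
    · rw [mem_coe, mem_range, Nat.lt_succ_iff]
      refine Nat.le_floor ?_
      have := h1 v hv
      have h4 : ((v / M : ℕ) : ℝ) ≤ v / M := Nat.cast_div_le
      refine h4.trans ?_
      exact div_le_div_of_nonneg_right this hMr.le
    · intro v hv v' hv' h
      simp only at h
      have h5 := h2 v (mem_coe.1 hv) v' (mem_coe.1 hv')
      have h6 : v % M = v' % M := by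
        have : (v' : ℤ) ≡ v [ZMOD M] := Int.modEq_iff_dvd.2 h5
        have h7 : v' ≡ v [MOD M] := by exact_mod_cast this
        exact h7.symm
      rw [← Nat.div_add_mod v M, ← Nat.div_add_mod v' M, h, h6]
  rw [card_range] at h3
  have h4 : (S.card : ℝ) ≤ (⌊R / M⌋₊ : ℝ) + 1 := by exact_mod_cast h3
  have h5 := Nat.floor_le (show 0 ≤ R / M by positivity)
  linarith

/-- tuples whose powerful parts have small radical, with a large powerful part in the entry `j` -/
theorem fib_pow {m : ℕ} (hm : 1 ≤ m) {K : ℕ} (hK : 0 < K) {ε : ℝ} (hε : 0 < ε) : ∃ C : ℝ, 0 < C ∧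
    ∀ (X : ℕ) (R r0 Y : ℝ) (j : Fin (m + 1)), 1 ≤ X → 0 ≤ R → 0 ≤ r0 → 1 ≤ Y →
    ∀ F : Finset (Fin (m + 1) → ℤ), (∀ x ∈ F, Ad X x ∧ (∀ l, (rad (x l).natAbs : ℝ) ≤ R) ∧
      (∀ l, (rad (part K (x l).natAbs {0}ᶜ) : ℝ) ≤ r0) ∧ Y ≤ (part K (x j).natAbs {0}ᶜ : ℝ)) →
    (F.card : ℝ) ≤ C * (X : ℝ) ^ ε * (R ^ (m - 1) * r0 ^ 2 * (R / Y + 1)) := by
  classical
  have hB : Basics := basics
  have hmr : (1 : ℝ) ≤ m := by exact_mod_cast hm
  obtain ⟨δ, hδ⟩ : ∃ δ : ℝ, δ = ε / (m + 1) := ⟨_, rfl⟩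
  have hδ0 : 0 < δ := by rw [hδ]; positivity
  obtain ⟨D, hD, hS⟩ := card_Sg hδ0
  refine ⟨D ^ (m + 1), by positivity, ?_⟩
  intro X R r0 Y j hX hR hr0 hY F hF
  have hY0 : 0 < Y := by linarith
  obtain ⟨k, hk⟩ : ∃ k : Fin (m + 1), k ≠ j := by
    have : Nontrivial (Fin (m + 1)) := Fin.nontrivial_iff_two_le.2 (by omega)
    exact exists_ne j
  obtain ⟨E, hE⟩ : ∃ E : Finset (Fin (m + 1)), E = {j, k} := ⟨_, rfl⟩
  have hEc : E.card = 2 := by
    rw [hE]
    exact card_pair hk.symm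
  have hjE : j ∈ E := by rw [hE]; simp
  have hkE : k ∈ E := by rw [hE]; simp
  let pw : ℤ → ℤ := fun z => z.sign * (part K z.natAbs {0}ᶜ : ℤ)
  let sf : ℤ → ℕ := fun z => rd K z.natAbs {0}
  have hpw : ∀ z : ℤ, z ≠ 0 → z = pw z * (sf z : ℤ) := by
    intro z hz
    have h1 : 1 ≤ z.natAbs := Int.natAbs_pos.2 hz
    have h2 := hB.part_mul K z.natAbs {0} h1
    have h3 := hB.part_single K z.natAbs 0 (by rw [Fin.val_zero]; exact hK)
    rw [Fin.val_zero, zero_add, pow_one] at h3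
    rw [h3] at h2
    conv_lhs => rw [sign_mul_natAbs' z, ← h2]
    simp only [pw, sf]
    push_cast
    ring
  have hpa : ∀ z : ℤ, z ≠ 0 → (pw z).natAbs = part K z.natAbs {0}ᶜ := by
    intro z hz
    simp only [pw]
    rw [Int.natAbs_mul, Int.natAbs_natCast]
    rcases sign_or hz with h | h <;> rw [h] <;> simp
  let f : (Fin (m + 1) → ℤ) → (Fin (m + 1) → ℤ) := fun x l => if l ∈ E then pw (x l) else x l
  obtain ⟨t, ht⟩ : ∃ t : Finset (Fin (m + 1) → ℤ),
    t = Fintype.piFinset fun l => if l ∈ E then Sg X r0 else Sg X R := ⟨_, rfl⟩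
  have hft : ∀ x ∈ F, f x ∈ t := by
    intro x hx
    obtain ⟨h1, h2, h3, h4⟩ := hF x hx
    rw [ht, Fintype.mem_piFinset]
    intro l
    simp only [f]
    split_ifs
    · have h5 := hpa (x l) (h1.ne l)
      have h6 : 1 ≤ (x l).natAbs := Int.natAbs_pos.2 (h1.ne l)
      refine mem_Sg.2 ⟨⟨?_, ?_⟩, ?_⟩
      · intro h7
        rw [h7] at h5
        have := hB.part_pos K (x l).natAbs {0}ᶜ
        simp only [Int.natAbs_zero] at h5
        omega
      · rw [Int.abs_eq_natAbs, h5]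
        have h8 := Nat.le_of_dvd (by omega) (hB.part_dvd K (x l).natAbs {0}ᶜ h6)
        have h9 := h1.le l
        rw [Int.abs_eq_natAbs] at h9
        have h10 : (x l).natAbs ≤ X := by exact_mod_cast h9
        exact_mod_cast h8.trans h10
      · rw [h5]
        exact h3 l
    · exact mem_Sg.2 ⟨⟨h1.ne l, h1.le l⟩, h2 l⟩
  obtain ⟨y, hy⟩ : ∃ y : ℝ, y = (X : ℝ) ^ δ := ⟨_, rfl⟩
  have hXr : (1 : ℝ) ≤ X := by exact_mod_cast hX
  have hy1 : 1 ≤ y := by rw [hy]; exact Real.one_le_rpow hXr hδ0.le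
  have htc : (t.card : ℝ) ≤ (D * y * r0) ^ 2 * (D * y * R) ^ (m - 1) := by
    rw [ht, card_pi_ite, hEc]
    push_cast
    have h2 := hS X R hX hR
    have h2' := hS X r0 hX hr0
    rw [← hy] at h2 h2'
    have h4 := pow_le_pow_left₀ (Nat.cast_nonneg _) h2 (m - 1)
    have h5 := pow_le_pow_left₀ (Nat.cast_nonneg _) h2' 2
    exact mul_le_mul h5 h4 (by positivity) (by positivity)
  have hfib : ∀ b ∈ t, ((F.filter fun x => f x = b).card : ℝ) ≤ R / Y + 1 := by
    intro b _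
    rcases (F.filter fun x => f x = b).eq_empty_or_nonempty with h0 | ⟨x0, hx0⟩
    · rw [h0, card_empty, Nat.cast_zero]
      positivity
    have hfb : ∀ x ∈ F.filter (fun x => f x = b), x ∈ F ∧ (∀ l ∈ E, pw (x l) = b l) ∧
        ∀ l, l ∉ E → x l = b l := by
      intro x hx
      obtain ⟨h1, h2⟩ := mem_filter.1 hx
      refine ⟨h1, fun l hl => ?_, fun l hl => ?_⟩
      · have := congrFun h2 l
        simp only [f] at this
        rwa [if_pos hl] at this
      · have := congrFun h2 l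
        simp only [f] at this
        rwa [if_neg hl] at this
    have hbj : Y ≤ ((b j).natAbs : ℝ) := by
      obtain ⟨a1, a2, a3⟩ := hfb x0 hx0
      obtain ⟨h1, h2, h3, h4⟩ := hF x0 a1
      rw [← a2 j hjE, hpa _ (h1.ne j)]
      exact h4
    have hbj0 : 0 < (b j).natAbs := by
      have : (0 : ℝ) < ((b j).natAbs : ℝ) := lt_of_lt_of_le hY0 hbj
      exact_mod_cast this
    -- the value at the entry `k`
    have hdv : ∀ x ∈ F.filter (fun x => f x = b), x j = b j * (sf (x j) : ℤ) ∧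
        x k = b k * (sf (x k) : ℤ) := by
      intro x hx
      obtain ⟨a1, a2, a3⟩ := hfb x hx
      obtain ⟨h1, -⟩ := hF x a1
      refine ⟨?_, ?_⟩
      · have := hpw (x j) (h1.ne j)
        rwa [a2 j hjE] at this
      · have := hpw (x k) (h1.ne k)
        rwa [a2 k hkE] at this
    have hsum : ∀ x ∈ F.filter (fun x => f x = b), x j + x k = -∑ l ∈ univ \ E, b l := by
      intro x hx
      obtain ⟨a1, a2, a3⟩ := hfb x hx
      obtain ⟨h1, -⟩ := hF x a1
      have hs := h1.sum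
      rw [← sum_sdiff (subset_univ E)] at hs
      have e3 : ∑ l ∈ univ \ E, b l = ∑ l ∈ univ \ E, x l :=
        sum_congr rfl fun l hl => (a3 l (Finset.mem_sdiff.1 hl).2).symm
      have e4 : ∑ l ∈ E, x l = x j + x k := by rw [hE, sum_pair hk.symm]
      rw [e3]
      linarith
    have hinj : Set.InjOn (fun x : Fin (m + 1) → ℤ => sf (x k))
        ((F.filter fun x => f x = b : Finset _) : Set (Fin (m + 1) → ℤ)) := by
      intro x hx x' hx' hg
      simp only at hg
      have hx1 := mem_coe.1 hx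
      have hx1' := mem_coe.1 hx'
      obtain ⟨a1, a2, a3⟩ := hfb x hx1
      obtain ⟨b1, b2, b3⟩ := hfb x' hx1'
      have e1 : x k = x' k := by rw [(hdv x hx1).2, (hdv x' hx1').2, hg]
      have e2 : x j = x' j := by
        have h3 := hsum x hx1
        have h4 := hsum x' hx1'
        rw [← h4, e1] at h3
        linarith
      funext l
      by_cases hl : l ∈ E
      · rw [hE, mem_insert, mem_singleton] at hl
        rcases hl with h | h
        · rw [h]; exact e2
        · rw [h]; exact e1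
      · rw [a3 l hl, b3 l hl]
    rw [← card_image_of_injOn hinj]
    have h5 := class_card hbj0 (R := R)
      ((F.filter fun x => f x = b).image fun x : Fin (m + 1) → ℤ => sf (x k))
      (fun v hv => by
        obtain ⟨x, hx, rfl⟩ := mem_image.1 hv
        obtain ⟨a1, a2, a3⟩ := hfb x hx
        obtain ⟨h1, h2, h3, h4⟩ := hF x a1
        refine le_trans ?_ (h2 k)
        have h6 := hB.rd_mul K (x k).natAbs {0}
        have h7 := hB.rd_pos K (x k).natAbs {0}ᶜ
        have h8 : rd K (x k).natAbs {0} ≤ rad (x k).natAbs := by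
          rw [← h6]
          exact Nat.le_mul_of_pos_right _ h7
        exact_mod_cast h8)
      (fun v hv v' hv' => by
        obtain ⟨x, hx, rfl⟩ := mem_image.1 hv
        obtain ⟨x', hx', rfl⟩ := mem_image.1 hv'
        obtain ⟨a1, a2, a3⟩ := hfb x hx
        obtain ⟨h1, -⟩ := hF x a1
        have hd1 := hdv x hx
        have hd2 := hdv x' hx'
        have hs1 := hsum x hx
        have hs2 := hsum x' hx'
        have hcop : IsCoprime (b j) (b k) := by
          have h6 := h1.cop j k hk.symm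
          rw [hd1.1, hd1.2] at h6
          exact (h6.of_mul_left_left).of_mul_right_left
        have hdd : b j ∣ b k * ((sf (x k) : ℤ) - sf (x' k)) := by
          refine ⟨(sf (x' j) : ℤ) - sf (x j), ?_⟩
          have e1 : x k - x' k = x' j - x j := by linarith
          rw [hd1.1, hd1.2, hd2.1, hd2.2] at e1
          linear_combination e1
        have h7 := hcop.dvd_of_dvd_mul_left hdd
        rw [Int.natCast_natAbs]
        exact (abs_dvd _ _).2 h7)
      hR
    refine h5.trans ?_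
    have : R / ((b j).natAbs : ℝ) ≤ R / Y := div_le_div_of_nonneg_left hR hY0 hbj
    linarith
  have h1 := fib_card F f t hft _ hfib
  have hB0 : 0 ≤ R / Y + 1 := by positivity
  refine h1.trans ((mul_le_mul_of_nonneg_right htc hB0).trans (le_of_eq ?_))
  have e3 : (X : ℝ) ^ ε = y ^ (m + 1) := by
    rw [hy, ← Real.rpow_natCast, ← Real.rpow_mul (by positivity), hδ]
    congr 1
    push_cast
    field_simp
  rw [e3]
  obtain ⟨k', rfl⟩ : ∃ k', m = k' + 1 := ⟨m - 1, by omega⟩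
  rw [Nat.add_sub_cancel]
  ring

/-- tuples whose powerful parts have small radical, with a large powerful part -/
theorem wide_pow {m : ℕ} (hm : 1 ≤ m) {K : ℕ} (hK : 0 < K) {ε : ℝ} (hε : 0 < ε) : ∃ C : ℝ, 0 < C ∧
    ∀ (X : ℕ) (R r0 Y : ℝ), 1 ≤ X → 0 ≤ R → 0 ≤ r0 → 1 ≤ Y →
    ∀ F : Finset (Fin (m + 1) → ℤ), (∀ x ∈ F, Ad X x ∧ (∀ l, (rad (x l).natAbs : ℝ) ≤ R) ∧
      (∀ l, (rad (part K (x l).natAbs {0}ᶜ) : ℝ) ≤ r0) ∧
      ∃ j, Y ≤ (part K (x j).natAbs {0}ᶜ : ℝ)) →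
    (F.card : ℝ) ≤ C * (X : ℝ) ^ ε * (R ^ (m - 1) * r0 ^ 2 * (R / Y + 1)) := by
  classical
  obtain ⟨C, hC, h⟩ := fib_pow hm hK hε
  refine ⟨(m + 1) * C, by positivity, ?_⟩
  intro X R r0 Y hX hR hr0 hY F hF
  let F2 : Fin (m + 1) → Finset (Fin (m + 1) → ℤ) := fun j =>
    F.filter fun x => Y ≤ (part K (x j).natAbs {0}ᶜ : ℝ)
  have hcov : F ⊆ univ.biUnion fun j => F2 j := by
    intro x hx
    obtain ⟨-, -, -, j, hj⟩ := hF x hx
    simp only [mem_biUnion, mem_univ, true_and]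
    exact ⟨j, mem_filter.2 ⟨hx, hj⟩⟩
  have h1 : F.card ≤ ∑ j, (F2 j).card := (card_le_card hcov).trans card_biUnion_le
  have hb : ∀ j, ((F2 j).card : ℝ) ≤ C * (X : ℝ) ^ ε * (R ^ (m - 1) * r0 ^ 2 * (R / Y + 1)) := by
    intro j
    refine h X R r0 Y j hX hR hr0 hY _ fun x hx => ?_
    obtain ⟨a1, a2⟩ := mem_filter.1 hx
    exact ⟨(hF x a1).1, (hF x a1).2.1, (hF x a1).2.2.1, a2⟩
  calc (F.card : ℝ) ≤ ∑ j, ((F2 j).card : ℝ) := by exact_mod_cast h1
    _ ≤ ∑ _j : Fin (m + 1), C * (X : ℝ) ^ ε * (R ^ (m - 1) * r0 ^ 2 * (R / Y + 1)) :=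
        sum_le_sum fun j _ => hb j
    _ = _ := by
        rw [sum_const, card_univ, Fintype.card_fin, nsmul_eq_mul]
        push_cast
        ring

end Pool.Agent.V7H9.SN
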